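import Pool.Agent.MP_855f4c_ag.VC.Vb
import Pool.Agent.MP_855f4c_ag.EC.All

set_option linter.all false

section

/-! h67a, section RG, row CYC: at an end `Eˣ / l` has dimension at most one. -/

set_option autoImplicit false

namespace Pool.Agent.MP_855f4c_ag.AV.RG

namespace End

open Polynomial IsLocalRing E3

/-- Newton equations in one variable are solvable. -/
def N1 {W : Type} [CommRing W] (I : Ideal W) : Prop :=
  ∀ Θ : W[X], (∀ m, Θ.coeff m ∈ I) → ∃ μ, μ + Θ.eval μ = 0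

section
variable {W : Type} [CommRing W] {I : Ideal W}

lemma N1.jac (h : N1 I) : I.radical ≤ Ideal.jacobson ⊥ := by
  refine (Ideal.isRadical_jacobson ⊥).radical_le_iff.2 fun b hb => ?_
  refine Ideal.mem_jacobson_bot.2 fun y => ?_
  obtain ⟨μ, hμ⟩ := h (C (b * y) * (X + 1)) fun m => by
    rw [coeff_C_mul]
    exact I.mul_mem_right _ (I.mul_mem_right _ hb)
  simp only [eval_mul, eval_C, eval_add, eval_X, eval_one] at hμ
  exact IsUnit.of_mul_eq_one (μ + 1) (by linear_combination hμ)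

lemma N1.unit (h : N1 I) {e b : W} (he : IsUnit e) (hb : b ∈ I.radical) : IsUnit (e + b) := by
  obtain ⟨η, hη⟩ := he.exists_right_inv
  have := he.mul (Ideal.mem_jacobson_bot.1 (h.jac hb) η)
  rwa [show e * (b * η + 1) = e + b by linear_combination b * hη] at this

lemma N1.hensel (h : N1 I) (f : W[X]) (a : W) (h0 : f.eval a ∈ I.radical)
    (h1 : IsUnit (f.derivative.eval a)) : ∃ w, f.eval w = 0 ∧ w - a ∈ I.radical := by
  have ev : ∀ (p : W[X]) (x : W), aeval (Ideal.Quotient.mk I x) p = Ideal.Quotient.mk I (p.eval x) :=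
    fun p x => aeval_algebraMap_apply_eq_algebraMap_eval (A := W ⧸ I) x p
  have nil : ∀ x : W, IsNilpotent (Ideal.Quotient.mk I x) ↔ x ∈ I.radical := fun x =>
    exists_congr fun n => by rw [← map_pow, Ideal.Quotient.eq_zero_iff_mem]
  obtain ⟨r, ⟨hr, hr'⟩, -⟩ := existsUnique_nilpotent_sub_and_aeval_eq_zero (P := f)
    (x := Ideal.Quotient.mk I a) (by rw [ev, nil]; exact h0) (by rw [ev]; exact h1.map _)
  obtain ⟨c, rfl⟩ := Ideal.Quotient.mk_surjective r
  rw [← map_sub, nil] at hr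
  rw [ev, Ideal.Quotient.eq_zero_iff_mem] at hr'
  have hc : c - a ∈ I.radical := by simpa using neg_mem hr
  have h2 : IsUnit (f.derivative.eval c) := by
    simpa using h.unit h1 (Ideal.mem_of_dvd _ (sub_dvd_eval_sub c a f.derivative) hc)
  obtain ⟨η, hη⟩ := h2.exists_right_inv
  obtain ⟨k, hk⟩ := binomExpansion (f.map C) (C c) (C (f.eval c) * (X - C η))
  obtain ⟨μ, hμ⟩ := h (C (f.eval c) * (C η * k * (X - C η) ^ 2)) fun m => by
    rw [coeff_C_mul]
    exact I.mul_mem_right _ hr'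
  have e : ∀ (p : W[X]) (q : W[X]), ((p.map C).eval q).eval μ = p.eval (q.eval μ) := fun p q => by
    rw [eval_map, ← comp, eval_comp]
  have h3 := congrArg (eval μ) hk
  rw [derivative_map] at h3
  simp only [eval_add, eval_mul, e, eval_C, eval_sub, eval_X, eval_pow] at h3 hμ
  refine ⟨c + f.eval c * (μ - η), ?_, ?_⟩
  · rw [h3]
    linear_combination f.eval c * f.derivative.eval c * hμ -
      (f.eval c + f.eval c ^ 2 * k.eval μ * (μ - η) ^ 2) * hη
  · rw [add_sub_right_comm]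
    exact add_mem hc (Ideal.mul_mem_right _ _ (Ideal.le_radical hr'))

variable (O : Type) [CommRing O] [Algebra O W] (I)

/-- Elements of `W` that come from `O` modulo the radical of `I`. -/
def Ar : Subalgebra O W where
  carrier := {w | ∃ o : O, w - algebraMap O W o ∈ I.radical}
  mul_mem' := by
    rintro a b ⟨o, h⟩ ⟨o', h'⟩
    refine ⟨o * o', ?_⟩
    rw [show a * b - algebraMap O W (o * o') = (a - algebraMap O W o) * b +
      algebraMap O W o * (b - algebraMap O W o') by rw [map_mul]; ring]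
    exact add_mem (Ideal.mul_mem_right _ _ h) (Ideal.mul_mem_left _ _ h')
  add_mem' := by
    rintro a b ⟨o, h⟩ ⟨o', h'⟩
    exact ⟨o + o', by rw [map_add, add_sub_add_comm]; exact add_mem h h'⟩
  algebraMap_mem' o := ⟨o, by simp⟩

variable {O I}

lemma N1.unitA (h : N1 I) {a : Ar I O} {o : O} (ho : IsUnit o)
    (ha : a.1 - algebraMap O W o ∈ I.radical) : IsUnit a := by
  obtain ⟨o', ho'⟩ := ho.exists_right_inv
  have h1 : IsUnit a.1 := by simpa using h.unit (ho.map (algebraMap O W)) ha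
  obtain ⟨b, hb⟩ := h1.exists_right_inv
  have h2 : algebraMap O W o * algebraMap O W o' = 1 := by rw [← map_mul, ho', map_one]
  refine IsUnit.of_mul_eq_one ⟨b, o', ?_⟩ (Subtype.ext hb)
  rw [show b - algebraMap O W o' = (a.1 - algebraMap O W o) * -(b * algebraMap O W o') by
    linear_combination (algebraMap O W o') * hb - b * h2]
  exact Ideal.mul_mem_right _ _ ha

lemma N1.loc (h : N1 I) [IsLocalRing O] [Nontrivial W] {o : O}
    (h1 : IsUnit (algebraMap O (Ar I O) o)) : IsUnit o := by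
  obtain ⟨⟨b, o', hb⟩, e⟩ := h1.exists_right_inv
  have e' : algebraMap O W o * b = 1 := congrArg Subtype.val e
  refine (isUnit_or_isUnit_one_sub_self (o * o')).elim isUnit_of_mul_isUnit_left fun h2 => ?_
  have := h.unit (h2.map (algebraMap O W)).neg (Ideal.mul_mem_left _ (algebraMap O W o) hb)
  rw [mul_sub, e'] at this
  simp at this

lemma N1.shl (h : N1 I) [SHL O] [Nontrivial W] : SHL (Ar I O) := by
  have : IsLocalRing (Ar I O) := .of_isUnit_or_isUnit_one_sub_self fun a => by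
    obtain ⟨o, ho⟩ := a.2
    refine (isUnit_or_isUnit_one_sub_self o).imp (fun h1 => h.unitA h1 ho) fun h1 => h.unitA h1 ?_
    simpa using neg_mem ho
  let K := AlgebraicClosure (ResidueField (Ar I O))
  have hK : ∀ a : Ar I O, algebraMap _ K a = 0 ↔ ¬ IsUnit a := fun a => by
    rw [IsScalarTower.algebraMap_apply _ (ResidueField (Ar I O)) K, map_eq_zero,
      ResidueField.algebraMap_eq, residue_eq_zero_iff, mem_maximalIdeal, mem_nonunits_iff]
  have : IsLocalHom (algebraMap (Ar I O) K) :=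
    ⟨fun a ha => not_not.1 fun hn => ha.ne_zero ((hK a).2 hn)⟩
  let J : Ideal (Ar I O) := I.radical.comap (Ar I O).val.toRingHom
  have hJ : ∀ a ∈ J, algebraMap _ K a = 0 := fun a ha => (hK a).2 fun hu => by
    have := h.unit (hu.map (Ar I O).val).neg ha
    simp at this
  have hs : Function.Surjective (algebraMap O (Ar I O ⧸ J)) := fun y => by
    obtain ⟨a, rfl⟩ := Ideal.Quotient.mk_surjective y
    obtain ⟨o, ho⟩ := a.2
    exact ⟨o, (Ideal.Quotient.eq.2 (show a - algebraMap O _ o ∈ J from ho)).symm⟩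
  have hO : RingHom.ker (algebraMap O K) = maximalIdeal O := by
    ext o
    rw [RingHom.mem_ker, IsScalarTower.algebraMap_apply O (Ar I O) K, hK, mem_maximalIdeal,
      mem_nonunits_iff, not_iff_not]
    exact ⟨h.loc, fun h1 => h1.map _⟩
  refine SHL.of_root K fun P x hx => ?_
  obtain ⟨q, hq, -, hq'⟩ := lifts_and_natDegree_eq_and_monic
    (map_surjective _ hs (P.f.map (Ideal.Quotient.mk J))) (P.monic_f.map _)
  have e : q.map (algebraMap O K) = P.f.map (algebraMap _ K) := by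
    have := congrArg (Polynomial.map (Ideal.Quotient.lift J _ hJ)) hq
    rw [map_map, map_map] at this
    exact this
  obtain ⟨o, ho, hox⟩ := SHL.root hO q hq' x (by rw [aeval_def, ← eval_map, e, eval_map]; exact hx.1) (by
    rw [aeval_def, ← eval_map, ← derivative_map, e, derivative_map, eval_map]
    exact hx.isUnit_derivative_f.ne_zero)
  have hx' : algebraMap (Ar I O) K (algebraMap O _ o) = x := hox
  have un : ∀ (p : (Ar I O)[X]) (a : Ar I O), algebraMap _ K a = x → IsUnit (aeval x p) →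
      IsUnit (p.eval a) := fun p a ha hp => by
    rw [← ha, aeval_algebraMap_apply_eq_algebraMap_eval] at hp
    exact isUnit_of_map_unit _ _ hp
  have ev : ∀ (p : (Ar I O)[X]) (a : Ar I O), (p.map (Ar I O).val.toRingHom).eval a.1 = (p.eval a).1 :=
    fun p a => by rw [eval_map]; exact eval₂_at_apply (Ar I O).val.toRingHom a
  obtain ⟨w, hw, hw'⟩ := h.hensel (P.f.map (Ar I O).val.toRingHom) (algebraMap O (Ar I O) o).1 (by
    rw [ev]
    change _ ∈ J
    rw [← Ideal.Quotient.eq_zero_iff_mem, ← eval₂_at_apply, ← eval_map, ← hq, eval_map]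
    exact (eval₂_at_apply (algebraMap O (Ar I O ⧸ J)) o).trans (by rw [ho, map_zero])) (by
    rw [derivative_map, ev]
    exact (un _ _ hx' hx.isUnit_derivative_f).map (Ar I O).val)
  have h2 : algebraMap (Ar I O) K ⟨w, o, hw'⟩ = x := by
    rw [← hx', ← sub_eq_zero, ← map_sub]
    exact hJ _ hw'
  exact ⟨⟨w, o, hw'⟩, ⟨Subtype.ext ((ev _ ⟨w, o, hw'⟩).symm.trans hw), un _ _ h2 hx.2⟩, h2⟩

end

/-- Units of a strictly henselian ring are `n`-th powers. -/
lemma shl_pow {D : Type} [CommRing D] [SHL D] {n : ℕ} (hn : IsUnit (n : D)) {z : D}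
    (hz : IsUnit z) : ∃ w : D, w ^ n = z := by
  have hn0 : n ≠ 0 := by rintro rfl; simp at hn
  have hn1 : (n : ResidueField D) ≠ 0 := by simpa using (hn.map (residue D)).ne_zero
  have := SHL.isSepClosed (A := D)
  have : NeZero (n : ResidueField D) := ⟨hn1⟩
  obtain ⟨x, hx⟩ := IsSepClosed.exists_pow_nat_eq (residue D z) n
  have hx0 : x ≠ 0 := by
    rintro rfl
    rw [zero_pow hn0] at hx
    exact (hz.map (residue D)).ne_zero hx.symm
  obtain ⟨w, hw, -⟩ := SHL.root (K := ResidueField D) ker_residue (X ^ n - C z)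
    (monic_X_pow_sub_C z hn0) x (by simp [hx]) (by simp [derivative_X_pow, hn1, hx0])
  exact ⟨w, by simpa [sub_eq_zero] using hw⟩

lemma grp {G : Type} [CommGroup G] (H : Subgroup G) (u : G)
    (sat : ∀ (x : G) (n : ℕ), n ≠ 0 → x ^ n ∈ H → x ∈ H)
    (alg : ∀ x : G, ∃ n r : ℤ, n ≠ 0 ∧ x ^ n * u ^ r ∈ H) (a b : G) :
    ∃ i j : ℤ, IsCoprime i j ∧ a ^ i * b ^ j ∈ H := by
  obtain ⟨n, r, hn, ha⟩ := alg a
  obtain ⟨m, s, hm, hb⟩ := alg b
  by_cases hs : s = 0
  · refine ⟨0, 1, isCoprime_one_right, ?_⟩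
    rw [hs, zpow_zero, mul_one] at hb
    simpa using sat b m.natAbs (by simpa using hm) (by
      rcases Int.natAbs_eq m with e | e
      · rwa [e, zpow_natCast] at hb
      · rwa [e, zpow_neg, zpow_natCast, inv_mem_iff] at hb)
  have h0 : 0 < Int.gcd (n * s) (-(m * r)) := Int.gcd_pos_of_ne_zero_left _ (mul_ne_zero hn hs)
  obtain ⟨g, i, j, hg, hij, hi, hj⟩ := Int.exists_gcd_one' h0
  refine ⟨i, j, Int.isCoprime_iff_gcd_eq_one.2 hij, sat _ g hg.ne' ?_⟩
  have := mul_mem (zpow_mem ha s) (zpow_mem hb (-r))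
  rwa [show (a ^ n * u ^ r) ^ s * (b ^ m * u ^ s) ^ (-r) = (a ^ i * b ^ j) ^ g by
    rw [← zpow_natCast, mul_zpow (a ^ i), ← zpow_mul, ← zpow_mul, ← hi, ← hj, mul_zpow, mul_zpow,
      ← zpow_mul, ← zpow_mul, ← zpow_mul, ← zpow_mul, mul_mul_mul_comm, ← zpow_add, mul_neg,
      mul_neg, mul_comm s r, add_neg_cancel, zpow_zero, mul_one]] at this

section
variable {D E : Type} [CommRing D] [IsLocalRing D] [Field E] [Algebra D E]

/-- The `u`, `1/u` lemma. -/
lemma uinv (hic : ∀ x : E, IsIntegral D x → ∃ d, algebraMap D E d = x) (y : E) (f : D[X])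
    (hf : ∃ i, IsUnit (f.coeff i)) (hy : aeval y f = 0) :
    (∃ d, algebraMap D E d = y) ∨ ∃ d, algebraMap D E d = y⁻¹ := by
  induction hn : f.natDegree using Nat.strong_induction_on generalizing f with
  | _ n ih =>
  obtain ⟨i, hi⟩ := hf
  obtain ⟨b, hb⟩ := hic _ (isIntegral_leadingCoeff_smul f y hy)
  rw [Algebra.smul_def] at hb
  by_cases h1 : IsUnit f.leadingCoeff
  · obtain ⟨c, hc⟩ := h1.exists_right_inv
    have := congrArg (algebraMap D E) hc
    rw [map_mul, map_one] at this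
    exact .inl ⟨c * b, by rw [map_mul, hb]; linear_combination y * this⟩
  by_cases h2 : IsUnit b
  · obtain ⟨c, hc⟩ := h2.exists_right_inv
    have := congrArg (algebraMap D E) hc
    rw [map_mul, map_one, hb] at this
    exact .inr ⟨c * f.leadingCoeff, eq_inv_of_mul_eq_one_left (by
      rw [map_mul]; linear_combination this)⟩
  have hin : i ≠ f.natDegree := by rintro rfl; exact h1 hi
  have hlt : i < n := hn ▸ lt_of_le_of_ne (le_natDegree_of_ne_zero hi.ne_zero) hin
  obtain ⟨m, rfl⟩ : ∃ m, n = m + 1 := ⟨n - 1, by omega⟩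
  refine ih _ ?_ (f.eraseLead + monomial m b) ⟨i, ?_⟩ ?_ rfl
  · refine Nat.lt_succ_of_le ((natDegree_add_le _ _).trans (max_le ?_ (natDegree_monomial_le _)))
    simpa [hn] using eraseLead_natDegree_le f
  · rw [coeff_add, eraseLead_coeff_of_ne i hin, coeff_monomial]
    split_ifs
    · refine (isUnit_or_isUnit_of_isUnit_add (a := f.coeff i + b) (b := -b) (by simpa)).elim id ?_
      exact fun h3 => absurd (by simpa using h3) h2
    · simpa
  · rw [← eraseLead_add_monomial_natDegree_leadingCoeff f, hn] at hy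
    simp only [map_add, aeval_monomial] at hy ⊢
    rw [hb, ← hy]
    ring

variable {V : Type} [CommRing V] [IsDomain V] [ValuationRing V] [Algebra V D] {u : D}

lemma mono (hu : ¬ IsUnit u) (hm : ∀ c : V, ¬ IsUnit c → ∀ n, u ^ n ∣ algebraMap V D c) (b : V[X]) :
    ∃ (c : V) (r : ℕ) (ε : D), IsUnit ε ∧ aeval u b = algebraMap V D c * u ^ r * ε := by
  have un : ∀ ε d : D, IsUnit ε → IsUnit (ε + u * d) := fun ε d hε =>
    (isUnit_or_isUnit_of_isUnit_add (a := ε + u * d) (b := -(u * d)) (by simpa)).elim id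
      fun h => absurd (isUnit_of_mul_isUnit_left (by simpa using h)) hu
  induction hn : b.natDegree using Nat.strong_induction_on generalizing b with
  | _ n ih =>
  by_cases h0 : n = 0
  · exact ⟨b.coeff 0, 0, 1, isUnit_one, by rw [eq_C_of_natDegree_eq_zero (hn.trans h0)]; simp⟩
  obtain ⟨c, r, ε, hε, e⟩ := ih _ (by rw [natDegree_divX_eq_natDegree_tsub_one]; omega) b.divX rfl
  have e1 : aeval u b = algebraMap V D c * u ^ r * ε * u + algebraMap V D (b.coeff 0) := by
    rw [← e]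
    conv_lhs => rw [← divX_mul_X_add b]
    simp
  by_cases h1 : b.coeff 0 ∣ c
  · obtain ⟨t, rfl⟩ := h1
    exact ⟨b.coeff 0, 0, _, un 1 (algebraMap V D t * u ^ r * ε) isUnit_one, by
      rw [e1, map_mul]; ring⟩
  obtain ⟨t, ht⟩ := (ValuationRing.dvd_total c (b.coeff 0)).resolve_right h1
  obtain ⟨d, hd⟩ := hm t (fun h => h1 (ht ▸ (h.mul_right_dvd.2 dvd_rfl))) (r + 2)
  exact ⟨c, r + 1, _, un ε d hε, by rw [e1, ht, map_mul, hd]; ring⟩

lemma tot (hu : ¬ IsUnit u) (hm : ∀ c : V, ¬ IsUnit c → ∀ n, u ^ n ∣ algebraMap V D c)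
    (b b' : V[X]) : aeval u b ∣ aeval u b' ∨ aeval u b' ∣ aeval u b := by
  obtain ⟨c, r, ε, hε, e⟩ := mono hu hm b
  obtain ⟨c', r', ε', hε', e'⟩ := mono hu hm b'
  rw [e, e', hε.mul_right_dvd, hε'.dvd_mul_right, hε'.mul_right_dvd, hε.dvd_mul_right]
  have k : ∀ (c c' : V) (r r' : ℕ), c ∣ c' → (¬ c' ∣ c ∨ r ≤ r') →
      algebraMap V D c * u ^ r ∣ algebraMap V D c' * u ^ r' := by
    rintro c _ r r' ⟨t, rfl⟩ h
    rw [map_mul, mul_assoc]
    refine mul_dvd_mul_left _ (h.elim (fun h => ?_) fun h => (pow_dvd_pow u h).mul_left _)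
    exact (hm t (fun h' => h (h'.mul_right_dvd.2 dvd_rfl)) r).mul_right _
  by_cases h : c ∣ c' <;> by_cases h' : c' ∣ c
  · exact (le_total r r').imp (fun x => k _ _ _ _ h (.inr x)) fun x => k _ _ _ _ h' (.inr x)
  · exact .inl (k _ _ _ _ h (.inl h'))
  · exact .inr (k _ _ _ _ h' (.inl h))
  · exact ((ValuationRing.dvd_total c c').elim h h').elim

end

section
variable {V D E : Type} [CommRing V] [IsDomain V] [ValuationRing V] [CommRing D] [Field E]
  [Algebra V D] [Algebra D E] (inj : Function.Injective (algebraMap D E)) {u : D} (hu : ¬ IsUnit u)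
  (hm : ∀ c : V, ¬ IsUnit c → ∀ n, u ^ n ∣ algebraMap V D c)
  (alg : ∀ x : E, ∃ F : D[X], F ≠ 0 ∧ aeval x F = 0 ∧ ∀ i, ∃ b : V[X], F.coeff i = aeval u b)
include inj hu hm alg

lemma val [IsLocalRing D] (hic : ∀ x : E, IsIntegral D x → ∃ d, algebraMap D E d = x) (x : E) :
    x ∈ (algebraMap D E).range ∨ x⁻¹ ∈ (algebraMap D E).range := by
  have := inj.isDomain
  obtain ⟨F, h0, hx, hF⟩ := alg x
  obtain ⟨i, hi, h⟩ : ∃ i ∈ F.support, ∀ j ∈ F.support, F.coeff i ∣ F.coeff j := by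
    refine Finset.Nonempty.cons_induction
      (motive := fun s _ => ∃ i ∈ s, ∀ j ∈ s, F.coeff i ∣ F.coeff j)
      (fun i => ⟨i, by simp⟩) (fun i s _ _ ⟨k, hk, h⟩ => ?_) (nonempty_support_iff.2 h0)
    obtain ⟨b, hb⟩ := hF i
    obtain ⟨b', hb'⟩ := hF k
    rcases tot hu hm b b' with t | t <;> rw [← hb, ← hb'] at t
    · exact ⟨i, by simp, by simpa using fun j hj => t.trans (h j hj)⟩
    · exact ⟨k, by simp [hk], by simpa using ⟨t, h⟩⟩
  obtain ⟨G, hG⟩ := (C_dvd_iff_dvd_coeff (F.coeff i) F).2 fun j => by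
    by_cases hj : j ∈ F.support
    · exact h j hj
    · rw [notMem_support_iff.1 hj]
      exact dvd_zero _
  have h1 := mem_support_iff.1 hi
  have h2 := congrArg (coeff · i) hG
  simp only [coeff_C_mul] at h2
  rw [hG, map_mul, aeval_C, mul_eq_zero] at hx
  exact uinv hic x G ⟨i, by rw [← mul_left_cancel₀ h1 ((mul_one _).trans h2)]; exact isUnit_one⟩
    (hx.resolve_left ((map_ne_zero_iff _ inj).2 h1))

lemma two [IsLocalRing D] (hu0 : algebraMap D E u ≠ 0) {Γ : Type} [LinearOrderedCommGroupWithZero Γ]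
    (v : Valuation E Γ) (hv : ∀ d, v (algebraMap D E d) ≤ 1) (x : E) (hx0 : x ≠ 0) :
    ∃ n r : ℤ, n ≠ 0 ∧ ∃ c c' : V, algebraMap D E (algebraMap V D c) ≠ 0 ∧
      v (x ^ n * algebraMap D E u ^ r * algebraMap D E (algebraMap V D c)) =
        v (algebraMap D E (algebraMap V D c')) := by
  classical
  have nz : ∀ {d : D}, d ≠ 0 → algebraMap D E d ≠ 0 := fun h => (map_ne_zero_iff _ inj).2 h
  have vu : ∀ ε : D, IsUnit ε → v (algebraMap D E ε) = 1 := fun ε hε => by
    obtain ⟨η, hη⟩ := hε.exists_right_inv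
    refine le_antisymm (hv ε) ?_
    calc 1 = v (algebraMap D E ε) * v (algebraMap D E η) := by
          rw [← map_mul, ← map_mul, hη, map_one, map_one]
      _ ≤ _ := mul_le_of_le_one_right' (hv η)
  obtain ⟨F, h0, hx, hF⟩ := alg x
  obtain ⟨i, hi, h⟩ := F.support.exists_max_image
    (fun i => v (algebraMap D E (F.coeff i) * x ^ i)) (nonempty_support_iff.2 h0)
  obtain ⟨j, hj, h'⟩ : ∃ j ∈ F.support \ {i}, v (algebraMap D E (F.coeff i) * x ^ i) ≤
      v (algebraMap D E (F.coeff j) * x ^ j) := by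
    by_contra! hc
    have := v.map_sum_eq_of_lt hi hc
    rw [aeval_def, eval₂_eq_sum, Polynomial.sum] at hx
    rw [hx, map_zero, eq_comm, map_eq_zero] at this
    exact mul_ne_zero (nz (mem_support_iff.1 hi)) (pow_ne_zero _ hx0) this
  rw [Finset.mem_sdiff, Finset.notMem_singleton] at hj
  have e := le_antisymm h' (h j hj.1)
  obtain ⟨b, hb⟩ := hF i
  obtain ⟨b', hb'⟩ := hF j
  obtain ⟨c, r, ε, hε, e1⟩ := mono hu hm b
  obtain ⟨c', r', ε', hε', e2⟩ := mono hu hm b'
  have h1 := nz (mem_support_iff.1 hi)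
  rw [hb, e1] at h1
  rw [hb, hb', e1, e2] at e
  refine ⟨(i : ℤ) - j, (r : ℤ) - r', by omega, c, c', fun h0 => h1 (by simp [h0]), ?_⟩
  have x0 : v x ≠ 0 := by simpa
  have u0 : v (algebraMap D E u) ≠ 0 := by simpa
  simp only [map_mul, map_pow, vu _ hε, vu _ hε', mul_one] at e
  simp only [map_mul, map_zpow₀, zpow_sub₀ x0, zpow_sub₀ u0, zpow_natCast]
  field_simp
  simpa only [mul_comm, mul_left_comm, mul_assoc] using e

theorem abs [SHL D] (hV : Aic V) (hic : ∀ x : E, IsIntegral D x → ∃ d, algebraMap D E d = x)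
    (hu0 : algebraMap D E u ≠ 0) {l : ℕ} (hl : IsUnit (l : V)) (a b : Eˣ) :
    ∃ i j : ℤ, IsCoprime i j ∧ ∃ w : Eˣ, a ^ i * b ^ j = w ^ l := by
  have rt : ∀ (c : V) (n : ℕ), n ≠ 0 → ∃ d : V, d ^ n = c := fun c n hn => by
    obtain ⟨d, hd⟩ := hV (X ^ n - C c) (monic_X_pow_sub_C c hn) (by rwa [natDegree_X_pow_sub_C])
    exact ⟨d, by simpa [sub_eq_zero] using hd⟩
  let U : ValuationSubring E := .ofSubring _ (val inj hu hm alg hic)
  have hU : ∀ x, x ∈ U ↔ ∃ d, algebraMap D E d = x := fun _ => Iff.rfl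
  clear_value U
  let v := U.valuation
  let φ : V →+* E := (algebraMap D E).comp (algebraMap V D)
  let H : Subgroup Eˣ :=
    { carrier := {x | ∃ c c' : V, φ c ≠ 0 ∧ v (x * φ c) = v (φ c')}
      mul_mem' := by
        rintro x y ⟨c, c', h, e⟩ ⟨d, d', h', e'⟩
        refine ⟨c * d, c' * d', by simp [h, h'], ?_⟩
        rw [map_mul φ, map_mul φ, Units.val_mul, mul_mul_mul_comm, map_mul, e, e', map_mul]
      one_mem' := ⟨1, 1, by simp, by simp⟩
      inv_mem' := by
        rintro x ⟨c, c', h, e⟩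
        refine ⟨c', c, fun h0 => by simp [h0, h] at e, ?_⟩
        rw [map_mul, ← e, ← map_mul, Units.inv_mul_cancel_left] }
  obtain ⟨i, j, hij, c, c', h, e⟩ := grp H (Units.mk0 _ hu0) (by
    rintro x n hn ⟨c, c', h, e⟩
    obtain ⟨d, rfl⟩ := rt c n hn
    obtain ⟨d', rfl⟩ := rt c' n hn
    refine ⟨d, d', fun h0 => h (by simp [h0, hn]), (pow_left_inj₀ zero_le zero_le hn).1 ?_⟩
    simpa [mul_pow] using e) (fun x => by
    obtain ⟨n, r, hn, c, c', h, e⟩ := two inj hu hm alg hu0 v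
      (fun d => (U.valuation_le_one_iff _).2 ((hU _).2 ⟨d, rfl⟩)) x x.ne_zero
    exact ⟨n, r, hn, c, c', h, by
      rwa [Units.val_mul, Units.val_zpow_eq_zpow_val, Units.val_zpow_eq_zpow_val]⟩) a b
  have hl0 : l ≠ 0 := by rintro rfl; simp at hl
  obtain ⟨ε, hε⟩ := (U.valuation_eq_iff _ _).1 e
  obtain ⟨δ, hδ⟩ := (hU _).1 ε.1.2
  obtain ⟨δ', hδ'⟩ := (hU _).1 (ε⁻¹).1.2
  obtain ⟨w, rfl⟩ := shl_pow (n := l) (by simpa using hl.map (algebraMap V D))
    (IsUnit.of_mul_eq_one (a := δ) δ' (inj (by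
      rw [map_mul, hδ, hδ', map_one]
      exact congrArg Subtype.val ε.mul_inv)))
  obtain ⟨d, rfl⟩ := rt c l hl0
  obtain ⟨d', rfl⟩ := rt c' l hl0
  have e3 : ((a ^ i * b ^ j : Eˣ) : E) = (algebraMap D E w * φ d' / φ d) ^ l := by
    rw [div_pow, mul_pow, ← map_pow, ← map_pow, ← map_pow, hδ, hε, mul_div_cancel_right₀ _ h]
  refine ⟨i, j, hij, Units.mk0 (algebraMap D E w * φ d' / φ d) fun h0 => ?_, Units.ext e3⟩
  rw [h0, zero_pow hl0] at e3
  exact Units.ne_zero _ e3

end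

theorem dep {V O W E : Type} [CommRing V] [IsDomain V] [ValuationRing V] (hV : Aic V) [CommRing O]
    [SHL O] [CommRing W] [Field E] [Algebra V O] [Algebra O W] (ψ : W →+* E) (χ : V →+* E)
    (hχ : ∀ c, χ c = ψ (algebraMap O W (algebraMap V O c))) {I : Ideal W} (hI : N1 I)
    (u : Ar I O) (hu : ¬ IsUnit u) (hu0 : ψ u ≠ 0)
    (hm : ∀ c : V, ¬ IsUnit c → ∀ n, u ^ n ∣ algebraMap O _ (algebraMap V O c))
    (alg : ∀ x : E, ∃ F : E[X], F ≠ 0 ∧ F.eval x = 0 ∧
      ∀ i, ∃ b : V[X], F.coeff i = b.eval₂ χ (ψ u))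
    {l : ℕ} (hp : l.Prime) (hl : IsUnit (l : V)) : Cyc l E := fun a b => by
  have := ψ.domain_nontrivial
  have := hI.shl (O := O)
  let A := Ar I O
  let : Algebra A E := (ψ.comp A.val.toRingHom).toAlgebra
  let D := integralClosure A E
  have : IsLocalRing D := SHL.isLocalRing_of_isDomain A
  have : SHL D := SHL.of_integral A D
  let : Algebra V D := ((algebraMap A D).comp ((algebraMap O A).comp (algebraMap V O))).toAlgebra
  let := χ.toAlgebra
  have : IsScalarTower V D E := .of_algebraMap_eq hχ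
  have : IsLocalHom (algebraMap A D) := ((local_hom_TFAE (algebraMap A D)).out 4 0).1
    (eq_maximalIdeal (Ideal.isMaximal_comap_of_isIntegral_of_isMaximal _))
  obtain ⟨i, j, hij, h⟩ := abs (D := D) Subtype.val_injective (u := algebraMap A D u)
    (fun h => hu (isUnit_of_map_unit _ _ h))
    (fun c hc n => map_pow (algebraMap A D) u n ▸ map_dvd (algebraMap A D) (hm c hc n)) (fun x => by
      obtain ⟨p, h0, hp, e⟩ := alg x
      choose b hb using e
      have hb : ∀ i, algebraMap D E (aeval (algebraMap A D u) (b i)) = p.coeff i := fun i =>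
        (aeval_algebraMap_apply E _ (b i)).symm.trans (hb i).symm
      obtain ⟨F, rfl⟩ := (mem_lifts _).1 ((lifts_iff_coeff_lifts (f := algebraMap D E) p).2
        fun i => ⟨_, hb i⟩)
      exact ⟨F, fun h => h0 (by simp [h]), by rwa [aeval_def, ← eval_map], fun i =>
        ⟨b i, Subtype.ext ((coeff_map (algebraMap D E) i).symm.trans (hb i).symm)⟩⟩) hV
    (fun x hx => ⟨⟨x, isIntegral_trans x hx⟩, rfl⟩) hu0 hl a b
  exact ⟨i, j, fun hd => (Nat.prime_iff_prime_int.1 hp).not_isUnit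
    (hij.isUnit_of_dvd' hd.1 hd.2), h⟩

lemma N1.ofG {W : Type} [CommRing W] {I : Ideal W} (h : G.Newt I) : N1 I := fun Θ hΘ => by
  obtain ⟨μ, hμ⟩ := h Unit (fun _ => aeval (MvPolynomial.X ()) Θ) fun _ => by
    rw [aeval_eq_sum_range]
    exact Ideal.sum_mem _ fun i _ => by
      rw [MvPolynomial.smul_eq_C_mul]
      exact Ideal.mul_mem_right _ _ (Ideal.mem_map_of_mem _ (hΘ i))
  refine ⟨μ (), ?_⟩
  have := hμ ()
  rwa [← MvPolynomial.coe_aeval_eq_eval, RingHom.coe_coe, ← aeval_algHom_apply,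
    MvPolynomial.aeval_X, coe_aeval_eq_eval] at this

lemma N1.ofT {W : Type} [CommRing W] {I : Ideal W} (h : T.Newt W I) : N1 I := .ofG (G.newt_of h)

lemma N1.ofHens {W : Type} [CommRing W] {I : Ideal W} (h : T.Hens W I) : N1 I :=
  .ofT (T.newt.1 W I h)

lemma N1.map {W W' : Type} [CommRing W] [CommRing W'] {I : Ideal W} (h : N1 I) (f : W →+* W')
    (hf : Function.Surjective f) : N1 (I.map f) := fun Θ hΘ => by
  choose c hc hc' using fun m => (Ideal.mem_map_iff_of_surjective f hf).1 (hΘ m)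
  let P : W[X] := ∑ m ∈ Θ.support, monomial m (c m)
  have e : P.map f = Θ := by
    simp only [P, Polynomial.map_sum, map_monomial, hc']
    exact Θ.as_sum_support.symm
  obtain ⟨μ, hμ⟩ := h P fun m => by
    rw [finsetSum_coeff]
    exact I.sum_mem fun i _ => by
      rw [coeff_monomial]
      split_ifs
      exacts [hc i, zero_mem _]
  exact ⟨f μ, by rw [← e, eval_map, eval₂_at_apply, ← map_add, hμ, map_zero]⟩

/-- The centre of a domain over the henselisation. -/
lemma centre {A W : Type} [CommRing A] [CommRing W] (f : A →+* W) (g : A) (I : Ideal W)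
    (hg : f g ∈ I) (hc : ∀ q : Ideal W, I ≤ q → g ∈ q.comap f) (h1 : I ≠ ⊤)
    (h2 : ∀ x : W, x * x - x ∈ I → x ∈ I ∨ x - 1 ∈ I)
    (mx : ∀ q : Ideal A, q.IsPrime → g ∈ q → q.IsMaximal)
    (fin : {q : PrimeSpectrum A | g ∈ q.asIdeal}.Finite) :
    ∃ q : Ideal A, q.IsMaximal ∧ g ∈ q ∧ ∀ x ∈ q, f x ∈ I.radical := by
  classical
  obtain ⟨m, hm, hIm⟩ := Ideal.exists_le_maximal I h1
  let q : PrimeSpectrum A := ⟨m.comap f, inferInstance⟩
  have hq := mx _ q.2 (hc m hIm)
  obtain ⟨e₀, he₀, he₀'⟩ := SetLike.not_le_iff_exists.1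
    (show ¬ (fin.toFinset.erase q).inf (·.asIdeal) ≤ q.asIdeal from fun h => by
      obtain ⟨r, hr, h⟩ := (Ideal.IsPrime.inf_le' q.2).1 h
      rw [Finset.mem_erase, Set.Finite.mem_toFinset] at hr
      exact hr.1 (PrimeSpectrum.ext ((mx _ r.2 hr.2).eq_of_le q.2.ne_top h)))
  obtain ⟨y, t, ht, e⟩ := hq.exists_inv he₀'
  have k : ∀ x ∈ q.asIdeal, x * e₀ ∈ (Ideal.span {g}).radical := fun x hx => by
    rw [Ideal.radical_eq_sInf, Ideal.mem_sInf]
    rintro J ⟨hJ, hJ'⟩
    by_cases h : (⟨J, hJ'⟩ : PrimeSpectrum A) = q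
    · exact J.mul_mem_right _ (by rwa [← h] at hx)
    · exact J.mul_mem_left _ (Finset.inf_le (f := fun r : PrimeSpectrum A => r.asIdeal)
        (Finset.mem_erase.2 ⟨h, fin.mem_toFinset.2 (hJ (Ideal.mem_span_singleton_self g))⟩) he₀)
  have hI : ∀ z ∈ Ideal.span {g}, f z ∈ I := fun z hz => by
    obtain ⟨c, rfl⟩ := Ideal.mem_span_singleton'.1 hz
    rw [map_mul]
    exact I.mul_mem_left _ hg
  obtain ⟨N, hN⟩ := k t ht
  obtain ⟨a, b, hab⟩ := (show IsCoprime e₀ t from ⟨y, 1, by rw [one_mul, e]⟩).pow (m := N + 1)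
    (n := N + 1)
  refine ⟨_, hq, hc m hIm, fun x hx => ?_⟩
  rcases h2 (f (a * e₀ ^ (N + 1))) (by
    rw [← map_mul, ← map_sub, show a * e₀ ^ (N + 1) * (a * e₀ ^ (N + 1)) - a * e₀ ^ (N + 1) =
      (t * e₀) ^ N * -(a * b * e₀ * t) by linear_combination a * e₀ ^ (N + 1) * hab]
    exact hI _ (Ideal.mul_mem_right _ _ hN)) with h | h
  · refine absurd ((Ideal.eq_top_iff_one _).2 ?_) q.2.ne_top
    rw [← hab]
    exact add_mem (hIm h) (Ideal.mul_mem_left _ _ (Ideal.pow_mem_of_mem _ ht _ N.succ_pos))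
  · obtain ⟨M, hM⟩ := k x hx
    have h3 : f (x * e₀) ∈ I.radical := ⟨M, by rw [← map_pow]; exact hI _ hM⟩
    rw [show f x = f (x * e₀) * f (a * e₀ ^ N) - f x * (f (a * e₀ ^ (N + 1)) - 1) by
      simp only [map_mul, map_pow]; ring]
    exact sub_mem (Ideal.mul_mem_right _ _ h3) (Ideal.mul_mem_left _ _ (Ideal.le_radical h))

end End

open End Polynomial IsLocalRing E3 T

theorem cyc (hD : DIM_s) (hS : SQF_s) (hA : ALG_s) : CYC_s := by
  intro l _ D g Q hg E _ φ hφ
  obtain ⟨_, _, ind, inj, mx, fin, cen, dv⟩ := hD l D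
  obtain ⟨ind', -, -, -, inj'⟩ := hS _ g Q mx hg (fin g hg)
  let : Algebra D.V[X] Q.C' := ((algebraMap D.O₀ Q.C').comp (algebraMap D.V[X] D.O₀)).toAlgebra
  have : IsScalarTower D.V[X] D.O₀ Q.C' := .of_algebraMap_eq fun _ => rfl
  have alg := hA D.V[X] Q.C' E φ (ind.comp ind') hφ
  let ψ := φ.comp (algebraMap Q.C Q.C')
  let W := ψ.range
  let f : D.O₀ →+* W := ψ.rangeRestrict.comp (algebraMap D.O₀ Q.C)
  have hf : ∀ x, (f x : E) = φ (algebraMap D.O₀ Q.C' x) := fun x =>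
    congrArg φ (IsScalarTower.algebraMap_apply D.O₀ Q.C Q.C' x).symm
  let I : Ideal W := (Ideal.span {algebraMap D.O₀ Q.C g}).map ψ.rangeRestrict
  have hI : N1 I := (N1.ofHens Q.hen).map _ ψ.rangeRestrict_surjective
  have hg' : f g ∈ I := Ideal.mem_map_of_mem _ (Ideal.mem_span_singleton_self _)
  obtain ⟨h1, h2⟩ := Q.hp W ψ.rangeRestrict
    (RingHom.isIntegral_of_surjective _ ψ.rangeRestrict_surjective)
  obtain ⟨q, hq, hgq, hr⟩ := centre f g I hg' (fun _ h => h hg') h1 h2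
    (fun q hq h => mx q hq fun e => hg (by simpa [e] using h)) (fin g hg)
  set χ := φ.comp (algebraMap D.V[X] Q.C') with hχ
  have hχ : ∀ b, χ b = (f (algebraMap _ _ b) : E) := fun b => (hf _).symm
  have ev : ∀ b : D.V[X], χ b = b.eval₂ (χ.comp C) (χ X) := fun b => by
    rw [← hom_eval₂, eval₂_C_X]
  have un : ∀ z ∉ q, IsUnit (f z) := fun z hz => by
    obtain ⟨y, t, ht, e⟩ := hq.exists_inv hz
    have := hI.unit isUnit_one (neg_mem (hr t ht))
    rw [← map_one f, ← map_neg, ← map_add, ← e, add_neg_cancel_right, map_mul] at this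
    exact isUnit_of_mul_isUnit_right this
  have nu : ∀ w ∈ I.radical, ¬ IsUnit w := fun w hw h =>
    h1 (Ideal.radical_eq_top.1 (Ideal.eq_top_of_isUnit_mem _ hw h))
  by_cases hp : algebraMap D.V[X] D.O₀ (C D.p) ∈ q
  · have := D.germ.shl
    let : Algebra D.V D.O := ((algebraMap D.V[X] D.O).comp C).toAlgebra
    let : Algebra D.O W := (f.comp (algebraMap D.O D.O₀)).toAlgebra
    have e : ∀ b, algebraMap D.O W (algebraMap D.V[X] D.O b) = f (algebraMap _ _ b) := fun b =>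
      congrArg f (IsScalarTower.algebraMap_apply D.V[X] D.O D.O₀ b).symm
    obtain ⟨η, hη⟩ := ((IsLocalization.Away.algebraMap_isUnit (S := D.O₀)
      (algebraMap D.V[X] D.O X)).map f).exists_right_inv
    have hη : algebraMap D.O W (algebraMap D.V[X] D.O X) * η = 1 := hη
    refine dep D.aic W.subtype (χ.comp C) (fun c => (hχ _).trans (congrArg _ (e _).symm)) hI
      (algebraMap D.O _ (algebraMap D.V[X] D.O X)) (fun h => D.germ.orig (hI.loc h))
      (left_ne_zero_of_mul_eq_one (congrArg W.subtype hη)) (fun c hc n => ⟨⟨η ^ n *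
        algebraMap D.O W (algebraMap D.V[X] D.O (C c)), 0, ?_⟩, Subtype.ext ?_⟩) (fun x => ?_)
      Fact.out D.ul
    · rw [map_zero, sub_zero, e]
      refine Ideal.mul_mem_left _ _ (hr _ ?_)
      rw [← Ideal.mem_comap, cen q hq.isPrime hp]
      exact Ideal.mem_map_of_mem _ hc
    · change algebraMap D.O W (algebraMap D.V[X] D.O (C c)) =
        algebraMap D.O W (algebraMap D.V[X] D.O X) ^ n * (η ^ n * _)
      rw [← mul_assoc, ← mul_pow, hη, one_pow, one_mul]
    · obtain ⟨F, h0, hx⟩ := alg x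
      refine ⟨_, h0, by rwa [eval_map], fun i => ⟨F.coeff i, ?_⟩⟩
      rw [coeff_map, ev, hχ X, ← e]
      rfl
  · have hu : IsUnit ((f.comp ((algebraMap D.V[X] D.O₀).comp C)) D.p) := un _ hp
    let : Algebra D.K W := (IsLocalization.Away.lift D.p hu).toAlgebra
    have hK : ∀ c, algebraMap D.K W (algebraMap D.V D.K c) = f (algebraMap _ _ (C c)) :=
      IsLocalization.Away.lift_eq D.p hu
    have ev' : ∀ b : D.V[X], f (algebraMap _ _ b) =
        aeval (f (algebraMap D.V[X] _ X)) (b.map (algebraMap D.V D.K)) := fun b => by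
      rw [aeval_def, eval₂_map, show (algebraMap D.K W).comp (algebraMap D.V D.K) =
        (f.comp (algebraMap D.V[X] _)).comp C from RingHom.ext hK]
      exact ((hom_eval₂ b C (f.comp (algebraMap D.V[X] _)) X).symm.trans
        (by rw [eval₂_C_X]; rfl)).symm
    obtain ⟨b, hb, c, hc⟩ := dv g hg
    have := (aic_of_isAlgClosed D.K).shl
    set x := f (algebraMap D.V[X] _ X) with hx
    have lin : ∀ a : D.K, ∃ (r : D.V[X]) (w : W), r ≠ 0 ∧ IsUnit w ∧
        f (algebraMap _ _ r) = w * (x + algebraMap D.K W a) := fun a => by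
      obtain ⟨⟨α, β, hβ⟩, h⟩ := IsLocalization.surj (nonZeroDivisors D.V) a
      refine ⟨C β * X + C α, _, fun h0 => nonZeroDivisors.ne_zero hβ
        (by simpa using congrArg (coeff · 1) h0),
        (IsLocalization.map_units D.K ⟨β, hβ⟩).map (algebraMap D.K W), ?_⟩
      simp only [map_add, map_mul, ← hK, ← hx, mul_add]
      rw [← h, map_mul, mul_comm (algebraMap D.K W a)]
    obtain ⟨a, ha⟩ : ∃ a : D.K, x + algebraMap D.K W a ∈ I.radical := by
      by_contra! hn
      have k : ∀ P : D.K[X], P.Splits → P ≠ 0 → IsUnit (aeval x P) := fun P hP => by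
        induction hP using Submonoid.closure_induction with
        | mem P hP =>
          rcases hP with ⟨a, rfl⟩ | ⟨a, rfl⟩
          · exact fun h => by simpa using (IsUnit.mk0 a (by simpa using h)).map (algebraMap D.K W)
          · obtain ⟨r, w, -, hw, e⟩ := lin a
            have := un (algebraMap _ _ r) fun h => hn a ((Ideal.unit_mul_mem_iff_mem _ hw).1
              (e ▸ hr _ h))
            exact fun _ => by simpa using isUnit_of_mul_isUnit_right (e ▸ this)
        | one => simp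
        | mul P P' _ _ h h' =>
          exact fun h0 => by simpa using ⟨h (left_ne_zero_of_mul h0), h' (right_ne_zero_of_mul h0)⟩
      refine nu _ (hr _ (hc ▸ q.mul_mem_right c hgq)) ?_
      rw [ev']
      exact k _ (IsAlgClosed.splits _) ((Polynomial.map_ne_zero_iff (IsFractionRing.injective _ _)).2 hb)
    refine dep (O := D.K) (aic_of_isAlgClosed D.K) W.subtype (W.subtype.comp (algebraMap D.K W))
      (fun _ => rfl) hI ⟨x + algebraMap D.K W a, 0, by simpa using ha⟩ (fun h => nu _ ha (h.map (Ar I D.K).val))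
      (fun h => ?_) (fun c hc n => by simp [not_not.1 (mt (IsUnit.mk0 c) hc)]) (fun z => ?_) Fact.out
      (by simpa using D.ul.map (algebraMap D.V D.K))
    · obtain ⟨r, w, hr0, -, e⟩ := lin a
      refine hr0 (inj (inj' E φ ?_))
      rw [map_zero, map_zero, RingHom.comp_apply, ← hf, e, Subring.coe_mul]
      exact mul_eq_zero_of_right _ h
    · obtain ⟨F, h0, hz⟩ := alg z
      refine ⟨_, h0, by rwa [eval_map], fun i =>
        ⟨((F.coeff i).map (algebraMap D.V D.K)).comp (X - C a), ?_⟩⟩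
      rw [coeff_map, hχ, ev', ← hom_eval₂, ← aeval_def, aeval_comp]
      simp

end Pool.Agent.MP_855f4c_ag.AV.RG

end

section

/-! h67a, section RG: excision along the affine line of the special fibre. -/

set_option autoImplicit false
set_option backward.isDefEq.respectTransparency false

open CategoryTheory Limits Abelian Opposite AlgebraicGeometry Polynomial Function IsLocalRing

namespace Pool.Agent.MP_855f4c_ag.AV.RG

open E E3 E4 T

namespace G3

variable {X : Scheme.{0}}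

lemma sub {Y W : Over X} [Mono W.hom] (a b : Y ⟶ W) : a = b :=
  Over.OverMorphism.ext ((cancel_mono W.hom).1 ((Over.w a).trans (Over.w b).symm))

lemma lif (Y W : Over X) [IsOpenImmersion W.hom] (h : ∀ z, Y.hom z ∈ Set.range W.hom) :
    Nonempty (Y ⟶ W) :=
  ⟨Over.homMk (IsOpenImmersion.lift W.hom Y.hom (by rintro _ ⟨z, rfl⟩; exact h z))
    (IsOpenImmersion.lift_fac _ _ _)⟩

lemma oi {Y W : Over X} [IsOpenImmersion Y.hom] [IsOpenImmersion W.hom] (a : Y ⟶ W) :
    IsOpenImmersion a.left :=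
  have : IsOpenImmersion (a.left ≫ W.hom) := by rw [Over.w]; infer_instance
  IsOpenImmersion.of_comp _ W.hom

lemma app {Y W : Over X} (a : Y ⟶ W) (z : Y.left) : W.hom (a.left z) = Y.hom z := by
  rw [← Scheme.Hom.comp_apply, Over.w]

/-- Excision for four opens. -/
lemma opens {T T' W W' : Over X} [IsOpenImmersion T.hom] [IsOpenImmersion T'.hom]
    [IsOpenImmersion W.hom] [IsOpenImmersion W'.hom] {g : T' ⟶ T} {u : W ⟶ T} {u' : W' ⟶ T'}
    {g' : W' ⟶ W} (h : u' ≫ g = g' ≫ u)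
    (h1 : ∀ x, x ∈ Set.range T'.hom → x ∈ Set.range W.hom → x ∈ Set.range W'.hom)
    (h2 : ∀ x, x ∈ Set.range T.hom → x ∈ Set.range T'.hom ∨ x ∈ Set.range W.hom) :
    IsIso (prM h) := by
  have := oi u
  have := oi g
  have hp : IsPullback u' g' g u := ⟨⟨h⟩, ⟨PullbackCone.IsLimit.mk _
    (fun s => (lif s.pt W' fun z => h1 _ ⟨_, app s.fst z⟩ ⟨_, app s.snd z⟩).some)
    (fun _ => sub _ _) (fun _ => sub _ _) fun _ _ _ _ => sub _ _⟩⟩
  refine exc0 hp fun k _ _ y hy => ?_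
  have hr : Set.range y ⊆ Set.range g.left := by
    rintro _ ⟨z, rfl⟩
    rcases h2 _ ⟨y z, rfl⟩ with ⟨w, hw⟩ | ⟨w, hw⟩
    · exact ⟨w, T.hom.isOpenEmbedding.injective ((app g w).trans hw)⟩
    · exact (hy z ⟨w, T.hom.isOpenEmbedding.injective ((app u w).trans hw)⟩).elim
  exact ⟨_, IsOpenImmersion.lift_fac g.left y hr, fun w hw =>
    (cancel_mono g.left).1 (hw.trans (IsOpenImmersion.lift_fac g.left y hr).symm)⟩

/-- Excision for a henselisation. -/
lemma hen {A : Type} [CommRing A] (u : Spec (.of A) ⟶ X) (g : A) (Q : Sq A g)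
    {F : Sh (Scheme.etaleTopology.over X)} (hF : LFP F.obj) :
    ∃ h : tw u Q.C Q.C' ≫ tw u A Q.C = tw u Q.A' Q.C' ≫ tw u A Q.A',
      Mono (tw u Q.C Q.C') ∧ ExtBij.{1} (prM h) F := by
  have : IsLocalization (Algebra.algebraMapSubmonoid Q.C (Submonoid.powers g)) Q.C' := by
    rw [Algebra.algebraMapSubmonoid_powers]; exact Q.lC'
  have : Algebra.IsPushout A Q.A' Q.C Q.C' :=
    (Algebra.isPushout_of_isLocalization (Submonoid.powers g) Q.A' Q.C Q.C').symm
  have hp := SA.isPullback_hm u A Q.A' Q.C Q.C'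
  have : IsOpenImmersion (hm u (up A A Q.A')).left := IsOpenImmersion.of_isLocalization g
  have : IsOpenImmersion (hm u (up A Q.C Q.C')).left :=
    IsOpenImmersion.of_isLocalization (algebraMap A Q.C g)
  have : CompactSpace (ob u Q.A').left := inferInstanceAs (CompactSpace (PrimeSpectrum Q.A'))
  refine ⟨hp.w, exc_mono (hm u (up A Q.C Q.C')),
    exc Q.exs.1 (Over.w (hm u (up A A Q.C))) hp (fun k _ _ y hy => ?_) hF⟩
  obtain ⟨φ, rfl⟩ := Spec.map_surjective y
  obtain ⟨χ, e, he⟩ := Q.exs.2 k φ.hom (by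
    rw [Ideal.span_singleton_le_iff_mem]
    by_contra h0
    refine hy (closedPoint k) ((Set.ext_iff.1
      (PrimeSpectrum.localization_away_comap_range Q.A' g) _).2 fun h1 => h0 ?_)
    change φ.hom g ∈ maximalIdeal k at h1
    rwa [maximalIdeal_eq_bot] at h1)
  refine ⟨spc χ, (Spec.map_comp _ _).symm.trans (congrArg Spec.map (CommRingCat.hom_ext e)),
    fun w hw => ?_⟩
  obtain ⟨w, rfl⟩ := Spec.map_surjective w
  exact congrArg Spec.map (CommRingCat.hom_ext (he w.hom (congrArg CommRingCat.Hom.hom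
    (Spec.map_injective ((Spec.map_comp _ _).trans hw)))))

/-- The diagram chase. -/
lemma chase {T T' W W' : Over X} {u : W ⟶ T} {u' : W' ⟶ T'} [Mono u] [Mono u']
    {F : Sh (Scheme.etaleTopology.over X)}
    (m : cokernel ((fr (Scheme.etaleTopology.over X)).map u') ⟶
      cokernel ((fr (Scheme.etaleTopology.over X)).map u)) {q : ℕ}
    (hm : Injective (pre.{1} m F (q + 1))) (h0 : Z W' F q) (h1 : Z T' F (q + 1)) :
    Injective (res u F (q + 1)) := by
  refine (injective_iff_map_eq_zero _).2 fun x hx => ?_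
  obtain ⟨y, rfl⟩ := ((con_les (pair_exact _ u) F).e₂ _ x).1 hx
  obtain ⟨z, hz⟩ := ((con_les (pair_exact _ u') F).e₁ q (pre m F _ y)).1 (h1 _)
  obtain rfl : y = 0 := hm (by rw [← hz, h0 z, map_zero, map_zero])
  exact map_zero _

end G3

open G3 in
theorem g3 (hv : HV_s) : G3_s := by
  intro l _ D L Q
  have e2 : L.c₂ ≫ L.π = spc C := L.pnt_π _ _
  have m2 : ∀ {B : Type} [CommRing B] (φ : D.V[X] →+* B) (x : Spec (.of B)),
      (spc φ ≫ L.c₂) x ∈ L.π ⁻¹ᵁ PrimeSpectrum.basicOpen D.p ↔ φ (C D.p) ∉ x.asIdeal := by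
    intro B _ φ x
    change L.π ((spc φ ≫ L.c₂) x) ∈ PrimeSpectrum.basicOpen D.p ↔ _
    rw [← Scheme.Hom.comp_apply, Category.assoc, e2]
    rfl
  have : IsOpenImmersion (spc (algebraMap D.V D.K)) := IsOpenImmersion.of_isLocalization D.p
  have : IsOpenImmersion (D.gen L).hom := inferInstanceAs (IsOpenImmersion (pullback.snd _ _))
  have mg : ∀ x, x ∈ Set.range (D.gen L).hom ↔ x ∈ L.π ⁻¹ᵁ PrimeSpectrum.basicOpen D.p := fun x =>
    (pb_mem_range (IsPullback.of_hasPullback (spc (algebraMap D.V D.K)) L.π) x).trans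
      (mem_range_away D.p _)
  have : IsOpenImmersion (Over.mk (D.Po L).ι).hom := inferInstanceAs (IsOpenImmersion (D.Po L).ι)
  have mp : ∀ x, x ∈ Set.range (Over.mk (D.Po L).ι).hom ↔
      x ∈ Set.range L.c₂ ∨ x ∈ L.π ⁻¹ᵁ PrimeSpectrum.basicOpen D.p := fun x =>
    Set.ext_iff.1 (D.Po L).range_ι x
  have ei : (ob L.c₂ D.V[X]).hom = L.c₂ := by
    change Spec.map (𝟙 _) ≫ _ = _
    rw [Spec.map_id, Category.id_comp]
  have : IsOpenImmersion (ob L.c₂ D.V[X]).hom := by rw [ei]; infer_instance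
  have : IsOpenImmersion (spc (algebraMap D.V[X] Q.A')) := IsOpenImmersion.of_isLocalization (C D.p)
  have : IsOpenImmersion (ob L.c₂ Q.A').hom :=
    inferInstanceAs (IsOpenImmersion (spc (algebraMap D.V[X] Q.A') ≫ L.c₂))
  obtain ⟨κ⟩ := lif (D.gen L) (Over.mk (D.Po L).ι) fun z => (mp _).2 (.inr ((mg _).1 ⟨z, rfl⟩))
  obtain ⟨g⟩ := lif (ob L.c₂ D.V[X]) (Over.mk (D.Po L).ι) fun z => (mp _).2 (.inl ⟨z, congr($ei.symm z)⟩)
  obtain ⟨g'⟩ := lif (ob L.c₂ Q.A') (D.gen L) fun z => (mg _).2 ((m2 _ z).2 fun h =>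
    z.isPrime.ne_top (Ideal.eq_top_of_isUnit_mem _ h
      (IsLocalization.Away.algebraMap_isUnit (C D.p))))
  have h2 : tw L.c₂ D.V[X] Q.A' ≫ g = g' ≫ κ := sub _ _
  have := opens h2 (fun x hx hx' => by
      rw [ei] at hx
      obtain ⟨x, rfl⟩ := hx
      have := (mg _).1 hx'
      rw [← ei] at this
      obtain ⟨w, rfl⟩ := (mem_range_away (S := Q.A') (C D.p) x).2 ((m2 _ x).1 this)
      exact ⟨w, rfl⟩)
    fun x hx => ((mp x).1 hx).imp (fun h => by rwa [ei]) (mg x).2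
  have := oi κ
  have := exc_mono κ
  refine ⟨κ, fun F hF h0 => ?_⟩
  obtain ⟨h1, _, hb⟩ := hen L.c₂ (C D.p) Q hF.1.1.1
  refine chase (prM h1 ≫ prM h2) (fun x y e => (pre_bij (prM h2) F 1).1 ((hb 1).1 ?_)) h0 ?_
  · rwa [pre_pre, pre_pre]
  · refine (hv l L.P F).2 Q.C _ _ ?_ Q.hp hF.1 (fun k _ _ φ hφ s => ?_) 1
    · simpa using D.ul.map ((algebraMap D.V[X] Q.C).comp C)
    · refine hF.2 k _ ?_ (fun z hz => ?_) s
      · simpa using (D.ul.map (φ.comp ((algebraMap D.V[X] Q.C).comp C))).ne_zero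
      · refine (m2 (algebraMap D.V[X] Q.C) (spc φ z)).1 hz ?_
        change φ _ ∈ z.asIdeal
        rw [hφ (Ideal.mem_span_singleton_self _)]
        exact zero_mem _

end Pool.Agent.MP_855f4c_ag.AV.RG

end

section

/-! h67a, section RG: the counting argument. -/

set_option autoImplicit false
set_option backward.isDefEq.respectTransparency false

open CategoryTheory Limits Abelian Opposite AlgebraicGeometry Function

namespace Pool.Agent.MP_855f4c_ag.AV.RG

open E E3 E4 T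
open E.CV (Ln Lm)

variable {l : ℕ} [Fact l.Prime] {X : Scheme.{0}}

lemma zj_inj (Y : Over X) : Injective (post ((fr _).obj Y) (EZ.Zj l X 1) 1) := by
  have h := cov_les ((fr (Scheme.etaleTopology.over X)).obj Y) (EZ.Zj_exact l X 1)
  refine (injective_iff_map_eq_zero _).2 fun x hx => ?_
  obtain ⟨y, rfl⟩ := (h.e₁ 0 x).1 hx
  obtain ⟨φ, rfl⟩ := (Ext.mk₀_bijective _ _).2 y
  obtain ⟨s, hs⟩ := D.K1.linf_div Y (frEquiv Y _ φ)
  obtain ⟨s, rfl⟩ := (frEquiv Y _).surjective s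
  obtain rfl : l • s = φ := (frEquiv Y _).injective ((map_nsmul _ _ _).trans hs)
  refine (h.e₃ 0 _).2 ⟨Ext.mk₀ s, ?_⟩
  rw [post_apply, Ext.mk₀_comp_mk₀, Preadditive.comp_nsmul, Category.comp_id]
  exact congrArg (fun n => Ext.mk₀ (n • s)) (pow_one l)

lemma zj_surj (Y : Over X) (y : H Y (Linf l X) 1) (hy : l • y = 0) :
    ∃ x, post ((fr _).obj Y) (EZ.Zj l X 1) 1 x = y := by
  refine ((cov_les ((fr (Scheme.etaleTopology.over X)).obj Y) (EZ.Zj_exact l X 1)).e₂ 1 y).1 ?_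
  exact (EZ.Hmap_nsmul _ _ _ _ y).trans ((congrArg (· • y) (pow_one l)).trans hy)

theorem ka (hP : PUSH_s) (hZ : PAIRZ_s) (hC : CNT_s) {U W T A K : Over X} (ρ : W ⟶ U)
    (h1 : IsOpenImmersion U.hom) (h2 : IsFinite ρ.left) (h3 : Etale ρ.left) (h4 : IsAffine U.left)
    (h5 : IsLocallyNoetherian U.left) (h6 : Linv l U.left) (j : T ⟶ A) (a : A ⟶ U)
    (d : H T (Ln l W) 0 →+ H K (Ln l W) 1) (hd : Injective d)
    (hd' : ∀ (c : H T (Ln l W) 0) (β : Ext (Ln l W) (Linf l X) 1), c.comp β (zero_add 1) = 0 →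
      (d c).comp β (rfl : 1 + 1 = 2) = 0)
    (t : H K (Linf l X) 2 →+ QZ l) (ht : ∀ z : H K (Ln l W) 1,
      (∀ β : Ext (Ln l W) (Linf l X) 1, t (z.comp β (rfl : 1 + 1 = 2)) = 0) → z = 0)
    (hf : Finite (H ((PW W).obj T) (Zl X l 1) 1))
    (hc : Nat.card (H ((PW W).obj T) (Zl X l 1) 1) ≤ Nat.card (H ((PW W).obj T) (Zl X l 1) 0)) :
    Surjective (res j (Ln l W) 1) := by
  obtain ⟨e0, -⟩ := hP l X U W ρ h1 h2 h3 h4 h5 h6 0
  obtain ⟨e, he⟩ := hP l X U W ρ h1 h2 h3 h4 h5 h6 1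
  let i := post ((fr _).obj ((PW W).obj T)) (EZ.Zj l X 1) 1
  let π : (fr (Scheme.etaleTopology.over X)).obj W ⟶ Ln l W := cokernel.π _
  have hπ (β : Ext (Ln l W) (Linf l X) 1) : l • pre π _ 1 β = 0 :=
    (D.K1.tau_tor W _).2 ⟨β, rfl⟩
  let r₀ := (res (prW W T) (Linf l X) 1).comp (pre π _ 1)
  have hr (β) : r₀ β ∈ i.range := zj_surj _ _ (by
    change l • res (prW W T) _ 1 (pre π _ 1 β) = 0
    rw [← map_nsmul, hπ, map_zero])
  let b : H T (Ln l W) 0 →+ Ext (Ln l W) (Linf l X) 1 →+ QZ l :=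
    (AddMonoidHom.compHom t).comp ((Ext.bilinearComp _ _ _ 1 1 2 rfl).comp d)
  have hb (c β) : b c β = t ((d c).comp β (rfl : 1 + 1 = 2)) := rfl
  have hs := hC l _ _ i.range (r₀.codRestrict _ hr) b (.of_surjective _ i.rangeRestrict_surjective)
    ((Nat.card_le_card_of_surjective _ i.rangeRestrict_surjective).trans
      (hc.trans (Nat.card_congr (e0 T (j ≫ a)).toEquiv).ge))
    (fun c h => hd ((ht _ h).trans (map_zero d).symm))
    fun β h c => by rw [hb, hd' c β (hZ l X W T β (congrArg Subtype.val h) c), map_zero]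
  intro y
  obtain ⟨β, hβ⟩ := hs ⟨i (e T (j ≫ a) y), _, rfl⟩
  obtain ⟨w, hw⟩ := zj_surj W _ (hπ β)
  obtain ⟨x, hx⟩ := (e A a).surjective (res (prW W A) _ 1 w)
  refine ⟨x, (e T (j ≫ a)).injective (zj_inj _ ?_)⟩
  rw [he T A j (j ≫ a) a x, hx]
  refine Eq.trans ?_ (congrArg Subtype.val hβ)
  change _ = res (prW W T) _ 1 (pre π _ 1 β)
  rw [← hw, pre_post, pre_pre, ← Functor.map_comp, map_prW]

end Pool.Agent.MP_855f4c_ag.AV.RG

end

section

/-! h67a, section RG: the approximation theorem. -/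

set_option autoImplicit false
set_option backward.isDefEq.respectTransparency false

open CategoryTheory Limits Abelian Opposite AlgebraicGeometry Polynomial Function

namespace Pool.Agent.MP_855f4c_ag.AV.RG

open E E3 E4 T
open E.CV (Ln Lm)

lemma pb_mono {P : Scheme.{0}} {U W T : Over P} (ρ : W ⟶ U) (a : T ⟶ U) [Mono U.hom] :
    IsPullback (prT W T).left (prW W T).left a.left ρ.left := by
  have e1 : (prT W T).left = pullback.fst T.hom W.hom := by simp
  have e2 : (prW W T).left = pullback.snd T.hom W.hom := rfl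
  rw [e1, e2]
  have H := IsPullback.of_hasPullback T.hom W.hom
  refine ⟨⟨by rw [← cancel_mono U.hom, Category.assoc, Category.assoc, Over.w, Over.w, H.w]⟩,
    ⟨PullbackCone.IsLimit.mk _ (fun s => H.lift s.fst s.snd
      (by rw [← Over.w a, ← Over.w ρ, s.condition_assoc])) (fun s => H.lift_fst ..)
      (fun s => H.lift_snd ..) fun s m h1 h2 => H.hom_ext (by rw [h1, H.lift_fst])
        (by rw [h2, H.lift_snd])⟩⟩

lemma ln_van {P : Scheme.{0}} (n : ℕ) (W : Over P) {k : Type} [Field k] [IsAlgClosed k]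
    (x : Spec (.of k) ⟶ P) (h : IsEmpty (Over.mk x ⟶ W)) (s : sec (Ln n W) (Over.mk x)) :
    s = 0 := by
  obtain ⟨e, -⟩ := (D.lnm P n).2.2.2.2 k x
  exact (e W).injective (Subsingleton.elim _ _)

variable {V : Type} [CommRing V] (L : PL (Spec (.of V)))

lemma rng {S : Type} [CommRing S] [Algebra V[X] S] {f : V[X]} (hf : IsUnit (algebraMap V[X] S f))
    {Y : Over L.P} (w : Y ⟶ ob L.c₁ S) (z : Y.left) :
    ∃ x : Spec (.of V[X]), f ∉ x.asIdeal ∧ Y.hom z = L.c₁ x :=
  ⟨spc (algebraMap V[X] S) (w.left z), (isUnit_iff_forall _).1 hf _, by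
    rw [← Over.w w]; rfl⟩

lemma emp {S k : Type} [CommRing S] [Algebra V[X] S] [Field k] {f : V[X]}
    (hf : IsUnit (algebraMap V[X] S f)) (ψ : V[X] →+* k) (h : ψ f = 0) {y : Spec (.of k) ⟶ L.P}
    (hy : y = spc ψ ≫ L.c₁) : IsEmpty (Over.mk y ⟶ ob L.c₁ S) := ⟨fun w => by
  obtain ⟨x, h1, h2⟩ := rng L hf w (IsLocalRing.closedPoint k)
  subst hy
  rw [← L.c₁.isOpenEmbedding.injective h2] at h1
  exact h1 (by change ψ f ∈ IsLocalRing.maximalIdeal k; rw [h]; exact zero_mem _)⟩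

theorem key (hP : PUSH_s) (hZ : PAIRZ_s) (hC : CNT_s) (hB : BD_s) (hD : PDV_s) (hE : EZB_s)
    (hS : SEC0_s) (hH : HV_s) (hF : FLD_s) (hQ : SQ0_s) (hN : CON_s) (hI : DIM_s) (hq : SQF_s)
    (hY : CYC_s) : KEY_s := by
  intro l _ D L g Q R S _ _ _ _ _ _ _ _ _ hp hg
  obtain ⟨_, _, -, hi, hm, hfin, -⟩ := hI l D
  have hg0 : algebraMap D.V[X] D.O₀ g ≠ 0 := fun h =>
    hg (by rw [hi (h.trans (map_zero _).symm), eval_zero])
  obtain ⟨-, hfld, -⟩ := hq _ _ Q hm hg0 (hfin _ hg0)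
  have uR : IsUnit (algebraMap D.V[X] R (X * g)) := IsLocalization.Away.algebraMap_isUnit _
  have uS : IsUnit (algebraMap D.V[X] S (X * g)) := by
    rw [IsScalarTower.algebraMap_apply D.V[X] R S]; exact uR.map _
  have dv {B : Type} [CommRing B] (ψ : D.V[X] →+* B) (h : IsUnit (ψ (X * g))) :
      IsUnit (ψ (C D.p)) := isUnit_of_dvd_unit (map_dvd ψ (hp.mul_left X)) h
  let Ug : L.P.Opens := L.π ⁻¹ᵁ PrimeSpectrum.basicOpen D.p
  have hU : (ovU Ug).mem (ob L.c₁ R) := fun z => by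
    obtain ⟨x, h1, h2⟩ := rng L (dv _ uR) (𝟙 _) z
    change L.π ((ob L.c₁ R).hom z) ∈ PrimeSpectrum.basicOpen D.p
    rw [h2, L.π_pnt]
    exact h1
  have uA : IsUnit (((algebraMap D.O₀ Q.A').comp (algebraMap D.V[X] D.O₀)) (X * g)) := by
    rw [map_mul]
    refine .mul (IsUnit.map (algebraMap D.O₀ Q.A') ?_) (IsLocalization.Away.algebraMap_isUnit _)
    rw [IsScalarTower.algebraMap_apply D.V[X] D.O D.O₀]
    exact IsLocalization.Away.algebraMap_isUnit _
  let a : ob (D.u L) Q.A' ⟶ ob L.c₁ R := Over.homMk (spc (IsLocalization.Away.lift _ uA)) (by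
    simp only [Over.mk_hom]
    rw [← Spec.map_comp_assoc, ← Spec.map_comp_assoc, ← CommRingCat.ofHom_comp,
      ← CommRingCat.ofHom_comp, IsLocalization.Away.lift_comp])
  have o1 : IsOpenImmersion (spc (algebraMap D.V[X] R)) := IsOpenImmersion.of_isLocalization (X * g)
  have h1 : IsOpenImmersion (ob L.c₁ R).hom := inferInstanceAs (IsOpenImmersion (_ ≫ _))
  have h2 : IsFinite (tw L.c₁ R S).left :=
    (IsFinite.SpecMap_iff _).2 (RingHom.finite_algebraMap.2 ‹_›)
  have h3 : Etale (tw L.c₁ R S).left :=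
    (HasRingHomProperty.Spec_iff (P := @Etale)).2 (RingHom.etale_algebraMap.2 ‹_›)
  have hW : Etale (ob L.c₁ S).hom := by rw [← Over.w (tw L.c₁ R S)]; infer_instance
  have sW : IsSeparated (ob L.c₁ S).hom := by rw [← Over.w (tw L.c₁ R S)]; infer_instance
  let κ : D.K →+* R := IsLocalization.Away.lift (g := (algebraMap D.V[X] R).comp C) D.p (dv _ uR)
  have hκ : κ.comp (algebraMap D.V D.K) = (algebraMap D.V[X] R).comp C :=
    IsLocalization.Away.lift_comp ..
  have h5 : IsNoetherianRing R := by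
    let _ := κ.toAlgebra
    let _ := ((algebraMap D.V[X] R).comp C).toAlgebra
    have : IsScalarTower D.V D.K R := .of_algebraMap_eq' hκ.symm
    have : IsScalarTower D.V D.V[X] R := .of_algebraMap_eq' rfl
    have := IsLocalization.Away.finitePresentation (X * g) (S := R)
    have : Algebra.FiniteType D.V R := .trans (S := D.V[X]) inferInstance inferInstance
    have : Algebra.FiniteType D.K R := .of_restrictScalars_finiteType D.V D.K R
    exact Algebra.FiniteType.isNoetherianRing D.K R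
  have hl : Linv l L.P := (Linv.spec D.ul).of_hom L.π
  have tF : Tc l (Ln l (ob L.c₁ S)) := (E.D.lnm _ l).1 l _ ⟨1, (pow_one l).symm⟩ hW
  have hWU : (ovU Ug).mem (ob L.c₁ S) := (ovU Ug).down (tw L.c₁ R S) hU
  have vF : D.Vs L (Ln l (ob L.c₁ S)) := ⟨tF, fun k _ _ x _ hx => ln_van _ _ x ⟨fun w =>
    hx (IsLocalRing.closedPoint k) ((ovU Ug).down w hWU _)⟩⟩
  obtain ⟨Q₂⟩ := hQ D.V[X] (C D.p)
  let G := Localization.Away (algebraMap D.V[X] D.O g)
  obtain ⟨c₂, k₂, _, _, φ₂, e₂⟩ := (hN l D).1 Q₂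
  obtain ⟨c₁, k₁, _, _, φ₁, e₁⟩ := (hN l D).2 g G hg
  obtain ⟨d, hd, hd'⟩ := hB l D L g Q Q₂ G hp hg _ _ vF ((hE _ Ug (Linf l _)).2 l (G0.linf_Tc l _))
    ((hH l _ _).2 _ _ _ (hl.isUnit (ob (D.u L) Q.C).hom) Q.hp tF (fun k _ _ φ h => ln_van _ _ _
      (emp L uS ((φ.comp (algebraMap D.O₀ Q.C)).comp (algebraMap D.V[X] D.O₀))
        (by rw [map_mul]; exact mul_eq_zero_of_right _ (h (Ideal.mem_span_singleton_self _)))
        (by simp only [← Spec.map_comp_assoc, ← CommRingCat.ofHom_comp]; rfl))) 0)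
    (hS l _ _ _ hW sW c₁ k₁ (spc φ₁) (emp L uS (φ₁.comp (algebraMap D.V[X] G))
      (by rw [map_mul]; exact mul_eq_zero_of_left e₁ _)
      (by simp only [Over.mk_hom, ← Spec.map_comp_assoc, ← CommRingCat.ofHom_comp])))
    (hS l _ _ _ hW sW c₂ k₂ (spc φ₂) ⟨fun w => by
      obtain ⟨x, -, h⟩ := rng L uS w (IsLocalRing.closedPoint k₂)
      refine (L.c₂_mem_c₁ _).1 ⟨x, h.symm⟩ ?_
      change φ₂ (algebraMap D.V[X] Q₂.C' X) ∈ IsLocalRing.maximalIdeal k₂
      rw [e₂]; exact zero_mem _⟩)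
  have o2 : IsOpenImmersion (spc (algebraMap D.V D.K)) := IsOpenImmersion.of_isLocalization D.p
  have o3 : IsOpenImmersion (D.gen L).hom :=
    inferInstanceAs (IsOpenImmersion (pullback.snd (spc (algebraMap D.V D.K)) L.π))
  obtain ⟨t, ht⟩ := hD l D.K _ (D.gen L) _
    (.step (L.bc (Over.mk (spc (algebraMap D.V D.K)))) (𝟙 _) (.iso _ inferInstance)) o3
  let w : ob L.c₁ S ⟶ D.gen L := Over.homMk (pullback.lift (spc ((algebraMap R S).comp κ))
    (ob L.c₁ S).hom (by
      simp only [Over.mk_hom, Category.assoc, PL.pnt_π]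
      rw [← Spec.map_comp, ← Spec.map_comp, ← CommRingCat.ofHom_comp, ← CommRingCat.ofHom_comp,
        RingHom.comp_assoc, hκ, ← RingHom.comp_assoc, ← IsScalarTower.algebraMap_eq]))
    (pullback.lift_snd ..)
  have hw : Etale w.left := by
    have : Etale (w.left ≫ (D.gen L).hom) := by rw [Over.w w]; exact hW
    exact Etale.of_comp _ (D.gen L).hom
  let j := tw (D.u L) Q.A' Q.C'
  have H := pb_mono (tw L.c₁ R S) (j ≫ a)
  obtain ⟨hf, hc⟩ := hF l _ Q.C' _ _ (prT (ob L.c₁ S) (ob (D.u L) Q.C'))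
    (MorphismProperty.of_isPullback H.flip h2) (MorphismProperty.of_isPullback H.flip h3) hfld
    ⟨D.K, inferInstance, inferInstance, (algebraMap Q.A' Q.C').comp
      ((IsLocalization.Away.lift _ uA).comp κ), Nat.cast_ne_zero.2 (Fact.out : l.Prime).ne_zero⟩
    (hY l D _ Q hg0)
  refine ka hP hZ hC _ h1 h2 h3 (inferInstanceAs (IsAffine (Spec _)))
    (inferInstanceAs (IsLocallyNoetherian (Spec (.of R)))) (hl.of_hom (ob L.c₁ R).hom) j a d hd (fun c β h => ?_)
    t (ht _ w hw) hf hc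
  obtain ⟨β, rfl⟩ := (((hE _ Ug (Linf l _)).1 _ hWU 1).2 l (Fact.out : l.Prime).ne_zero).2 β
  have h' := hd' c β (((hE _ Ug (Linf l _)).1 _ ((ovU Ug).down (j ≫ a) hU) 1).1.1 (by
    rw [map_zero, ← h, post_apply, post_apply, Ext.comp_assoc_of_third_deg_zero]))
  rw [post_apply, ← Ext.comp_assoc_of_third_deg_zero, h', Ext.zero_comp]

end Pool.Agent.MP_855f4c_ag.AV.RG

end

section

/-! h67a, section RG: rows PAIRZ and CNT. -/

set_option autoImplicit false
set_option backward.isDefEq.respectTransparency false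

open CategoryTheory Limits Abelian Opposite AlgebraicGeometry Polynomial Function

namespace Pool.Agent.MP_855f4c_ag.AV.RG

open E E3 E4 T
open E.CV (Ln Lm)
open E.D (Aet TwN)

attribute [local irreducible] Ext.comp Ext.mk₀

namespace PZ

open E.D E.D.LNM

variable {X Y : Scheme.{0}} (n : ℕ)

/-- After restriction to a slice, `ℤ/n[W × Y] ⟶ ℤ/n[W]` has a section. -/
lemma split (ρ : Y ⟶ X) (W : Over X) :
    ∃ σ : (pb (J := Scheme.etaleTopology) ρ).obj (Ln n W) ⟶
      (pb (J := Scheme.etaleTopology) ρ).obj (Ln n ((Over.map ρ).obj ((Over.pullback ρ).obj W))),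
      σ ≫ (pb (J := Scheme.etaleTopology) ρ).map (Lm n ((Over.mapPullbackAdj ρ).counit.app W)) =
        𝟙 _ := by
  let U := (Over.pullback ρ).obj W
  let P := pb (J := Scheme.etaleTopology) ρ
  let a := taut (Scheme.etaleTopology.over X) (Scheme.etaleTopology.over Y) (Over.map ρ) U
  have h0 : ((n : ℤ) • 𝟙 _) ≫ pj n ((Over.map ρ).obj U) = 0 := cokernel.condition _
  let τ : Ln n U ⟶ P.obj (Ln n ((Over.map ρ).obj U)) :=
    cokernel.desc _ (a ≫ P.map (pj n _)) (by
      rw [Preadditive.zsmul_comp, Category.id_comp] at h0 ⊢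
      rw [← Preadditive.comp_zsmul, ← Functor.map_zsmul, h0, Functor.map_zero,
        Limits.comp_zero])
  have h1 : pj n U ≫ τ = a ≫ P.map (pj n _) := cokernel.π_desc _ _ _
  refine ⟨inv (ψ n ρ W) ≫ τ, ?_⟩
  rw [Category.assoc, IsIso.inv_comp_eq, Category.comp_id]
  refine (cancel_epi (pj n U)).1 ?_
  rw [← Category.assoc, h1, Category.assoc, ← Functor.map_comp]
  refine Eq.trans (congrArg (fun z => a ≫ P.map z) (π_Lm n _)) ?_
  rw [Functor.map_comp, ← Category.assoc]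
  exact (π_ψ n ρ W).symm

/-- Sections of `ℤ/n[W]` over `T` lift to `ℤ/n[W × T]`. -/
lemma lift (W T : Over X) (c : (fr (Scheme.etaleTopology.over X)).obj T ⟶ Ln n W) :
    ∃ c' : (fr (Scheme.etaleTopology.over X)).obj T ⟶ Ln n ((PW T).obj W),
      c' ≫ Lm n (prT T W) = c := by
  let i : (Over.map T.hom).obj (top T.left) ≅ T := Over.isoMk (Iso.refl _) rfl
  obtain ⟨σ, h⟩ := split n T.hom W
  let s := frEquiv _ _ ((fr (Scheme.etaleTopology.over X)).map i.hom ≫ c)
  refine ⟨(fr _).map i.inv ≫ (frEquiv _ _).symm (σ.hom.app (op (top T.left)) s), ?_⟩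
  rw [Category.assoc, ← cancel_epi ((fr (Scheme.etaleTopology.over X)).map i.hom),
    ← Category.assoc, ← Functor.map_comp, i.hom_inv_id, CategoryTheory.Functor.map_id,
    Category.id_comp]
  refine (frEquiv _ _).injective ?_
  rw [frEquiv_post, AddEquiv.apply_symm_apply]
  exact congr(($h).hom.app (op (top T.left)) s)

lemma card_hom (l : ℕ) [Fact l.Prime] (G : Type 1) [AddCommGroup G] [Finite G] :
    Finite (G →+ QZ l) ∧ Nat.card (G →+ QZ l) ≤ Nat.card G := by
  obtain ⟨f, hf, -⟩ := mui_alg l ℂ (Nat.cast_ne_zero.2 (Fact.out : l.Prime).ne_zero)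
  have : NeZero ((Monoid.exponent (Multiplicative G) : ℕ) : ℂ) :=
    ⟨Nat.cast_ne_zero.2 Monoid.exponent_ne_zero_of_finite⟩
  obtain ⟨e⟩ := CommGroup.monoidHom_mulEquiv_of_hasEnoughRootsOfUnity (Multiplicative G) ℂ
  have h : Injective fun φ : G →+ QZ l =>
      Multiplicative.toAdd (e (AddMonoidHom.toMultiplicativeLeft (f.comp φ))) := fun φ φ' h => by
    have h1 := AddMonoidHom.toMultiplicativeLeft.injective
      (e.injective (Multiplicative.toAdd.injective h))
    exact AddMonoidHom.ext fun x => hf (DFunLike.congr_fun h1 x)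
  exact ⟨.of_injective _ h, Nat.card_le_card_of_injective _ h⟩

lemma ex_lift {V W T : Over X} (a : V ⟶ W) (b : V ⟶ T) :
    ∃ m : V ⟶ (PW W).obj T, m ≫ prW W T = a :=
  ⟨Over.homMk (pullback.lift b.left a.left ((Over.w b).trans (Over.w a).symm))
    ((pullback.lift_snd_assoc _ _ _ _).trans (Over.w a)),
    Over.OverMorphism.ext (pullback.lift_snd _ _ _)⟩

lemma van {l : ℕ} [Fact l.Prime] {V V' W : Over X} (m : V ⟶ V') (a : V' ⟶ W)
    (β : Ext (Ln l W) (Linf l X) 1) (h : res a _ 1 (pre (pj l W) (Linf l X) 1 β) = 0) :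
    pre (Lm l (m ≫ a)) _ 1 β = 0 := by
  refine K1.tau_inj V _ ((pre_pre (pj l V) _ β).trans ?_)
  rw [π_Lm, Functor.map_comp, Category.assoc, ← pre_pre, ← pre_pre, h, map_zero]

end PZ

theorem pairz : PAIRZ_s := by
  intro l _ X W T β hβ c
  obtain ⟨c, rfl⟩ := (Ext.mk₀_bijective _ _).2 c
  obtain ⟨c', rfl⟩ := PZ.lift l W T c
  obtain ⟨m, hm⟩ := PZ.ex_lift (prT T W) (prW T W)
  have he := PZ.van m _ β hβ
  rw [hm] at he
  exact (pre_pre c' _ β).symm.trans ((congrArg (pre c' _ 1) he).trans (map_zero _))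

theorem cnt : CNT_s := by
  intro l _ A B N _ _ _ r b hN hc hb hr
  have : Finite (B ⧸ r.ker) := .of_injective _ (QuotientAddGroup.kerLift_injective r)
  obtain ⟨_, h2⟩ := PZ.card_hom l (B ⧸ r.ker)
  have h : Injective fun x : A => QuotientAddGroup.lift r.ker (b x) fun y hy => hr y hy x :=
    fun x x' h => sub_eq_zero.1 (hb _ fun y => by
      rw [map_sub, AddMonoidHom.sub_apply, sub_eq_zero]
      exact DFunLike.congr_fun h (y : B ⧸ r.ker))
  have h3 := (QuotientAddGroup.kerLift_injective r).bijective_of_nat_card_le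
    (hc.trans ((Nat.card_le_card_of_injective _ h).trans h2))
  intro z
  obtain ⟨y, rfl⟩ := h3.2 z
  obtain ⟨y, rfl⟩ := QuotientAddGroup.mk_surjective y
  exact ⟨y, rfl⟩

end Pool.Agent.MP_855f4c_ag.AV.RG

end

section

/-! h67a, section RG, row FLD: `H¹` of a finite product of fields with cyclic `Eˣ / l`. -/

set_option autoImplicit false
set_option backward.isDefEq.respectTransparency false

open CategoryTheory Limits Abelian Opposite AlgebraicGeometry Function

namespace Pool.Agent.MP_855f4c_ag.AV.RG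

open E E3 E4 T

namespace FLD

lemma sep {A : Type} [CommRing A] (h : Fld A) (q : Ideal A) [hq : q.IsPrime] :
    ∃ f ∉ q, ∀ x ∈ q, f * x = 0 := by
  classical
  obtain ⟨h1, h2, h3⟩ := h
  have := Fintype.ofFinite (PrimeSpectrum A)
  have H : ∀ p : PrimeSpectrum A, ∃ g ∉ q, p.asIdeal ≠ q → g ∈ p.asIdeal := fun p => by
    by_cases e : p.asIdeal = q
    · exact ⟨1, (Ideal.ne_top_iff_one q).1 hq.ne_top, fun h => absurd e h⟩
    · obtain ⟨g, g1, g2⟩ := SetLike.not_le_iff_exists.1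
        fun hle => e ((h3 _ p.isPrime).eq_of_le hq.ne_top hle)
      exact ⟨g, g2, fun _ => g1⟩
  choose g g1 g2 using H
  refine ⟨∏ p, g p, fun hm => ?_, fun x hx => ?_⟩
  · obtain ⟨p, -, hp⟩ := Ideal.IsPrime.prod_mem_iff.1 hm
    exact g1 p hp
  · refine IsNilpotent.eq_zero (nilpotent_iff_mem_prime.2 fun J hJ => ?_)
    by_cases e : J = q
    · exact e ▸ q.mul_mem_left _ hx
    · exact J.mul_mem_right _
        (J.mem_of_dvd (Finset.dvd_prod_of_mem g (Finset.mem_univ ⟨J, hJ⟩)) (g2 ⟨J, hJ⟩ e))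

lemma away {A : Type} [CommRing A] (h : Fld A) (q : Ideal A) [hq : q.IsPrime] :
    ∃ f : A, IsLocalization.Away f (A ⧸ q) := by
  obtain ⟨f, f1, f2⟩ := sep h q
  have := h.2.2 q hq
  let := Ideal.Quotient.field q
  refine ⟨f, IsLocalization.Away.mk f ?_ (fun z => ?_) fun x y e => ⟨1, ?_⟩⟩
  · exact isUnit_iff_ne_zero.2 fun e => f1 (Ideal.Quotient.eq_zero_iff_mem.1 e)
  · obtain ⟨x, rfl⟩ := Ideal.Quotient.mk_surjective z
    exact ⟨0, x, by simp⟩
  · have := f2 _ (Ideal.Quotient.eq.1 e)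
    rw [pow_one, ← sub_eq_zero, ← mul_sub, this]

lemma art {A : Type} [CommRing A] (h : Fld A) : IsArtinianRing A := by
  obtain ⟨h1, h2, h3⟩ := h
  have H : ∀ p : PrimeSpectrum A, IsArtinian A (A ⧸ p.asIdeal) := fun p => by
    have := h3 _ p.isPrime
    let := Ideal.Quotient.field p.asIdeal
    exact isArtinian_of_surjective_algebraMap (R := A ⧸ p.asIdeal) Ideal.Quotient.mk_surjective
  refine isArtinian_of_injective (LinearMap.pi fun p : PrimeSpectrum A => p.asIdeal.mkQ)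
    ((injective_iff_map_eq_zero _).2 fun x hx => ?_)
  exact IsNilpotent.eq_zero (nilpotent_iff_mem_prime.2 fun J hJ =>
    Ideal.Quotient.eq_zero_iff_mem.1 (congrFun hx ⟨J, hJ⟩))

lemma up {A B : Type} [CommRing A] [CommRing B] [Algebra A B] [Module.Finite A B]
    [Algebra.Etale A B] (h : Fld A) : Fld B := by
  have := art h
  have : IsArtinianRing B := IsArtinianRing.of_finite A B
  refine ⟨⟨fun x hx => ?_⟩, inferInstance, fun q _ => inferInstance⟩
  have H : ∀ p : PrimeSpectrum A, ∃ f ∉ p.asIdeal, f • x = 0 := fun p => by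
    obtain ⟨f, f1, f2⟩ := sep h p.asIdeal
    have := h.2.2 _ p.isPrime
    let := Ideal.Quotient.field p.asIdeal
    have : Algebra.FormallyUnramified (A ⧸ p.asIdeal) (B ⧸ p.asIdeal.map (algebraMap A B)) :=
      .of_restrictScalars A _ _
    have : Module.Finite (A ⧸ p.asIdeal) (B ⧸ p.asIdeal.map (algebraMap A B)) :=
      .of_restrictScalars_finite A _ _
    have := Algebra.FormallyUnramified.isReduced_of_field (A ⧸ p.asIdeal)
      (B ⧸ p.asIdeal.map (algebraMap A B))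
    have h0 : x ∈ p.asIdeal.map (algebraMap A B) :=
      Ideal.Quotient.eq_zero_iff_mem.1 (hx.map (Ideal.Quotient.mk _)).eq_zero
    refine ⟨f, f1, ?_⟩
    refine Submodule.span_induction (p := fun y _ => f • y = 0) ?_ (smul_zero f)
      (fun a b _ _ ha hb => by rw [smul_add, ha, hb, add_zero])
      (fun a b _ hb => by rw [smul_comm, hb, smul_zero]) h0
    rintro _ ⟨a, ha, rfl⟩
    rw [Algebra.smul_def, ← map_mul, f2 a ha, map_zero]
  by_contra hx0
  obtain ⟨m, hm, hle⟩ := Ideal.exists_le_maximal (Ideal.torsionOf A B x)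
    (fun e => hx0 ((Ideal.torsionOf_eq_top_iff A x).1 e))
  obtain ⟨f, f1, f2⟩ := H ⟨m, hm.isPrime⟩
  exact f1 (hle ((Ideal.mem_torsionOf_iff x f).2 f2))

lemma grp (l : ℕ) [hl : Fact l.Prime] {M : Type 1} [AddCommGroup M] (h1 : ∀ x : M, (l : ℤ) • x = 0)
    (h2 : ∀ x y : M, ∃ a b : ℤ, ¬ ((l : ℤ) ∣ a ∧ (l : ℤ) ∣ b) ∧ a • x + b • y = 0) :
    ∃ f : ZMod l → M, Surjective f := by
  have hp : Prime (l : ℤ) := Nat.prime_iff_prime_int.1 hl.out
  have inv : ∀ (b : ℤ) (y : M), ¬ (l : ℤ) ∣ b → ∃ c : ℤ, y = c • b • y := fun b y hb => by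
    obtain ⟨u, v, e⟩ := (hp.irreducible.coprime_iff_not_dvd).2 hb
    refine ⟨v, ?_⟩
    conv_lhs => rw [← one_smul ℤ y, ← e, add_smul, mul_smul, h1, smul_zero, zero_add, mul_smul]
  by_cases h0 : ∀ x : M, x = 0
  · exact ⟨fun _ => 0, fun y => ⟨0, (h0 y).symm⟩⟩
  obtain ⟨x, hx⟩ := not_forall.1 h0
  refine ⟨ZMod.lift l ⟨zmultiplesHom _ x, h1 x⟩, fun y => ?_⟩
  obtain ⟨a, b, hab, e⟩ := h2 x y
  by_cases hb : (l : ℤ) ∣ b
  · obtain ⟨c, hc⟩ := inv a x fun ha => hab ⟨ha, hb⟩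
    obtain ⟨d, rfl⟩ := hb
    rw [mul_comm, mul_smul, h1, smul_zero, add_zero] at e
    exact absurd (by rw [hc, e, smul_zero]) hx
  · obtain ⟨c, hc⟩ := inv b y hb
    refine ⟨((-(c * a) : ℤ) : ZMod l), (ZMod.lift_coe _ _ _).trans ?_⟩
    rw [hc, ← neg_eq_iff_add_eq_zero.2 e, smul_neg, ← mul_smul, ← neg_smul]
    rfl

lemma one (l : ℕ) [hl : Fact l.Prime] {X : Scheme.{0}} {E k : Type} [Field E] [Field k]
    [IsAlgClosed k] (φ : k →+* E) (hk : (l : k) ≠ 0) (a : Spec (.of E) ⟶ X) (h : Cyc l E) :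
    ∃ f : ZMod l → H (Over.mk a) (Zl X l 1) 1, Surjective f := by
  have : NeZero (l ^ 1) := ⟨pow_ne_zero _ hl.out.ne_zero⟩
  have hE : ((l ^ 1 : ℕ) : E) ≠ 0 := by
    rw [pow_one, ← map_natCast φ]
    exact (map_ne_zero φ).2 hk
  have hn : Linv (l ^ 1) (Spec (.of E)) := Linv.spec (isUnit_iff_ne_zero.2 hE)
  obtain ⟨e⟩ := D.D1.mu_iso (l ^ 1) k (spc φ) (by rwa [pow_one])
  let θ : (Over.map a).obj (Over.mk (𝟙 (Spec (.of E)))) ≅ Over.mk a :=
    Over.isoMk (Iso.refl _) ((Category.id_comp _).trans (Category.id_comp _).symm)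
  have b1 := M2.cmpH_bij a θ.hom (M2.cZ a l 1 ≫ e.hom) 1
  obtain ⟨k1, k2, k3, -⟩ := CV.kapR _ _ hn E (𝟙 _)
  have ks := CV.kumfA _ _ hn E (𝟙 _)
  obtain ⟨f, hf⟩ := grp l (M := H (Over.mk (𝟙 (Spec (.of E)))) (mu _ (l ^ 1)) 1) (fun x => by
    obtain ⟨u, rfl⟩ := ks x
    exact (k2 u l).symm.trans ((k3 _).2 ⟨u, by rw [pow_one, zpow_natCast]⟩)) fun x y => by
    obtain ⟨u, rfl⟩ := ks x
    obtain ⟨v, rfl⟩ := ks y
    obtain ⟨c, d, hcd, z, hz⟩ := h u v
    refine ⟨c, d, hcd, ?_⟩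
    rw [← k2, ← k2, ← k1]
    exact (k3 _).2 ⟨z, by rw [pow_one, hz]⟩
  exact ⟨(Equiv.ofBijective _ b1).symm ∘ f, (Equiv.surjective _).comp hf⟩

lemma zero (l : ℕ) [hl : Fact l.Prime] {X : Scheme.{0}} (Y : Over X) [Finite Y.left]
    [DiscreteTopology Y.left] : Nat.card (Y.left → ZMod l) ≤ Nat.card (H Y (Zl X l 1) 0) := by
  let M : Ab.{1} := .of (ULift.{1} (ZMod (l ^ 1)))
  have : NeZero (l ^ 1) := ⟨pow_ne_zero _ hl.out.ne_zero⟩
  have h1 : Bijective (((E4.cstIso X).hom.app M).hom.app (op Y)) :=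
    ConcreteCategory.bijective_of_isIso
      (((sheafToPresheaf _ _).map ((E4.cstIso X).hom.app M)).app (op Y))
  let e1 : sec (Zl X l 1) Y ≃ LocallyConstant Y.left M := Equiv.ofBijective _ h1
  let e2 : LocallyConstant Y.left M ≃ (Y.left → M) :=
    ⟨fun f => f, fun f => ⟨f, IsLocallyConstant.of_discrete f⟩, fun _ => rfl, fun _ => rfl⟩
  rw [Nat.card_congr ((SA.sec0 Y (Zl X l 1)).symm.toEquiv.trans (e1.trans e2)), Nat.card_fun,
    Nat.card_fun]
  refine le_of_eq (congrArg (· ^ _) ?_)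
  change _ = Nat.card (ULift.{1} (ZMod (l ^ 1)))
  rw [Nat.card_ulift, pow_one]

end FLD

open FLD in
theorem fld : FLD_s := by
  intro l _ X A _ u Y y hf he hA ⟨k, _, _, φ, hk⟩ hc
  have : IsAffine (Over.mk u).left := inferInstanceAs (IsAffine (Spec _))
  have : IsAffine Y.left := isAffine_of_isAffineHom y.left
  obtain ⟨ψ, hψ⟩ := Spec.map_surjective (R := .of A) (Y.left.isoSpec.inv ≫ y.left)
  have h1 : IsFinite (Spec.map ψ) := hψ ▸ inferInstance
  have h2 : Etale (Spec.map ψ) := hψ ▸ inferInstance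
  let B : Type := Γ(Y.left, ⊤)
  let _ : Algebra A B := ψ.hom.toAlgebra
  have : Module.Finite A B := (IsFinite.SpecMap_iff ψ).1 h1
  have : Algebra.Etale A B := (HasRingHomProperty.Spec_iff (P := @Etale)).1 h2
  have hB : Fld B := up (A := A) hA
  have := hB.2.1
  have := art hB
  let τ : Y.left ≃ₜ PrimeSpectrum B := Scheme.homeoOfIso Y.left.isoSpec
  have : Finite Y.left := Finite.of_equiv _ τ.toEquiv.symm
  have : DiscreteTopology Y.left := τ.symm.discreteTopology
  let j : ∀ z : Y.left, Spec (.of (B ⧸ (τ z).asIdeal)) ⟶ Y.left := fun z =>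
    spc (algebraMap B _) ≫ Y.left.isoSpec.inv
  have hj : ∀ z, IsOpenImmersion (j z) := fun z => by
    obtain ⟨f, _⟩ := away hB (τ z).asIdeal
    have : IsOpenImmersion (spc (algebraMap B (B ⧸ (τ z).asIdeal))) :=
      IsOpenImmersion.of_isLocalization f
    exact inferInstanceAs (IsOpenImmersion (_ ≫ _))
  have hr : ∀ z, z ∈ Set.range (j z) := fun z => by
    have : τ z ∈ Set.range (PrimeSpectrum.comap (algebraMap B (B ⧸ (τ z).asIdeal))) := by
      refine (range_comap_of_surjective _ _ Ideal.Quotient.mk_surjective).ge ?_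
      exact (Ideal.mk_ker (I := (τ z).asIdeal)).le
    obtain ⟨w, hw⟩ := this
    exact ⟨w, (congrArg τ.symm hw).trans (τ.symm_apply_apply z)⟩
  let c : ∀ z : Y.left, Over.mk (j z ≫ Y.hom) ⟶ Y := fun z => Over.homMk (j z)
  have H1 : ∀ z, ∃ f : ZMod l → H (Over.mk (j z ≫ Y.hom)) (Zl X l 1) 1, Surjective f := fun z => by
    have := hB.2.2 _ (τ z).isPrime
    let := Ideal.Quotient.field (τ z).asIdeal
    exact one l ((algebraMap A (B ⧸ (τ z).asIdeal)).comp φ) hk _
      (hc _ (algebraMap A _) (algebraMap_isIntegral_iff.2 inferInstance))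
  choose f hf using H1
  have hi : Injective fun (x : H Y (Zl X l 1) 1) z => res (c z) _ 1 x := fun x x' e =>
    sub_eq_zero.1 ((D.clop X Y (Zl X l 1) 1).2 Y.left _ c (fun z => ⟨hj z, isClosed_discrete _⟩)
      (fun z => ⟨z, hr z⟩) _ fun z => by rw [map_sub, sub_eq_zero]; exact congrFun e z)
  have hs : Surjective fun (g : Y.left → ZMod l) z => f z (g z) := Surjective.piMap hf
  have := Finite.of_surjective _ hs
  exact ⟨Finite.of_injective _ hi, (Nat.card_le_card_of_injective _ hi).trans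
    ((Nat.card_le_card_of_surjective _ hs).trans (zero l Y))⟩

end Pool.Agent.MP_855f4c_ag.AV.RG

end

section

/-! h67a, section RG: the final glue. -/

set_option autoImplicit false
set_option backward.isDefEq.respectTransparency false

open CategoryTheory Limits Abelian Opposite AlgebraicGeometry Polynomial Function IsLocalRing

namespace Pool.Agent.MP_855f4c_ag.AV.RG

open E E3 E4 T
open E.CV (Ln Lm)
open E.D (Aet)

lemma BC.slice {X Y : Scheme.{0}} (a : Y ⟶ X) (F : Sh (Scheme.etaleTopology.over X)) (q : ℕ)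
    (h : Z (top Y) ((pb (J := Scheme.etaleTopology) a).obj F) q) : Z (Over.mk a) F q := by
  intro x
  let i : (Over.map a).obj (top Y) ≅ Over.mk a := Over.isoMk (Iso.refl _) (by simp)
  refine (pre_bij ((fr _).map i.hom) F q).1 ((slH_bij a (top Y) _ q).1 ?_)
  rw [h (slH a (top Y) F q _), map_zero, map_zero]

lemma BC.away {V K : Type} [CommRing V] [IsDomain V] [IsLocalRing V] [Field K] [Algebra V K]
    [IsFractionRing V K] (mx : ∀ q : Ideal V, q.IsPrime → q ≠ ⊥ → q.IsMaximal) {p : V}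
    (h0 : p ≠ 0) (hp : ¬ IsUnit p) : IsLocalization.Away p K := by
  refine IsLocalization.iff_of_le_of_exists_dvd (Submonoid.powers p) (nonZeroDivisors V)
    (powers_le_nonZeroDivisors_of_noZeroDivisors h0) ?_ |>.2 inferInstance
  intro x hx
  have : p ∈ (Ideal.span {x}).radical := by
    rw [Ideal.radical_eq_sInf, Submodule.mem_sInf]
    rintro q ⟨h1, h2⟩
    rw [eq_maximalIdeal (mx q h2 fun e => nonZeroDivisors.ne_zero hx
      (Ideal.mem_bot.1 (e ▸ h1 (Ideal.mem_span_singleton_self x))))]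
    exact hp
  obtain ⟨n, hn⟩ := this
  exact ⟨p ^ n, ⟨n, rfl⟩, Ideal.mem_span_singleton.1 hn⟩

theorem bc (hA : ALG_s) (hP : PTS_s) (hF : BCF_s) (hZ : ZZ_s) (hV : DEV_s) (hD : DESC_s)
    (hC : CORE_s) : BC_s := by
  intro l _ V O O₀ _ _ _ _ _ _ _ _ _ P a F aic mx ul germ hT
  let : Algebra V[X] O₀ := ((algebraMap O O₀).comp (algebraMap V[X] O)).toAlgebra
  have : IsScalarTower V[X] O O₀ := .of_algebraMap_eq fun _ => rfl
  have hI : IndEt V[X] O₀ := germ.ind.comp
    (IndEt.of_isLocalization (Submonoid.powers (algebraMap V[X] O X)))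
  have ul₀ : IsUnit (l : O₀) := by simpa using ul.map ((algebraMap V[X] O₀).comp C)
  by_cases hV' : IsField V
  · let := (hF V O O₀ hV' germ).toField
    obtain ⟨⟨k, _, _, _, h1, h2⟩, h3⟩ := hP l V O₀ _ aic ul
      (hA V[X] O₀ O₀ (RingHom.id _) hI (RingHom.isIntegral_of_surjective _ surjective_id))
    refine ⟨CV.cdfA l k O₀ h1 h2 P a F hT, fun h q x => ?_⟩
    rcases h3 with h3 | h3
    · refine CV.zf CV.nsl l O₀ (AlgebraicClosure O₀) (algebraMap _ _) ul₀.ne_zero P a F hT.1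
        (h _ _ fun f hf i => ?_) _ (𝟙 _) _ x
      exact (congrArg (algebraMap O₀ (AlgebraicClosure O₀)) (h3 f ((map_eq_zero (algebraMap O₀ (AlgebraicClosure O₀))).1 hf) i)).trans (map_zero _)
    · exact wc_H (SHL.wc O₀) a F q x
  obtain ⟨p, hp, h0⟩ := Ring.exists_not_isUnit_of_not_isField hV'
  have := aic.isAlgClosed (FractionRing V)
  have := BC.away (K := FractionRing V) mx hp h0
  let D : GD l := { V := V, K := FractionRing V, O := O, O₀ := O₀, p := p, aic := aic, mx := mx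
                    np := h0, ul := ul, germ := germ }
  refine ⟨fun q => ?_, fun h => (hZ l D P a F hT).2.2.2 h⟩
  cases q with
  | succ q => exact (hZ l D P a F hT).2.1 q
  | zero =>
    exact BC.slice a F 2 (hV l (Spec (.of O₀)) 2 (Linv.spec ul₀)
      (fun G hG => (hZ l D _ (𝟙 _) G hG).2.1 0)
      (hD l _ V[X] O₀ (PL.std _).c₁ 2 inferInstance hI fun S _ _ _ => hC l D (PL.std _) S) _
      (hT.pb a))

end Pool.Agent.MP_855f4c_ag.AV.RG

end

section

/-! h67a, section RG, row DEV: devissage to the sheaves `Ln l W`. -/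

set_option autoImplicit false
set_option backward.isDefEq.respectTransparency false

open CategoryTheory Limits Abelian Opposite AlgebraicGeometry Function

namespace Pool.Agent.MP_855f4c_ag.AV.RG

open E E3 E4 T
open E.CV (Ln Lm)
open E.D (Aet TwN)

namespace Dev

variable {X : Scheme.{0}} {l N : ℕ} {T : Over X}

theorem rex {G F : Sh (Scheme.etaleTopology.over X)} (a : G ⟶ F) [Epi a]
    (h1 : Z T (kernel a) (N + 1)) (hG : Z T G N) : Z T F N := fun x => by
  have hS : (ShortComplex.mk _ _ (kernel.condition a)).ShortExact :=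
    { exact := ShortComplex.exact_kernel a }
  obtain ⟨y, rfl⟩ := Ext.covariant_sequence_exact₃ _ hS x rfl (h1 _)
  rw [hG y, Ext.zero_comp]

theorem mid {G F : Sh (Scheme.etaleTopology.over X)} (i : G ⟶ F) [Mono i]
    (h1 : Z T G N) (h3 : Z T (cokernel i) N) : Z T F N := fun x => by
  have hS : (ShortComplex.mk _ _ (cokernel.condition i)).ShortExact :=
    { exact := ShortComplex.exact_cokernel i }
  obtain ⟨y, rfl⟩ := Ext.covariant_sequence_exact₂ _ hS x (h3 _)
  rw [h1 y, Ext.zero_comp]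

theorem sum [IsAffine X] {ι : Type 1} (F : ι → Sh (Scheme.etaleTopology.over X))
    (h : ∀ i, Z (top X) (F i) N) : Z (top X) (∐ F) N := fun x => by
  have : IsAffine (top X).left := inferInstanceAs (IsAffine X)
  obtain ⟨s, y, rfl⟩ := D.sumh X (top X) ι F N x
  exact Finset.sum_eq_zero fun i _ => by rw [h i (y i), map_zero]

theorem epi_ker {F : Sh (Scheme.etaleTopology.over X)} (hF : Tor l F.obj) :
    Epi (Sigma.desc fun m : ULift.{1} ℕ => kernel.ι (l ^ m.down • 𝟙 F)) := by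
  refine Abelian.epi_of_cokernel_π_eq_zero _ ?_
  have hπ (m : ℕ) : kernel.ι (l ^ m • 𝟙 F) ≫
      cokernel.π (Sigma.desc fun m : ULift.{1} ℕ => kernel.ι (l ^ m.down • 𝟙 F)) = 0 := by
    rw [← Sigma.ι_desc (fun m : ULift.{1} ℕ => kernel.ι (l ^ m.down • 𝟙 F)) ⟨m⟩, Category.assoc,
      cokernel.condition, comp_zero]
  generalize cokernel.π (Sigma.desc fun m : ULift.{1} ℕ => kernel.ι (l ^ m.down • 𝟙 F)) = π at hπ
  ext U s
  refine CLM.sec_ext _ fun t => ?_
  obtain ⟨V, v, h1, h2, -, h3⟩ :=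
    exists_of_mem_Jov ((Scheme.etaleTopology.over X).top_mem U.unop) t
  refine ⟨V, v, h2, ?_, h3⟩
  obtain ⟨m, hm⟩ := hF V h1 (F.obj.map v.op s)
  obtain ⟨a, ha⟩ := (frEquiv V F).surjective (F.obj.map v.op s)
  rw [← ha, ← map_nsmul, map_eq_zero_iff _ (frEquiv V F).injective] at hm
  have e : a ≫ π = 0 := by
    rw [← kernel.lift_ι (l ^ m • 𝟙 F) a (by rw [Preadditive.comp_nsmul, Category.comp_id, hm]),
      Category.assoc, hπ, comp_zero]
  exact ((nat π.hom v s).symm.trans ((congrArg _ ha.symm).trans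
    ((congrArg (frEquiv V _) e).trans (map_zero _)))).trans (map_zero _).symm

theorem ker_tors (n : ℕ) (F : Sh (Scheme.etaleTopology.over X)) :
    n • 𝟙 (kernel (n • 𝟙 F)) = 0 := by
  rw [← cancel_mono (kernel.ι (n • 𝟙 F)), Preadditive.nsmul_comp, Category.id_comp, zero_comp,
    ← Category.comp_id (kernel.ι (n • 𝟙 F)), ← Preadditive.comp_nsmul, kernel.condition]

theorem one [Fact l.Prime] [IsAffine X] (hl : Linv l X) (h1 : ∀ F, Tc l F → Z (top X) F (N + 1))
    (hW : ∀ W : Over X, Aet W → Z (top X) (Ln l W) N) (F : Sh (Scheme.etaleTopology.over X))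
    (hF : Tc l F) (h : l • 𝟙 F = 0) : Z (top X) F N := by
  obtain ⟨ι, W, a, ha, he, hT, -⟩ := D.genb D.lnm l X l F (fun _ _ => True) ⟨1, (pow_one l).symm⟩
    hl hF h fun W hW _ w => ⟨W, 𝟙 W, hW, ⟨w, rfl⟩, trivial⟩
  have h2 : Z (top X) (∐ fun i => Ln l (W i)) N := sum _ fun i => hW (W i) (ha i).1
  exact rex (Sigma.desc a) (h1 _ (Tc.ker (Sigma.desc a) hT hF.1)) h2

theorem cok_tors (e : ℕ) (F : Sh (Scheme.etaleTopology.over X)) (h : l ^ (e + 1) • 𝟙 F = 0) :
    l ^ e • 𝟙 (cokernel (kernel.ι (l • 𝟙 F))) = 0 := by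
  have h1 : (l ^ e • 𝟙 F) ≫ (l • 𝟙 F) = 0 := by
    rw [Preadditive.nsmul_comp, Category.id_comp, ← mul_smul, ← pow_succ, h]
  have h2 : (l ^ e • 𝟙 F) ≫ cokernel.π (kernel.ι (l • 𝟙 F)) = 0 := by
    rw [← kernel.lift_ι (l • 𝟙 F) (l ^ e • 𝟙 F) h1, Category.assoc, cokernel.condition, comp_zero]
  rw [Preadditive.nsmul_comp, Category.id_comp] at h2
  rw [← cancel_epi (cokernel.π (kernel.ι (l • 𝟙 F))), comp_zero, Preadditive.comp_nsmul,
    Category.comp_id, h2]

theorem pw (A : ∀ F, Tc l F → l • 𝟙 F = 0 → Z T F N) (e : ℕ) :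
    ∀ F : Sh (Scheme.etaleTopology.over X), Tc l F → l ^ e • 𝟙 F = 0 → Z T F N := by
  induction e with
  | zero =>
    intro F hF h
    rw [pow_zero, one_smul] at h
    exact A F hF (by rw [h, smul_zero])
  | succ e ih =>
    intro F hF h
    have hK := Tc.ker (l • 𝟙 F) hF hF.1
    exact mid (kernel.ι (l • 𝟙 F)) (A _ hK (ker_tors l F))
      (ih _ (Tc.coker (kernel.ι (l • 𝟙 F)) hK.1 hF) (cok_tors e F h))

theorem all [IsAffine X] (h1 : ∀ F, Tc l F → Z (top X) F (N + 1))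
    (A : ∀ F, Tc l F → l • 𝟙 F = 0 → Z (top X) F N) (F : Sh (Scheme.etaleTopology.over X))
    (hF : Tc l F) : Z (top X) F N := by
  let K : ULift.{1} ℕ → Sh (Scheme.etaleTopology.over X) := fun m => kernel (l ^ m.down • 𝟙 F)
  let a : ∐ K ⟶ F := Sigma.desc fun m => kernel.ι (l ^ m.down • 𝟙 F)
  have he : Epi a := epi_ker hF.2
  have hK (m : ULift.{1} ℕ) : Tc l (K m) := Tc.ker (l ^ m.down • 𝟙 F) hF hF.1
  have h2 : Z (top X) (∐ K) N := sum K fun m => pw A m.down (K m) (hK m) (ker_tors _ F)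
  have h3 : Tc l (kernel a) := Tc.ker a (Tc.sigma K hK) hF.1
  exact rex a (h1 _ h3) h2

end Dev

theorem dev : DEV_s := fun _ _ _ _ _ hl h1 hW => Dev.all h1 (Dev.one hl h1 hW)

end Pool.Agent.MP_855f4c_ag.AV.RG

end

section

/-! h67a, section RG: row PUSH. -/

set_option autoImplicit false
set_option backward.isDefEq.respectTransparency false

open CategoryTheory Limits Abelian Opposite AlgebraicGeometry Polynomial Function

namespace Pool.Agent.MP_855f4c_ag.AV.RG

open E E3 E4 T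
open E.CV (Ln Lm)
open E.D (Aet TwN)

namespace PU

variable {X : Scheme.{0}} {U W : Over X} (ρ : W ⟶ U) [Mono U.hom]

lemma left_eq {T : Over X} (a b : T.left ⟶ U.left) (h : a ≫ U.hom = T.hom)
    (h' : b ≫ U.hom = T.hom) : a = b := (cancel_mono U.hom).1 (h.trans h'.symm)

/-- `W` over `U` is the base change of `W` over `X`. -/
noncomputable def κ : (Over.map ρ.left).obj (top W.left) ⟶ (Over.pullback U.hom).obj W :=
  Over.homMk (pullback.lift (𝟙 _) ρ.left ((Category.id_comp _).trans (Over.w ρ).symm))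
    ((pullback.lift_snd _ _ _).trans (Category.id_comp _).symm)

instance : IsIso (κ ρ) := isIso_homMk _ <|
  ⟨pullback.fst W.hom U.hom, pullback.lift_fst _ _ _, by
    refine pullback.hom_ext ?_ ?_
    · exact (Category.assoc _ _ _).trans ((congrArg _ (pullback.lift_fst _ _ _)).trans
        ((Category.comp_id _).trans (Category.id_comp _).symm))
    · refine (Category.assoc _ _ _).trans ((congrArg _ (pullback.lift_snd _ _ _)).trans ?_)
      refine Eq.trans ?_ (Category.id_comp _).symm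
      rw [← cancel_mono U.hom, Category.assoc, Over.w ρ]
      exact pullback.condition⟩

/-- An object over `U`, seen over `X`. -/
noncomputable def ι {T : Over X} (a : T ⟶ U) : (Over.map U.hom).obj (Over.mk a.left) ⟶ T :=
  Over.homMk (𝟙 _) ((Category.id_comp _).trans (Over.w a).symm)

omit [Mono U.hom] in
lemma ι_iso {T : Over X} (a : T ⟶ U) : IsIso (ι a) :=
  isIso_homMk _ (inferInstanceAs (IsIso (𝟙 T.left)))

/-- A map of objects over `U`. -/
noncomputable def gm {T' T : Over X} (g : T' ⟶ T) (a' : T' ⟶ U) (a : T ⟶ U) :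
    Over.mk a'.left ⟶ Over.mk a.left :=
  Over.homMk g.left (left_eq _ _ (Over.w (g ≫ a)) (Over.w a'))

lemma ι_gm {T' T : Over X} (g : T' ⟶ T) (a' : T' ⟶ U) (a : T ⟶ U) :
    (Over.map U.hom).map (gm g a' a) ≫ ι a = ι a' ≫ g :=
  Over.OverMorphism.ext ((Category.comp_id g.left).trans (Category.id_comp g.left).symm)

lemma sq {T : Over X} (a : T ⟶ U) :
    pullback.fst T.hom W.hom ≫ a.left = pullback.snd T.hom W.hom ≫ ρ.left := by
  rw [← cancel_mono U.hom, Category.assoc, Category.assoc, Over.w ρ, Over.w a]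
  exact pullback.condition

/-- The product over `X` is the product over `U`. -/
noncomputable def μ {T : Over X} (a : T ⟶ U) :
    (PW W).obj T ⟶ (Over.map W.hom).obj ((Over.pullback ρ.left).obj (Over.mk a.left)) :=
  (Over.map W.hom).map (Over.homMk (pullback.lift _ _ (sq ρ a)) (pullback.lift_snd _ _ _))

lemma μ_iso {T : Over X} (a : T ⟶ U) : IsIso (μ ρ a) := isIso_homMk _ <|
  ⟨pullback.lift (pullback.fst a.left ρ.left) (pullback.snd a.left ρ.left) (by
      rw [← Over.w ρ, ← Over.w a, ← Category.assoc, pullback.condition, Category.assoc]),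
    pullback.hom_ext (by simp [μ]) (by simp [μ]), pullback.hom_ext (by simp [μ]) (by simp [μ])⟩

lemma μ_gm {T' T : Over X} (g : T' ⟶ T) (a' : T' ⟶ U) (a : T ⟶ U) :
    (PW W).map g ≫ μ ρ a =
      μ ρ a' ≫ (Over.map W.hom).map ((Over.pullback ρ.left).map (gm g a' a)) :=
  Over.OverMorphism.ext (pullback.hom_ext (by simp [μ, gm]) (by simp [μ, gm]))

lemma c₂ (W : Over X) (l : ℕ) : Nonempty (Ln l (top W.left) ≅
    (pb (J := Scheme.etaleTopology) W.hom).obj (Zl X l 1)) := by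
  obtain ⟨e⟩ := D.LNM.ln_top (X := X) (l ^ 1)
  let j : top W.left ≅ (Over.pullback W.hom).obj (top X) := Over.mkIdTerminal.uniqueUpToIso
    (Over.mkIdTerminal.isTerminalObj (Over.pullback W.hom) _)
  exact ⟨asIso (Lm l j.hom) ≪≫ asIso (D.LNM.ψ l W.hom (top X)) ≪≫
    (pb (J := Scheme.etaleTopology) W.hom).mapIso (eqToIso (by rw [pow_one]) ≪≫ e)⟩

end PU

open PU in
theorem push : PUSH_s := by
  intro l _ X U W ρ hU h1 h2 h3 h4 h5 q
  have : IsAffine W.left := isAffine_of_isAffineHom ρ.left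
  obtain ⟨e, -, he⟩ := D.ind All.pbcx D.lnm l U.left W.left ρ.left l q ⟨1, (pow_one l).symm⟩ h5
  have ha : Aet (top W.left) := ⟨inferInstanceAs (Etale (𝟙 W.left)), this⟩
  have hb : Etale ((top W.left).hom ≫ ρ.left) := inferInstanceAs (Etale (𝟙 W.left ≫ ρ.left))
  obtain ⟨s, hs, -⟩ := CV.nsl X U.left U.hom
  obtain ⟨t, ht, -⟩ := CV.nsl X W.left W.hom
  obtain ⟨c⟩ := c₂ W l
  let b : (pb (J := Scheme.etaleTopology) U.hom).obj (Ln l W) ≅
      Ln l ((Over.map ρ.left).obj (top W.left)) :=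
    (asIso (Lm l (κ ρ)) ≪≫ asIso (D.LNM.ψ l U.hom W)).symm
  refine ⟨fun T a =>
    have := ι_iso a
    have := μ_iso ρ a
    (AddEquiv.ofBijective (res (ι a) _ q) (pre_bij _ _ q)).trans <|
      (s _ _ q).symm.trans <| (AddEquiv.ofBijective (post _ b.hom q) (post_bij _ _ q)).trans <|
      (e _ ha hb _).trans <| (AddEquiv.ofBijective (post _ c.hom q) (post_bij _ _ q)).trans <|
      (t _ _ q).trans (AddEquiv.ofBijective (res (μ ρ a) _ q) (pre_bij _ _ q)),
    fun T' T g a' a x => ?_⟩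
  simp only [AddEquiv.trans_apply, AddEquiv.ofBijective_apply]
  have e₁ : (s _ _ q).symm (res (ι a') _ q (res g _ q x)) =
      res (gm g a' a) _ q ((s _ _ q).symm (res (ι a) _ q x)) := by
    rw [AddEquiv.symm_apply_eq, hs, AddEquiv.apply_symm_apply, E4.res_res', E4.res_res', ι_gm]
  rw [e₁, ← pre_post, he, ← pre_post, ht, E4.res_res', E4.res_res', μ_gm]

end Pool.Agent.MP_855f4c_ag.AV.RG

end
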