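import Pool.Agent.MP_855f4c_ag.TC.All
import Pool.Agent.MP_855f4c_ag.VC.Vc

set_option linter.all false

section

section

/-! The boundary map of two excision squares, abstract form. -/

set_option autoImplicit false
set_option backward.isDefEq.respectTransparency false

open CategoryTheory Limits Abelian Opposite Function

namespace Pool.Agent.MP_855f4c_ag.AV

open E

section
variable {C : Type 2} [Category.{1} C] [Abelian C] [HasExt.{1} C]

lemma pre_comp {A' A F G : C} (a : A' ⟶ A) {q n m : ℕ} (x : Ext.{1} A F q) (y : Ext.{1} F G n)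
    (h : q + n = m) : pre a G m (x.comp y h) = (pre a F q x).comp y h :=
  (Ext.comp_assoc _ _ _ (zero_add q) h (by omega)).symm

lemma dr_comp {S : ShortComplex C} (hS : S.ShortExact) {F G : C} {q n m : ℕ}
    (x : Ext.{1} S.X₁ F q) (y : Ext.{1} F G n) (h : q + n = m) :
    dr hS G m (x.comp y h) = (dr hS F q x).comp y (by omega) :=
  (Ext.comp_assoc _ _ _ (add_comm 1 q) h (by omega)).symm

variable {S T : ShortComplex C} (hS : S.ShortExact) (hT : T.ShortExact) (φ : S ⟶ T) {P N : C}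
  (r : T.X₂ ⟶ P) (j : N ⟶ P)

/-- The graph of the boundary map. -/
def Bd {F : C} {q : ℕ} (c : Ext.{1} S.X₁ F q) (z : Ext.{1} N F (q + 1)) : Prop :=
  ∃ (e : Ext.{1} T.X₃ F (q + 1)) (y : Ext.{1} P F (q + 1)),
    pre φ.τ₃ F _ e = dr hS F q c ∧ pre r F _ y = pre T.g F _ e ∧ z = pre j F _ y

lemma Bd.comp {F G : C} {q n m : ℕ} {c : Ext.{1} S.X₁ F q} {z : Ext.{1} N F (q + 1)}
    (h : Bd hS φ r j c z) (y : Ext.{1} F G n) (e : q + n = m) :
    Bd hS φ r j (c.comp y e) (z.comp y (by omega)) := by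
  obtain ⟨a, b, h1, h2, rfl⟩ := h
  exact ⟨a.comp y (by omega), b.comp y (by omega), by rw [pre_comp, h1, dr_comp],
    by rw [pre_comp, pre_comp, h2], (pre_comp _ _ _ _).symm⟩

lemma Bd.zero {F : C} {q : ℕ} (h1 : ExtBij.{1} φ.τ₃ F) (h2 : ExtBij.{1} r F)
    {z : Ext.{1} N F (q + 1)} (h : Bd hS φ r j 0 z) : z = 0 := by
  obtain ⟨a, b, e1, e2, rfl⟩ := h
  obtain rfl : a = 0 := (h1 _).1 (by rw [e1, map_zero, map_zero])
  obtain rfl : b = 0 := (h2 _).1 (by rw [e2, map_zero, map_zero])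
  exact map_zero _

lemma Bd.ex {F : C} (h1 : ExtBij.{1} φ.τ₃ F) (h2 : ExtBij.{1} r F) (q : ℕ) :
    ∃ d : Ext.{1} S.X₁ F q →+ Ext.{1} N F (q + 1), ∀ c, Bd hS φ r j c (d c) := by
  let e1 := AddEquiv.ofBijective _ (h1 (q + 1))
  let e2 := AddEquiv.ofBijective _ (h2 (q + 1))
  exact ⟨(pre j F _).comp (e2.symm.toAddMonoidHom.comp ((pre T.g F _).comp
    (e1.symm.toAddMonoidHom.comp (dr hS F q)))), fun c =>
      ⟨e1.symm (dr hS F q c), e2.symm _, e1.apply_symm_apply _, e2.apply_symm_apply _, rfl⟩⟩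

include hT in
lemma Bd.inj {F : C} {q : ℕ} (h3 : Injective (pre j F (q + 1)))
    (h4 : ∀ x : Ext.{1} T.X₁ F q, x = 0) (h5 : ∀ x : Ext.{1} S.X₂ F q, x = 0)
    {c : Ext.{1} S.X₁ F q} (h : Bd hS φ r j c 0) : c = 0 := by
  obtain ⟨a, b, e1, e2, e3⟩ := h
  obtain rfl : b = 0 := h3 (by rw [← e3, map_zero])
  obtain ⟨x, rfl⟩ := ((con_les hT F).e₁ q a).1 (by rw [← e2, map_zero])
  obtain ⟨w, rfl⟩ := ((con_les hS F).e₃ q c).1 (by rw [← e1, h4 x, map_zero, map_zero])
  rw [h5 w, map_zero]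

end

end Pool.Agent.MP_855f4c_ag.AV

end

section

/-! Excision along an ind-etale map followed by an open immersion. -/

set_option autoImplicit false
set_option backward.isDefEq.respectTransparency false

open CategoryTheory Limits Abelian Opposite AlgebraicGeometry IsLocalRing Function

namespace Pool.Agent.MP_855f4c_ag.AV

open E E3 E4 T

variable {X : Scheme.{0}}

lemma spc_pt {R k : Type} [CommRing R] [Field k] (φ : R →+* k) (z : Spec (.of k)) :
    (spc φ z).asIdeal = RingHom.ker φ := by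
  obtain rfl : z = closedPoint k := Subsingleton.elim (α := PrimeSpectrum k) _ _
  change (maximalIdeal k).comap φ = _
  rw [maximalIdeal_eq_bot]; rfl

theorem exc1 {R C : Type} [CommRing R] [CommRing C] [Algebra R C] {I : Ideal R} (hI : I.FG)
    (H : Exs R C I) {a : Spec (.of R) ⟶ X} {T W W' : Over X} (v : Over.mk a ⟶ T)
    [IsOpenImmersion v.left] (u : W ⟶ T) [IsOpenImmersion u.left] (u' : W' ⟶ ob a C)
    [IsOpenImmersion u'.left] (hv : ∀ t, t ∈ Set.range u.left ∨ t ∈ Set.range v.left)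
    (hu : ∀ z : Spec (.of R), v.left z ∈ Set.range u.left ↔ ¬ I ≤ z.asIdeal)
    (hu' : ∀ z : Spec (.of C), z ∈ Set.range u'.left ↔ ¬ I.map (algebraMap R C) ≤ z.asIdeal) :
    ∃ (g' : W' ⟶ W) (h : u' ≫ sph (algebraMap R C) rfl ≫ v = g' ≫ u),
      ∀ G : Sh (Scheme.etaleTopology.over X), LFP G.obj →
        ExtBij.{1} (pairMap (Scheme.etaleTopology.over X) _ _ h).τ₃ G := by
  let u₁ : opn (Over.mk a) (opI I) ⟶ Over.mk a := opι (Over.mk a) (opI I)
  have o₁ : IsOpenImmersion u₁.left := inferInstanceAs (IsOpenImmersion (opI I).ι)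
  have m₁ (z : Spec (.of R)) : z ∈ Set.range u₁.left ↔ ¬ I ≤ z.asIdeal :=
    ⟨fun ⟨y, e⟩ => e ▸ y.2, fun h => ⟨⟨z, h⟩, rfl⟩⟩
  let s : ob a C ⟶ Over.mk a := sph (algebraMap R C) rfl
  have m₂ (z : Spec (.of C)) : s.left z ∈ Set.range u₁.left ↔ z ∈ Set.range u'.left :=
    (m₁ _).trans ((not_congr Ideal.map_le_iff_le_comap.symm).trans (hu' z).symm)
  obtain ⟨g₁, e₁⟩ := exc_fac u₁ (u' ≫ s) fun z => (m₂ _).2 ⟨z, rfl⟩
  obtain ⟨g₂, e₂⟩ := exc_fac u (u₁ ≫ v) fun z => (hu _).2 ((m₁ _).1 ⟨z, rfl⟩)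
  have p₁ : IsPullback u' g₁ s u₁ := IsPullback.of_map (Over.forget _) e₁.symm
    (IsOpenImmersion.isPullback g₁.left u'.left u₁.left s.left (congrArg (·.left) e₁.symm)
      (TopologicalSpace.Opens.ext (Set.ext m₂))).flip
  have p₂ : IsPullback u₁ g₂ v u := IsPullback.of_map (Over.forget _) e₂.symm
    (IsOpenImmersion.isPullback g₂.left u₁.left u.left v.left (congrArg (·.left) e₂.symm)
      (TopologicalSpace.Opens.ext (Set.ext fun z => (hu z).trans (m₁ z).symm))).flip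
  have h : u' ≫ s ≫ v = (g₁ ≫ g₂) ≫ u := by rw [Category.assoc, e₂, reassoc_of% e₁]
  refine ⟨g₁ ≫ g₂, h, fun G hG q => ?_⟩
  have : CompactSpace (opn (Over.mk a) (opI I)).left :=
    isCompact_iff_compactSpace.1 (Exce.opI_compact hI)
  have i₂ := exc0 p₂ fun k _ _ y hy => by
    have h1 : Set.range y ⊆ Set.range v.left := by
      rintro _ ⟨z, rfl⟩
      exact (hv _).resolve_left (hy z)
    exact ⟨_, IsOpenImmersion.lift_fac _ _ h1, fun y' e => IsOpenImmersion.lift_uniq _ _ h1 _ e⟩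
  have i₁ := exc H.1 rfl p₁ (fun k _ _ y hy => by
    obtain ⟨φ, rfl⟩ := Spec.map_surjective y
    obtain ⟨χ, e, he⟩ := H.2 k φ.hom (by
      rw [← spc_pt φ.hom (closedPoint k)]
      exact not_not.1 fun h0 => hy _ ((m₁ _).2 h0))
    refine ⟨spc χ, (Spec.map_comp _ _).symm.trans (congrArg Spec.map (CommRingCat.hom_ext e)),
      fun w hw => ?_⟩
    obtain ⟨w, rfl⟩ := Spec.map_surjective w
    exact congrArg Spec.map (CommRingCat.hom_ext (he w.hom (congrArg CommRingCat.Hom.hom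
      (Spec.map_injective ((Spec.map_comp _ _).trans hw)))))) hG q
  have e : (pre (prM h) G q : _ → _) = pre (prM p₁.w) G q ∘ pre (prM p₂.w) G q :=
    funext fun x => by rw [comp_apply, pre_pre, exc_comp p₁.w p₂.w h rfl]
  change Bijective (pre (prM h) G q)
  rw [e]
  exact Bijective.comp i₁ (pre_bij _ G q)

end Pool.Agent.MP_855f4c_ag.AV

end

section

/-! Rows G1 and BD. -/

set_option autoImplicit false
set_option backward.isDefEq.respectTransparency false

open CategoryTheory Limits Abelian Opposite AlgebraicGeometry IsLocalRing Function Polynomial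

namespace Pool.Agent.MP_855f4c_ag.AV.RG

open E E3 E4 T

theorem g1 : G1_s := by
  intro l D L g Q G _ _ _ _ _ hp h0
  let I : Ideal D.O := Ideal.span {algebraMap D.V[X] D.O X, algebraMap D.V[X] D.O (C D.p)}
  let ι : D.So L ⟶ ob L.c₁ D.O := opι (ob L.c₁ D.O) (opI I)
  have oι : IsOpenImmersion ι.left := inferInstanceAs (IsOpenImmersion (opI I).ι)
  have inj : Injective ι.left := ι.left.isOpenEmbedding.injective
  have mι (z : Spec (.of D.O)) (h : ¬ I ≤ z.asIdeal) : z ∈ Set.range ι.left := ⟨⟨z, h⟩, rfl⟩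
  let v₀ : Over.mk (D.u L) ⟶ ob L.c₁ D.O := tw L.c₁ D.O D.O₀
  let γ₀ : ob L.c₁ G ⟶ ob L.c₁ D.O := tw L.c₁ D.O G
  have o₁ : IsOpenImmersion v₀.left := IsOpenImmersion.of_isLocalization (algebraMap D.V[X] D.O X)
  have o₂ : IsOpenImmersion γ₀.left := IsOpenImmersion.of_isLocalization (algebraMap D.V[X] D.O g)
  have m₁ (z : Spec (.of D.O)) : z ∈ Set.range v₀.left ↔ algebraMap D.V[X] D.O X ∉ z.asIdeal :=
    mem_range_away (S := D.O₀) _ z
  have m₂ (z : Spec (.of D.O)) : z ∈ Set.range γ₀.left ↔ algebraMap D.V[X] D.O g ∉ z.asIdeal :=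
    mem_range_away (S := G) _ z
  obtain ⟨v, hv⟩ := exc_fac ι v₀ fun z => mι _ fun h =>
    (m₁ _).1 ⟨z, rfl⟩ (h (Ideal.subset_span (.inl rfl)))
  obtain ⟨γ, hγ⟩ := exc_fac ι γ₀ fun z => mι _ fun h => (m₂ _).1 ⟨z, rfl⟩ (by
    obtain ⟨c, rfl⟩ := hp
    rw [map_mul]
    exact Ideal.mul_mem_right _ _ (h (Ideal.subset_span (.inr rfl))))
  have rg {Y : Over L.P} {a : Y ⟶ D.So L} {b : Y ⟶ ob L.c₁ D.O} (h : a ≫ ι = b) (t) :
      t ∈ Set.range a.left ↔ ι.left t ∈ Set.range b.left := by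
    subst h
    exact ⟨fun ⟨y, e⟩ => ⟨y, congrArg ι.left e⟩, fun ⟨y, e⟩ => ⟨y, inj e⟩⟩
  have o₃ : IsOpenImmersion v.left :=
    have : IsOpenImmersion (v.left ≫ ι.left) := by rw [← Over.comp_left, hv]; exact o₁
    .of_comp _ ι.left
  have o₄ : IsOpenImmersion γ.left :=
    have : IsOpenImmersion (γ.left ≫ ι.left) := by rw [← Over.comp_left, hγ]; exact o₂
    .of_comp _ ι.left
  have o₅ : IsOpenImmersion (tw (D.u L) Q.C Q.C').left :=
    IsOpenImmersion.of_isLocalization (algebraMap D.O₀ Q.C (algebraMap D.V[X] D.O₀ g))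
  obtain ⟨a, h, H⟩ := exc1 (Submodule.fg_span_singleton _) Q.exs v γ (tw (D.u L) Q.C Q.C')
    (fun t => by
      rw [rg hγ, rg hv, m₁, m₂]
      by_contra hc
      obtain ⟨h1, h2⟩ := not_or.1 hc
      rw [not_not] at h1 h2
      let q : Ideal D.V := ((ι.left t).asIdeal.comap (algebraMap D.V[X] D.O)).comap C
      have hq : q.IsPrime := inferInstance
      have h3 : g.eval 0 ∈ q := by
        change algebraMap D.V[X] D.O (C (g.eval 0)) ∈ (ι.left t).asIdeal
        rw [← coeff_zero_eq_eval_zero, eq_sub_of_add_eq' (X_mul_divX_add g), map_sub, map_mul]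
        exact sub_mem h1 (Ideal.mul_mem_right _ _ h2)
      have h4 : D.p ∈ q := by
        rw [eq_maximalIdeal (D.mx q hq fun e => h0 (by rwa [e] at h3))]
        exact D.np
      exact t.2 (Ideal.span_le.2 (Set.insert_subset h2 (Set.singleton_subset_iff.2 h4))))
    (fun z => by
      rw [rg hγ, m₂, Ideal.span_singleton_le_iff_mem,
        IsScalarTower.algebraMap_apply D.V[X] D.O D.O₀]
      exact not_congr (by
        rw [show ι.left (v.left z) = v₀.left z from congr($(hv).left z)]; rfl))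
    (fun z => by
      rw [Ideal.map_span, Set.image_singleton, Ideal.span_singleton_le_iff_mem]
      exact mem_range_away (S := Q.C') _ z)
  exact ⟨a, _, γ, h, exc_mono _, exc_mono _, H⟩

theorem bd (h1 : G1_s) (h2 : G2_s) (h3 : G3_s) : BD_s := by
  intro l _ D L g Q Q₂ G _ _ _ _ _ hp h0 F M hF hM z1 z2 z3
  obtain ⟨a, b, γ, h, _, _, H1⟩ := h1 l D L g Q G hp h0
  obtain ⟨m, H2⟩ := h2 l D L
  obtain ⟨κ, H3⟩ := h3 l D L Q₂
  let J := Scheme.etaleTopology.over L.P
  have hS := pair_exact J (tw (D.u L) Q.C Q.C')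
  let φ := pairMap J a b h
  obtain ⟨d, hd⟩ := Bd.ex hS φ ((fr J).map m) ((fr J).map κ) (H1 F hF.1.1.1) (H2 F hF) 0
  refine ⟨d, (injective_iff_map_eq_zero d).2 fun c hc => Bd.inj hS (pair_exact J γ) φ _ _
    (H3 F hF z3) z2 z1 (hc ▸ hd c), fun c β hc => ?_⟩
  have := (hd c).comp hS φ _ _ β (zero_add 1)
  rw [hc] at this
  exact Bd.zero hS φ _ _ (H1 M hM.1.1.1) (H2 M hM) this

end Pool.Agent.MP_855f4c_ag.AV.RG

end

end

section

/-! h67a, section RG: excision at the origin. -/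

set_option autoImplicit false
set_option backward.isDefEq.respectTransparency false

open CategoryTheory Limits Abelian Opposite AlgebraicGeometry Polynomial Function IsLocalRing

namespace Pool.Agent.MP_855f4c_ag.AV.RG

open E E3 E4 T

namespace G2

/-- The cartesian square of two open immersions. -/
lemma sq {X : Scheme.{0}} {T T' W W' : Over X} (g : T' ⟶ T) (u : W ⟶ T) (u' : W' ⟶ T')
    [IsOpenImmersion u.left] [IsOpenImmersion u'.left]
    (h : g.left ⁻¹ᵁ u.left.opensRange = u'.left.opensRange) : ∃ g', IsPullback u' g' g u := by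
  have H : Set.range (u'.left ≫ g.left) ⊆ Set.range u.left := by
    rintro _ ⟨z, rfl⟩
    rw [Scheme.Hom.comp_apply]
    exact (SetLike.ext_iff.1 h _).2 ⟨z, rfl⟩
  have e := IsOpenImmersion.lift_fac u.left _ H
  refine ⟨Over.homMk (IsOpenImmersion.lift u.left _ H) ?_, IsPullback.of_map (Over.forget _)
    (Over.OverMorphism.ext e.symm) (IsOpenImmersion.isPullback _ _ _ _ e.symm h).flip⟩
  rw [← Over.w u, ← Category.assoc, e, Category.assoc, Over.w, Over.w]

/-- A point with `X = 0` lifts uniquely to the germ. -/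
lemma pt {V O k : Type} [CommRing V] [IsLocalRing V] [CommRing O] [Algebra V[X] O] [CommRing k]
    (hV : Aic V) (h : Germ V O) (φ : V[X] →+* k) (h0 : φ X = 0) :
    ∃! ψ : O →+* k, ψ.comp (algebraMap V[X] O) = φ := by
  let _ : Algebra V O := ((algebraMap V[X] O).comp C).toAlgebra
  have : IsScalarTower V V[X] O := .of_algebraMap_eq fun _ => rfl
  obtain ⟨σ, hσ⟩ := h.exists_sec hV (zero_mem _)
  rw [C_0, sub_zero] at hσ
  refine ⟨(φ.comp C).comp σ, Polynomial.ringHom_ext (fun v => ?_) ?_, fun ψ e => RingHom.ext fun z => ?_⟩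
  · exact congrArg (fun t => φ (C t)) (σ.commutes v)
  · have : σ (algebraMap V[X] O X) = 0 := (hσ.ge (Ideal.mem_span_singleton_self _) :)
    simp [this, h0]
  · obtain ⟨c, hc⟩ := Ideal.mem_span_singleton'.1 (hσ.le (show z - algebraMap V O (σ z) ∈ _ by
      simp [RingHom.mem_ker]))
    have e1 : ψ (algebraMap V[X] O X) = 0 := (congr($e X) :).trans h0
    have e2 : ψ (algebraMap V O (σ z)) = φ (C (σ z)) := congr($e (C (σ z)))
    have := congrArg ψ hc
    rw [map_mul, e1, mul_zero, map_sub, eq_comm, sub_eq_zero, e2] at this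
    exact this

lemma bij0 {X : Scheme.{0}} {T' T : Over X} (g : T' ⟶ T) {F : Sh (Scheme.etaleTopology.over X)}
    (h : ∀ q, Z T F q) (h' : ∀ q, Z T' F q) : SA.HB g F := fun q =>
  ⟨fun a b _ => (h q a).trans (h q b).symm, fun y => ⟨0, (h' q _).trans (h' q y).symm⟩⟩

variable {l : ℕ} (D : GD l) (L : PL (Spec (.of D.V))) {F : Sh (Scheme.etaleTopology.over L.P)}

lemma zO (hF : D.Vs L F) (q : ℕ) : Z (ob L.c₁ D.O) F q := by
  have := D.germ.shl
  rcases q with _ | q
  swap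
  · exact SA.shl_H _ F q
  let k := AlgebraicClosure (ResidueField D.O)
  let φ : D.O →+* k := (algebraMap _ k).comp (residue D.O)
  have hl : IsUnit (l : D.O) := by simpa using D.ul.map ((algebraMap D.V[X] D.O).comp C)
  intro x
  obtain ⟨s, rfl⟩ := (h0 _ F).surjective x
  rw [(hF.1.1.2 D.O k φ _ _ rfl hl).1 (a₁ := s) (a₂ := 0) ((hF.2 k _ (by simpa using (hl.map φ).ne_zero)
    (fun z hz => hz ?_) _).trans (map_zero _).symm), map_zero]
  rw [← Scheme.Hom.comp_apply, Category.assoc, Category.assoc, L.pnt_π]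
  change φ (algebraMap D.V[X] D.O (C D.p)) ∈ z.asIdeal
  rw [show φ (algebraMap D.V[X] D.O (C D.p)) = 0 from by
    rw [RingHom.comp_apply, (residue_eq_zero_iff _).2 (D.germ.loc _ D.np), map_zero]]
  exact zero_mem _

lemma zP [Fact l.Prime] (hV : HV_s) (hF : D.Vs L F) (q : ℕ) : Z (Over.mk (𝟙 L.P)) F q := by
  have := D.aic.shl
  let j := pullback.fst L.π (spc (residue D.V))
  have hj : PB.Fib L.π j := PB.PBC1.fib_bc (IsPullback.of_hasPullback L.π (spc (residue D.V)))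
  have hL : Linv l L.P := (Linv.spec D.ul).of_hom L.π
  intro x
  refine (PB.pbc0 (PB.cov PB.wex) PB.relP PB.nint PB.npt PB.nclo D.V l D.ul L _ _ hj F hF.1 q).1
    (((hV l _ F).1 (Over.mk j) (hL.of_hom j) hF.1
      (fun k _ _ y => hF.2 k _ (hL k (y ≫ j)) fun z hz => hz ?_) q _).trans (map_zero _).symm)
  exact ((hj.2 ((y ≫ j) z)).1 ⟨y z, (Scheme.Hom.comp_apply _ _ _).symm⟩).ge D.np

end G2
open G2

theorem g2 (hV : HV_s) : G2_s := by
  intro l _ D L
  let I : Ideal D.V[X] := Ideal.span {X, C D.p}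
  let u₀ := PB.top (D.Po L).ι
  let u₁ := opι (Over.mk L.c₁) (opI I)
  let u₂ := opι (ob L.c₁ D.O)
    (opI (Ideal.span {algebraMap D.V[X] D.O X, algebraMap D.V[X] D.O (C D.p)}))
  have i₀ : IsOpenImmersion u₀.left := inferInstanceAs (IsOpenImmersion (D.Po L).ι)
  have i₁ : IsOpenImmersion u₁.left := inferInstanceAs (IsOpenImmersion (opI I).ι)
  have i₂ : IsOpenImmersion u₂.left := inferInstanceAs (IsOpenImmersion (Scheme.Opens.ι _))
  have i₃ : IsOpenImmersion (PB.top L.c₁).left := inferInstanceAs (IsOpenImmersion L.c₁)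
  obtain ⟨g₁, s₁⟩ := sq (PB.top L.c₁) u₀ u₁ (by
    refine (congrArg _ (Scheme.Opens.opensRange_ι _)).trans (Eq.trans ?_
      (Scheme.Opens.opensRange_ι _).symm)
    refine SetLike.ext fun (x : Spec (.of D.V[X])) => Iff.trans (b := X ∉ x.asIdeal ∨ C D.p ∉ x.asIdeal)
      (or_congr (L.c₁_mem_c₂ x) ?_) ?_
    · change D.p ∉ (L.π (L.c₁ x)).asIdeal ↔ _
      rw [← Scheme.Hom.comp_apply, L.pnt_π]; rfl
    · change _ ↔ ¬ ((I : Set D.V[X]) ⊆ x.asIdeal)
      rw [SetLike.coe_subset_coe, Ideal.span_le, Set.pair_subset_iff, not_and_or]; rfl)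
  obtain ⟨g₂, s₂⟩ := sq (sph (algebraMap D.V[X] D.O) (a := L.c₁) rfl) u₁ u₂ (by
    refine (congrArg _ (Scheme.Opens.opensRange_ι _)).trans (Eq.trans ?_
      (Scheme.Opens.opensRange_ι _).symm)
    refine (Exce.opI_map _ I).symm.trans ?_
    rw [Ideal.map_span, Set.image_pair])
  have w : u₂ ≫ sph (algebraMap D.V[X] D.O) (a := L.c₁) rfl ≫ PB.top L.c₁ = (g₂ ≫ g₁) ≫ u₀ := by
    rw [s₂.w_assoc, s₁.w, Category.assoc]
  have e₁ := exc0 s₁ fun k _ _ y hy => by
    have H : Set.range y ⊆ Set.range L.c₁ := by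
      rintro _ ⟨z, rfl⟩
      exact (L.cover _).resolve_right fun h => hy z ⟨⟨_, Or.inl h⟩, rfl⟩
    exact ⟨IsOpenImmersion.lift L.c₁ y H, IsOpenImmersion.lift_fac _ _ _, fun y' e =>
      (cancel_mono L.c₁).1 (e.trans (IsOpenImmersion.lift_fac _ _ _).symm)⟩
  have : CompactSpace (opn (Over.mk L.c₁) (opI I)).left :=
    isCompact_iff_compactSpace.1 (Exce.opI_compact (Submodule.fg_span (Set.toFinite _)))
  have : Mono u₀ := Over.mono_of_mono_left _
  have : Mono u₂ := Over.mono_of_mono_left _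
  refine ⟨g₂ ≫ g₁, fun F hF => ExtBij.τ₁ (pair_exact _ u₂) (pair_exact _ u₀) (pairMap _ _ _ w)
    (bij0 _ (zP D L hV hF) (zO D L hF)) fun q => ?_⟩
  have e₂ := exc D.germ.ind rfl s₂ (fun k _ _ y hy => by
    obtain ⟨φ, rfl⟩ := Spec.map_surjective y
    obtain ⟨ψ, h1, h2⟩ := pt D.aic D.germ φ.hom (by
      have : φ.hom X ∈ maximalIdeal k := not_not.1 fun h => hy (closedPoint k)
        ⟨⟨_, fun c => h (c (Ideal.subset_span (Or.inl rfl)))⟩, rfl⟩
      exact not_not.1 fun h0 => (mem_maximalIdeal _).1 this (IsUnit.mk0 _ h0))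
    refine ⟨spc ψ, ?_, fun y' hy' => ?_⟩
    · change spc ψ ≫ Spec.map _ = _
      rw [← Spec.map_comp, ← CommRingCat.ofHom_comp, h1, CommRingCat.ofHom_hom]
    · obtain ⟨ψ', rfl⟩ := Spec.map_surjective y'
      rw [← h2 ψ'.hom congr($(Spec.map_injective ((Spec.map_comp _ _).trans hy')).hom)]
      rfl) hF.1.1.1 q
  have e : (pre (prM w) F q : _ → _) = pre (prM s₂.w) F q ∘ pre (prM s₁.w) F q :=
    funext fun x => by rw [comp_apply, pre_pre, exc_comp s₂.w s₁.w w rfl]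
  change Bijective (pre (prM w) F q)
  rw [e]
  exact e₂.comp (pre_bij _ F q)

end Pool.Agent.MP_855f4c_ag.AV.RG

end

section

/-! h67a, section RG, row EZB: extension by zero over the open part; cokernels of `Lm`. -/

set_option autoImplicit false
set_option backward.isDefEq.respectTransparency false

open CategoryTheory Limits Abelian Opposite AlgebraicGeometry Function

namespace Pool.Agent.MP_855f4c_ag.AV.RG

open E E3 E4 T
open E.CV (Ln Lm)

namespace Ezb

variable {X : Scheme.{0}} {F G : Sh (Scheme.etaleTopology.over X)}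

/-- A map that is invertible on the slice over `W` is bijective on the cohomology of `W`. -/
lemma fr_bij (W : Over X) (φ : F ⟶ G)
    [IsIso ((pb (J := Scheme.etaleTopology) W.hom).map φ)] (q : ℕ) :
    Bijective (post ((fr (Scheme.etaleTopology.over X)).obj W) φ q) := by
  let i : (Over.map W.hom).obj (top W.left) ≅ W := Over.isoMk (Iso.refl _) rfl
  have h : (slH W.hom (top _) G q ∘ pre ((fr (Scheme.etaleTopology.over X)).map i.hom) G q) ∘
      post _ φ q = post _ ((pb (J := Scheme.etaleTopology) W.hom).map φ) q ∘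
        (slH W.hom (top _) F q ∘ pre ((fr (Scheme.etaleTopology.over X)).map i.hom) F q) :=
    funext fun x => (congrArg (slH W.hom (top _) G q) (pre_post _ φ x)).trans
      (D.LNM.sl_post W.hom _ φ q _)
  have h1 (K) := (slH_bij W.hom (top _) K q).comp
    (pre_bij ((fr (Scheme.etaleTopology.over X)).map i.hom) K q)
  exact (Bijective.of_comp_iff' (h1 G) _).1 ((congrArg Bijective h).mpr
    ((post_bij _ ((pb (J := Scheme.etaleTopology) W.hom).map φ) q).comp (h1 F)))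

lemma cok {C : Type 2} [Category.{1} C] [Abelian C] [HasExt.{1} C] {A F G : C} (a : A ⟶ A) [Mono a]
    (φ : F ⟶ G) (h : ∀ q, Bijective (post.{1} A φ q)) (q : ℕ) :
    Bijective (post.{1} (cokernel a) φ q) :=
  have hS := ShortComplex.ShortExact.mk' (ShortComplex.exact_cokernel a) inferInstance inferInstance
  (con_les hS F).bij₁ (con_les hS G) (post _ φ) (post _ φ) (post _ φ)
    (fun _ x => pre_post _ φ x) (fun _ x => pre_post _ φ x) (fun _ x => (post_dr φ hS x).symm)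
    h h q

lemma ln_bij (W : Over X) (φ : F ⟶ G)
    (h : ∀ q, Bijective (post ((fr (Scheme.etaleTopology.over X)).obj W) φ q)) {n : ℕ}
    (hn : n ≠ 0) (q : ℕ) : Bijective (post (Ln n W) φ q) :=
  have : NeZero (n : ℤ) := ⟨Int.natCast_ne_zero.2 hn⟩
  cok ((n : ℤ) • 𝟙 ((fr (Scheme.etaleTopology.over X)).obj W)) φ h q

end Ezb

open Ezb in
theorem ezb : EZB_s := by
  intro X U F
  refine ⟨fun W hW q => ?_, fun l hF => ⟨⟨CLZ.ez_cc hF.1, Tor.of_mono ((ezι U).app F) hF.2⟩,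
    fun k _ _ x _ hx s => ez_shl_zero U F x (hx _) s⟩⟩
  have : IsIso ((pb (J := Scheme.etaleTopology) W.hom).map ((ezι U).app F)) :=
    Ez.isIso_of_bij _ fun T => ezι_bij U F fun t => hW (T.hom t)
  exact ⟨fr_bij W _ q, fun n hn => ln_bij W _ (fr_bij W _) hn q⟩

theorem ckz : CKZ_s := by
  intro l _ X W' W i h' h
  have hl : D.Lp l l := ⟨1, (pow_one l).symm⟩
  refine ⟨(PB.nclo X l).2.1 _ _ _ ((D.lnm X l).1 l W' hl h') ((D.lnm X l).1 l W hl h),
    fun k _ _ y hy s => ?_⟩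
  obtain ⟨e, -, he⟩ := (D.lnm X l).2.2.2.2 k y
  obtain ⟨t, rfl⟩ := EXG.epi_pt (cokernel.π (Lm l i)) k y s
  obtain ⟨a, ha⟩ := Finsupp.mapDomain_surjective (M := ZMod l)
    (f := fun w' : Over.mk y ⟶ W' => w' ≫ i) hy (e W t)
  obtain ⟨a, rfl⟩ := (e W').surjective a
  obtain rfl : (Lm l i).hom.app _ a = t := (e W).injective ((he W' W i a).trans ha)
  exact congrArg (fun f => f.hom.app (op (Over.mk y)) a) (cokernel.condition (Lm l i))

end Pool.Agent.MP_855f4c_ag.AV.RG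

end

section

/-! h67a, section RG, rows HV and ART. -/

set_option autoImplicit false
set_option backward.isDefEq.respectTransparency false

open CategoryTheory Limits Abelian Opposite AlgebraicGeometry Function

namespace Pool.Agent.MP_855f4c_ag.AV.RG

open E E3 E4 T

lemma hv1 {l : ℕ} {X : Scheme.{0}} {F : Sh (Scheme.etaleTopology.over X)} (T : Over X)
    (hl : Linv l T.left) (hF : Cc l F) (h : ∀ (k : Type) [Field k] [IsAlgClosed k]
      (y : Spec (.of k) ⟶ T.left) (s : sec F (Over.mk (y ≫ T.hom))), s = 0) (q : ℕ) : Z T F q := by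
  have hz := PB.npt _ l hl _ (hF.pb T.hom) h
  let e : T ⟶ (Over.map T.hom).obj (E.top T.left) := Over.homMk (𝟙 _) (by simp [E.top])
  have : IsIso e := isIso_homMk _ (inferInstanceAs (IsIso (𝟙 T.left)))
  intro x
  obtain ⟨y, rfl⟩ := (pre_bij ((fr _).map e) F q).2 x
  rw [(slH_bij T.hom _ F q).1 (a₁ := y) (a₂ := 0) (by
    rw [map_zero, ← post_id (slH _ _ F q y), hz.eq_zero_of_src (𝟙 _), post_apply, Ext.mk₀_zero,
      Ext.comp_zero]), map_zero]

theorem hv : HV_s := by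
  intro l _ X F
  refine ⟨fun T hl hF => hv1 T hl hF.1, fun A _ u I hl hI hF h q x => ?_⟩
  have : IsIso (t0 u A) := isIso_homMk _ (by
    change IsIso (spc (algebraMap A A))
    rw [show spc (algebraMap A A) = 𝟙 _ from Spec.map_id _]
    infer_instance)
  refine (pre_bij ((fr _).map (t0 u A)) F q).1 ?_
  refine (GG.gab_of PB.affv_final l X A (A ⧸ I) u F hl Ideal.Quotient.mk_surjective
    (by rwa [Ideal.Quotient.algebraMap_eq, Ideal.mk_ker]) hF q).1 ?_
  have := hv1 (ob u (A ⧸ I)) (Linv.spec (by simpa using hl.map (Ideal.Quotient.mk I))) hF.1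
    (fun k _ _ y => by
      obtain ⟨φ, rfl⟩ := Spec.map_surjective y
      have := h k (φ.hom.comp (Ideal.Quotient.mk I)) fun a ha => by
        rw [RingHom.mem_ker, RingHom.comp_apply, Ideal.Quotient.eq_zero_iff_mem.2 ha, map_zero]
      rwa [show spc (φ.hom.comp (Ideal.Quotient.mk I)) = Spec.map φ ≫ spc (Ideal.Quotient.mk I) from
        Spec.map_comp _ _, Category.assoc] at this) q
  exact (this _).trans (this _).symm

lemma Fld.away {A : Type} [CommRing A] (h : Fld A) (p : PrimeSpectrum A) :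
    ∃ e : A, IsLocalization.Away e (A ⧸ p.asIdeal) := by
  have := h.1
  have := h.2.1
  have := Fintype.ofFinite {q // q ≠ p}
  have := p.isPrime
  choose e h1 h2 using fun q : {q // q ≠ p} => SetLike.not_le_iff_exists.1 fun hq =>
    q.2 (PrimeSpectrum.ext ((h.2.2 _ q.1.isPrime).eq_of_le p.isPrime.ne_top hq))
  have := h.2.2 _ p.isPrime
  let := Ideal.Quotient.field p.asIdeal
  refine ⟨∏ q, e q, .mk _ (Ne.isUnit fun h0 => ?_) (fun s => ?_) fun a b hab => ⟨1, ?_⟩⟩
  · obtain ⟨q, -, hq⟩ := Ideal.IsPrime.prod_mem_iff.1 (Ideal.Quotient.eq_zero_iff_mem.1 h0)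
    exact h2 q hq
  · obtain ⟨a, rfl⟩ := Ideal.Quotient.mk_surjective s
    exact ⟨0, a, by simp⟩
  · rw [pow_one, ← sub_eq_zero, ← mul_sub]
    refine IsNilpotent.eq_zero (nilpotent_iff_mem_prime.2 fun J hJ => ?_)
    by_cases hq : ⟨J, hJ⟩ = p
    · subst hq
      exact J.mul_mem_left _ (Ideal.Quotient.eq.1 hab)
    · exact J.mul_mem_right _ (Ideal.IsPrime.prod_mem_iff.2 ⟨⟨_, hq⟩, Finset.mem_univ _, h1 ⟨_, hq⟩⟩)

theorem art : ART_s := by
  intro X A _ u F q h hE x
  have := h.2.1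
  refine (D.clop X (Over.mk u) F q).2 (PrimeSpectrum A) (fun p => ob u (A ⧸ p.asIdeal))
    (fun p => t0 u _) (fun p => ?_) (fun z => ⟨z, ?_⟩) x fun p => ?_
  · obtain ⟨e, _⟩ := h.away p
    have : IsClosedImmersion (spc (algebraMap A (A ⧸ p.asIdeal))) :=
      .spec_of_surjective _ Ideal.Quotient.mk_surjective
    exact ⟨IsOpenImmersion.of_isLocalization (S := A ⧸ p.asIdeal) e,
      this.isClosedEmbedding.isClosed_range⟩
  · have := range_comap_of_surjective _ _ (Ideal.Quotient.mk_surjective (I := z.asIdeal))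
    rw [Ideal.mk_ker] at this
    exact (Set.ext_iff.1 this z).2 fun _ h => h
  · have := h.2.2 _ p.isPrime
    let := Ideal.Quotient.field p.asIdeal
    exact hE (A ⧸ p.asIdeal) (Ideal.Quotient.mk _) Ideal.Quotient.mk_surjective _

end Pool.Agent.MP_855f4c_ag.AV.RG

end

section

/-! h67a, section RG, row ZZ. -/

set_option autoImplicit false
set_option backward.isDefEq.respectTransparency false

open CategoryTheory Limits Abelian Opposite AlgebraicGeometry Polynomial Function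

namespace Pool.Agent.MP_855f4c_ag.AV.RG

open E E3 E4 T

namespace ZZ

variable {l : ℕ} [Fact l.Prime] {X : Scheme.{0}} {F : Sh (Scheme.etaleTopology.over X)}
  {A : Type} [CommRing A] (a : Spec (.of A) ⟶ X)

lemma sc {A B C : Type} [CommRing A] [CommRing B] [CommRing C] (φ : A →+* B) (ψ : B →+* C)
    (a : Spec (.of A) ⟶ X) : spc ψ ≫ spc φ ≫ a = spc (ψ.comp φ) ≫ a := by
  rw [← Category.assoc]
  exact congrArg (· ≫ a) (Spec.map_comp _ _).symm

lemma two (hF : Tc l F) {E : Type} [Field E] (b : Spec (.of E) ⟶ X) (h : CD1 l E) (q : ℕ) :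
    Z (Over.mk b) F (q + 2) := by
  obtain ⟨k, _, _, _, h1, h2⟩ := h
  exact CV.cdfA l k E h1 h2 X b F hF q

omit [Fact l.Prime] in
lemma zero (hF : Tc l F) (hl : IsUnit (l : A)) {P : ∀ (k : Type) [Field k], (A →+* k) → Prop}
    (hP : VanP F a P) {E : Type} [Field E] (ψ : A →+* E)
    (h : P _ ((algebraMap E (AlgebraicClosure E)).comp ψ)) (q : ℕ) :
    Z (Over.mk (spc ψ ≫ a)) F q := by
  refine CV.zf CV.nsl l E _ (algebraMap E (AlgebraicClosure E))
    (by simpa using (hl.map ψ).ne_zero) X _ F hF.1 ?_ _ (𝟙 _) q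
  rw [sc]
  exact hP _ _ h

lemma fld (hA : ART_s) (B : Type) [CommRing B] [Algebra A B] (hB : Fld B) (q : ℕ)
    (h : ∀ (E : Type) [Field E] (φ : B →+* E), Surjective φ →
      Z (Over.mk (spc (φ.comp (algebraMap A B)) ≫ a)) F q) : Z (ob a B) F q :=
  hA X B _ F q hB fun E _ φ hφ => by
    rw [sc]
    exact h E φ hφ

lemma hen (hA : ART_s) (hF : Tc l F) (hl : IsUnit (l : A)) {g : A} (Q : Sq A g)
    (hB : Fld (Q.C ⧸ (Ideal.span {algebraMap A Q.C g}).radical)) (q : ℕ)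
    (h : ∀ (E : Type) [Field E] (φ : Q.C →+* E), Surjective φ →
      Z (Over.mk (spc (φ.comp (algebraMap A Q.C)) ≫ a)) F q) : Z (ob a Q.C) F q := by
  let I := (Ideal.span {algebraMap A Q.C g}).radical
  let u := spc (algebraMap A Q.C) ≫ a
  have : IsIso (t0 u Q.C) := isIso_homMk _ (by
    change IsIso (spc (algebraMap Q.C Q.C))
    rw [show spc (algebraMap Q.C Q.C) = 𝟙 _ from Spec.map_id _]
    infer_instance)
  intro x
  refine (pre_bij ((fr _).map (t0 u Q.C)) F q).1 ?_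
  refine (GG.gab_of PB.affv_final l X Q.C (Q.C ⧸ I) u F (by simpa using hl.map (algebraMap A Q.C))
    Ideal.Quotient.mk_surjective ?_ hF q).1 ?_
  · rw [Ideal.Quotient.algebraMap_eq, Ideal.mk_ker]
    exact T.hp.2 _ _ (RingHom.id _) _ _ (RingHom.isIntegral_of_surjective _ surjective_id)
      (by rw [Ideal.map_id, Ideal.radical_idem]) Q.hp
  · have := fld u hA (Q.C ⧸ I) hB q fun E _ φ hφ => by
      rw [sc]
      exact h E _ (hφ.comp Ideal.Quotient.mk_surjective)
    exact (this _).trans (this _).symm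

omit [Fact l.Prime] in
lemma eng (h0 : SQ0_s) (hM : MVX_s) (hG : GENZ_s) (hF : Tc l F) [IsDomain A] (q : ℕ)
    (h1 : Z (ob a (FractionRing A)) F (q + 1))
    (h2 : ∀ g ≠ 0, ∀ Q : Sq A g, Z (ob a Q.C) F (q + 1) ∧ Z (ob a Q.C') F q) :
    Z (Over.mk a) F (q + 1) := by
  intro x
  obtain ⟨g, hg, h⟩ := hG X A (FractionRing A) a F hF.1.1 _ x (h1 _)
  obtain ⟨Q⟩ := h0 A g
  exact hM X A a g Q F hF.1.1 q x (h _ (IsLocalization.Away.algebraMap_isUnit g))
    ((h2 g hg Q).1 _) fun y => ⟨0, (map_zero _).trans ((h2 g hg Q).2 y).symm⟩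

lemma trc {V k : Type} [CommRing V] [CommRing k] {ψ : V[X] →+* k} (h : Injective ψ) : Trc ψ := by
  intro f hf i
  rw [h (hf.trans (map_zero ψ).symm), coeff_zero, map_zero, map_zero]

lemma trc' {V k k' : Type} [CommRing V] [CommRing k] [CommRing k'] {ψ : V[X] →+* k} (h : Trc ψ)
    {χ : k →+* k'} (hχ : Injective χ) : Trc (χ.comp ψ) := fun f hf i => by
  rw [RingHom.comp_apply, h f (hχ (hf.trans (map_zero χ).symm)) i, map_zero]

end ZZ

open ZZ in
theorem zz (h0 : SQ0_s) (hAl : ALG_s) (hP : PTS_s) (hD : DIM_s) (hS : SQF_s) (hM : MVX_s)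
    (hG : GENZ_s) (hA : ART_s) : ZZ_s := by
  intro l _ D X a F hF
  obtain ⟨_, _, hI, hi, hm, hf, -, -⟩ := hD l D
  have hl : IsUnit (l : D.O₀) := by
    simpa using D.ul.map ((algebraMap D.V[X] D.O₀).comp C)
  have key (B : Type) [CommRing B] [Algebra D.O₀ B] (hB : IndEt D.O₀ B) (E : Type) [Field E]
      (φ : B →+* E) (hφ : Surjective φ) : CD1 l E ∧
        (Trc ((φ.comp (algebraMap D.O₀ B)).comp (algebraMap D.V[X] D.O₀)) ∨ IsAlgClosed E) := by
    let : Algebra D.V[X] B := ((algebraMap D.O₀ B).comp (algebraMap D.V[X] D.O₀)).toAlgebra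
    have : IsScalarTower D.V[X] D.O₀ B := IsScalarTower.of_algebraMap_eq fun _ => rfl
    exact hP l D.V E _ D.aic D.ul (hAl D.V[X] B E φ (hI.comp hB)
      (RingHom.isIntegral_of_surjective _ hφ))
  have h1 (K : Type) [Field K] [Algebra D.O₀ K] [IsFractionRing D.O₀ K] (q : ℕ) :
      Z (ob a K) F (q + 2) := two hF _
    (key K (IndEt.of_isLocalization (nonZeroDivisors D.O₀)) K (RingHom.id K) surjective_id).1 q
  have sq (g : D.O₀) (hg : g ≠ 0) (Q : Sq D.O₀ g) := hS D.O₀ g Q hm hg (hf g hg)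
  have h2 (g : D.O₀) (hg : g ≠ 0) (Q : Sq D.O₀ g) (q : ℕ) : Z (ob a Q.C) F (q + 2) :=
    hen a hA hF hl Q (sq g hg Q).2.2.1 _ fun E _ φ hφ => two hF _ (key _ Q.exs.1 E φ hφ).1 q
  have h3 (hV : VanP F a (fun _ _ φ => Injective φ)) (g : D.O₀) (hg : g ≠ 0) (Q : Sq D.O₀ g)
      (q : ℕ) : Z (ob a Q.C') F q :=
    ZZ.fld a hA _ (sq g hg Q).2.1 _ fun E _ φ _ => zero a hF hl hV _
      ((algebraMap E _).injective.comp ((sq g hg Q).2.2.2.2 E φ)) q
  refine ⟨h1, fun q => ?_, fun hV q => ?_, fun hV q => ?_⟩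
  · exact eng a h0 hM hG hF _ (h1 _ _) fun g hg Q => ⟨h2 g hg Q _, ZZ.fld a hA _ (sq g hg Q).2.1 _
      fun E _ φ hφ => two hF _ (key _ (sq g hg Q).1 E φ hφ).1 q⟩
  · exact eng a h0 hM hG hF _ (h1 _ _) fun g hg Q => ⟨h2 g hg Q _, h3 hV g hg Q _⟩
  · have hV' : VanP F a (fun _ _ φ => Injective φ) := fun k _ _ φ hφ =>
      hV k φ (trc (hφ.comp hi))
    refine eng a h0 hM hG hF _ (zero a hF hl hV' _ ((algebraMap (FractionRing D.O₀)
      _).injective.comp (IsFractionRing.injective D.O₀ _)) _) fun g hg Q => ⟨?_, h3 hV' g hg Q _⟩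
    refine hen a hA hF hl Q (sq g hg Q).2.2.1 _ fun E _ φ hφ => ?_
    obtain h | h := (key _ Q.exs.1 E φ hφ).2
    · exact zero a hF hl hV _ (trc' h (algebraMap E _).injective) _
    · have := (PB.ngeo X E (spc (φ.comp (algebraMap D.O₀ Q.C)) ≫ a)).1
      exact fun x => Ext.eq_zero_of_projective x

end Pool.Agent.MP_855f4c_ag.AV.RG

end

section

/-! h67a, section RG, row PDV: duality on an open tower, read over the ambient scheme. -/

set_option autoImplicit false
set_option backward.isDefEq.respectTransparency false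

open CategoryTheory Limits Abelian Opposite AlgebraicGeometry Polynomial Function

namespace Pool.Agent.MP_855f4c_ag.AV.RG

open E E3 E4 T
open E.CV (Ln Lm)
open E.D (Aet TwN)

attribute [local irreducible] Ext.comp Ext.mk₀ Ext.mapExactFunctor

namespace PDV

lemma pair {C D : Type 2} [Category.{1} C] [Abelian C] [Category.{1} D] [Abelian D] (F : C ⥤ D)
    [F.Additive] [PreservesFiniteLimits F] [PreservesFiniteColimits F] [HasExt.{1} C] [HasExt.{1} D]
    {A L Q : C} {B L' Q' : D} (a : B ⟶ F.obj A) (ψ : L' ⟶ F.obj L) [IsIso ψ] (ι : F.obj Q ⟶ Q')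
    (z : Ext.{1} A L 1) (β : Ext.{1} L Q 1) :
    (post B (inv ψ) 1 (cmp F a L 1 z)).comp (post L' ι 1 (cmp F ψ Q 1 β)) (rfl : 1 + 1 = 2) =
      post B ι 2 (cmp F a Q 2 (z.comp β rfl)) := by
  rw [cmp_comp, post_apply, post_apply, post_apply, cmp_apply F ψ,
    Ext.comp_assoc_of_second_deg_zero, Ext.comp_assoc_of_third_deg_zero _ _ _ (rfl : 1 + 1 = 2),
    Ext.comp_assoc_of_third_deg_zero _ _ _ (zero_add 1), Ext.mk₀_comp_mk₀_assoc, IsIso.inv_hom_id,
    Ext.mk₀_id_comp]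

variable {X Y : Scheme.{0}} (ρ : Y ⟶ X)

/-- `ℤ[U] ⟶ ρ^* ℤ[W]`. -/
noncomputable def sl (U : Over Y) {W : Over X} (c : (Over.map ρ).obj U ⟶ W) :
    (fr (Scheme.etaleTopology.over Y)).obj U ⟶
      (pb (J := Scheme.etaleTopology) ρ).obj ((fr (Scheme.etaleTopology.over X)).obj W) :=
  frPs (Over.map ρ) _ _ U ≫ (pb (J := Scheme.etaleTopology) ρ).map ((fr _).map c)

lemma sl_bij (U : Over Y) {W : Over X} (c : (Over.map ρ).obj U ⟶ W) [IsIso c]
    (F : Sh (Scheme.etaleTopology.over X)) (q : ℕ) :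
    Bijective (cmp (pb (J := Scheme.etaleTopology) ρ) (sl ρ U c) F q) :=
  (congrArg Bijective (funext fun x => cmp_pre _ _ ((fr _).map c) x)).mp
    ((slH_bij ρ U F q).comp (pre_bij ((fr (Scheme.etaleTopology.over X)).map c) F q))

lemma lift (l : ℕ) [Fact l.Prime] (W : Over X) [IsIso ((Over.mapPullbackAdj ρ).counit.app W)]
    (β' : Ext (Ln l ((Over.pullback ρ).obj W)) (Linf l Y) 1) : ∃ β : Ext (Ln l W) (Linf l X) 1,
      post _ (lpb l ρ).hom 1 (cmp (pb (J := Scheme.etaleTopology) ρ) (D.LNM.ψ l ρ W) _ 1 β) = β' := by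
  have hb := (post_bij _ (lpb l ρ).hom 1).comp
    (sl_bij ρ _ ((Over.mapPullbackAdj ρ).counit.app W) (Linf l X) 1)
  obtain ⟨y, hy⟩ := hb.2 (pre (D.lnS l ((Over.pullback ρ).obj W)).g _ 1 β')
  have h0 : l • y = 0 := hb.1 (by
    refine ((congrArg _ (map_nsmul _ l y)).trans (map_nsmul _ l _)).trans
      (((congrArg (l • ·) hy).trans ((D.K1.tau_tor _ _).2 ⟨β', rfl⟩)).trans ?_)
    exact ((congrArg _ (map_zero _)).trans (map_zero _)).symm)
  obtain ⟨β, rfl⟩ := (D.K1.tau_tor W y).1 h0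
  refine ⟨β, sub_eq_zero.1 (D.K1.tau_inj _ _ ((map_sub _ _ _).trans (sub_eq_zero.2 ?_)))⟩
  refine Eq.trans ?_ hy
  refine (pre_post _ _ _).trans (congrArg (post _ (lpb l ρ).hom 1) ?_)
  refine Eq.trans ?_ (cmp_pre _ _ _ β).symm
  refine (pre_pre _ _ _).trans ?_
  exact congrArg (pre · _ 1 _) (D.LNM.π_ψ l ρ W)

end PDV

open PDV in
theorem pdv : PDV_s := by
  intro l _ K _ _ _ X T g hg hT
  obtain ⟨t, ht⟩ : D.PD l T.left 2 := All.hPDT l K 1 T.left g hg
  let i : (Over.map T.hom).obj (top T.left) ≅ T := Over.isoMk (Iso.refl _) rfl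
  refine ⟨t.comp ((post _ (lpb l T.hom).hom 2).comp
    (cmp (pb (J := Scheme.etaleTopology) T.hom) (sl T.hom _ i.hom) _ 2)), fun W w hw z hz => ?_⟩
  have hW : Etale W.hom := by rw [← Over.w w]; infer_instance
  have : IsSplitEpi (pullback.fst W.hom T.hom) :=
    ⟨⟨pullback.lift (𝟙 _) w.left (by simp), pullback.lift_fst _ _ _⟩⟩
  have : IsIso ((Over.mapPullbackAdj T.hom).counit.app W) :=
    isIso_homMk _ (isIso_of_mono_of_isSplitEpi (pullback.fst W.hom T.hom))
  have hb := ht _ ((D.lnm _ l).1 l ((Over.pullback T.hom).obj W) ⟨1, (pow_one l).symm⟩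
    (inferInstanceAs (Etale (pullback.snd W.hom T.hom)))) 1 1 rfl
  refine ((post_bij _ (inv (D.LNM.ψ l T.hom W)) 1).comp (sl_bij T.hom _ i.hom (Ln l W) 1)).1
    (Eq.trans ?_ ((congrArg _ (map_zero _)).trans (map_zero _)).symm)
  refine D.CONN.chr (l := l) _ 1 (by rw [pow_one]; exact D.CONN.h_tor _) fun f => ?_
  obtain ⟨β', rfl⟩ := hb.2 f
  obtain ⟨β, rfl⟩ := lift T.hom l W β'
  exact (congrArg t (pair _ _ _ _ z β)).trans (hz β)

end Pool.Agent.MP_855f4c_ag.AV.RG

end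

section

/-! h67a, section RG: assembly. -/

namespace Pool.Agent.MP_855f4c_ag.AV.RG

theorem keyA : KEY_s :=
  key push pairz cnt (bd g1 (g2 hv) (g3 hv)) pdv ezb sec0 hv fld sq0 con dim sqf (cyc dim sqf alg)

theorem zzA : ZZ_s := zz sq0 alg pts dim sqf mvx genz art

theorem bcA : BC_s :=
  bc alg pts bcf zzA dev desc (core keyA sq0 dim gf zzA hv mvx genz ckz)

end Pool.Agent.MP_855f4c_ag.AV.RG

end
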