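import Pool.Agent.MP_855f4c_ag.EC.E4c
import Pool.Agent.MP_855f4c_ag.EC.Pb

set_option linter.all false

section

/-! h67a, section RG: the statement of the base case of Artin vanishing. -/

set_option autoImplicit false
set_option backward.isDefEq.respectTransparency false

open CategoryTheory Limits Abelian Opposite AlgebraicGeometry Polynomial Function

namespace Pool.Agent.MP_855f4c_ag.AV

open E E3 E4

/-- `X` is transcendental over the image of `V`. -/
def Trc {V k : Type} [CommRing V] [CommRing k] (ψ : V[X] →+* k) : Prop :=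
  ∀ f : V[X], ψ f = 0 → ∀ i, ψ (C (f.coeff i)) = 0

/-- Cohomological dimension of a punctured germ. -/
def BC_s : Prop := ∀ (l : ℕ) [Fact l.Prime] (V O O₀ : Type) [CommRing V] [IsDomain V]
  [ValuationRing V] [CharZero V] [CommRing O] [Algebra V[X] O] [CommRing O₀] [Algebra O O₀]
  [IsLocalization.Away (algebraMap V[X] O X) O₀] (P : Scheme.{0}) (a : Spec (.of O₀) ⟶ P)
  (F : Sh (Scheme.etaleTopology.over P)), Aic V →
    (∀ q : Ideal V, q.IsPrime → q ≠ ⊥ → q.IsMaximal) → IsUnit (l : V) → Germ V O → Tc l F →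
    (∀ (q : ℕ) (x : H (Over.mk a) F (q + 2)), x = 0) ∧
    ((∀ (k : Type) [Field k] [IsAlgClosed k] (φ : O₀ →+* k),
        Trc (φ.comp ((algebraMap O O₀).comp (algebraMap V[X] O))) →
        ∀ s : sec F (Over.mk (spc φ ≫ a)), s = 0) →
      ∀ (q : ℕ) (x : H (Over.mk a) F (q + 1)), x = 0)

end Pool.Agent.MP_855f4c_ag.AV

end

section

/-! h67a section AV: Artin vanishing over an absolutely integrally closed valuation ring.
Definitions and rows. -/

set_option backward.isDefEq.respectTransparency false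

open CategoryTheory Limits Abelian Opposite AlgebraicGeometry Polynomial IsLocalRing Function
open scoped TensorProduct

namespace Pool.Agent.MP_855f4c_ag.E.AV

open E3 E4

/-- Sheaves on the big etale site of `X`. -/
abbrev SH (X : Scheme.{0}) := Sh (Scheme.etaleTopology.over X)

/-- `H^q(T, F) = 0`. -/
def Z0 {X T : Scheme.{0}} (F : SH X) (a : T ⟶ X) (q : ℕ) : Prop :=
  ∀ z : H (Over.mk a) F q, z = 0

/-- `F(T) = 0`. -/
def S0 {X T : Scheme.{0}} (F : SH X) (a : T ⟶ X) : Prop := ∀ s : sec F (Over.mk a), s = 0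

/-- The family `x` is algebraically independent over the image of `χ`. -/
def Ind {V κ ι : Type} [CommRing V] [Field κ] (χ : V →+* κ) (x : ι → κ) : Prop :=
  ∀ P : MvPolynomial ι V, MvPolynomial.eval₂ χ x P = 0 → MvPolynomial.map χ P = 0

/-- The point `φ` has transcendence degree at least `n` over its image in `Spec V`. -/
def Big (V : Type) {B κ : Type} [CommRing V] [CommRing B] [Algebra V B] [Field κ] (n : ℕ)
    (φ : B →+* κ) : Prop :=
  ∃ b : Fin n → B, Ind (φ.comp (algebraMap V B)) fun i => φ (b i)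

/-- The stalks of `F` vanish at the points of relative transcendence degree at least `n`. -/
def Sup (V : Type) {B : Type} [CommRing V] [CommRing B] [Algebra V B] {X : Scheme.{0}} (n : ℕ)
    (F : SH X) (a : Spec (.of B) ⟶ X) : Prop :=
  ∀ (κ : Type) [Field κ] [IsAlgClosed κ] (φ : B →+* κ), Big V n φ → S0 F (spc φ ≫ a)

/-- The class of base rings (always with `IsDomain` and `ValuationRing`); fields are allowed. -/
structure VV (l : ℕ) (V : Type) [CommRing V] : Prop where
  aic : Aic V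
  unit : IsUnit (l : V)
  dim : Ring.DimensionLEOne V
  char : CharZero V

/-- Artin vanishing on `Spec B`. -/
def AVat (l : ℕ) (V B : Type) [CommRing V] [CommRing B] [Algebra V B] (n : ℕ) : Prop :=
  ∀ (X : Scheme.{0}) (a : Spec (.of B) ⟶ X) (F : SH X), Tc l F → Sup V n F a →
    ∀ q, n ≤ q → Z0 F a q

/-- Artin vanishing for all algebras of finite type. -/
def AVn (l : ℕ) (V : Type) [CommRing V] (n : ℕ) : Prop :=
  ∀ (B : Type) [CommRing B] [Algebra V B] [Algebra.FiniteType V B], AVat l V B n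

/-- The export of the section. -/
def AV_s : Prop := ∀ (l : ℕ) [Fact l.Prime] (V : Type) [CommRing V] [IsDomain V]
  [ValuationRing V], VV l V → ∀ n, AVn l V n

/-- The affine line over an algebraically closed field. -/
def A1_s : Prop := ∀ (l : ℕ) [Fact l.Prime] (k : Type) [Field k] [IsAlgClosed k], (l : k) ≠ 0 →
  ∀ (X : Scheme.{0}) (a : Spec (.of k[X]) ⟶ X) (F : SH X), Tc l F →
    (∀ q, Z0 F a (q + 2)) ∧
    ((∀ (κ : Type) [Field κ] [IsAlgClosed κ] (χ : k[X] →+* κ), Injective χ → S0 F (spc χ ≫ a)) →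
      ∀ q, Z0 F a (q + 1))

/-- Leray for `Spec T ⟶ Spec C`, with `G b = cart (R^b g_* F)`. -/
def LER_s : Prop := ∀ (l : ℕ) [Fact l.Prime] (C T : Type) [CommRing C] [CommRing T] [Algebra C T]
  (X : Scheme.{0}) (a : Spec (.of T) ⟶ X) (F : SH X), IsUnit (l : C) → Tc l F →
    ∃ G : ℕ → SH (Spec (.of C)), (∀ b, Tc l (G b)) ∧
      (∀ (b : ℕ) (κ : Type) [Field κ] [IsAlgClosed κ] (χ : C →+* κ),
        (∀ (R : Type) [CommRing R] [SHL R] [Algebra C R] (ψ : R →+* κ) [IsLocalHom ψ],
          IndEt C R → ψ.comp (algebraMap C R) = χ →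
            Z0 F (spc (algebraMap T (T ⊗[C] R)) ≫ a) b) → S0 (G b) (spc χ)) ∧
      ∀ q, (∀ i b, i + b = q → Z0 (G b) (𝟙 _) i) → Z0 F a q

/-- Transcendence degree: algebraic maps, towers, ind-etale maps. -/
def BIG_s : Prop :=
  (∀ (V B B' κ : Type) [CommRing V] [CommRing B] [CommRing B'] [Field κ] [Algebra V B]
    [Algebra V B'] (g : B →ₐ[V] B') (φ : B' →+* κ) (n : ℕ),
    (∀ b', ∃ P : B[X], P.map (φ.comp (g : B →+* B')) ≠ 0 ∧
      P.eval₂ (φ.comp (g : B →+* B')) (φ b') = 0) → Big V n φ → Big V n (φ.comp (g : B →+* B'))) ∧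
  (∀ (V V' B κ : Type) [CommRing V] [CommRing V'] [CommRing B] [Field κ] [Algebra V V']
    [Algebra V' B] [Algebra V B] [IsScalarTower V V' B] (φ : B →+* κ) (m r : ℕ) (x : Fin r → V'),
    Ind (φ.comp (algebraMap V B)) (fun i => φ (algebraMap V' B (x i))) →
      Big V' m φ → Big V (m + r) φ) ∧
  ∀ (B B' κ : Type) [CommRing B] [CommRing B'] [Field κ] [Algebra B B'] (φ : B' →+* κ),
    IndEt B B' → ∀ b', ∃ P : B[X], P.map (φ.comp (algebraMap B B')) ≠ 0 ∧
      P.eval₂ (φ.comp (algebraMap B B')) (φ b') = 0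

/-- Passage to ind-etale algebras (may use `BIG_s`). -/
def LIM_s : Prop := ∀ (l : ℕ) (V B T : Type) [CommRing V] [CommRing B] [Algebra V B]
  [Algebra.FiniteType V B] [CommRing T] [Algebra B T] (n : ℕ), AVn l V n → IndEt B T →
  ∀ (X : Scheme.{0}) (a : Spec (.of B) ⟶ X) (F : SH X), Tc l F → Sup V n F a →
    ∀ q, n ≤ q → Z0 F (spc (algebraMap B T) ≫ a) q

/-- The point step (Gauss step and descent; may use `BIG_s`, `LIM_s`). -/
def PT_s : Prop := ∀ (l : ℕ) [Fact l.Prime] (V : Type) [CommRing V] [IsDomain V]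
  [ValuationRing V], VV l V → ∀ (B T R κ : Type) [CommRing B] [Algebra V B]
  [Algebra.FiniteType V B] [CommRing T] [Algebra B T] [CommRing R] [SHL R] [Algebra V R] [Field κ]
  [IsAlgClosed κ] (ψ : R →+* κ) [IsLocalHom ψ] (ρ : R →+* T) (r m : ℕ) (x : Fin r → R)
  (y : Fin r → B), IndEt B T →
    (∀ v, ρ (algebraMap V R v) = algebraMap B T (algebraMap V B v)) →
    (∀ i, ρ (x i) = algebraMap B T (y i)) → Ind (ψ.comp (algebraMap V R)) (fun i => ψ (x i)) →
    (∀ (V' : Type) [CommRing V'] [IsDomain V'] [ValuationRing V'], VV l V' →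
      (Injective (ψ.comp (algebraMap V R)) → IsField V') → AVn l V' m) →
    ∀ (X : Scheme.{0}) (a : Spec (.of B) ⟶ X) (F : SH X), Tc l F → Sup V (m + r) F a →
      ∀ q, m ≤ q → Z0 F (spc (algebraMap B T) ≫ a) q

/-- Zero stalks; quotients of strictly henselian rings. -/
def ZER_s : Prop := ∀ (l : ℕ) [Fact l.Prime] (X : Scheme.{0}) (F : SH X), Tc l F →
  (∀ (A : Type) [CommRing A] (a : Spec (.of A) ⟶ X), IsUnit (l : A) →
    (∀ (κ : Type) [Field κ] [IsAlgClosed κ] (χ : A →+* κ), S0 F (spc χ ≫ a)) → ∀ q, Z0 F a q) ∧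
  ∀ (R T κ : Type) [CommRing R] [SHL R] [CommRing T] [Field κ] [IsAlgClosed κ] (ψ : R →+* κ)
    [IsLocalHom ψ] (ρ : R →+* T) (a : Spec (.of T) ⟶ X), IsUnit (l : R) → Surjective ρ →
    (∀ q, Z0 F a (q + 1)) ∧
    ((∀ ψ' : T →+* κ, ψ'.comp ρ = ψ → S0 F (spc ψ' ≫ a)) → Z0 F a 0)

/-- The sequence `0 → F_U → F → F_Z → 0` for `Z = V(I)`, after any base change. -/
def SPL_s : Prop := ∀ (l : ℕ) [Fact l.Prime] (X : Scheme.{0}) (A : Type) [CommRing A]
  (a : Spec (.of A) ⟶ X) (F : SH X) (I : Ideal A), IsUnit (l : A) → Tc l F →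
    ∃ F' : SH (Spec (.of A)), Tc l F' ∧
      (∀ (κ : Type) [Field κ] [IsAlgClosed κ] (χ : A →+* κ),
        I ≤ RingHom.ker χ ∨ S0 F (spc χ ≫ a) → S0 F' (spc χ)) ∧
      ∀ (A' A'' : Type) [CommRing A'] [CommRing A''] (α : A →+* A') (β : A' →+* A''),
        Surjective β → RingHom.ker β = I.map α → ∀ q, Z0 F' (spc α) q →
          Z0 F (spc (β.comp α) ≫ a) q → Z0 F (spc α ≫ a) q

/-- From the affine line over `R` to the punctured germ at infinity. -/
def PAT_s : Prop := ∀ (l : ℕ) [Fact l.Prime] (R O D : Type) [CommRing R] [SHL R] [CommRing O]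
  [Algebra R[X] O] [CommRing D] [Algebra O D] [IsLocalization.Away (algebraMap R[X] O X) D]
  (θ : R[X] →+* D) (Y : Scheme.{0}) (a : Spec (.of R[X]) ⟶ Y) (F : SH Y), IsUnit (l : R) →
    Germ R O → (∀ r, θ (C r) = algebraMap O D (algebraMap R[X] O (C r))) →
    θ X * algebraMap O D (algebraMap R[X] O X) = 1 → Tc l F →
    (∀ (κ : Type) [Field κ] [IsAlgClosed κ] (χ : R[X] →+* κ),
      (∀ r ∈ maximalIdeal R, χ (C r) = 0) → S0 F (spc χ ≫ a)) →
    ∀ q, Z0 F (spc θ ≫ a) q → Z0 F a q

/-- Commutative algebra for the glue. -/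
def GEO_s : Prop :=
  (∀ (V κ : Type) [CommRing V] [Field κ] (φ : V[X] →+* κ), Pool.Agent.MP_855f4c_ag.AV.Trc φ →
    Ind (φ.comp C) fun _ : Fin 1 => φ X) ∧
  (∀ (V R κ : Type) [CommRing V] [IsLocalRing V] [CommRing R] [IsLocalRing R] [Algebra V R]
    [Field κ] (ψ : R →+* κ) [IsLocalHom ψ], Aic V →
    (∀ v ∈ maximalIdeal V, ψ (algebraMap V R v) = 0) → ¬ Big V 1 ψ →
      IsAlgClosed (ResidueField R)) ∧
  (∀ (V O κ : Type) [CommRing V] [IsDomain V] [IsLocalRing V] [CommRing O] [Algebra V[X] O]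
    [Field κ] (χ : O →+* κ) (φ : V[X] →+* κ), Aic V → Ring.DimensionLEOne V → Germ V O →
    φ = χ.comp (algebraMap V[X] O) → φ X ≠ 0 →
    (Pool.Agent.MP_855f4c_ag.AV.Trc φ → Ind (φ.comp C) fun _ : Fin 1 => (φ X)⁻¹) ∧
    (¬ Pool.Agent.MP_855f4c_ag.AV.Trc φ → Injective (φ.comp C) ∧ ¬ IsField V)) ∧
  (∀ (A R O D : Type) [CommRing A] [CommRing R] [IsLocalRing R] [Algebra A R] [CommRing O]
    [Algebra R[X] O] [CommRing D] [Algebra O D] [IsLocalization.Away (algebraMap R[X] O X) D]
    [Algebra A[X] D], IndEt A R → Germ R O →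
    (∀ c, algebraMap A[X] D (C c) = algebraMap O D (algebraMap R[X] O (C (algebraMap A R c)))) →
    algebraMap A[X] D X * algebraMap O D (algebraMap R[X] O X) = 1 → IndEt A[X] D) ∧
  ∀ (V R κ : Type) [CommRing V] [IsLocalRing V] [CommRing R] [IsLocalRing R] [Algebra V R]
    [Field κ] [IsAlgClosed κ] (ψ : R →+* κ) [IsLocalHom ψ],
    (∀ v ∈ maximalIdeal V, ψ (algebraMap V R v) = 0) →
    ∃ (O O' : Type) (_ : CommRing O) (_ : Algebra V[X] O) (_ : CommRing O') (_ : Algebra R[X] O')
      (g : O →+* O'), Germ V O ∧ Germ R O' ∧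
      ∀ P : V[X], g (algebraMap V[X] O P) = algebraMap R[X] O' (P.map (algebraMap V R))

end Pool.Agent.MP_855f4c_ag.E.AV

end

section

/-! h67a section AV, row BIG: transcendence degree of points. -/

set_option backward.isDefEq.respectTransparency false

open Polynomial Function

namespace Pool.Agent.MP_855f4c_ag.E.AV

open E3

theorem ind_iff {V κ ι : Type} [CommRing V] [Field κ] (χ : V →+* κ) (x : ι → κ) :
    Ind χ x ↔ AlgebraicIndependent χ.range x := by
  have h1 : ∀ P : MvPolynomial ι V, MvPolynomial.aeval x (MvPolynomial.map χ.rangeRestrict P) =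
      MvPolynomial.eval₂ χ x P := fun P => by
    rw [MvPolynomial.aeval_def, MvPolynomial.eval₂_map]
    rfl
  have h2 : ∀ P : MvPolynomial ι V, MvPolynomial.map χ P =
      MvPolynomial.map χ.range.subtype (MvPolynomial.map χ.rangeRestrict P) := fun P => by
    rw [MvPolynomial.map_map]
    rfl
  rw [algebraicIndependent_iff]
  constructor
  · intro h p hp
    obtain ⟨P, rfl⟩ := MvPolynomial.map_surjective _ χ.rangeRestrict_surjective p
    apply MvPolynomial.map_injective _ χ.range.subtype_injective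
    rw [← h2, h P (by rw [← h1]; exact hp), map_zero]
  · intro h P hP
    rw [h2, h _ ((h1 P).trans hP), map_zero]

theorem big_exch {R κ : Type} [CommRing R] [Nontrivial R] [Field κ] [Algebra R κ] [FaithfulSMul R κ] {n : ℕ}
    (s : Set κ) (y : Fin n → κ) (hy : AlgebraicIndependent R y)
    (ha : ∀ i, IsAlgebraic (Algebra.adjoin R s) (y i)) :
    ∃ z : Fin n → κ, (∀ i, z i ∈ s) ∧ AlgebraicIndependent R z := by
  have h1 : (AlgebraicIndependent.matroid R κ).Indep (Set.range y) :=
    AlgebraicIndependent.matroid_indep_iff.2 hy.to_subtype_range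
  have h2 : Set.range y ⊆ (AlgebraicIndependent.matroid R κ).closure s := by
    rintro _ ⟨i, rfl⟩
    rw [AlgebraicIndependent.matroid_closure_eq]
    exact ha i
  have h3 := hy.injective.encard_range.trans (h1.encard_le_eRk_of_subset h2)
  rw [Matroid.eRk_closure_eq] at h3
  obtain ⟨I, hI, hi, hc⟩ := Matroid.le_eRk_iff.1 h3
  have hf : I.Finite := Set.finite_of_encard_eq_coe (k := n) (by simpa using hc)
  have : Finite I := hf
  have hn : Nat.card I = n := by
    rw [Nat.card_coe_set_eq, Set.ncard, hc]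
    simp
  let e := Finite.equivFinOfCardEq hn
  exact ⟨fun i => e.symm i, fun i => hI (e.symm i).2,
    (AlgebraicIndependent.matroid_indep_iff.1 hi).comp e.symm e.symm.injective⟩

theorem big1 (V B B' κ : Type) [CommRing V] [CommRing B] [CommRing B'] [Field κ] [Algebra V B]
    [Algebra V B'] (g : B →ₐ[V] B') (φ : B' →+* κ) (n : ℕ)
    (h : ∀ b', ∃ P : B[X], P.map (φ.comp (g : B →+* B')) ≠ 0 ∧
      P.eval₂ (φ.comp (g : B →+* B')) (φ b') = 0) (hb : Big V n φ) :
    Big V n (φ.comp (g : B →+* B')) := by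
  obtain ⟨b, hb⟩ := hb
  have he : (φ.comp (g : B →+* B')).comp (algebraMap V B) = φ.comp (algebraMap V B') := by
    rw [RingHom.comp_assoc, g.comp_algebraMap]
  rw [ind_iff] at hb
  obtain ⟨z, hz, hi⟩ := big_exch (Set.range (φ.comp (g : B →+* B'))) _ hb fun i => by
    obtain ⟨P, h1, h2⟩ := h (b i)
    let ρ : B →+* Algebra.adjoin (φ.comp (algebraMap V B')).range
        (Set.range (φ.comp (g : B →+* B'))) :=
      (φ.comp (g : B →+* B')).codRestrict _ fun c => Algebra.subset_adjoin ⟨c, rfl⟩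
    have hρ : (algebraMap _ κ).comp ρ = φ.comp (g : B →+* B') := rfl
    refine ⟨P.map ρ, fun h0 => h1 ?_, ?_⟩
    · rw [← hρ, ← Polynomial.map_map, h0, Polynomial.map_zero]
    · rw [Polynomial.aeval_def, Polynomial.eval₂_map, hρ, h2]
  choose c hc using hz
  refine ⟨c, ?_⟩
  rw [he, ind_iff]
  simpa only [hc] using hi

theorem big2 (V V' B κ : Type) [CommRing V] [CommRing V'] [CommRing B] [Field κ] [Algebra V V']
    [Algebra V' B] [Algebra V B] [IsScalarTower V V' B] (φ : B →+* κ) (m r : ℕ) (x : Fin r → V')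
    (hx : Ind (φ.comp (algebraMap V B)) (fun i => φ (algebraMap V' B (x i))))
    (hb : Big V' m φ) : Big V (m + r) φ := by
  obtain ⟨b, hb⟩ := hb
  rw [ind_iff] at hx hb
  have hle : (φ.comp (algebraMap V B)).range ≤ (φ.comp (algebraMap V' B)).range := by
    rintro _ ⟨v, rfl⟩
    exact ⟨algebraMap V V' v, by simp [← IsScalarTower.algebraMap_apply]⟩
  let _ := (Subring.inclusion hle).toAlgebra
  have : IsScalarTower (φ.comp (algebraMap V B)).range (φ.comp (algebraMap V' B)).range κ :=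
    .of_algebraMap_eq fun _ => rfl
  have h := hx.sumElim_of_tower (S := (φ.comp (algebraMap V' B)).range)
    (by rintro _ ⟨i, rfl⟩; exact ⟨⟨_, x i, rfl⟩, rfl⟩) hb
  refine ⟨fun i => Sum.elim b (fun j => algebraMap V' B (x j)) (finSumFinEquiv.symm i), ?_⟩
  rw [ind_iff]
  convert h.comp finSumFinEquiv.symm finSumFinEquiv.symm.injective using 2 with i
  simp only [Function.comp]
  cases finSumFinEquiv.symm i <;> rfl

theorem big3 (B B' κ : Type) [CommRing B] [CommRing B'] [Field κ] [Algebra B B'] (φ : B' →+* κ)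
    (H : IndEt B B') (b' : B') : ∃ P : B[X], P.map (φ.comp (algebraMap B B')) ≠ 0 ∧
      P.eval₂ (φ.comp (algebraMap B B')) (φ b') = 0 := by
  set χ := φ.comp (algebraMap B B') with hχ
  let _ : Algebra B κ := χ.toAlgebra
  let _ : Algebra (FractionRing χ.range) κ := FractionRing.liftAlgebra χ.range κ
  let _ : Algebra B (FractionRing χ.range) :=
    ((algebraMap χ.range (FractionRing χ.range)).comp χ.rangeRestrict).toAlgebra
  have : IsScalarTower B (FractionRing χ.range) κ := .of_algebraMap_eq fun c =>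
    IsScalarTower.algebraMap_apply χ.range (FractionRing χ.range) κ (χ.rangeRestrict c)
  have h1 := (H.isSeparable (FractionRing χ.range) ({ φ with commutes' := fun _ => rfl } :
    B' →ₐ[B] κ) b').isIntegral.isAlgebraic
  obtain ⟨p, hp, h0⟩ := (IsFractionRing.isAlgebraic_iff χ.range (FractionRing χ.range) κ).2 h1
  obtain ⟨P, rfl⟩ := Polynomial.map_surjective _ χ.rangeRestrict_surjective p
  have hρ : (algebraMap χ.range κ).comp χ.rangeRestrict = χ := rfl
  refine ⟨P, fun h => hp ?_, ?_⟩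
  · apply Polynomial.map_injective (algebraMap χ.range κ) χ.range.subtype_injective
    rw [Polynomial.map_map, hρ, h, Polynomial.map_zero]
  · rw [Polynomial.aeval_def, Polynomial.eval₂_map, hρ] at h0
    exact h0

theorem big : BIG_s := ⟨big1, big2, big3⟩

end Pool.Agent.MP_855f4c_ag.E.AV

end

section

set_option autoImplicit false

open CategoryTheory Limits Opposite AlgebraicGeometry TensorProduct Polynomial

namespace Pool.Agent.MP_855f4c_ag.E.AV

open E3 E4

/-- Restriction from `Spec B` to `Spec (B ⊗[W] V')` is injective on cohomology. -/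
def InjBC (l : ℕ) (W V' : Type) [CommRing W] [CommRing V'] [Algebra W V'] : Prop :=
  ∀ (B B' : Type) [CommRing B] [CommRing B'] [Algebra W B] [Algebra B B'] [Algebra V' B']
    [Algebra W B'] [IsScalarTower W B B'] [IsScalarTower W V' B'] [Algebra.IsPushout W B V' B']
    (X : Scheme.{0}) (a : Spec (.of B) ⟶ X) (b : Spec (.of B') ⟶ X)
    (h : spc (algebraMap B B') ≫ a = b) (F : Sh (Scheme.etaleTopology.over X)), Tc l F →
    ∀ q : ℕ, Function.Injective (res (sph (algebraMap B B') h) F q)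

/-- The affine line over an algebraically closed field has cohomological dimension one. -/
def A1F_s : Prop := ∀ (l : ℕ) [Fact l.Prime] (k : Type) [Field k] [IsAlgClosed k], (l : k) ≠ 0 →
  ∀ (X : Scheme.{0}) (a : Spec (.of k[X]) ⟶ X) (F : Sh (Scheme.etaleTopology.over X)), Tc l F →
    ∀ (q : ℕ) (z : H (Over.mk a) F (q + 2)), z = 0

/-- The same with a zero generic stalk. -/
def A1G_s : Prop := ∀ (l : ℕ) [Fact l.Prime] (k : Type) [Field k] [IsAlgClosed k], (l : k) ≠ 0 →
  ∀ (X : Scheme.{0}) (a : Spec (.of k[X]) ⟶ X) (F : Sh (Scheme.etaleTopology.over X)), Tc l F →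
    ∀ (Ω : Type) [Field Ω] [IsAlgClosed Ω] (φ : k[X] →+* Ω), Function.Injective φ →
      (∀ s : F.obj.obj (op (Over.mk (spc φ ≫ a))), s = 0) →
      ∀ (q : ℕ) (z : H (Over.mk a) F (q + 1)), z = 0

end Pool.Agent.MP_855f4c_ag.E.AV

end

section

set_option backward.isDefEq.respectTransparency false

open CategoryTheory AlgebraicGeometry Function

namespace Pool.Agent.MP_855f4c_ag.E.AV

open E3 E4

/-- The Gauss step in `r` variables. -/
def GW_s : Prop := ∀ (l : ℕ) [Fact l.Prime] (V : Type) [CommRing V] [IsDomain V]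
  [ValuationRing V], VV l V → ∀ (κ : Type) [Field κ] [IsAlgClosed κ] (r : ℕ)
  (φ : MvPolynomial (Fin r) V →+* κ),
    Ind (φ.comp MvPolynomial.C) (fun i => φ (MvPolynomial.X i)) →
    ∃ (W : Type) (_ : CommRing W) (_ : Algebra (MvPolynomial (Fin r) V) W) (ω : W →+* κ)
      (V' : Type) (_ : CommRing V') (_ : IsDomain V') (_ : ValuationRing V') (_ : Algebra W V'),
      IndEt (MvPolynomial (Fin r) V) W ∧ ω.comp (algebraMap _ W) = φ ∧ VV l V' ∧
      (Injective (φ.comp MvPolynomial.C) → IsField V') ∧ Algebra.IsIntegral W V' ∧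
      (∀ (κ' : Type) [Field κ'] (χ : V' →+* κ'),
        Ind (((χ.comp (algebraMap W V')).comp (algebraMap (MvPolynomial (Fin r) V) W)).comp
          MvPolynomial.C) fun i => χ (algebraMap W V' (algebraMap _ W
            (MvPolynomial.X i : MvPolynomial (Fin r) V)))) ∧
      InjBC l W V'

end Pool.Agent.MP_855f4c_ag.E.AV

end

section

/-! h67a section AV: commutative algebra for the glue, parts 4 and 5. -/

set_option backward.isDefEq.respectTransparency false

open Polynomial IsLocalRing Function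

namespace Pool.Agent.MP_855f4c_ag.E.AV

open E3 E4

namespace GEOb

/-- Ind-etale ring maps. -/
def IH {P L : Type} [CommRing P] [CommRing L] (a : P →+* L) : Prop :=
  @IndEt P L _ _ a.toAlgebra

variable {P L D : Type} [CommRing P] [CommRing L] [CommRing D]

theorem ih_iff [i : Algebra P L] : IH (algebraMap P L) ↔ IndEt P L := by
  have h : (algebraMap P L).toAlgebra = i := Algebra.algebra_ext _ _ fun _ => rfl
  unfold IH
  rw [h]

theorem IH.comp {a : P →+* L} {f : L →+* D} (h1 : IH a) (h2 : IH f) : IH (f.comp a) := by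
  let := a.toAlgebra
  let := f.toAlgebra
  let := (f.comp a).toAlgebra
  have : IsScalarTower P L D := IsScalarTower.of_algebraMap_eq fun _ => rfl
  exact IndEt.comp (C := L) h1 h2

theorem IH.cancel {a : P →+* L} {f : L →+* D} (h1 : IH a) (h2 : IH (f.comp a)) : IH f := by
  let := a.toAlgebra
  let := f.toAlgebra
  let := (f.comp a).toAlgebra
  have : IsScalarTower P L D := IsScalarTower.of_algebraMap_eq fun _ => rfl
  exact IndEt.cancel (R := P) h1 h2

theorem IH.equiv (e : P ≃+* L) : IH (e : P →+* L) := by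
  let := (e : P →+* L).toAlgebra
  exact (IndEt.of_etale (R := P) (C := P)).of_equiv { e with commutes' := fun _ => rfl }

theorem IH.poly [Algebra P L] (h : IndEt P L) : IH (mapRingHom (algebraMap P L)) := by
  let := Polynomial.algebra P L
  have h1 : IndEt P[X] L[X] := h.of_isPushout P[X] L[X]
  exact ih_iff.2 h1

end GEOb

open GEOb in
theorem geo4 : ∀ (A R O D : Type) [CommRing A] [CommRing R] [IsLocalRing R] [Algebra A R]
    [CommRing O] [Algebra R[X] O] [CommRing D] [Algebra O D]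
    [IsLocalization.Away (algebraMap R[X] O X) D] [Algebra A[X] D], IndEt A R → Germ R O →
    (∀ c, algebraMap A[X] D (C c) = algebraMap O D (algebraMap R[X] O (C (algebraMap A R c)))) →
    algebraMap A[X] D X * algebraMap O D (algebraMap R[X] O X) = 1 → IndEt A[X] D := by
  intro A R O D _ _ _ _ _ _ _ _ _ _ h1 h2 hC hX
  have a1 : IH ((algebraMap O D).comp ((algebraMap R[X] O).comp (mapRingHom (algebraMap A R)))) :=
    ((IH.poly h1).comp (ih_iff.2 h2.ind)).comp
      (ih_iff.2 (IndEt.of_isLocalization (Submonoid.powers (algebraMap R[X] O X))))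
  have a2 : IH (algebraMap A[X] (LaurentPolynomial A)) :=
    ih_iff.2 (IndEt.of_isLocalization (Submonoid.powers (X : A[X])))
  let f : LaurentPolynomial A →+* D :=
    IsLocalization.Away.lift (X : A[X]) (g := algebraMap A[X] D) (IsUnit.of_mul_eq_one _ hX)
  have hf : ∀ p, f (algebraMap A[X] _ p) = algebraMap A[X] D p :=
    IsLocalization.Away.lift_eq _ _
  let e : LaurentPolynomial A ≃+* LaurentPolynomial A := LaurentPolynomial.invert.toRingEquiv
  have a3 := a2.comp (IH.equiv e)
  have hT : f (LaurentPolynomial.T 1) = algebraMap A[X] D X := by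
    rw [← hf, LaurentPolynomial.algebraMap_eq_toLaurent, toLaurent_X]
  have hT' : f (LaurentPolynomial.T (-1)) * algebraMap A[X] D X = 1 := by
    rw [← hT, ← map_mul, ← LaurentPolynomial.T_add, neg_add_cancel, LaurentPolynomial.T_zero,
      map_one]
  have he : f.comp ((e : _ →+* _).comp (algebraMap A[X] (LaurentPolynomial A))) =
      (algebraMap O D).comp ((algebraMap R[X] O).comp (mapRingHom (algebraMap A R))) := by
    refine Polynomial.ringHom_ext (fun c => ?_) ?_
    · have : e (algebraMap A[X] _ (C c)) = algebraMap A[X] _ (C c) := by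
        rw [LaurentPolynomial.algebraMap_eq_toLaurent, toLaurent_C]
        exact LaurentPolynomial.invert_C c
      refine (congrArg f this).trans ((hf _).trans ((hC c).trans ?_))
      simp
    · have : e (algebraMap A[X] _ X) = LaurentPolynomial.T (-1) := by
        rw [LaurentPolynomial.algebraMap_eq_toLaurent, toLaurent_X]
        exact LaurentPolynomial.invert_T 1
      refine (congrArg f this).trans ((left_inv_eq_right_inv hT' hX).trans ?_)
      simp
  have a4 : IH f := a3.cancel (he ▸ a1)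
  have a5 : f.comp (algebraMap A[X] (LaurentPolynomial A)) = algebraMap A[X] D := RingHom.ext hf
  exact ih_iff.1 (a5 ▸ a2.comp a4)

theorem geo5 : ∀ (V R κ : Type) [CommRing V] [IsLocalRing V] [CommRing R] [IsLocalRing R]
    [Algebra V R] [Field κ] [IsAlgClosed κ] (ψ : R →+* κ) [IsLocalHom ψ],
    (∀ v ∈ maximalIdeal V, ψ (algebraMap V R v) = 0) →
    ∃ (O O' : Type) (_ : CommRing O) (_ : Algebra V[X] O) (_ : CommRing O') (_ : Algebra R[X] O')
      (g : O →+* O'), Germ V O ∧ Germ R O' ∧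
      ∀ P : V[X], g (algebraMap V[X] O P) = algebraMap R[X] O' (P.map (algebraMap V R)) := by
  intro V R κ _ _ _ _ _ _ _ ψ _ hV
  let : Algebra R[X] κ := (eval₂RingHom ψ 0).toAlgebra
  let : Algebra V[X] κ := ((eval₂RingHom ψ 0).comp (mapRingHom (algebraMap V R))).toAlgebra
  obtain ⟨O, _, _, _, _, s1, i1, l1⟩ := exists_SH V[X] κ
  obtain ⟨O', _, _, _, _, s2, i2, l2⟩ := exists_SH R[X] κ
  let : Algebra V[X] O' := ((algebraMap R[X] O').comp (mapRingHom (algebraMap V R))).toAlgebra
  have : IsScalarTower V[X] O' κ := IsScalarTower.of_algebraMap_eq fun p =>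
    IsScalarTower.algebraMap_apply R[X] O' κ (p.map (algebraMap V R))
  have : IsLocalHom (IsScalarTower.toAlgHom V[X] O' κ) :=
    ⟨fun a ha => isUnit_of_map_unit (algebraMap O' κ) a ha⟩
  obtain ⟨g, -⟩ := SHL.lift i1 (IsScalarTower.toAlgHom V[X] O' κ) (IsScalarTower.toAlgHom V[X] O κ)
  have n1 : ∀ p : V[X], algebraMap V[X] κ p = 0 → ¬ IsUnit (algebraMap V[X] O p) := fun p hp hu =>
    (hu.map (algebraMap O κ)).ne_zero ((IsScalarTower.algebraMap_apply V[X] O κ p).symm.trans hp)
  have n2 : ∀ p : R[X], algebraMap R[X] κ p = 0 → ¬ IsUnit (algebraMap R[X] O' p) := fun p hp hu =>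
    (hu.map (algebraMap O' κ)).ne_zero ((IsScalarTower.algebraMap_apply R[X] O' κ p).symm.trans hp)
  refine ⟨O, O', inferInstance, inferInstance, inferInstance, inferInstance, g,
    ⟨s1, i1, fun a ha => n1 _ ?_, n1 _ ?_⟩, ⟨s2, i2, fun a ha => n2 _ ?_, n2 _ ?_⟩,
    fun p => g.commutes p⟩
  · simpa [RingHom.algebraMap_toAlgebra] using hV a ha
  · simp [RingHom.algebraMap_toAlgebra]
  · have : ψ a = 0 := by
      by_contra h
      exact ha (isUnit_of_map_unit ψ a (isUnit_iff_ne_zero.2 h))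
    simpa [RingHom.algebraMap_toAlgebra] using this
  · simp [RingHom.algebraMap_toAlgebra]

end Pool.Agent.MP_855f4c_ag.E.AV

end

section

/-! h67a section AV, row GEO: parts 1 to 3 and the whole row. -/

set_option backward.isDefEq.respectTransparency false

open Polynomial IsLocalRing Function

namespace Pool.Agent.MP_855f4c_ag.E.AV

open E3 E4

/-- Independence of one element, in terms of polynomials in one variable. -/
lemma ind_one {V κ : Type} [CommRing V] [Field κ] (χ : V →+* κ) (t : κ) :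
    Ind χ (fun _ : Fin 1 => t) ↔ ∀ f : V[X], f.eval₂ χ t = 0 → f.map χ = 0 := by
  have h1 (P : MvPolynomial (Fin 1) V) :
      (MvPolynomial.uniqueAlgEquiv V (Fin 1) P).eval₂ χ t =
        MvPolynomial.eval₂ χ (fun _ => t) P := by
    induction P using MvPolynomial.induction_on with
    | C a => simp [MvPolynomial.uniqueAlgEquiv]
    | add p q hp hq => rw [map_add, eval₂_add, MvPolynomial.eval₂_add, hp, hq]
    | mul_X p i hp =>
      rw [map_mul, eval₂_mul, MvPolynomial.eval₂_mul, hp]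
      simp [MvPolynomial.uniqueAlgEquiv]
  have h2 (P : MvPolynomial (Fin 1) V) :
      (MvPolynomial.uniqueAlgEquiv V (Fin 1) P).map χ =
        MvPolynomial.uniqueAlgEquiv κ (Fin 1) (MvPolynomial.map χ P) := by
    ext n
    rw [coeff_map, MvPolynomial.coeff_uniqueAlgEquiv, MvPolynomial.coeff_uniqueAlgEquiv,
      MvPolynomial.coeff_map]
  constructor
  · intro h f hf
    obtain ⟨P, rfl⟩ := (MvPolynomial.uniqueAlgEquiv V (Fin 1)).surjective f
    rw [h2, h P (by rw [← h1, hf]), map_zero]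
  · intro h P hP
    apply (MvPolynomial.uniqueAlgEquiv κ (Fin 1)).injective
    rw [← h2, h _ (by rw [h1, hP]), map_zero]

lemma eval₂_comp_C {V κ : Type} [CommRing V] [CommRing κ] (φ : V[X] →+* κ) (f : V[X]) :
    f.eval₂ (φ.comp C) (φ X) = φ f := by
  rw [← hom_eval₂, eval₂_C_X]

lemma trc_iff {V κ : Type} [CommRing V] [Field κ] (φ : V[X] →+* κ) :
    Pool.Agent.MP_855f4c_ag.AV.Trc φ ↔
      ∀ f : V[X], f.eval₂ (φ.comp C) (φ X) = 0 → f.map (φ.comp C) = 0 := by
  refine forall_congr' fun f => ?_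
  rw [eval₂_comp_C, Polynomial.ext_iff]
  simp

theorem geo1 (V κ : Type) [CommRing V] [Field κ] (φ : V[X] →+* κ)
    (h : Pool.Agent.MP_855f4c_ag.AV.Trc φ) : Ind (φ.comp C) fun _ : Fin 1 => φ X :=
  (ind_one _ _).2 ((trc_iff φ).1 h)

/-- An element that is algebraic over the residue field of an aic local ring comes from it. -/
lemma mem_range_of_alg {V κ : Type} [CommRing V] [IsLocalRing V] [Field κ] (hV : Aic V)
    (χ : V →+* κ) (hχ : ∀ v ∈ maximalIdeal V, χ v = 0) (f : V[X]) (t : κ) (h0 : f.map χ ≠ 0)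
    (ht : f.eval₂ χ t = 0) : ∃ a, χ a = t := by
  have := hV.isAlgClosed_residue
  let χ' : ResidueField V →+* κ := Ideal.Quotient.lift _ χ hχ
  have e : χ'.comp (residue V) = χ := RingHom.ext fun _ => rfl
  have e' : (f.map (residue V)).map χ' = f.map χ := by rw [Polynomial.map_map, e]
  have h1 : f.map (residue V) ≠ 0 := fun h => h0 (by rw [← e', h, Polynomial.map_zero])
  obtain ⟨a, ha⟩ := (IsAlgClosed.splits (f.map (residue V))).mem_range_of_isRoot h1 (i := χ')
    (x := t) (by rw [e', IsRoot.def, eval_map, ht])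
  obtain ⟨a, rfl⟩ := residue_surjective a
  exact ⟨a, ha⟩

theorem geo2 (V R κ : Type) [CommRing V] [IsLocalRing V] [CommRing R] [IsLocalRing R]
    [Algebra V R] [Field κ] (ψ : R →+* κ) [IsLocalHom ψ] (hV : Aic V)
    (hm : ∀ v ∈ maximalIdeal V, ψ (algebraMap V R v) = 0) (hB : ¬ Big V 1 ψ) :
    IsAlgClosed (ResidueField R) := by
  refine (hV.of_surjective ((residue R).comp (algebraMap V R)) fun b => ?_).isAlgClosed_field
  obtain ⟨b, rfl⟩ := residue_surjective b
  have h : ¬ Ind (ψ.comp (algebraMap V R)) fun _ : Fin 1 => ψ b := fun h => hB ⟨fun _ => b, h⟩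
  rw [ind_one] at h
  push Not at h
  obtain ⟨f, h1, h2⟩ := h
  obtain ⟨a, ha⟩ := mem_range_of_alg hV (ψ.comp (algebraMap V R)) hm f _ h2 h1
  refine ⟨a, ?_⟩
  rw [RingHom.comp_apply, ← sub_eq_zero, ← map_sub, residue_eq_zero_iff]
  intro hu
  have := hu.map ψ
  rw [map_sub, ← ha, RingHom.comp_apply, sub_self] at this
  exact not_isUnit_zero this

theorem geo3 (V O κ : Type) [CommRing V] [IsDomain V] [IsLocalRing V] [CommRing O]
    [Algebra V[X] O] [Field κ] (χ : O →+* κ) (φ : V[X] →+* κ) (hV : Aic V)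
    (hd : Ring.DimensionLEOne V) (hO : Germ V O) (hφ : φ = χ.comp (algebraMap V[X] O))
    (hX : φ X ≠ 0) :
    (Pool.Agent.MP_855f4c_ag.AV.Trc φ → Ind (φ.comp C) fun _ : Fin 1 => (φ X)⁻¹) ∧
    (¬ Pool.Agent.MP_855f4c_ag.AV.Trc φ → Injective (φ.comp C) ∧ ¬ IsField V) := by
  refine ⟨fun h => (ind_one _ _).2 fun f hf => ?_, fun h => ?_⟩
  · let : Invertible (φ X)⁻¹ := invertibleOfNonzero (inv_ne_zero hX)
    have h1 := (eval₂_reverse_eq_zero_iff (φ.comp C) (φ X)⁻¹ f).2 hf
    rw [invOf_eq_inv, inv_inv, eval₂_comp_C] at h1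
    ext n
    have h2 := h _ h1 (revAt f.natDegree n)
    rw [coeff_reverse, revAt_invol] at h2
    simpa using h2
  · have hne : RingHom.ker (φ.comp C) ≠ maximalIdeal V := fun hk => by
      rw [trc_iff] at h
      push Not at h
      obtain ⟨f, h1, h2⟩ := h
      obtain ⟨a, ha⟩ := mem_range_of_alg hV (φ.comp C) (fun v hv => by
        rw [← RingHom.mem_ker, hk]; exact hv) f _ h2 h1
      have := hO.shl
      have hu : IsUnit a := by
        by_contra hu
        have h3 : a ∈ RingHom.ker (φ.comp C) := by rw [hk]; exact hu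
        exact hX (ha ▸ h3)
      have h4 : IsUnit (algebraMap V[X] O (C a - X)) := by
        rw [map_sub]
        by_contra h5
        have h6 := (maximalIdeal O).add_mem (a := _ - _) h5 hO.orig
        rw [sub_add_cancel] at h6
        exact h6 ((hu.map C).map _)
      have h7 := h4.map χ
      rw [← RingHom.comp_apply, ← hφ, map_sub, ← ha, RingHom.comp_apply, sub_self] at h7
      exact not_isUnit_zero h7
    have hb : RingHom.ker (φ.comp C) = ⊥ := by
      by_contra hb
      exact hne (eq_maximalIdeal (hd.maximalOfPrime hb (RingHom.ker_isPrime _)))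
    refine ⟨(RingHom.injective_iff_ker_eq_bot _).2 hb, fun hf => hne ?_⟩
    rw [hb, (isField_iff_maximalIdeal_eq).1 hf]

theorem geo : GEO_s :=
  ⟨fun V κ _ _ φ => geo1 V κ φ, fun V R κ _ _ _ _ _ _ ψ _ => geo2 V R κ ψ,
    fun V O κ _ _ _ _ _ _ χ φ => geo3 V O κ χ φ, geo4, geo5⟩

end Pool.Agent.MP_855f4c_ag.E.AV

end

section

/-! h67a section AV: the induction. -/

set_option backward.isDefEq.respectTransparency false
set_option linter.unusedSectionVars false

open CategoryTheory Limits Abelian Opposite AlgebraicGeometry Polynomial IsLocalRing Function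
open scoped TensorProduct

namespace Pool.Agent.MP_855f4c_ag.E.AV

open E3 E4

lemma spc2 {A B C : Type} [CommRing A] [CommRing B] [CommRing C] (φ : A →+* B) (ψ : B →+* C) :
    spc ψ ≫ spc φ = spc (ψ.comp φ) := by
  rw [← Spec.map_comp, ← CommRingCat.ofHom_comp]

lemma spc3 {A B C : Type} [CommRing A] [CommRing B] [CommRing C] (φ : A →+* B) (ψ : B →+* C)
    {X : Scheme.{0}} (a : Spec (.of A) ⟶ X) : spc ψ ≫ spc φ ≫ a = spc (ψ.comp φ) ≫ a := by
  rw [← Category.assoc, spc2]

/-- Retracts. -/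
lemma Z0.retr {A B C : Type} [CommRing A] [CommRing B] [CommRing C] {X : Scheme.{0}} {F : SH X}
    {a : Spec (.of A) ⟶ X} {φ : A →+* B} {ψ : A →+* C} (f : B →+* C) (g : C →+* B)
    (hf : f.comp φ = ψ) (hg : ∀ b, g (f b) = b) {q : ℕ} (h : Z0 F (spc ψ ≫ a) q) :
    Z0 F (spc φ ≫ a) q := by
  have h1 : spc f ≫ spc φ ≫ a = spc ψ ≫ a := by rw [spc3, hf]
  have h0 : g.comp f = RingHom.id B := RingHom.ext hg
  have h2 : spc g ≫ spc ψ ≫ a = spc φ ≫ a := by
    rw [spc3, ← hf, ← RingHom.comp_assoc, h0, RingHom.id_comp]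
  have e : sph g h2 ≫ sph f h1 = 𝟙 _ := Over.OverMorphism.ext (by
    change spc g ≫ spc f = 𝟙 _
    rw [spc2, h0]
    exact Spec.map_id _)
  intro z
  rw [← PB.AFFV.res_id' F q z, ← e, ← PB.AFFV.res_res', h (res (sph f h1) F q z), map_zero]

section
variable {l : ℕ} [Fact l.Prime] {V : Type} [CommRing V] [IsDomain V] [ValuationRing V]

/-- The point step on the fibre of a Leray row. -/
lemma pt' (hPT : PT_s) (hV : VV l V) {B T C R κ : Type} [CommRing B] [Algebra V B]
    [Algebra.FiniteType V B] [CommRing T] [Algebra B T] [CommRing C] [Algebra C T] [CommRing R]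
    [SHL R] [Algebra C R] [Field κ] [IsAlgClosed κ] (ψ : R →+* κ) [IsLocalHom ψ] (v : V →+* C)
    {r m : ℕ} (x : Fin r → C) (y : Fin r → B) (hT : IndEt B T) (hR : IndEt C R)
    (hv : ∀ c, algebraMap C T (v c) = algebraMap B T (algebraMap V B c))
    (hx : ∀ i, algebraMap C T (x i) = algebraMap B T (y i))
    (hI : Ind ((ψ.comp (algebraMap C R)).comp v) fun i => ψ (algebraMap C R (x i)))
    (ih : ∀ (V' : Type) [CommRing V'] [IsDomain V'] [ValuationRing V'], VV l V' →
      (Injective ((ψ.comp (algebraMap C R)).comp v) → IsField V') → AVn l V' m)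
    {X : Scheme.{0}} {a : Spec (.of B) ⟶ X} {F : SH X} (hF : Tc l F) (hS : Sup V (m + r) F a)
    {q : ℕ} (hq : m ≤ q) :
    Z0 F (spc (algebraMap T (T ⊗[C] R)) ≫ spc (algebraMap B T) ≫ a) q := by
  let : Algebra V R := ((algebraMap C R).comp v).toAlgebra
  have k : ∀ c : C, (Algebra.TensorProduct.includeRight : R →ₐ[C] T ⊗[C] R) (algebraMap C R c) =
      algebraMap T (T ⊗[C] R) (algebraMap C T c) := fun c => by
    rw [AlgHom.commutes]; rfl
  rw [spc3]
  exact hPT l V hV B (T ⊗[C] R) R κ ψ (Algebra.TensorProduct.includeRight : R →ₐ[C] T ⊗[C] R) r m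
    (fun i => algebraMap C R (x i)) y (hT.comp (hR.baseChange T))
    (fun c => (k (v c)).trans (congrArg _ (hv c))) (fun i => (k (x i)).trans (congrArg _ (hx i)))
    hI ih X a F hF hS q hq

lemma ind0 {V κ : Type} [CommRing V] [Field κ] (χ : V →+* κ) (x : Fin 0 → κ) : Ind χ x := by
  intro P h
  rw [P.eq_C_of_isEmpty] at h ⊢
  rw [MvPolynomial.eval₂_C] at h
  rw [MvPolynomial.map_C, h, map_zero]

lemma av0 (hZ : ZER_s) (hV : VV l V) : AVn l V 0 := fun B _ _ _ X a F hF hS q _ =>
  (hZ l X F hF).1 B a (by simpa using hV.unit.map (algebraMap V B))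
    (fun κ _ _ χ => hS κ χ ⟨Fin.elim0, ind0 _ _⟩) q

/-- The punctured germ. -/
lemma loc (hBC : Pool.Agent.MP_855f4c_ag.AV.BC_s) (hL : LER_s) (hPT : PT_s) (hZ : ZER_s)
    (hG : GEO_s) (hV : VV l V) {m : ℕ}
    (ih : ∀ (V' : Type) [CommRing V'] [IsDomain V'] [ValuationRing V'], VV l V' → AVn l V' m)
    (ihf : ¬ IsField V → ∀ (V' : Type) [CommRing V'] [IsDomain V'] [ValuationRing V'], VV l V' →
      IsField V' → AVn l V' (m + 1))
    {B T O : Type} [CommRing B] [Algebra V B] [Algebra.FiniteType V B] [CommRing T] [Algebra B T]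
    [CommRing O] [Algebra V[X] O] (hO : Germ V O) (g : O →+* T) (y : B) (hT : IndEt B T)
    (hv : ∀ c, g (algebraMap V[X] O (C c)) = algebraMap B T (algebraMap V B c))
    (hy : algebraMap B T y * g (algebraMap V[X] O X) = 1)
    {Y : Scheme.{0}} {a : Spec (.of B) ⟶ Y} {F : SH Y} (hF : Tc l F) (hS : Sup V (m + 1) F a)
    {q : ℕ} (hq : m + 1 ≤ q) : Z0 F (spc (algebraMap B T) ≫ a) q := by
  let O₀ := Localization.Away (algebraMap V[X] O X)
  have hu : IsUnit (g (algebraMap V[X] O X)) := IsUnit.of_mul_eq_one_right _ hy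
  let : Algebra O₀ T := (IsLocalization.Away.lift (algebraMap V[X] O X) hu).toAlgebra
  have hg : ∀ o, algebraMap O₀ T (algebraMap O O₀ o) = g o :=
    fun o => IsLocalization.Away.lift_eq _ hu o
  let φ₀ : V[X] →+* O₀ := (algebraMap O O₀).comp (algebraMap V[X] O)
  have hl : IsUnit (l : O₀) := by simpa using hV.unit.map (φ₀.comp C)
  obtain ⟨u, hu'⟩ := (IsLocalization.Away.algebraMap_isUnit (S := O₀)
    (algebraMap V[X] O X)).exists_left_inv
  have hx : algebraMap O₀ T u = algebraMap B T y := by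
    have h1 := congrArg (algebraMap O₀ T) hu'
    rw [map_mul, hg, map_one] at h1
    exact hu.mul_right_cancel (h1.trans hy.symm)
  obtain ⟨G, hGt, hst, hler⟩ := hL l O₀ T Y (spc (algebraMap B T) ≫ a) F hl hF
  have hX : ∀ (κ : Type) [Field κ] (χ : O₀ →+* κ), χ u * (χ.comp φ₀) X = 1 := fun κ _ χ => by
    have := congrArg χ hu'
    rwa [map_mul, map_one] at this
  have geo := fun (κ : Type) [Field κ] (χ : O₀ →+* κ) =>
    hG.2.2.1 V O κ (χ.comp (algebraMap O O₀)) (χ.comp φ₀) hV.aic hV.dim hO rfl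
      (right_ne_zero_of_mul_eq_one (hX κ χ))
  have k1 : ∀ b, m ≤ b → ∀ (κ : Type) [Field κ] [IsAlgClosed κ] (χ : O₀ →+* κ),
      Pool.Agent.MP_855f4c_ag.AV.Trc (χ.comp φ₀) → S0 (G b) (spc χ) := by
    intro b hb κ _ _ χ h
    refine hst b κ χ fun R _ _ _ ψ _ hR e => pt' hPT hV ψ (φ₀.comp C) (fun _ : Fin 1 => u)
      (fun _ => y) hT hR (fun c => (hg _).trans (hv c)) (fun _ => hx) ?_
      (fun V' _ _ _ h' _ => ih V' h') hF hS hb
    have e' : ψ (algebraMap O₀ R u) = ((χ.comp φ₀) X)⁻¹ := by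
      rw [← eq_inv_of_mul_eq_one_left (hX κ χ), ← e]; rfl
    simp only [e, e']
    exact (geo κ χ).1 h
  have k2 : ∀ b, m + 1 ≤ b → ∀ (κ : Type) [Field κ] [IsAlgClosed κ] (χ : O₀ →+* κ),
      S0 (G b) (spc χ) := by
    intro b hb κ _ _ χ
    by_cases h : Pool.Agent.MP_855f4c_ag.AV.Trc (χ.comp φ₀)
    · exact k1 b (by omega) κ χ h
    obtain ⟨h1, h2⟩ := (geo κ χ).2 h
    exact hst b κ χ fun R _ _ _ ψ _ hR e => pt' hPT hV ψ (φ₀.comp C) (r := 0) Fin.elim0 Fin.elim0
      hT hR (fun c => (hg _).trans (hv c)) (fun i => i.elim0) (ind0 _ _)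
      (fun V' _ _ _ h' h'' => ihf h2 V' h' (h'' (by rw [e]; exact h1))) hF hS hb
  refine hler q fun i b hib => ?_
  have := hV.char
  have bc := hBC l V O O₀ _ (𝟙 _) (G b) hV.aic (fun p h1 h2 => hV.dim.maximalOfPrime h2 h1)
    hV.unit hO (hGt b)
  rcases lt_trichotomy b m with h | rfl | h
  · obtain ⟨j, rfl⟩ : ∃ j, i = j + 2 := ⟨i - 2, by omega⟩
    exact bc.1 j
  · obtain ⟨j, rfl⟩ : ∃ j, i = j + 1 := ⟨i - 1, by omega⟩
    refine bc.2 (fun κ _ _ χ h => ?_) j
    rw [Category.comp_id]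
    exact k1 b le_rfl κ χ h
  · refine (hZ l _ _ (hGt b)).1 O₀ _ hl (fun κ _ _ χ => ?_) i
    rw [Category.comp_id]
    exact k2 b h κ χ

/-- The affine line over a closed point of the special fibre. -/
lemma e0 (hBC : Pool.Agent.MP_855f4c_ag.AV.BC_s) (hL : LER_s) (hPT : PT_s) (hZ : ZER_s)
    (hG : GEO_s) (hA : A1_s) (hSP : SPL_s) (hPA : PAT_s) (hV : VV l V) {m : ℕ}
    (ih : ∀ (V' : Type) [CommRing V'] [IsDomain V'] [ValuationRing V'], VV l V' → AVn l V' m)
    (ihf : ¬ IsField V → ∀ (V' : Type) [CommRing V'] [IsDomain V'] [ValuationRing V'], VV l V' →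
      IsField V' → AVn l V' (m + 1))
    {A R κ : Type} [CommRing A] [Algebra V A] [Algebra.FiniteType V A] [CommRing R] [SHL R]
    [Algebra A R] [Algebra V R] [IsScalarTower V A R] [Field κ] [IsAlgClosed κ] (ψ : R →+* κ)
    [IsLocalHom ψ] (hR : IndEt A R) (hm : ∀ v ∈ maximalIdeal V, ψ (algebraMap V R v) = 0)
    (hb : ¬ Big V 1 ψ) {Y : Scheme.{0}} {a : Spec (.of A[X]) ⟶ Y} {F : SH Y} (hF : Tc l F)
    (hS : Sup V (m + 1) F a) {q : ℕ} (hq : m + 1 ≤ q) :
    Z0 F (spc (mapRingHom (algebraMap A R)) ≫ a) q := by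
  have hlR : IsUnit (l : R) := by simpa using hV.unit.map (algebraMap V R)
  let α := mapRingHom (algebraMap A R)
  let I : Ideal A[X] := ((maximalIdeal R).comap (algebraMap A R)).map C
  have hI : ∀ {κ' : Type} [CommRing κ'] (χ : R[X] →+* κ'), (∀ r ∈ maximalIdeal R, χ (C r) = 0) →
      I ≤ RingHom.ker (χ.comp α) := fun χ h =>
    Ideal.map_le_iff_le_comap.2 fun c hc => by simpa [α] using h _ hc
  obtain ⟨F', hF', hst, hles⟩ := hSP l Y A[X] a F I
    (by simpa using hV.unit.map (algebraMap V A[X])) hF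
  have hk := hG.2.1 V R κ ψ hV.aic hm hb
  refine hles R[X] (ResidueField R)[X] α (mapRingHom (residue R))
    (map_surjective _ residue_surjective) ?_ q ?_ ?_
  · rw [ker_mapRingHom, ker_residue, Ideal.map_map]
    conv_lhs => rw [← hR.map_maximalIdeal, Ideal.map_map]
    congr 1
    ext c; simp [α]
  · obtain ⟨O, O', _, _, _, _, g, hO, hO', hg⟩ := hG.2.2.2.2 V R κ ψ hm
    let D := Localization.Away (algebraMap R[X] O' X)
    obtain ⟨u, hu⟩ := (IsLocalization.Away.algebraMap_isUnit (S := D)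
      (algebraMap R[X] O' X)).exists_left_inv
    let θ : R[X] →+* D := eval₂RingHom (((algebraMap O' D).comp (algebraMap R[X] O')).comp C) u
    have h1 : ∀ r, θ (C r) = algebraMap O' D (algebraMap R[X] O' (C r)) := fun r => eval₂_C _ _
    have h2 : θ X = u := eval₂_X _ _
    refine hPA l R O' D θ _ (spc α) F' hlR hO' h1 (by rw [h2, hu]) hF'
      (fun κ' _ _ χ h => by rw [spc2]; exact hst κ' _ (Or.inl (hI χ h))) q ?_
    let : Algebra A[X] D := (θ.comp α).toAlgebra
    have h3 : ∀ c, algebraMap A[X] D (C c) =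
        algebraMap O' D (algebraMap R[X] O' (C (algebraMap A R c))) := fun c =>
      (congrArg θ (map_C _)).trans (h1 _)
    have h4 : algebraMap A[X] D X = u := (congrArg θ (map_X _)).trans h2
    have := loc hBC hL hPT hZ hG hV ih ihf (B := A[X]) (T := D) hO ((algebraMap O' D).comp g) X
      (hG.2.2.2.1 A R O' D hR hO' h3 (by rw [h4, hu]))
      (fun c => by
        rw [RingHom.comp_apply, hg, map_C, IsScalarTower.algebraMap_apply V A R, ← h3]; rfl)
      (by rw [RingHom.comp_apply, hg, map_X, h4, hu]) (a := 𝟙 _) hF'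
      (fun κ' _ _ χ h => by rw [Category.comp_id]; exact hst κ' χ (Or.inr (hS κ' χ h))) hq
    rwa [Category.comp_id, spc2] at *
  · have a1 := hA l (ResidueField R) (by simpa using (hlR.map (residue R)).ne_zero) Y
      (spc ((mapRingHom (residue R)).comp α) ≫ a) F hF
    rcases m with _ | m
    · obtain ⟨j, rfl⟩ : ∃ j, q = j + 1 := ⟨q - 1, by omega⟩
      refine a1.2 (fun κ' _ _ χ h => ?_) j
      rw [spc3]
      refine hS κ' _ ⟨fun _ => X, ?_⟩
      let τ : V →+* ResidueField R := (residue R).comp (algebraMap V R)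
      have := hG.1 V κ' (χ.comp (mapRingHom τ)) fun f hf i => by
        have h0 : f.map τ = 0 := h (hf.trans (map_zero χ).symm)
        have h1 := congrArg (coeff · i) h0
        simp only [coeff_map, coeff_zero] at h1
        simp [h1]
      convert this using 1
      · ext c
        simp [α, τ, IsScalarTower.algebraMap_apply V A R]
      · ext
        simp [α]
    · obtain ⟨j, rfl⟩ : ∃ j, q = j + 2 := ⟨q - 2, by omega⟩
      exact a1.1 j

/-- Closed immersions. -/
lemma red (hL : LER_s) (hZ : ZER_s) (hV : VV l V) {A B : Type} [CommRing A] [Algebra V A]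
    [CommRing B] [Algebra V B] (π : A →ₐ[V] B) (hπ : Surjective π) {n : ℕ} (h : AVat l V A n) :
    AVat l V B n := by
  intro Y a F hF hS q hq
  let : Algebra A B := (π : A →+* B).toAlgebra
  have hl : IsUnit (l : A) := by simpa using hV.unit.map (algebraMap V A)
  obtain ⟨G, hG, hst, hler⟩ := hL l A B Y a F hl hF
  have z : ∀ (R κ : Type) [CommRing R] [SHL R] [Algebra A R] [Field κ] [IsAlgClosed κ]
      (ψ : R →+* κ) [IsLocalHom ψ], _ := fun R κ _ _ _ _ _ ψ _ =>
    (hZ l Y F hF).2 R (B ⊗[A] R) κ ψ (Algebra.TensorProduct.includeRight : R →ₐ[A] B ⊗[A] R)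
      (spc (algebraMap B (B ⊗[A] R)) ≫ a) (by simpa using hl.map (algebraMap A R))
      (Algebra.TensorProduct.includeRight_surjective R hπ)
  refine hler q fun i b hib => ?_
  rcases b with _ | b
  · refine h _ (𝟙 _) (G 0) (hG 0) (fun κ _ _ χ hb => ?_) i (by omega)
    rw [Category.comp_id]
    refine hst 0 κ χ fun R _ _ _ ψ _ _ e => (z R κ ψ).2 fun ψ' e' => ?_
    rw [spc3]
    obtain ⟨x, hx⟩ := hb
    have k : ∀ c : A, (ψ'.comp (algebraMap B (B ⊗[A] R))) (π c) = χ c := fun c => by
      rw [← e, ← e', RingHom.comp_apply, RingHom.comp_apply, RingHom.comp_apply, RingHom.coe_coe,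
        AlgHom.commutes]
      rfl
    refine hS κ _ ⟨fun i => π (x i), ?_⟩
    convert hx using 1
    · ext c
      rw [RingHom.comp_apply, ← π.commutes, k]; rfl
    · exact funext fun i => k _
  · refine (hZ l _ _ (hG (b + 1))).1 A _ hl (fun κ _ _ χ => ?_) i
    rw [Category.comp_id]
    exact hst _ κ χ fun R _ _ _ ψ _ _ _ => (z R κ ψ).1 b

/-- The affine line. -/
lemma line (hBC : Pool.Agent.MP_855f4c_ag.AV.BC_s) (hL : LER_s) (hPT : PT_s) (hZ : ZER_s)
    (hG : GEO_s) (hA : A1_s) (hSP : SPL_s) (hPA : PAT_s) (hB : BIG_s) (hV : VV l V) {m : ℕ}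
    (ih : ∀ n ≤ m, ∀ (V' : Type) [CommRing V'] [IsDomain V'] [ValuationRing V'], VV l V' →
      AVn l V' n)
    (ihf : ¬ IsField V → ∀ (V' : Type) [CommRing V'] [IsDomain V'] [ValuationRing V'], VV l V' →
      IsField V' → AVn l V' (m + 1))
    {A : Type} [CommRing A] [Algebra V A] [Algebra.FiniteType V A] (h : AVat l V A (m + 1)) :
    AVat l V A[X] (m + 1) := by
  intro Y a F hF hS q hq
  have hl : IsUnit (l : A) := by simpa using hV.unit.map (algebraMap V A)
  obtain ⟨G, hGt, hst, hler⟩ := hL l A A[X] Y a F hl hF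
  have pt : ∀ (b r n : ℕ) (κ : Type) [Field κ] [IsAlgClosed κ] (χ : A →+* κ), Big V r χ →
      n + r = m + 1 → n ≤ b → (∀ (V' : Type) [CommRing V'] [IsDomain V'] [ValuationRing V'],
        VV l V' → (Injective (χ.comp (algebraMap V A)) → IsField V') → AVn l V' n) →
      S0 (G b) (spc χ) := by
    rintro b r n κ _ _ χ ⟨x, hx⟩ hn hb H
    refine hst b κ χ fun R _ _ _ ψ _ hR e => ?_
    subst e
    have := pt' hPT hV (B := A[X]) (T := A[X]) ψ (algebraMap V A) x (fun i => C (x i))
      IndEt.of_etale hR (fun _ => rfl) (fun _ => rfl) hx H hF (hn ▸ hS) hb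
    rwa [show spc (algebraMap A[X] A[X]) = 𝟙 _ from Spec.map_id _, Category.id_comp] at this
  have key : ∀ b, Sup V (m + 1 - b) (G b) (𝟙 _) := by
    intro b κ _ _ χ hb
    rw [Category.comp_id]
    rcases le_or_gt b m with h1 | h1
    · exact pt b _ b κ χ hb (by omega) le_rfl fun V' _ _ _ h' _ => ih b h1 V' h'
    by_cases h2 : Big V 1 χ
    · exact pt b 1 m κ χ h2 rfl h1.le fun V' _ _ _ h' _ => ih m le_rfl V' h'
    by_cases h3 : ∀ v ∈ maximalIdeal V, χ (algebraMap V A v) = 0
    · refine hst b κ χ fun R _ _ _ ψ _ hR e => ?_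
      subst e
      let : Algebra V R := ((algebraMap A R).comp (algebraMap V A)).toAlgebra
      have : IsScalarTower V A R := IsScalarTower.of_algebraMap_eq' rfl
      have := e0 hBC hL hPT hZ hG hA hSP hPA hV (ih m le_rfl) ihf ψ hR h3
        (fun h => h2 (hB.1 V A R κ (IsScalarTower.toAlgHom V A R) ψ 1 (hB.2.2 A R κ ψ hR) h))
        hF hS h1
      let f : A[X] ⊗[A] R →ₐ[A] R[X] := Algebra.TensorProduct.lift (mapAlgHom (Algebra.ofId A R))
        (IsScalarTower.toAlgHom A R R[X]) fun _ _ => Commute.all _ _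
      let g : R[X] →+* A[X] ⊗[A] R := eval₂RingHom
        (Algebra.TensorProduct.includeRight : R →ₐ[A] A[X] ⊗[A] R) (X ⊗ₜ 1)
      refine Z0.retr (f : A[X] ⊗[A] R →+* R[X]) g (RingHom.ext fun p => by simp [f])
        (fun z => RingHom.congr_fun (f := g.comp f) (g := RingHom.id _)
          (Algebra.TensorProduct.ringHom_ext ?_ ?_) z) this
      · ext c
        · simp [f, g, ← algebraMap_eq]
        · simp [f, g]
      · ext c
        simp [f, g]
    · have hk : RingHom.ker (χ.comp (algebraMap V A)) = ⊥ := by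
        by_contra h4
        refine h3 fun v hv => ?_
        rwa [← eq_maximalIdeal (hV.dim.maximalOfPrime h4 (RingHom.ker_isPrime _))] at hv
      refine pt b 0 (m + 1) κ χ ⟨Fin.elim0, ind0 _ _⟩ rfl h1 fun V' _ _ _ h' h'' =>
        ihf (fun hf => h3 fun v hv => ?_) V' h' (h'' ((RingHom.injective_iff_ker_eq_bot _).2 hk))
      rw [(isField_iff_maximalIdeal_eq).1 hf, Ideal.mem_bot] at hv
      rw [hv, map_zero, map_zero]
  refine hler q fun i b hib => ?_
  rcases b with _ | b
  · exact h _ _ _ (hGt 0) (key 0) i (by omega)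
  · exact ih _ (by omega) V hV A _ _ _ (hGt _) (key _) i (by omega)

end

theorem av (hBC : Pool.Agent.MP_855f4c_ag.AV.BC_s) (hL : LER_s) (hPT : PT_s) (hZ : ZER_s)
    (hG : GEO_s) (hA : A1_s) (hSP : SPL_s) (hPA : PAT_s) (hB : BIG_s) : AV_s := by
  intro l _ V _ _ _ hV n
  induction n using Nat.strong_induction_on generalizing V with
  | _ n ih =>
  rcases n with _ | m
  · exact av0 hZ hV
  have step : ∀ (V : Type) [CommRing V] [IsDomain V] [ValuationRing V], VV l V →
      (¬ IsField V → ∀ (V' : Type) [CommRing V'] [IsDomain V'] [ValuationRing V'], VV l V' →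
        IsField V' → AVn l V' (m + 1)) → AVn l V (m + 1) := by
    intro V _ _ _ hV ihf
    have poly : ∀ N, AVat l V (MvPolynomial (Fin N) V) (m + 1) := by
      intro N
      induction N with
      | zero =>
        refine red hL hZ hV (Algebra.ofId V _) (fun P => ⟨_, P.eq_C_of_isEmpty.symm⟩) ?_
        intro Y a F hF _ q hq
        obtain ⟨j, rfl⟩ : ∃ j, q = j + 1 := ⟨q - 1, by omega⟩
        have := hV.aic.shl
        have := hV.aic.isAlgClosed_residue
        exact ((hZ l Y F hF).2 V V _ (residue V) (RingHom.id V) a hV.unit surjective_id).1 j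
      | succ N h =>
        exact red hL hZ hV (MvPolynomial.finSuccEquiv V N).symm.toAlgHom
          (MvPolynomial.finSuccEquiv V N).symm.surjective
          (line hBC hL hPT hZ hG hA hSP hPA hB hV
            (fun n hn V' _ _ _ h' => ih n (by omega) V' h') ihf h)
    intro B _ _ hB
    obtain ⟨N, π, hπ⟩ := Algebra.FiniteType.iff_quotient_mvPolynomial''.1 hB
    exact red hL hZ hV π hπ (poly N)
  exact step V hV fun _ V' _ _ _ h' hf => step V' h' fun h => absurd hf h

end Pool.Agent.MP_855f4c_ag.E.AV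

end

section

/-! h67a section AV: the point step from the Gauss step. -/

set_option backward.isDefEq.respectTransparency false

open CategoryTheory AlgebraicGeometry Function Polynomial
open scoped TensorProduct

namespace Pool.Agent.MP_855f4c_ag.E.AV

open E3 E4

namespace Pta

lemma spcc {A B C : Type} [CommRing A] [CommRing B] [CommRing C] (φ : A →+* B) (ψ : B →+* C) :
    spc (ψ.comp φ) = spc ψ ≫ spc φ := by
  rw [← Spec.map_comp]; rfl

/-- The support condition descends along `B → B₁ → B'`. -/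
lemma sup (hB : BIG_s) {V V' B B₁ B' : Type} [CommRing V] [CommRing V'] [CommRing B] [CommRing B₁]
    [CommRing B'] [Algebra V B] [Algebra V V'] [Algebra V' B'] [Algebra B B₁] [Algebra B₁ B']
    (h₁ : IndEt B B₁) (h₂ : Algebra.IsIntegral B₁ B') {r m : ℕ} (x : Fin r → V')
    (hc : ∀ v, algebraMap V' B' (algebraMap V V' v)
      = algebraMap B₁ B' (algebraMap B B₁ (algebraMap V B v)))
    (hx : ∀ (κ : Type) [Field κ] (χ : V' →+* κ), Ind (χ.comp (algebraMap V V')) fun i => χ (x i))
    {X : Scheme.{0}} (a : Spec (.of B) ⟶ X) (F : SH X) (hS : Sup V (m + r) F a) :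
    Sup V' m F (spc ((algebraMap B₁ B').comp (algebraMap B B₁)) ≫ a) := by
  intro κ _ _ φ hφ
  let _ : Algebra V B₁ := ((algebraMap B B₁).comp (algebraMap V B)).toAlgebra
  let _ : Algebra V B' := ((algebraMap V' B').comp (algebraMap V V')).toAlgebra
  have : IsScalarTower V V' B' := IsScalarTower.of_algebraMap_eq fun _ => rfl
  have b0 : Big V (m + r) φ :=
    hB.2.1 V V' B' κ φ m r x (hx κ (φ.comp (algebraMap V' B'))) hφ
  let g₂ : B₁ →ₐ[V] B' := { algebraMap B₁ B' with commutes' := fun v => (hc v).symm }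
  let g₁ : B →ₐ[V] B₁ := { algebraMap B B₁ with commutes' := fun _ => rfl }
  have b1 : Big V (m + r) (φ.comp (algebraMap B₁ B')) := by
    refine hB.1 V B₁ B' κ g₂ φ _ (fun b' => ?_) b0
    obtain ⟨P, hP, hb⟩ := h₂.isIntegral b'
    refine ⟨P, (hP.map _).ne_zero, ?_⟩
    have := congrArg φ hb
    rw [hom_eval₂, map_zero] at this
    exact this
  have b2 : Big V (m + r) ((φ.comp (algebraMap B₁ B')).comp (algebraMap B B₁)) :=
    hB.1 V B B₁ κ g₁ _ _ (hB.2.2 B B₁ κ _ h₁) b1
  have := hS κ _ b2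
  rwa [RingHom.comp_assoc, spcc, Category.assoc] at this

lemma push (R S S' : Type) [CommRing R] [CommRing S] [CommRing S'] [Algebra R S] [Algebra R S'] :
    ∃ (D : Type) (_ : CommRing D) (_ : Algebra R D) (_ : Algebra S D) (_ : Algebra S' D)
      (_ : IsScalarTower R S D) (_ : IsScalarTower R S' D), Algebra.IsPushout R S S' D :=
  ⟨S ⊗[R] S', inferInstance, inferInstance, inferInstance, Algebra.TensorProduct.rightAlgebra,
    inferInstance, Algebra.TensorProduct.right_isScalarTower, TensorProduct.isPushout⟩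

lemma ft (R S S' D : Type) [CommRing R] [CommRing S] [CommRing S'] [CommRing D] [Algebra R S]
    [Algebra R S'] [Algebra R D] [Algebra S D] [Algebra S' D] [IsScalarTower R S D]
    [IsScalarTower R S' D] [Algebra.IsPushout R S S' D] [Algebra.FiniteType R S'] :
    Algebra.FiniteType S D :=
  .equiv inferInstance (Algebra.IsPushout.equiv R S S' D)

/-- The base change `W → V'` of `B → T`. -/
lemma core {l : ℕ} (hB : BIG_s) (hL : LIM_s) {V P W V' B T : Type} [CommRing V] [CommRing P]
    [CommRing W] [CommRing V'] [CommRing B] [CommRing T] [Algebra V P] [Algebra V B] [Algebra P B]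
    [IsScalarTower V P B] [Algebra.FiniteType V B] [Algebra P W] [Algebra W V'] [Algebra B T]
    [Algebra W T] [Algebra P T] [IsScalarTower P B T] [IsScalarTower P W T] (hW : IndEt P W)
    (hT : IndEt B T) [Algebra.IsIntegral W V'] (hinj : InjBC l W V') {r m : ℕ} (x : Fin r → V')
    (hx : ∀ (κ : Type) [Field κ] (χ : V' →+* κ), Ind (((χ.comp (algebraMap W V')).comp
      (algebraMap P W)).comp (algebraMap V P)) fun i => χ (x i)) (hA : AVn l V' m)
    {X : Scheme.{0}} (a : Spec (.of B) ⟶ X) (F : SH X) (hF : Tc l F) (hS : Sup V (m + r) F a)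
    (q : ℕ) (hq : m ≤ q) : Z0 F (spc (algebraMap B T) ≫ a) q := by
  have : Algebra.FiniteType P B := .of_restrictScalars_finiteType V P B
  obtain ⟨B₁, _, _, _, _, _, _, p₁⟩ := push P W B
  have : Algebra.FiniteType W B₁ := ft P W B B₁
  have p₁' := p₁.symm
  have h₁ : IndEt B B₁ := hW.of_isPushout B B₁
  let τ := Algebra.pushoutDesc B₁ (IsScalarTower.toAlgHom P W T) (IsScalarTower.toAlgHom P B T)
    fun _ _ => mul_comm _ _
  let _ : Algebra B₁ T := (τ : B₁ →+* T).toAlgebra
  have : IsScalarTower W B₁ T := IsScalarTower.of_algebraMap_eq fun w =>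
    (Algebra.pushoutDesc_left B₁ (IsScalarTower.toAlgHom P W T) (IsScalarTower.toAlgHom P B T)
      (fun _ _ => mul_comm _ _) w).symm
  have : IsScalarTower B B₁ T := IsScalarTower.of_algebraMap_eq fun b =>
    (Algebra.pushoutDesc_right B₁ (IsScalarTower.toAlgHom P W T) (IsScalarTower.toAlgHom P B T)
      (fun _ _ => mul_comm _ _) b).symm
  have h₂ : IndEt B₁ T := h₁.cancel hT
  obtain ⟨B', _, _, _, _, _, _, p₂⟩ := push W V' B₁
  have : Algebra.FiniteType V' B' := ft W V' B₁ B'
  have p₂' := p₂.symm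
  have h₃ : Algebra.IsIntegral B₁ B' := Algebra.IsPushout.isIntegral W B₁ V' B'
  obtain ⟨T', _, _, _, _, _, _, p₃⟩ := push B₁ B' T
  have p₃' := p₃.symm
  have h₄ : IndEt B' T' := h₂.of_isPushout B' T'
  let _ : Algebra V' T' := ((algebraMap B' T').comp (algebraMap V' B')).toAlgebra
  let _ : Algebra W T' := ((algebraMap T T').comp (algebraMap W T)).toAlgebra
  have : IsScalarTower V' B' T' := IsScalarTower.of_algebraMap_eq fun _ => rfl
  have : IsScalarTower W T T' := IsScalarTower.of_algebraMap_eq fun _ => rfl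
  have : IsScalarTower W B' T' := IsScalarTower.of_algebraMap_eq fun w => by
    rw [IsScalarTower.algebraMap_apply W T T', IsScalarTower.algebraMap_apply W B₁ T,
      IsScalarTower.algebraMap_apply W B₁ B', ← IsScalarTower.algebraMap_apply B₁ T T',
      ← IsScalarTower.algebraMap_apply B₁ B' T']
  have : IsScalarTower W V' T' := IsScalarTower.of_algebraMap_eq fun w => by
    rw [IsScalarTower.algebraMap_apply W B' T', IsScalarTower.algebraMap_apply W V' B']
    rfl
  have p₄ : Algebra.IsPushout W T V' T' := (Algebra.IsPushout.comp_iff W B₁ V' B').2 p₃'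
  let _ : Algebra V V' :=
    (((algebraMap W V').comp (algebraMap P W)).comp (algebraMap V P)).toAlgebra
  have hS' := sup hB h₁ h₃ x (fun v => by
    rw [IsScalarTower.algebraMap_apply V P B, ← IsScalarTower.algebraMap_apply P B B₁,
      IsScalarTower.algebraMap_apply P W B₁, ← IsScalarTower.algebraMap_apply W B₁ B',
      IsScalarTower.algebraMap_apply W V' B']
    rfl) hx a F hS
  have hz := hL l V' B' T' m hA h₄ X _ F hF hS' q hq
  have e : spc (algebraMap T T') ≫ spc (algebraMap B T) ≫ a = spc (algebraMap B' T') ≫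
      spc ((algebraMap B₁ B').comp (algebraMap B B₁)) ≫ a := by
    rw [← Category.assoc, ← Category.assoc, ← spcc, ← spcc, ← RingHom.comp_assoc,
      ← IsScalarTower.algebraMap_eq B₁ B' T', IsScalarTower.algebraMap_eq B₁ T T',
      IsScalarTower.algebraMap_eq B B₁ T, RingHom.comp_assoc]
  intro z
  exact hinj T T' X _ _ e F hF q ((hz _).trans (map_zero _).symm)

end Pta

open Pta in
theorem pt (hB : BIG_s) (hL : LIM_s) (hG : GW_s) : PT_s := by
  intro l _ V _ _ _ hV B T R κ _ _ _ _ _ _ _ _ _ _ ψ _ ρ r m x y hT hρ hxy hI hA X a F hF hS q hq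
  let _ : Algebra (MvPolynomial (Fin r) V) R := (MvPolynomial.aeval x).toRingHom.toAlgebra
  let _ : Algebra (MvPolynomial (Fin r) V) B := (MvPolynomial.aeval y).toRingHom.toAlgebra
  let φ : MvPolynomial (Fin r) V →+* κ := ψ.comp (algebraMap _ R)
  have hφC : φ.comp MvPolynomial.C = ψ.comp (algebraMap V R) := by
    ext v
    exact congrArg ψ (MvPolynomial.aeval_C x v)
  have hφX : (fun i => φ (MvPolynomial.X i)) = fun i => ψ (x i) := by
    funext i
    exact congrArg ψ (MvPolynomial.aeval_X x i)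
  obtain ⟨W, _, _, ω, V', _, _, _, _, hW, hω, hV', hfld, hint, hind, hinj⟩ :=
    hG l V hV κ r φ (by rw [hφC, hφX]; exact hI)
  let _ : Algebra (MvPolynomial (Fin r) V) κ := φ.toAlgebra
  let ψ' : R →ₐ[MvPolynomial (Fin r) V] κ := { ψ with commutes' := fun _ => rfl }
  have : IsLocalHom ψ' := ⟨fun a ha => isUnit_of_map_unit ψ a ha⟩
  obtain ⟨σ, -⟩ := SHL.lift hW ψ' { ω with commutes' := fun p => congr($hω p) }
  have hPT : ρ.comp (algebraMap (MvPolynomial (Fin r) V) R)
      = (algebraMap B T).comp (algebraMap (MvPolynomial (Fin r) V) B) := by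
    refine MvPolynomial.ringHom_ext (fun v => ?_) fun i => ?_
    · exact (congrArg ρ (MvPolynomial.aeval_C x v)).trans
        ((hρ v).trans (congrArg (algebraMap B T) (MvPolynomial.aeval_C y v)).symm)
    · exact (congrArg ρ (MvPolynomial.aeval_X x i)).trans
        ((hxy i).trans (congrArg (algebraMap B T) (MvPolynomial.aeval_X y i)).symm)
  let _ : Algebra (MvPolynomial (Fin r) V) T :=
    (ρ.comp (algebraMap (MvPolynomial (Fin r) V) R)).toAlgebra
  let _ : Algebra W T := (ρ.comp (σ : W →+* R)).toAlgebra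
  have : IsScalarTower (MvPolynomial (Fin r) V) B T := IsScalarTower.of_algebraMap_eq' hPT
  have : IsScalarTower (MvPolynomial (Fin r) V) W T :=
    IsScalarTower.of_algebraMap_eq fun p => congrArg ρ (σ.commutes p).symm
  have : IsScalarTower V (MvPolynomial (Fin r) V) B :=
    IsScalarTower.of_algebraMap_eq fun v => (MvPolynomial.aeval_C y v).symm
  exact core hB hL hW hT hinj _ hind (hA V' hV' fun h => hfld (hφC ▸ h)) a F hF hS q hq

end Pool.Agent.MP_855f4c_ag.E.AV

end
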