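import Pool.Agent.MP_855f4c_ag.EC.Dc
import Pool.Agent.MP_855f4c_ag.VC.Va
import Pool.Agent.MP_855f4c_ag.EC.Pc
import Pool.Agent.MP_855f4c_ag.EC.Cf
import Pool.Agent.MP_855f4c_ag.EC.Db
import Pool.Agent.MP_855f4c_ag.EC.De
import Pool.Agent.MP_855f4c_ag.EC.Sf
import Pool.Agent.MP_855f4c_ag.AC.Ad

set_option linter.all false

section

section

set_option backward.isDefEq.respectTransparency false

open CategoryTheory Limits Abelian Opposite AlgebraicGeometry Function

namespace Pool.Agent.MP_855f4c_ag.E.AV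

open E3 E4

variable {X Y : Scheme.{0}}

/-- `H(U, cart G) = H(U, G)` for `U` etale. -/
theorem cartH (G : Sh (Scheme.etaleTopology.over X)) (U : Over X) [Etale U.hom] (q : ℕ) :
    Bijective (Hmap ((cartε X).app G) U q) :=
  sm ((cartε X).app G) (fun V _ h => have := h; cartε_bij G V) U q

theorem cartH_zero {G : Sh (Scheme.etaleTopology.over X)} {U : Over X} [Etale U.hom] {q : ℕ}
    (h : ∀ y : H U ((cart X).obj G) q, y = 0) (x : H U G q) : x = 0 := by
  obtain ⟨y, rfl⟩ := (cartH G U q).2 x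
  rw [h y, map_zero]

/-- Vanishing form of Leray with the sheaves `cart R^b f_* F`. -/
theorem lerv (f : Y ⟶ X) (T : Over X) [Etale T.hom] (F : Sh (Scheme.etaleTopology.over Y)) (n : ℕ)
    (h : ∀ a b, a + b = n → ∀ y : H T ((cart X).obj ((Rq f b).obj F)) a, y = 0)
    (x : H ((Over.pullback f).obj T) F n) : x = 0 :=
  leray_zero f F (fun a b e => cartH_zero (h a b e)) x

theorem lerv_top (f : Y ⟶ X) (F : Sh (Scheme.etaleTopology.over Y)) (n : ℕ)
    (h : ∀ a b, a + b = n → ∀ y : H (top X) ((cart X).obj ((Rq f b).obj F)) a, y = 0)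
    (x : H (top Y) F n) : x = 0 :=
  have : Etale (top X).hom := inferInstanceAs (Etale (𝟙 X))
  (D.CDG.tot_bij f F n).1 ((lerv f (top X) F n h _).trans (map_zero _).symm)

/-- `cart R^b f_* F` is in the class `Tc`. -/
theorem cartRq_Tc {l : ℕ} (f : Y ⟶ X) [QuasiCompact f] [IsSeparated f]
    {F : Sh (Scheme.etaleTopology.over Y)} (hF : Tor l F.obj) (b : ℕ) :
    Tc l ((cart X).obj ((Rq f b).obj F)) :=
  cart_Tc fun U h _ s => Rq_Tor f hF b U h s

section ind
variable {R : Type} [CommRing R] (u : Spec (.of R) ⟶ X) [Etale u]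

lemma ob_et (E : Type) [CommRing E] [Algebra R E] [Algebra.Etale R E] : Etale (ob u E).hom :=
  have : Etale (Spec.map (CommRingCat.ofHom (algebraMap R E))) :=
    (HasRingHomProperty.Spec_iff (P := @Etale)).2 (RingHom.etale_algebraMap.2 ‹_›)
  inferInstanceAs (Etale (_ ≫ u))

/-- A map of `LFP` presheaves that is bijective on etale algebras is so on ind-etale ones. -/
theorem ind_bij {P Q : PSh X} (hP : LFP P) (hQ : LFP Q) (α : P ⟶ Q)
    (h : ∀ U : Over X, IsAffine U.left → Etale U.hom → Bijective (α.app (op U)))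
    {C : Type} [CommRing C] [Algebra R C] (H : IndEt R C) : Bijective (α.app (op (ob u C))) := by
  have hb (E : Type) [CommRing E] [Algebra R E] [Algebra.Etale R E] :=
    h (ob u E) (inferInstanceAs (IsAffine (Spec _))) (ob_et u E)
  refine ⟨(injective_iff_map_eq_zero _).2 fun s hs => ?_, fun s => ?_⟩
  · obtain ⟨a, t, rfl⟩ := (lfp_fac u hP (Stage.fac_etale H)).1 s
    rw [rs_nat] at hs
    obtain ⟨b, f, hf⟩ := (lfp_fac u hQ (Stage.fac_etale H)).2 a _ hs
    have := b.prop
    rw [← rs_nat] at hf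
    have h0 := (hb b.E).1 (hf.trans (map_zero _).symm)
    have e : a.φ.restrictScalars R = (b.φ.restrictScalars R).comp (f.1.restrictScalars R) :=
      AlgHom.ext fun x => (congr($(f.2) x)).symm
    rw [e, ← rs_rs, h0, map_zero]
  · obtain ⟨a, t, rfl⟩ := (lfp_fac u hQ (Stage.fac_etale H)).1 s
    have := a.prop
    obtain ⟨t, rfl⟩ := (hb a.E).2 t
    exact ⟨_, rs_nat u α _ t⟩

/-- `cart G` and `G` have the same sections over ind-etale algebras. -/
theorem cart_ind {G : Sh (Scheme.etaleTopology.over X)} (hG : LFP G.obj) {C : Type} [CommRing C]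
    [Algebra R C] (H : IndEt R C) : Bijective (((cartε X).app G).hom.app (op (ob u C))) :=
  ind_bij u (Cart.lfp G) hG _ (fun U _ h => have := h; cartε_bij G U) H

/-- The stalk of `cart R^b f_* F` at a geometric point is the cohomology of the fibre over the
strict henselisation. -/
theorem cartRq_stalk (f : Y ⟶ X) [QuasiCompact f] [IsSeparated f]
    {F : Sh (Scheme.etaleTopology.over Y)} (hF : LFP F.obj) (b : ℕ) {O k : Type} [CommRing O]
    [Algebra R O] [SHL O] (H' : IndEt R O) [Field k] [IsAlgClosed k] (φ : O →+* k) [IsLocalHom φ]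
    {x : Spec (.of k) ⟶ X} (hx : spc φ ≫ spc (algebraMap R O) ≫ u = x) :
    Nonempty (H (fbr f (spc (algebraMap R O) ≫ u)) F b ≃+
      sec ((cart X).obj ((Rq f b).obj F)) (Over.mk x)) :=
  ⟨((AddEquiv.ofBijective _ (toRq_bij f F b (spc (algebraMap R O) ≫ u))).trans
    (AddEquiv.ofBijective _ (cart_ind u (Rq_LFP f hF b) H')).symm).trans
    (AddEquiv.ofBijective _ ((cart_Cc 1 ((Rq f b).obj F)).2 O k φ _ x hx (by simp)))⟩

theorem cartRq_stalk_zero (f : Y ⟶ X) [QuasiCompact f] [IsSeparated f]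
    {F : Sh (Scheme.etaleTopology.over Y)} (hF : LFP F.obj) (b : ℕ) {O k : Type} [CommRing O]
    [Algebra R O] [SHL O] (H' : IndEt R O) [Field k] [IsAlgClosed k] (φ : O →+* k) [IsLocalHom φ]
    {x : Spec (.of k) ⟶ X} (hx : spc φ ≫ spc (algebraMap R O) ≫ u = x)
    (h : ∀ y : H (fbr f (spc (algebraMap R O) ≫ u)) F b, y = 0)
    (s : sec ((cart X).obj ((Rq f b).obj F)) (Over.mk x)) : s = 0 := by
  obtain ⟨e⟩ := cartRq_stalk u f hF b H' φ hx
  obtain ⟨y, rfl⟩ := e.surjective s
  rw [h y, map_zero]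

/-- The same with the strict henselisation chosen here: it is enough to know the vanishing for every
strict henselisation of `R` at the point `χ`. -/
theorem cartRq_pt_zero (f : Y ⟶ X) [QuasiCompact f] [IsSeparated f]
    {F : Sh (Scheme.etaleTopology.over Y)} (hF : LFP F.obj) (b : ℕ) {k : Type} [Field k]
    [IsAlgClosed k] (χ : R →+* k)
    (h : ∀ (O : Type) [CommRing O] [Algebra R O] [SHL O] (φ : O →+* k) [IsLocalHom φ],
      IndEt R O → φ.comp (algebraMap R O) = χ →
        ∀ y : H (fbr f (spc (algebraMap R O) ≫ u)) F b, y = 0)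
    (s : sec ((cart X).obj ((Rq f b).obj F)) (Over.mk (spc χ ≫ u))) : s = 0 := by
  let _ := χ.toAlgebra
  obtain ⟨O, _, _, _, _, _, H', _⟩ := exists_SH R k
  have e : (algebraMap O k).comp (algebraMap R O) = χ := (IsScalarTower.algebraMap_eq R O k).symm
  refine cartRq_stalk_zero u f hF b H' (algebraMap O k) ?_ (h O _ H' e) s
  rw [← Category.assoc, ← Spec.map_comp, ← CommRingCat.ofHom_comp, e]

end ind

end Pool.Agent.MP_855f4c_ag.E.AV

end

end

section

/-! h67a section AV, row LER. -/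

set_option backward.isDefEq.respectTransparency false

open CategoryTheory Limits Abelian Opposite AlgebraicGeometry Function
open scoped TensorProduct

namespace Pool.Agent.MP_855f4c_ag.E.AV

open E3 E4

/-- Vanishing moves along an isomorphism and to the slice. -/
lemma z0_pb {X Y T : Scheme.{0}} (a : Y ⟶ X) (F : SH X) (U : Over Y) {b : T ⟶ X} (e : U.left ⟶ T)
    [IsIso e] (h : e ≫ b = U.hom ≫ a) (q : ℕ) :
    Z0 F b q ↔ ∀ y : H U ((pb a).obj F) q, y = 0 := by
  let g : (Over.map a).obj U ⟶ Over.mk b := Over.homMk e h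
  have : IsIso ((Over.forget X).map g) := ‹IsIso e›
  have := isIso_of_reflects_iso g (Over.forget X)
  have hb : Bijective (E4.slH a U F q ∘ res g F q) := (E4.slH_bij a U F q).comp (pre_bij _ _ _)
  refine ⟨fun h0 y => ?_, fun h0 z => hb.1 ((h0 _).trans (h0 _).symm)⟩
  obtain ⟨z, rfl⟩ := hb.2 y
  rw [h0 z, comp_apply, map_zero, map_zero]

theorem ler : LER_s := by
  intro l _ C T _ _ _ X a F _ hF
  have hF' := pb_tc a hF
  let g := spc (algebraMap C T)
  refine ⟨fun b => (cart _).obj ((Rq g b).obj ((pb a).obj F)), fun b => cartRq_Tc g hF'.2 b,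
    fun b κ _ _ χ h => ?_, fun q h => ?_⟩
  · have key := cartRq_pt_zero (𝟙 _) g hF'.1.1 b χ fun O _ _ _ φ _ h1 h2 => by
      have sq := (isPullback_SpecMap_of_isPushout _ _ _ _
        (CommRingCat.isPushout_tensorProduct C T O)).flip
      have sq' : IsPullback (spc (Algebra.TensorProduct.includeRight (R := C) (A := T)).toRingHom)
          (spc (algebraMap T (T ⊗[C] O))) (spc (algebraMap C O) ≫ 𝟙 _) g := by
        rw [Category.comp_id]
        exact sq
      exact (z0_pb a F (fbr g (spc (algebraMap C O) ≫ 𝟙 _)) sq'.isoPullback.inv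
        (by rw [← Category.assoc]; exact congrArg (· ≫ a) sq'.isoPullback_inv_snd) b).1
        (h O φ h1 h2)
    rw [Category.comp_id] at key
    exact key
  · exact (z0_pb a F (top _) (𝟙 _) rfl q).2 (lerv_top g _ q h)

end Pool.Agent.MP_855f4c_ag.E.AV

end

section

/-! h67a section AV, row LIM: passage to ind-etale algebras. -/

set_option backward.isDefEq.respectTransparency false

open CategoryTheory Limits Abelian Opposite AlgebraicGeometry Polynomial IsLocalRing Function

namespace Pool.Agent.MP_855f4c_ag.E.AV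

open E3 E4

/-- The support condition passes to ind-etale algebras. -/
theorem Sup.indEt (hB : BIG_s) {V B E : Type} [CommRing V] [CommRing B] [Algebra V B]
    [CommRing E] [Algebra B E] [Algebra V E] [IsScalarTower V B E] (H : IndEt B E) {n : ℕ}
    {X : Scheme.{0}} {a : Spec (.of B) ⟶ X} {F : SH X} (hS : Sup V n F a) :
    Sup V n F (spc (algebraMap B E) ≫ a) := by
  intro κ _ _ φ hφ
  have h1 := hB.1 V B E κ (IsScalarTower.toAlgHom V B E) φ n (hB.2.2 B E κ φ H) hφ
  have h2 := hS κ (φ.comp (algebraMap B E)) h1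
  have e : spc φ ≫ spc (algebraMap B E) ≫ a = spc (φ.comp (algebraMap B E)) ≫ a := by
    rw [← Category.assoc]
    exact congrArg (· ≫ a) (Spec.map_comp (CommRingCat.ofHom (algebraMap B E))
      (CommRingCat.ofHom φ)).symm
  rw [e]
  exact h2

theorem lim (hB : BIG_s) : LIM_s := by
  intro l V B T _ _ _ _ _ _ n hA hT X a F hF hS q hq z
  obtain ⟨E, _, _, _, hE, g, e, he, hg, t, ht⟩ :=
    (lim_aff hF.1.1 q).fac_surj (Stage.fac_etale hT) (a := a) rfl z
  subst he
  let : Algebra V E := ((algebraMap B E).comp (algebraMap V B)).toAlgebra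
  have : IsScalarTower V B E := .of_algebraMap_eq fun _ => rfl
  have : Algebra.FiniteType V E := .trans (S := B) inferInstance inferInstance
  have h0 : t = 0 := hA E X _ F hF (hS.indEt hB IndEt.of_etale) q hq t
  rw [← ht, h0, map_zero]

end Pool.Agent.MP_855f4c_ag.E.AV

end

section

/-! h67a section AV, row ZER: zero stalks and quotients of strictly henselian rings. -/

set_option autoImplicit false
set_option backward.isDefEq.respectTransparency false

open CategoryTheory Limits Abelian Opposite AlgebraicGeometry IsLocalRing Function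

namespace Pool.Agent.MP_855f4c_ag.E.AV

open E3 E4

theorem zer1 (l : ℕ) (X : Scheme.{0}) (F : SH X) (hF : Tc l F) (A : Type) [CommRing A]
    (a : Spec (.of A) ⟶ X) (hl : IsUnit (l : A))
    (h : ∀ (κ : Type) [Field κ] [IsAlgClosed κ] (χ : A →+* κ), S0 F (spc χ ≫ a)) (q : ℕ) :
    Z0 F a q := by
  have hz : IsZero ((pb (J := Scheme.etaleTopology) a).obj F) :=
    PB.npt _ l (Linv.spec hl) _ (pb_cc a hF.1) fun k _ _ b s => by
      obtain ⟨χ, rfl⟩ := Spec.map_surjective b
      exact h k χ.hom s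
  have : ∀ z : H ((Over.map a).obj (Over.mk (𝟙 _))) F q, z = 0 := fun z =>
    (slH_bij a _ F q).1 (by
      rw [map_zero, ← Ext.comp_mk₀_id (slH a _ F q z), hz.eq_of_src (𝟙 _) 0, Ext.mk₀_zero,
        Ext.comp_zero])
  rw [← Category.id_comp a]
  exact this

theorem zer : ZER_s := by
  intro l _ X F hF
  refine ⟨zer1 l X F hF, fun R T κ _ _ _ _ _ ψ _ ρ a hl hρ => ?_⟩
  rcases subsingleton_or_nontrivial T with _ | _
  · have := zer1 l X F hF T a (isUnit_of_subsingleton _) fun k _ _ χ =>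
      absurd χ.domain_nontrivial (not_nontrivial T)
    exact ⟨fun q => this _, fun _ => this 0⟩
  have : IsLocalRing T := .of_surjective' ρ hρ
  have : IsLocalHom ρ := .of_surjective ρ hρ
  let _ := ρ.toAlgebra
  have : Algebra.IsIntegral R T := ⟨RingHom.isIntegral_of_surjective ρ hρ⟩
  have : SHL T := SHL.of_integral R T
  refine ⟨fun q => wc_H (SHL.wc T) a F q, fun h z => ?_⟩
  have hk : RingHom.ker ρ ≤ RingHom.ker ψ := fun r hr => by_contra fun e =>
    not_isUnit_zero (M₀ := T) (hr ▸ ((IsUnit.mk0 _ e).of_map ψ r).map ρ)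
  let ψ' : T →+* κ := ρ.liftOfSurjective hρ ⟨ψ, hk⟩
  have e : ψ'.comp ρ = ψ := ρ.liftOfRightInverse_comp _ _ _
  have : IsLocalHom ψ' := ⟨fun t ht => by
    obtain ⟨r, rfl⟩ := hρ t
    exact (IsUnit.of_map ψ r (e ▸ ht)).map ρ⟩
  obtain ⟨s, rfl⟩ := (h0 _ F).surjective z
  have : s = 0 :=
    (hF.1.2 T κ ψ' a _ rfl (by simpa using hl.map ρ)).1 ((h ψ' e _).trans (map_zero _).symm)
  rw [this, map_zero]

end Pool.Agent.MP_855f4c_ag.E.AV

end

section

set_option autoImplicit false
set_option backward.isDefEq.respectTransparency false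

open CategoryTheory Limits Abelian Opposite AlgebraicGeometry Polynomial

namespace Pool.Agent.MP_855f4c_ag.E.AV

open E3 E4 CV CV.CURVE

namespace A1

variable (k : Type) [Field k]

lemma crv {X : Scheme.{0}} (a : Spec (.of k[X]) ⟶ X) :
    Crv k (T := (Over.mk a).left) (spc (algebraMap k[X] (RatFunc k))) :=
  let c : Chart k (spc (algebraMap k[X] (RatFunc k))) :=
    { B := k[X], ι := 𝟙 _, w := Category.comp_id _ }
  ⟨inferInstanceAs (CompactSpace (Spec (.of k[X]))),
    inferInstanceAs (Spec (.of k[X])).IsSeparated, PID.td1 k k[X] (RatFunc k), fun y => ⟨c, y, rfl⟩⟩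

variable [IsAlgClosed k] {l : ℕ} [Fact l.Prime] (hl : (l : k) ≠ 0)
include hl

lemma ln2 (W : Over (Spec (.of k[X]))) [Etale W.hom] [IsAffine W.left] [IsIntegral W.left]
    (z : H (top _) (Ln l W) 2) : z = 0 := by
  let L := PL.std (Spec (.of k))
  let π : Spec (.of k[X]) ⟶ Spec (.of k) := spc C
  have hP : Linv l (Spec (.of k[X])) := (Linv.spec (IsUnit.mk0 _ hl)).of_hom π
  obtain ⟨B, _, _, ⟨e⟩⟩ : ∃ (B : Type) (_ : CommRing B) (_ : IsDomain B),
      Nonempty (Spec (.of B) ≅ W.left) :=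
    ⟨Γ(W.left, ⊤), inferInstance, inferInstance, ⟨W.left.isoSpec.symm⟩⟩
  obtain ⟨w, hc⟩ : ∃ w, w = e.hom ≫ W.hom := ⟨_, rfl⟩
  have : Etale w := hc ▸ inferInstance
  obtain ⟨_, K, _, _, _, _, _, _, _, hD, hFT, hFD, hsep, hFF, hw⟩ := etc k L B (w ≫ L.c₁)
  have hw' : spc (algebraMap B K) ≫ w =
      spc (eval₂RingHom (algebraMap k K) (algebraMap (RatFunc k) K RatFunc.X)) ≫ 𝟙 _ := by
    rw [Category.comp_id, ← cancel_mono L.c₁, Category.assoc, hw]
    exact L.pnt_pt1 _ _
  have : IsAffineHom w := .of_comp w π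
  have := NORM.lqf w
  obtain ⟨ch, a1, a2, -⟩ := NORM.chart RatFunc.X (RatFunc.transcendental_X (K := k))
    RatFunc.adjoin_X w (𝟙 _) hw'
  have a0 := fun y => a1 y ⟨_, rfl⟩
  have hρ : IsFinite w.fromNormalization :=
    (IsFinite.iff_isIntegralHom_and_locallyOfFiniteType _).2 ⟨inferInstance,
      IsZariskiLocalAtSource.of_openCover (P := @LocallyOfFiniteType)
        (Scheme.Cover.mkOfCovers _ _ (fun _ : Unit => ch.ι) fun y => ⟨(), a0 y⟩) fun _ => a2⟩
  have ho : IsOpenImmersion w.toNormalization := inferInstance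
  have hcρ := w.toNormalization_fromNormalization
  generalize w.fromNormalization = ρ at *
  generalize w.toNormalization = c at *
  generalize w.normalization = Y at *
  have hY : Crv k (spc (algebraMap B K) ≫ c) :=
    ⟨QuasiCompact.compactSpace_of_compactSpace ρ,
      ⟨by rw [← terminal.comp_from ρ]; infer_instance⟩,
      C.TD1.of_alg (K := RatFunc k) ⟨RatFunc.X, ⟨fun z => isAlgebraic_algebraMap
        (⟨z, RatFunc.adjoin_X.ge trivial⟩ : IntermediateField.adjoin k {RatFunc.X})⟩⟩,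
      fun y => ⟨ch, a0 y⟩⟩
  have ft : Algebra.FiniteType k ch.B := by
    have e1 : ch.ι ≫ ρ ≫ π = spc (algebraMap k ch.B) := by
      obtain ⟨φ, hφ⟩ := Spec.map_surjective (ch.ι ≫ ρ ≫ π)
      have h1 : spc (algebraMap ch.B K) ≫ Spec.map φ = spc (algebraMap k K) := by
        rw [hφ, reassoc_of% ch.w, reassoc_of% hcρ, reassoc_of% hw', ← Spec.map_comp,
          ← CommRingCat.ofHom_comp, eval₂RingHom_comp_C]
      rw [← hφ]
      congr 1
      ext a
      refine IsFractionRing.injective ch.B K ?_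
      have h2 := congr(($(Spec.map_injective ((Spec.map_comp _ _).trans h1))).hom a)
      exact h2.trans (IsScalarTower.algebraMap_apply k ch.B K a)
    have : LocallyOfFiniteType π :=
      (HasRingHomProperty.Spec_iff (P := @LocallyOfFiniteType)).2
        (RingHom.finiteType_algebraMap.2 (inferInstance : Algebra.FiniteType k k[X]))
    have h1 : LocallyOfFiniteType (spc (algebraMap k ch.B)) := by
      rw [← e1, ← Category.assoc]; infer_instance
    exact RingHom.finiteType_algebraMap.1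
      ((HasRingHomProperty.Spec_iff (P := @LocallyOfFiniteType)).1 h1)
  have : Etale (c ≫ ρ) := hcρ ▸ inferInstance
  have hlY : Linv l Y := hP.of_hom ρ
  obtain ⟨x, hx⟩ := (cof k K Y _ ch ft).2
  have u1 := (crvA l k K hl Y (top Y) _ hY ch ft l 1 (by simp) hlY ⊤ fun _ => trivial).1 x
    fun y _ h => by
      obtain ⟨p, rfl⟩ := a0 y
      exact hx ((cen k K Y _ hY).2.1 x ch p h).1
  obtain ⟨mY⟩ := (ln l Y).2.2.1 k (ρ ≫ π) hl
  obtain ⟨gr⟩ := graphA l _ Y _ ρ c hP
  let i : Over.mk (c ≫ ρ) ≅ W := Over.isoMk e (hc.symm.trans hcρ.symm)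
  let a : (Over.pullback ρ).obj (top _) ⟶ top Y := Over.homMk (pullback.snd (𝟙 _) ρ)
  have : IsIso a := isIso_homMk _ (inferInstanceAs (IsIso (pullback.snd (𝟙 _) ρ)))
  refine zero_of (trans₃ (eqv a (𝟙 _) 2) (intH_bij ρ (top _) _ 2)
      (eqv (𝟙 _) (Lm l i.inv ≫ gr.hom) 2).symm).some.symm (fun y => ?_) z
  let g : Over.mk c ⟶ top Y := D.tot _
  have : Mono g := have : Mono g.left := inferInstanceAs (Mono c); Over.mono_of_mono_left _
  have := (D.lnm Y l).2.2.2.1 _ _ g this
  have tT : Tc l (Ln l (top Y)) := (ln l Y).1 _ (inferInstanceAs (Etale (𝟙 _)))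
  have tW : Tc l (Ln l (Over.mk c)) := (ln l Y).1 _ (inferInstanceAs (Etale c))
  obtain ⟨v, rfl⟩ := ((cov_les ((fr _).obj (top Y)) (S := ShortComplex.mk _ _
    (cokernel.condition (Lm l g))) { exact := ShortComplex.exact_cokernel _ }).e₁ 1 y).1
      (zero_of (eqv (opι (top Y) ⊤) mY.hom 2) u1 _)
  rw [(vanA l k K hl Y (top Y) _ hY _ (Tc.coker _ tW.1 tT)).2 (AlgebraicClosure K) (algebraMap K _)
    (coker_zero ln g _ (Over.homMk (spc (algebraMap K _) ≫ spc (algebraMap B K)) (by simp))) 0 v,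
    map_zero]

lemma lnm2 (W : Over (Spec (.of k[X]))) [Etale W.hom] [IsAffine W.left] [IsIntegral W.left] (m : ℕ)
    (z : H (top _) (Ln (l ^ (m + 1)) W) 2) : z = 0 := by
  induction m with
  | zero =>
    revert z
    rw [zero_add, pow_one]
    exact ln2 k hl W
  | succ m ih =>
    obtain ⟨i, p, w, hS⟩ := (D.lnm _ (l ^ (m + 1 + 1))).2.2.1 l (l ^ (m + 1)) W (pow_succ' _ _)
      (pow_ne_zero _ (Fact.out : l.Prime).ne_zero)
    obtain ⟨y, rfl⟩ := ((cov_les _ hS).e₂ 2 z).1 (ih _)
    rw [ln2 k hl W y, map_zero]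

lemma top2 (F : Sh (Scheme.etaleTopology.over (Spec (.of k[X])))) (hF : Tc l F)
    (z : H (top _) F 2) : z = 0 := by
  let π : Spec (.of k[X]) ⟶ Spec (.of k) := spc C
  have hP : Linv l (Spec (.of k[X])) := (Linv.spec (IsUnit.mk0 _ hl)).of_hom π
  have : CompactSpace (top (Spec (.of k[X]))).left := inferInstanceAs (CompactSpace (Spec _))
  have : (top (Spec (.of k[X]))).left.IsSeparated := inferInstanceAs (Spec _).IsSeparated
  have : Smooth π := (HasRingHomProperty.Spec_iff (P := @Smooth)).2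
    (RingHom.smooth_algebraMap.2 (⟨inferInstance, inferInstance⟩ : Algebra.Smooth k k[X]))
  refine D.CDG.tor_lift _ hF.2 2 (fun m => ?_) z
  have h1 := hF.ker (l ^ m • 𝟙 F) hF.1
  obtain ⟨ι, W, a, b1, _, b2, -⟩ := D.genb D.lnm l _ (l ^ (m + 1)) _
    (fun W _ => ∀ x : H (top _) (Ln (l ^ (m + 1)) W) 2, x = 0) ⟨_, rfl⟩ hP h1
    (by rw [pow_succ', mul_smul, D.CDG.ker_kill, smul_zero]) fun W hW _ w => by
      have := hW.1
      obtain ⟨U, hU, h2, h3⟩ := D.intb k W.left (W.hom ≫ π) w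
      have : IsAffine (Over.mk (U.ι ≫ W.hom)).left := h2
      have : IsIntegral (Over.mk (U.ι ≫ W.hom)).left := h3
      have : Etale (Over.mk (U.ι ≫ W.hom)).hom := inferInstanceAs (Etale (U.ι ≫ W.hom))
      exact ⟨Over.mk (U.ι ≫ W.hom), Over.homMk U.ι, ⟨‹_›, ‹_›⟩, ⟨⟨w, hU⟩, rfl⟩, lnm2 k hl _ m⟩
  exact D.CDG.van₃ _ (Sigma.desc a) 2
    ((vanA l k (RatFunc k) hl _ (top _) _ (crv k _) _ (b2.ker _ h1.1)).1 0)
    (sigma_van _ _ 2 fun i => (b1 i).2)

end A1

theorem a1f : A1F_s := by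
  intro l _ k _ _ hl X a F hF q z
  cases q with
  | succ q => exact (vanA l k (RatFunc k) hl X _ _ (A1.crv k a) F hF).1 q z
  | zero =>
    let b : (Over.map a).obj (top _) ⟶ Over.mk a := Over.homMk (𝟙 _) rfl
    have : IsIso b := isIso_homMk _ (inferInstanceAs (IsIso (𝟙 _)))
    exact zero_of ((eqv b (𝟙 F) 2).trans (AddEquiv.ofBijective _ (slH_bij a _ F 2)))
      (A1.top2 k hl _ (pb_tc a hF)) z

theorem a1g : A1G_s := by
  intro l _ k _ _ hl X a F hF Ω _ _ φ hφ h
  refine (vanA l k (RatFunc k) hl X _ _ (A1.crv k a) F hF).2 Ω (IsFractionRing.lift hφ) ?_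
  have e : spc (IsFractionRing.lift (K := RatFunc k) hφ) ≫ spc (algebraMap k[X] (RatFunc k)) ≫ a =
      spc φ ≫ a := by
    rw [← Spec.map_comp_assoc, ← CommRingCat.ofHom_comp]
    exact congrArg (spc · ≫ a) (RingHom.ext (IsFractionRing.lift_algebraMap hφ))
  change ∀ s : sec F (Over.mk (_ ≫ _ ≫ a)), s = 0
  rw [e]
  exact h

end Pool.Agent.MP_855f4c_ag.E.AV

end

section

open Polynomial

namespace Pool.Agent.MP_855f4c_ag.E.AV

theorem a1 : A1_s := fun l _ k _ _ hl X a F hF =>
  ⟨a1f l k hl X a F hF, fun h =>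
    have hi : Function.Injective (algebraMap k[X] (AlgebraicClosure (FractionRing k[X]))) :=
      (algebraMap (FractionRing k[X]) _).injective.comp (IsFractionRing.injective k[X] _)
    a1g l k hl X a F hF _ _ hi (h _ _ hi)⟩

end Pool.Agent.MP_855f4c_ag.E.AV

end

section

set_option autoImplicit false
set_option backward.isDefEq.respectTransparency false

open CategoryTheory Limits Abelian Opposite AlgebraicGeometry Polynomial TensorProduct IsLocalRing

namespace Pool.Agent.MP_855f4c_ag.E.AV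

open E3 E4

namespace GS

/-- Injective on cohomology after every affine base change. -/
def InjS (l : ℕ) {S Z : Scheme.{0}} (π : Z ⟶ S) : Prop :=
  ∀ (Y : Scheme.{0}) [IsAffine Y] (f : Y ⟶ S) (F : Sh (Scheme.etaleTopology.over Y)), Tc l F →
    ∀ (q : ℕ) (p : fbr f π ⟶ top Y) (x : H (top Y) F q), res p F q x = 0 → x = 0

lemma fin {l : ℕ} {S Z : Scheme.{0}} (π : Z ⟶ S) [IsIntegralHom π] {G : Type} [Fintype G]
    (ρ : G → (Over.mk π ⟶ Over.mk π)) (hl : Linv l S)
    (hp : ∀ h, ∃ e : G ≃ G, ∀ g, ρ h ≫ ρ g = ρ (e g))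
    (ho : ∀ (k : Type) [Field k] [IsAlgClosed k] (x : Spec (.of k) ⟶ S),
      ∃ y₀ : Over.mk x ⟶ Over.mk π, ∀ y, ∃ h, y = y₀ ≫ ρ h)
    (hG : (Fintype.card G).Coprime l) : InjS l π := by
  intro Y _ f F hF q p x hx
  have : IsIntegralHom (pullback.snd π f) := MorphismProperty.pullback_snd _ _ ‹_›
  obtain ⟨N, h1, -⟩ := T.Quo.tr_coh (π := pullback.snd π f)
    (fun g => (Over.pullback f).map (ρ g)) (hl.of_hom f)
    (fun h => (hp h).imp fun e he g => by rw [← he, Functor.map_comp]) (fun k _ _ x => by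
      obtain ⟨y₀, hy⟩ := ho k (x ≫ f)
      refine ⟨(Over.mapPullbackAdj f).homEquiv (Over.mk x) _ y₀, fun y => ?_⟩
      obtain ⟨y, rfl⟩ := ((Over.mapPullbackAdj f).homEquiv (Over.mk x) (Over.mk π)).surjective y
      obtain ⟨h, rfl⟩ := hy y
      exact ⟨h, (Over.mapPullbackAdj f).homEquiv_naturality_right _ _⟩) q p
  have h2 := h1 F hF.1 x
  have : CompactSpace (top Y).left := inferInstanceAs (CompactSpace Y)
  have : (top Y).left.IsSeparated := inferInstanceAs Y.IsSeparated
  obtain ⟨m, hm⟩ := H_tor (top Y) hF.2 q x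
  replace h2 := ((congrArg (N F hF.1) hx).trans (map_zero _)).symm.trans h2
  exact AddMonoid.addOrderOf_eq_one_iff.1 (Nat.eq_one_of_dvd_coprimes (hG.pow_right m)
    (addOrderOf_dvd_of_nsmul_eq_zero h2.symm) (addOrderOf_dvd_of_nsmul_eq_zero hm))

lemma lim {l : ℕ} {W P : Type} [CommRing W] [CommRing P] [Algebra W P] {ι : Type} [Nonempty ι]
    (S : ι → Subalgebra W P) (hS : Directed (· ≤ ·) S) (hU : ∀ x, ∃ i, x ∈ S i)
    (h : ∀ i, InjS l (spc (algebraMap W (S i)))) : InjS l (spc (algebraMap W P)) := by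
  intro Y _ f F hF q p x hx
  have : IsAffineHom f := isAffineHom_of_isAffine f
  let t : fbr f (𝟙 _) ⟶ top Y := D.tot _
  obtain ⟨i, e, he, h0⟩ := ((lim_aff hF.1.1 q).push f).union_zero S hS hU (a := 𝟙 _)
    (Category.comp_id _) (res t F q x) ((res_res' _ _ F q x).trans
      ((congrArg (res · F q x) (Over.mkIdTerminal.hom_ext _ p)).trans hx))
  obtain rfl : spc (algebraMap W (S i)) = e := (Category.comp_id _).symm.trans he
  exact h i Y f F hF q _ x ((res_res' _ _ F q x).symm.trans h0)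

lemma bc {l : ℕ} {W P R R' : Type} [CommRing W] [CommRing P] [CommRing R] [CommRing R']
    [Algebra W P] [Algebra W R] [Algebra R R'] [Algebra P R'] [Algebra W R'] [IsScalarTower W R R']
    [IsScalarTower W P R'] [Algebra.IsPushout W R P R'] (h : InjS l (spc (algebraMap W P))) :
    InjBC l R R' := by
  intro B B' _ _ _ _ _ _ _ _ _ X a b hab F hF q
  have q1 := isPullback_SpecMap_of_isPushout _ _ _ _ (CommRingCat.isPushout_of_isPushout W R P R')
  have q2 := isPullback_SpecMap_of_isPushout _ _ _ _ (CommRingCat.isPushout_of_isPushout R B R' B')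
  have q3 := (q2.paste_vert q1).flip
  let f := spc (algebraMap R B) ≫ spc (algebraMap W R)
  let u : (Over.map a).obj (top _) ⟶ Over.mk a := Over.homMk (𝟙 _) rfl
  have : IsIso u := isIso_homMk _ (inferInstanceAs (IsIso (𝟙 _)))
  let v : (Over.map a).obj (fbr f (spc (algebraMap W P))) ⟶ Over.mk b :=
    Over.homMk q3.isoPullback.inv (by
      rw [← hab]
      exact q3.isoPullback_inv_snd_assoc a)
  refine (injective_iff_map_eq_zero _).2 fun x hx => (pre_bij ((fr _).map u) F q).1
    ((slH_bij a _ F q).1 ((h _ f _ (pb_tc a hF) q (D.tot _) _ ?_).trans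
      ((congrArg _ (map_zero _)).trans (map_zero _)).symm))
  have e : (Over.map a).map (D.tot _) ≫ u = v ≫ sph _ hab :=
    Over.OverMorphism.ext ((Category.comp_id _).trans q3.isoPullback_inv_snd.symm)
  refine (slH_res a _ F q _).symm.trans ((congrArg _ ((res_res' _ _ F q x).trans ?_)).trans
    (map_zero _))
  rw [e, ← res_res', hx, map_zero]

lemma alg_tri0 {R A B : Type} [CommRing R] [CommRing A] [CommRing B] [Algebra R A] [Algebra R B]
    (φ : A →ₐ[R] B) : spc (φ : A →+* B) ≫ spc (algebraMap R A) = spc (algebraMap R B) := by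
  rw [← Spec.map_comp, ← CommRingCat.ofHom_comp, φ.comp_algebraMap]

/-- Points extend along injective integral maps. -/
lemma ext_pt {A C k : Type} [CommRing A] [CommRing C] [IsDomain C] [Algebra A C]
    [Algebra.IsIntegral A C] (h : Function.Injective (algebraMap A C)) [Field k] [IsAlgClosed k]
    (χ : A →+* k) : ∃ b : C →+* k, ∀ a, b (algebraMap A C a) = χ a := by
  have := RingHom.ker_isPrime χ
  obtain ⟨Q, _, hQ⟩ := Ideal.exists_ideal_over_prime_of_isIntegral_of_isDomain (S := C)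
    (RingHom.ker χ) (by rw [(RingHom.injective_iff_ker_eq_bot _).1 h]; exact bot_le)
  have : Q.LiesOver (RingHom.ker χ) := ⟨hQ.symm⟩
  let := (RingHom.kerLift χ).toAlgebra
  have : FaithfulSMul (A ⧸ RingHom.ker χ) k :=
    (faithfulSMul_iff_algebraMap_injective _ _).2 (RingHom.kerLift_injective χ)
  let ψ : (C ⧸ Q) →ₐ[A ⧸ RingHom.ker χ] k := IsAlgClosed.lift
  exact ⟨(ψ : _ →+* k).comp (Ideal.Quotient.mk Q), fun a => ψ.commutes (Ideal.Quotient.mk _ a)⟩

lemma tame {W P : Type} [CommRing W] [SHL W] [CommRing P] [IsDomain P] [Algebra W P]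
    [Algebra.IsIntegral W P] {l : ℕ} (hl : IsUnit (l : W))
    (hU : ∀ z : P, ∃ c, Associated (algebraMap W P c) z) (g : P →ₐ[W] P) (y : P)
    (h : (g ^ l) y = y) : g y = y := by
  have := SHL.isLocalRing_of_isDomain W (C := P)
  obtain ⟨c, u, hu⟩ := hU (g y - y)
  have h1 : ∑ i ∈ Finset.range l, (g ^ i) (g y - y) = 0 := by
    have e (i : ℕ) : (g ^ i) (g y - y) = (g ^ (i + 1)) y - (g ^ i) y := by
      rw [map_sub, pow_succ, AlgHom.mul_apply]
    simp only [e]
    rw [Finset.sum_range_sub fun i => (g ^ i) y, h, pow_zero, AlgHom.one_apply, sub_self]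
  have h2 (σ : P →ₐ[W] P) : residue P (σ u) = residue P u :=
    (RingHom.congr_fun (SHL.point_ext W (residue P) ((residue P).comp (σ : P →+* P))
      fun a => congrArg (residue P) (σ.commutes a).symm) u).symm
  have h3 : ∑ i ∈ Finset.range l, (g ^ i) u ≠ 0 := fun e => by
    have := congrArg (residue P) e
    simp only [map_sum, h2, Finset.sum_const, Finset.card_range, nsmul_eq_mul, map_zero] at this
    refine (IsUnit.mul ?_ (u.isUnit.map _)).ne_zero this
    simpa using (hl.map (algebraMap W P)).map (residue P)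
  simp only [← hu, map_mul, AlgHom.commutes, ← Finset.mul_sum] at h1
  rw [← sub_eq_zero, ← hu, (mul_eq_zero.1 h1).resolve_right h3, zero_mul]

section lev
variable {W Ω : Type} [CommRing W] [SHL W] [IsDomain W] [IsIntegrallyClosed W] [Field Ω]
  [IsAlgClosed Ω] [Algebra W Ω] [FaithfulSMul W Ω] [Algebra.IsAlgebraic W Ω] {l : ℕ}

lemma lev [Fact l.Prime] (hl : IsUnit (l : W))
    (hU : ∀ z : integralClosure W Ω, ∃ c, Associated (algebraMap W _ c) z) (p : W[X])
    (hp : p.Monic) :
    InjS l (spc (algebraMap W (Algebra.adjoin W (p.rootSet (integralClosure W Ω))))) := by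
  let P := integralClosure W Ω
  let S := Algebra.adjoin W (p.rootSet P)
  have mem (A : Type) [CommRing A] [IsDomain A] [Algebra W A] (z : A) :
      z ∈ p.rootSet A ↔ aeval z p = 0 := by
    rw [mem_rootSet', and_iff_right (hp.map _).ne_zero]
  have st (g : Ω ≃ₐ[W] Ω) (y : S) : icm g y ∈ S :=
    (Algebra.adjoin_le (S := S.comap (icm g)) fun z hz => Algebra.subset_adjoin
      ((mem _ _).2 ((aeval_algHom_apply (icm g) _ _).trans (by rw [(mem _ _).1 hz, map_zero])))) y.2
  let r' : (Ω ≃ₐ[W] Ω) →* (P →ₐ[W] P) := { toFun := icm, map_one' := rfl, map_mul' _ _ := rfl }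
  let r : (Ω ≃ₐ[W] Ω) →* (S →ₐ[W] S) :=
    { toFun g := ((icm g).comp S.val).codRestrict S (st g)
      map_one' := rfl
      map_mul' _ _ := rfl }
  have : Finite (S →ₐ[W] S) := Finite.of_injective
    (fun (σ : S →ₐ[W] S) (z : p.rootSet P) => (⟨σ ⟨z, Algebra.subset_adjoin z.2⟩, (mem _ _).2 (by
      rw [aeval_algHom_apply, show aeval (⟨z, Algebra.subset_adjoin z.2⟩ : S) p = 0 from
        Subtype.ext ((aeval_algHom_apply S.val _ _).symm.trans ((mem _ _).1 z.2)), map_zero])⟩ :
        p.rootSet S)) fun σ τ e => by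
      refine AlgHom.ext fun ⟨y, hy⟩ => ?_
      induction hy using Algebra.adjoin_induction with
      | mem z hz => exact congrArg Subtype.val (congrFun e ⟨z, hz⟩)
      | algebraMap a => exact (σ.commutes a).trans (τ.commutes a).symm
      | add x y hx hy h1 h2 =>
        exact (map_add σ ⟨x, hx⟩ ⟨y, hy⟩).trans
          ((congrArg₂ (· + ·) h1 h2).trans (map_add τ ⟨x, hx⟩ ⟨y, hy⟩).symm)
      | mul x y hx hy h1 h2 =>
        exact (map_mul σ ⟨x, hx⟩ ⟨y, hy⟩).trans
          ((congrArg₂ (· * ·) h1 h2).trans (map_mul τ ⟨x, hx⟩ ⟨y, hy⟩).symm)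
  let G := r.toHomUnits.range
  let := Fintype.ofFinite G
  have : Algebra.IsIntegral W S := ⟨fun y => (isIntegral_algHom_iff S.val Subtype.val_injective).1
    (Algebra.IsIntegral.isIntegral _)⟩
  have : IsIntegralHom (spc (algebraMap W S)) :=
    IsIntegralHom.SpecMap_iff.2 (algebraMap_isIntegral_iff.2 this)
  refine fin (G := G) _ (fun σ => sph (σ.1.1 : S →+* S) (alg_tri0 σ.1.1)) (Linv.spec hl)
    (fun h => ⟨Equiv.mulLeft h, fun g => Over.OverMorphism.ext (Spec.map_comp _ _).symm⟩)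
    (fun k _ _ x => ?_) ?_
  · obtain ⟨χ, rfl⟩ := Spec.map_surjective x
    let := χ.hom.toAlgebra
    obtain ⟨b, hb⟩ := ext_pt (C := P) (FaithfulSMul.algebraMap_injective _ _) χ.hom
    let b₀ : P →ₐ[W] k := ⟨b, hb⟩
    refine ⟨sph (b₀.comp S.val : S →+* k) (alg_tri0 _), fun y => ?_⟩
    obtain ⟨ψ, hψ⟩ := Spec.map_surjective y.left
    have h1 : CommRingCat.ofHom (algebraMap W S) ≫ ψ = χ :=
      Spec.map_injective ((Spec.map_comp _ _).trans (hψ ▸ Over.w y))
    have : Algebra.IsIntegral S P := .tower_top W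
    obtain ⟨b', hb'⟩ := ext_pt (A := S) (C := P) Subtype.val_injective ψ.hom
    obtain ⟨g, hg⟩ := Gs.orbit b₀ ⟨b', fun a => (hb' (algebraMap W S a)).trans congr(($h1).hom a)⟩
    refine ⟨⟨_, g, rfl⟩, Over.OverMorphism.ext (hψ.symm.trans
      (Eq.trans (congrArg Spec.map ?_) (Spec.map_comp _ _)))⟩
    ext z
    exact (hb' z).symm.trans congr($hg z).symm
  · refine ((Nat.Prime.coprime_iff_not_dvd Fact.out).2 fun h => ?_).symm
    obtain ⟨⟨_, g, rfl⟩, hσ⟩ := exists_prime_orderOf_dvd_card l h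
    have h1 : r (g ^ l) = 1 := by
      have h2 := pow_orderOf_eq_one (⟨_, g, rfl⟩ : G)
      rw [hσ] at h2
      rw [map_pow]
      exact congrArg (fun σ : G => σ.1.1) h2
    rw [show (⟨_, g, rfl⟩ : G) = 1 from Subtype.ext (Units.ext (AlgHom.ext fun y => Subtype.ext
      (tame hl hU (r' g) y (by
        rw [← map_pow]
        exact congrArg Subtype.val (AlgHom.congr_fun h1 y))))), orderOf_one] at hσ
    exact (Fact.out : l.Prime).one_lt.ne hσ

lemma all [Fact l.Prime] (hl : IsUnit (l : W))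
    (hU : ∀ z : integralClosure W Ω, ∃ c, Associated (algebraMap W _ c) z) :
    InjS l (spc (algebraMap W (integralClosure W Ω))) := by
  have : Nonempty {p : W[X] // p.Monic} := ⟨1, monic_one⟩
  refine lim (fun p : {p : W[X] // p.Monic} => Algebra.adjoin W (p.1.rootSet _))
    (fun p q => ⟨⟨p.1 * q.1, p.2.mul q.2⟩, Algebra.adjoin_mono fun z hz => ?_,
      Algebra.adjoin_mono fun z hz => ?_⟩) (fun z => ?_) fun p => lev hl hU p.1 p.2
  · rw [mem_rootSet'] at hz ⊢
    exact ⟨((p.2.mul q.2).map _).ne_zero, by rw [map_mul, hz.2, zero_mul]⟩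
  · rw [mem_rootSet'] at hz ⊢
    exact ⟨((p.2.mul q.2).map _).ne_zero, by rw [map_mul, hz.2, mul_zero]⟩
  · obtain ⟨p, hp, h⟩ := Algebra.IsIntegral.isIntegral (R := W) z
    exact ⟨⟨p, hp⟩, Algebra.subset_adjoin (mem_rootSet'.2 ⟨(hp.map _).ne_zero, h⟩)⟩

end lev

end GS

end Pool.Agent.MP_855f4c_ag.E.AV

end

section

set_option autoImplicit false
set_option backward.isDefEq.respectTransparency false

open CategoryTheory AlgebraicGeometry Polynomial TensorProduct IsLocalRing

namespace Pool.Agent.MP_855f4c_ag.E.AV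

open E3 E4

namespace GS

lemma least {A ι : Type} [Monoid A] (b : ι → A) (h : ∀ i j, b i ∣ b j ∨ b j ∣ b i) (s : Finset ι)
    (hs : s.Nonempty) : ∃ i ∈ s, ∀ j ∈ s, b i ∣ b j := by
  induction hs using Finset.Nonempty.cons_induction with
  | singleton a => exact ⟨a, by simp, by simp⟩
  | cons a s _ _ ih =>
    obtain ⟨i, hi, H⟩ := ih
    rcases h a i with e | e
    · exact ⟨a, by simp, (Finset.forall_mem_cons _ _).2 ⟨dvd_rfl, fun j hj => e.trans (H j hj)⟩⟩
    · exact ⟨i, by simp [hi], (Finset.forall_mem_cons _ _).2 ⟨e, H⟩⟩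

lemma cont {V σ : Type} [CommRing V] [IsDomain V] [ValuationRing V] (f : MvPolynomial σ V) :
    ∃ c g m, f = MvPolynomial.C c * g ∧ g.coeff m = 1 := by
  by_cases h : f = 0
  · exact ⟨0, 1, 0, by simp [h], by simp⟩
  obtain ⟨m, hm, H⟩ := least f.coeff (fun _ _ => ValuationRing.dvd_total _ _) f.support
    (MvPolynomial.support_nonempty.2 h)
  obtain ⟨g, hg⟩ := (MvPolynomial.C_dvd_iff_dvd_coeff (f.coeff m) f).2 fun j => by
    by_cases hj : j ∈ f.support
    · exact H j hj
    · rw [MvPolynomial.notMem_support_iff.1 hj]; exact dvd_zero _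
  refine ⟨_, g, m, hg, mul_left_cancel₀ (MvPolynomial.mem_support_iff.1 hm) ?_⟩
  rw [mul_one, ← MvPolynomial.coeff_C_mul, ← hg]

section val
variable {P Ω : Type} [CommRing P] [IsLocalRing P] [Field Ω] [Algebra P Ω]

lemma uinv (hP : ∀ x : Ω, IsIntegral P x → ∃ y, algebraMap P Ω y = x) (x : Ω) (f : P[X])
    (hf : aeval x f = 0) (i : ℕ) (hi : IsUnit (f.coeff i)) :
    (∃ y, algebraMap P Ω y = x) ∨ ∃ y, algebraMap P Ω y * x = 1 := by
  induction hn : f.natDegree using Nat.strong_induction_on generalizing f with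
  | _ n ih =>
  obtain ⟨t, ht⟩ := hP _ (isIntegral_leadingCoeff_smul f x hf)
  rw [Algebra.smul_def] at ht
  by_cases h1 : IsUnit f.leadingCoeff
  · obtain ⟨v, hv⟩ := h1.exists_left_inv
    exact .inl ⟨v * t, by rw [map_mul, ht, ← mul_assoc, ← map_mul, hv, map_one, one_mul]⟩
  by_cases h2 : IsUnit t
  · obtain ⟨v, hv⟩ := h2.exists_left_inv
    exact .inr ⟨v * f.leadingCoeff, by rw [map_mul, mul_assoc, ← ht, ← map_mul, hv, map_one]⟩
  have h3 : i < f.natDegree := lt_of_le_of_ne (le_natDegree_of_ne_zero hi.ne_zero)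
    fun e => h1 (by rwa [e] at hi)
  obtain ⟨d, hd⟩ : ∃ d, f.natDegree = d + 1 := ⟨_, (Nat.succ_pred_eq_of_pos (by omega)).symm⟩
  refine ih _ ?_ (f.eraseLead + monomial d t) ?_ ?_ rfl
  · refine lt_of_le_of_lt (natDegree_add_le_of_degree_le (n := d) ?_ (natDegree_monomial_le _)) (by omega)
    exact (eraseLead_natDegree_le f).trans (by omega)
  · rw [← eraseLead_add_monomial_natDegree_leadingCoeff f] at hf
    rw [← hf, map_add, map_add, aeval_monomial, aeval_monomial, ht, hd, pow_succ', mul_assoc]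
  · rw [coeff_add, eraseLead_coeff_of_ne _ h3.ne, coeff_monomial]
    split_ifs
    · refine (isUnit_or_isUnit_of_isUnit_add (b := -t) (by simpa using hi)).resolve_right ?_
      simpa using h2
    · simpa using hi

variable {V : Type} [CommRing V] [IsDomain V] [ValuationRing V] [IsDomain P] [FaithfulSMul P Ω]
  (j : V →+* P)
  (hA : ∀ x : Ω, ∃ f : P[X], f ≠ 0 ∧ aeval x f = 0 ∧ ∀ i, ∃ c, Associated (j c) (f.coeff i))
include hA

lemma val (hP : ∀ x : Ω, IsIntegral P x → ∃ y, algebraMap P Ω y = x) : ValuationRing P := by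
  have inj := FaithfulSMul.algebraMap_injective P Ω
  refine ValuationRing.iff_dvd_total.2 ⟨fun a b => ?_⟩
  by_cases hb : b = 0
  · exact .inl (hb ▸ dvd_zero a)
  have hb' := (map_ne_zero_iff _ inj).2 hb
  obtain ⟨f, h0, h1, h2⟩ := hA (algebraMap P Ω a / algebraMap P Ω b)
  choose c hc using h2
  obtain ⟨m, hm, H⟩ := least f.coeff (fun i k => (ValuationRing.dvd_total (c i) (c k)).imp
    (fun e => (hc i).symm.dvd.trans ((map_dvd j e).trans (hc k).dvd))
    fun e => (hc k).symm.dvd.trans ((map_dvd j e).trans (hc i).dvd)) f.support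
      (support_nonempty.2 h0)
  obtain ⟨g, hg⟩ := (C_dvd_iff_dvd_coeff (f.coeff m) f).2 fun k => by
    by_cases hk : k ∈ f.support
    · exact H k hk
    · rw [notMem_support_iff.1 hk]; exact dvd_zero _
  have hm' := mem_support_iff.1 hm
  have h3 : g.coeff m = 1 := mul_left_cancel₀ hm' (by rw [mul_one, ← coeff_C_mul, ← hg])
  rw [hg, map_mul, aeval_C, mul_eq_zero, map_eq_zero_iff _ inj] at h1
  rcases uinv hP _ g (h1.resolve_left hm') m (h3 ▸ isUnit_one) with ⟨y, hy⟩ | ⟨y, hy⟩
  · exact .inr ⟨y, inj (by rw [map_mul, hy, mul_div_cancel₀ _ hb'])⟩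
  · refine .inl ⟨y, inj ?_⟩
    rw [← mul_div_assoc, div_eq_one_iff_eq hb'] at hy
    rw [map_mul, ← hy, mul_comm]

omit [IsLocalRing P] in
lemma asc [ValuationRing P] (hV : Aic V) (z : P) : ∃ c, Associated (j c) z := by
  classical
  by_cases hz : z = 0
  · exact ⟨0, by simp [hz]⟩
  obtain ⟨f, h0, h1, h2⟩ := hA (algebraMap P Ω z)
  choose c hc using h2
  rw [aeval_algebraMap_apply, map_eq_zero_iff _ (FaithfulSMul.algebraMap_injective P Ω),
    coe_aeval_eq_eval, eval_eq_sum, sum_def] at h1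
  have pw {a b : P} {n : ℕ} (h : Associated (a ^ (n + 1)) (b ^ (n + 1))) (ha : a ≠ 0)
      (e : a ∣ b) : Associated a b := by
    obtain ⟨w, rfl⟩ := e
    rw [mul_pow] at h
    exact associated_mul_unit_right _ _ ((isUnit_pow_iff n.succ_ne_zero).1
      (isUnit_of_associated_mul h.symm (pow_ne_zero _ ha)))
  have key (i k : ℕ) (hi : f.coeff i ≠ 0) (h : i < k)
      (e : Associated (f.coeff i * z ^ i) (f.coeff k * z ^ k)) : ∃ c, Associated (j c) z := by
    obtain ⟨d, rfl⟩ := Nat.exists_eq_add_of_lt h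
    obtain ⟨r, hr⟩ := hV _ (monic_X_pow_sub_C (c i) d.succ_ne_zero) (by simp)
    obtain ⟨s, hs⟩ := hV _ (monic_X_pow_sub_C (c (i + d + 1)) d.succ_ne_zero) (by simp)
    simp only [eval_sub, eval_pow, eval_X, eval_C, sub_eq_zero] at hr hs
    have e1 : Associated (j r ^ (d + 1)) ((j s * z) ^ (d + 1)) := by
      rw [mul_pow, ← map_pow, ← map_pow, hr, hs]
      refine (hc i).trans (Associated.trans ?_ ((hc _).symm.mul_right _))
      rw [add_assoc, pow_add, mul_comm (z ^ i), ← mul_assoc] at e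
      exact e.of_mul_right .rfl (pow_ne_zero _ hz)
    have r0 : j r ≠ 0 := fun e => hi ((hc i).eq_zero_iff.1 (by rw [← hr, map_pow, e]; simp))
    have s0 : j s * z ≠ 0 := fun e => pow_ne_zero _ r0 (e1.eq_zero_iff.2 (by rw [e]; simp))
    have e2 : Associated (j r) (j s * z) := (ValuationRing.dvd_total _ _).elim (pw e1 r0)
      fun e => (pw e1.symm s0 e).symm
    rcases ValuationRing.dvd_total s r with ⟨w, rfl⟩ | ⟨w, rfl⟩
    · rw [map_mul] at e2
      exact ⟨w, e2.of_mul_left .rfl (left_ne_zero_of_mul s0)⟩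
    · rw [map_mul, mul_assoc] at e2
      exact ⟨1, by
        rw [map_one]
        exact (associated_one_iff_isUnit.2 (isUnit_of_mul_isUnit_right
          (isUnit_of_associated_mul e2.symm r0))).symm⟩
  obtain ⟨m, hm, H⟩ := least (fun i => f.coeff i * z ^ i) (fun _ _ => ValuationRing.dvd_total _ _)
    f.support (support_nonempty.2 h0)
  have hm' := mem_support_iff.1 hm
  by_contra hn
  choose! w hw using H
  have h3 : ∑ k ∈ f.support.erase m, w k ∈ maximalIdeal P := Ideal.sum_mem _ fun k hk hu => by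
    obtain ⟨h4, h5⟩ := Finset.mem_erase.1 hk
    have e : Associated (f.coeff m * z ^ m) (f.coeff k * z ^ k) :=
      hw k h5 ▸ associated_mul_unit_right _ _ hu
    exact hn (h4.lt_or_gt.elim (fun h => key k m (mem_support_iff.1 h5) h e.symm)
      fun h => key m k hm' h e)
  rw [← Finset.add_sum_erase _ _ hm, Finset.sum_congr rfl fun k hk => hw k (Finset.mem_of_mem_erase hk),
    ← Finset.mul_sum, ← mul_one_add, mul_eq_zero, add_eq_zero_iff_neg_eq] at h1
  rcases h1 with h1 | h1
  · exact mul_ne_zero hm' (pow_ne_zero _ hz) h1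
  · exact h3 (h1 ▸ isUnit_one.neg)

end val

lemma dim {V P : Type} [CommRing V] [IsLocalRing V] [Ring.DimensionLEOne V] [CommRing P]
    [IsLocalRing P] (j : V →+* P) (h : ∀ z, ∃ c, Associated (j c) z) : Ring.DimensionLEOne P := by
  refine ⟨fun {p} h0 hp => ?_⟩
  obtain ⟨z, hz, z0⟩ := Submodule.exists_mem_ne_zero_of_ne_bot h0
  obtain ⟨c, hc⟩ := h z
  have h1 : (p.comap j).IsMaximal := Ring.DimensionLEOne.maximalOfPrime (fun e => z0 (by
    have : c ∈ p.comap j := p.mem_of_dvd hc.symm.dvd hz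
    rw [e, Ideal.mem_bot] at this
    exact hc.eq_zero_iff.1 (by rw [this, map_zero]))) inferInstance
  refine ((maximalIdeal.isMaximal P).eq_of_le hp.ne_top fun w hw => ?_) ▸ maximalIdeal.isMaximal P
  obtain ⟨d, hd⟩ := h w
  exact p.mem_of_dvd hd.dvd ((eq_maximalIdeal h1).ge fun hu => hw (hd.isUnit (hu.map j)))

end GS

open GS in
theorem gw : GW_s := by
  intro l _ V _ _ _ hV κ _ _ r φ hφ
  let A := MvPolynomial (Fin r) V
  let := φ.toAlgebra
  obtain ⟨W, _, _, _, _, _, H, hω⟩ := exists_SH A κ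
  have : IsIntegrallyClosed A := E65.mv_normal (Fin r) V
  have := H.isDomain
  have := H.isIntegrallyClosed
  have := H.isAlgebraic
  have hi := H.injective
  let Ω := AlgebraicClosure (FractionRing W)
  have : FaithfulSMul W Ω := (faithfulSMul_iff_algebraMap_injective _ _).2
    ((algebraMap (FractionRing W) Ω).injective.comp (IsFractionRing.injective W _))
  have : Algebra.IsAlgebraic W (FractionRing W) := IsLocalization.isAlgebraic _ (nonZeroDivisors W)
  have : Algebra.IsAlgebraic W Ω := .trans _ (FractionRing W) _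
  let P := integralClosure W Ω
  have := SHL.isLocalRing_of_isDomain W (C := P)
  have un (a : A) (h : φ a ≠ 0) : IsUnit (algebraMap A W a) :=
    isUnit_of_map_unit (algebraMap W κ) _ (isUnit_iff_ne_zero.2
      ((IsScalarTower.algebraMap_apply A W κ a).symm.trans_ne h))
  have ev {D : Type} [CommRing D] (ψ : A →+* D) (a : A) :
      MvPolynomial.eval₂ (ψ.comp MvPolynomial.C) (fun i => ψ (MvPolynomial.X i)) a = ψ a :=
    RingHom.congr_fun (MvPolynomial.ringHom_ext (g := ψ) (f := MvPolynomial.eval₂Hom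
      (ψ.comp MvPolynomial.C) fun i => ψ (MvPolynomial.X i))
      (fun _ => MvPolynomial.eval₂_C _ _ _) fun _ => MvPolynomial.eval₂_X _ _ _) a
  have pr (g : A) (m) (h : g.coeff m = 1) : IsUnit (algebraMap A W g) := un g fun e => by
    have := congrArg (MvPolynomial.coeff m) (hφ g ((ev φ g).trans e))
    simp [MvPolynomial.coeff_map, h] at this
  let j₀ : V →+* W := (algebraMap A W).comp MvPolynomial.C
  let j : V →+* P := (algebraMap W P).comp j₀
  have hP (x : Ω) (hx : IsIntegral P x) : ∃ y, algebraMap P Ω y = x :=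
    ⟨⟨x, isIntegral_trans x hx⟩, rfl⟩
  have hA (x : Ω) : ∃ f : P[X], f ≠ 0 ∧ aeval x f = 0 ∧ ∀ i, ∃ c, Associated (j c) (f.coeff i) := by
    have : Algebra.IsAlgebraic A Ω := .trans _ W _
    obtain ⟨f, h0, h1⟩ := Algebra.IsAlgebraic.isAlgebraic (R := A) x
    refine ⟨f.map ((algebraMap W P).comp (algebraMap A W)), (Polynomial.map_ne_zero_iff
      ((FaithfulSMul.algebraMap_injective W P).comp hi :)).2 h0, ?_, fun i => ?_⟩
    · rw [aeval_def, eval₂_map, ← h1, aeval_def, IsScalarTower.algebraMap_eq A W Ω]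
      rfl
    · obtain ⟨c, g, m, e, hg⟩ := cont (f.coeff i)
      refine ⟨c, ?_⟩
      rw [coeff_map, e, map_mul]
      exact associated_mul_unit_right _ _ ((pr g m hg).map (algebraMap W P))
  have := val j hA hP
  have hU := asc j hA hV.aic
  have := hV.dim
  have := hV.char
  have hl : IsUnit (l : W) := by simpa using hV.unit.map j₀
  have : Algebra.IsPushout W W P P := ⟨IsBaseChange.of_equiv (TensorProduct.lid W P) (by simp)⟩
  refine ⟨W, _, _, algebraMap W κ, P, _, inferInstance, ‹_›, _, H,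
    (IsScalarTower.algebraMap_eq A W κ).symm, ⟨fun p hp h => ?_, by simpa using hl.map (algebraMap W P),
      dim j hU, charZero_of_injective_ringHom (f := j) (((FaithfulSMul.algebraMap_injective W P).comp
        hi).comp (MvPolynomial.C_injective _ _))⟩, fun h => ?_, inferInstance, fun κ' _ χ a ha => ?_,
    bc (W := W) (P := P) (all hl fun z => (hU z).imp' j₀ fun _ h => h)⟩
  · obtain ⟨x, hx⟩ := IsAlgClosed.exists_aeval_eq_zero Ω p (by
      rwa [degree_eq_natDegree hp.ne_zero, Ne, Nat.cast_eq_zero])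
    obtain ⟨y, rfl⟩ := hP x ⟨p, hp, hx⟩
    rw [aeval_algebraMap_apply, map_eq_zero_iff _ (FaithfulSMul.algebraMap_injective P Ω)] at hx
    exact ⟨y, hx⟩
  · refine ⟨exists_pair_ne _, mul_comm, fun {z} hz => ?_⟩
    obtain ⟨c, hc⟩ := hU z
    exact (hc.isUnit ((un _ ((map_ne_zero_iff _ h).2 fun e : c = 0 => hz (hc.eq_zero_iff.1
      (by rw [e, map_zero])))).map (algebraMap W P))).exists_right_inv
  · obtain ⟨c, g, m, rfl, hg⟩ := cont a
    have h1 := (ev ((χ.comp (algebraMap W P)).comp (algebraMap A W)) _).symm.trans ha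
    rw [map_mul, mul_eq_zero] at h1
    rw [map_mul, MvPolynomial.map_C, RingHom.comp_apply,
      h1.resolve_right ((pr g m hg).map (χ.comp (algebraMap W P))).ne_zero, map_zero, zero_mul]

end Pool.Agent.MP_855f4c_ag.E.AV

end

section

namespace Pool.Agent.MP_855f4c_ag.E.AV

theorem ptA : PT_s := pt big (lim big) gw

end Pool.Agent.MP_855f4c_ag.E.AV

end
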