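import Pool.Agent.MP_855f4c_ag.EC.DUb
import Pool.Agent.MP_855f4c_ag.TC.Tk
import Pool.Agent.MP_855f4c_ag.VC.Ve
import Pool.Agent.MP_855f4c_ag.TC.Th

set_option linter.all false

section

section

/-! Row RNG: Mayer-Vietoris for a henselian neighbourhood, and the Runge surjection. -/

set_option autoImplicit false
set_option backward.isDefEq.respectTransparency false

open CategoryTheory Limits Abelian Opposite AlgebraicGeometry IsLocalRing Function

namespace Pool.Agent.MP_855f4c_ag.V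

open E E3 E4 E.SA T T.GG

/-- The Mayer-Vietoris sequence of a map of long exact sequences. -/
theorem les_mv {X₁ X₂ X₃ Y₁ Y₂ Y₃ : ℕ → Type 1} [∀ q, AddCommGroup (X₁ q)]
    [∀ q, AddCommGroup (X₂ q)] [∀ q, AddCommGroup (X₃ q)] [∀ q, AddCommGroup (Y₁ q)]
    [∀ q, AddCommGroup (Y₂ q)] [∀ q, AddCommGroup (Y₃ q)]
    {f : ∀ q, X₁ q →+ X₂ q} {g : ∀ q, X₂ q →+ X₃ q} {d : ∀ q, X₃ q →+ X₁ (q + 1)}
    {f' : ∀ q, Y₁ q →+ Y₂ q} {g' : ∀ q, Y₂ q →+ Y₃ q} {d' : ∀ q, Y₃ q →+ Y₁ (q + 1)}
    (h : IsLES f g d) (h' : IsLES f' g' d')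
    (a : ∀ q, X₁ q →+ Y₁ q) (b : ∀ q, X₂ q →+ Y₂ q) (c : ∀ q, X₃ q →+ Y₃ q)
    (hf : ∀ q x, f' q (a q x) = b q (f q x)) (hg : ∀ q x, g' q (b q x) = c q (g q x))
    (hd : ∀ q x, d' q (c q x) = a (q + 1) (d q x)) (ha : ∀ q, Bijective (a q)) :
    ∃ D : ∀ q, Y₃ q →+ X₂ (q + 1), (∀ q y, D q y = 0 ↔ ∃ x z, y = c q x + g' q z) ∧
      (∀ q z, (∃ y, D q y = z) ↔ g (q + 1) z = 0 ∧ b (q + 1) z = 0) ∧
      ∀ q x y, c q x = g' q y → ∃ z, g q z = x ∧ b q z = y := by
  let e q := AddEquiv.ofBijective (a q) (ha q)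
  have e1 q y : a q ((e q).symm y) = y := (e q).apply_symm_apply y
  have e2 q x : (e q).symm (a q x) = x := (e q).symm_apply_apply x
  refine ⟨fun q => (f (q + 1)).comp ((e (q + 1)).symm.toAddMonoidHom.comp (d' q)), fun q y => ?_,
    fun q z => ?_, fun q x y hy => ?_⟩
  · change f _ ((e _).symm (d' q y)) = 0 ↔ _
    constructor
    · intro h0
      obtain ⟨x, hx⟩ := (h.e₁ q _).1 h0
      obtain ⟨z, hz⟩ := (h'.e₃ q (y - c q x)).1 (by rw [map_sub, hd, hx, e1, sub_self])
      exact ⟨x, z, by rw [hz, add_sub_cancel]⟩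
    · rintro ⟨x, z, rfl⟩
      rw [map_add, hd, (h'.e₃ q).apply_apply_eq_zero, add_zero, e2, (h.e₁ q).apply_apply_eq_zero]
  · change (∃ y, f _ ((e _).symm (d' q y)) = z) ↔ _
    constructor
    · rintro ⟨y, rfl⟩
      exact ⟨(h.e₂ _).apply_apply_eq_zero _, by rw [← hf, e1, (h'.e₁ q).apply_apply_eq_zero]⟩
    · rintro ⟨h1, h2⟩
      obtain ⟨x, rfl⟩ := (h.e₂ _ z).1 h1
      obtain ⟨y, hy⟩ := (h'.e₁ q (a _ x)).1 (by rw [hf, h2])
      exact ⟨y, by rw [hy, e2]⟩
  · obtain ⟨z, rfl⟩ := (h.e₃ q x).1 ((ha _).1 (by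
      rw [← hd, hy, (h'.e₃ q).apply_apply_eq_zero, map_zero]))
    obtain ⟨w, hw⟩ := (h'.e₂ q (y - b q z)).1 (by rw [map_sub, hg, hy, sub_self])
    obtain ⟨w, rfl⟩ := (ha q).2 w
    exact ⟨z + f q w, by rw [map_add, (h.e₂ q).apply_apply_eq_zero, add_zero],
      by rw [map_add, ← hf, hw, add_sub_cancel]⟩

variable {X : Scheme.{0}} {l : ℕ}

/-- A map that is bijective at the geometric points of `T` is bijective on the cohomology of `T`. -/
theorem post_pts {F G : Sh (Scheme.etaleTopology.over X)} (hF : Cc l F) (hG : Cc l G) (φ : F ⟶ G)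
    {Y : Scheme.{0}} (a : Y ⟶ X) (hl : Linv l Y)
    (h : ∀ (k : Type) [Field k] [IsAlgClosed k] (y : Spec (.of k) ⟶ Y),
      Bijective (φ.hom.app (op (Over.mk (y ≫ a))))) (q : ℕ) :
    Bijective (post ((fr _).obj (Over.mk a)) φ q) := by
  have : IsIso ((pb (J := Scheme.etaleTopology) a).map φ) :=
    pt_iso hl (hF.pb a) (hG.pb a) _ fun t => by
      obtain ⟨k, _, _, x, y, hy⟩ := exists_geom (Over.mk (𝟙 Y)) t
      exact ⟨k, _, inferInstance, y.left, hy, h k _⟩
  let i : Over.mk a ≅ (Over.map a).obj (top Y) := Over.isoMk (Iso.refl _) (by simp)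
  have e1 : slH a (top Y) G q ∘ post _ φ q =
      post _ ((pb (J := Scheme.etaleTopology) a).map φ) q ∘ slH a (top Y) F q :=
    funext fun x => M2.slH_post a (top Y) φ q x
  have h1 : Bijective (post ((fr _).obj ((Over.map a).obj (top Y))) φ q) := by
    rw [← (slH_bij a (top Y) G q).of_comp_iff', e1]
    exact (post_bij _ _ q).comp (slH_bij a (top Y) F q)
  have e2 : post _ φ q ∘ res i.hom F q = res i.hom G q ∘ post _ φ q :=
    funext fun x => (pre_post _ φ x).symm
  rw [← Bijective.of_comp_iff _ (pre_bij ((fr _).map i.hom) F q)]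
  exact e2 ▸ (pre_bij ((fr _).map i.hom) G q).comp h1

/-- No cohomology without stalks. -/
theorem zero_pts {F : Sh (Scheme.etaleTopology.over X)} (hF : Cc l F) {Y : Scheme.{0}} (a : Y ⟶ X)
    (hl : Linv l Y) (h : ∀ (k : Type) [Field k] [IsAlgClosed k] (y : Spec (.of k) ⟶ Y)
      (s : sec F (Over.mk (y ≫ a))), s = 0) (q : ℕ) (x : H (Over.mk a) F q) : x = 0 :=
  (post_pts hF hF 0 a hl (fun k _ _ y => ⟨fun s t _ => (h k y s).trans (h k y t).symm,
    fun s => ⟨0, (h k y _).trans (h k y s).symm⟩⟩) q).1 (by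
      rw [map_zero, post_apply, Ext.mk₀_zero, Ext.comp_zero])

theorem ez_tc (U : X.Opens) {F : Sh (Scheme.etaleTopology.over X)} (h : Tc l F) :
    Tc l ((ez U).obj F) :=
  ⟨⟨ez_LFP U (h.pb U.ι).1.1, ez_Rig U (h.pb U.ι).1.2⟩, ez_Tor U (h.pb U.ι).2⟩

theorem surj_pb {R D D' : Type} [CommRing R] [CommRing D] [CommRing D'] [Algebra R D] [Algebra R D']
    (u : Spec (.of R) ⟶ X) (φ : D →ₐ[R] D') {F : Sh (Scheme.etaleTopology.over X)} (n : ℕ)
    (h : Surjective (res (hm (𝟙 _) φ) ((pb (J := Scheme.etaleTopology) u).obj F) n)) :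
    Surjective (res (hm u φ) F n) := fun y => by
  obtain ⟨x, hx⟩ := h (slH u _ F n (res (obMap u D').hom F n y))
  obtain ⟨x, rfl⟩ := (slH_bij u _ F n).2 x
  rw [← slH_res] at hx
  refine ⟨res (obMap u D).inv F n x, (pre_bij ((fr _).map (obMap u D').hom) F n).1 ?_⟩
  rw [← (slH_bij u _ F n).1 hx, pre_pre, pre_pre, ← Functor.map_comp, ← Functor.map_comp,
    show (obMap u D').hom ≫ hm u φ = (Over.map u).map (hm (𝟙 _) φ) ≫ (obMap u D).hom from
      Over.OverMorphism.ext ((Category.id_comp _).trans (Category.comp_id _).symm),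
    Category.assoc, Iso.hom_inv_id, Category.comp_id]

section mv
variable {B B' C C' : Type} [CommRing B] [CommRing B'] [CommRing C]
  [CommRing C'] [Algebra B B'] [Algebra B C] [Algebra B C'] [Algebra B' C'] [IsScalarTower B B' C']
  (p : B) [IsLocalization.Away p C] [IsLocalization.Away (algebraMap B B' p) C']
  (ψ : C →ₐ[B] C') (u : Spec (.of B) ⟶ X) {F : Sh (Scheme.etaleTopology.over X)}

/-- Mayer-Vietoris for `B ⟶ B[1/p] × B'`. -/
theorem mv (hE : Exs B B' (Ideal.span {p})) (hF : LFP F.obj) :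
    ∃ d : ∀ q, H (ob u C') F q →+ H (ob u B) F (q + 1),
      (∀ q y, d q y = 0 ↔ ∃ x b, y = res (hm u ψ) F q x + res (hm u (up B B' C')) F q b) ∧
      (∀ q z, (∃ y, d q y = z) ↔
        res (hm u (up B B C)) F (q + 1) z = 0 ∧ res (hm u (up B B B')) F (q + 1) z = 0) ∧
      ∀ q x b, res (hm u ψ) F q x = res (hm u (up B B' C')) F q b →
        ∃ z, res (hm u (up B B C)) F q z = x ∧ res (hm u (up B B B')) F q z = b := by
  let := ψ.toRingHom.toAlgebra
  have : IsScalarTower B C C' := .of_algebraMap_eq fun b => (ψ.commutes b).symm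
  have : IsLocalization (Algebra.algebraMapSubmonoid B' (Submonoid.powers p)) C' := by
    rwa [Algebra.algebraMapSubmonoid_powers]
  have : Algebra.IsPushout B C B' C' :=
    (Algebra.isPushout_of_isLocalization (Submonoid.powers p) C B' C').symm
  have hp := isPullback_hm u B C B' C'
  have : IsOpenImmersion (hm u (up B B C)).left := IsOpenImmersion.of_isLocalization p
  have : IsOpenImmersion (hm u (up B B' C')).left :=
    IsOpenImmersion.of_isLocalization (algebraMap B B' p)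
  have : CompactSpace (ob u C).left := inferInstanceAs (CompactSpace (PrimeSpectrum C))
  have := exc_mono (hm u (up B B C))
  have := exc_mono (hm u (up B B' C'))
  have hx : ExtBij.{1} (pairMap (Scheme.etaleTopology.over X) _ _ hp.w).τ₃ F := by
    refine exc hE.1 (Over.w (hm u (up B B B'))) hp (fun k _ _ y hy => ?_) hF
    obtain ⟨φ, rfl⟩ := Spec.map_surjective y
    obtain ⟨χ, e, he⟩ := hE.2 k φ.hom (by
      rw [Ideal.span_singleton_le_iff_mem]
      by_contra h0
      refine hy (closedPoint k) ((Set.ext_iff.1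
        (PrimeSpectrum.localization_away_comap_range C p) _).2 fun h1 => h0 ?_)
      change φ.hom p ∈ maximalIdeal k at h1
      rwa [maximalIdeal_eq_bot] at h1)
    refine ⟨spc χ, (Spec.map_comp _ _).symm.trans (congrArg Spec.map (CommRingCat.hom_ext e)),
      fun w hw => ?_⟩
    obtain ⟨w, rfl⟩ := Spec.map_surjective w
    exact congrArg Spec.map (CommRingCat.hom_ext (he w.hom (congrArg CommRingCat.Hom.hom
      (Spec.map_injective ((Spec.map_comp _ _).trans hw)))))
  let φ := pairMap (Scheme.etaleTopology.over X) _ _ hp.w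
  exact les_mv (con_les (pair_exact _ _) F) (con_les (pair_exact _ _) F) (pre φ.τ₃ F) (pre φ.τ₂ F)
    (pre φ.τ₁ F) (fun _ x => by rw [pre_pre, pre_pre, φ.comm₂₃])
    (fun _ x => by rw [pre_pre, pre_pre, φ.comm₁₂])
    (fun _ x => (pre_dr (pair_exact _ _) (pair_exact _ _) φ x).symm) hx

end mv

end Pool.Agent.MP_855f4c_ag.V

end

end

section

section

/-! Row PAT: from the affine line to the punctured germ at infinity. -/

set_option autoImplicit false
set_option backward.isDefEq.respectTransparency false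

open CategoryTheory Limits Abelian Opposite AlgebraicGeometry Polynomial IsLocalRing Function

namespace Pool.Agent.MP_855f4c_ag.E.AV

open E3 E4

namespace PAT

theorem ev0 {R T : Type} [CommRing R] [CommRing T] (f : R[X] →+* T) (hf : f X = 0) (p : R[X]) :
    f (C (p.eval 0)) = f p := by
  conv_rhs => rw [← divX_mul_X_add p, map_add, map_mul, hf, mul_zero, zero_add,
    coeff_zero_eq_eval_zero]

/-- The zero section of a germ. -/
theorem germ_sec {R O : Type} [CommRing R] [SHL R] [CommRing O] [Algebra R[X] O] (h : Germ R O) :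
    ∃ s : O →+* R, (∀ p, s (algebraMap R[X] O p) = p.eval 0) ∧
      ∀ x, algebraMap R[X] O (C (s x)) - x ∈ Ideal.span {algebraMap R[X] O X} := by
  have := h.shl
  let I : Ideal O := Ideal.span {algebraMap R[X] O X}
  have hI : I ≤ maximalIdeal O := (Ideal.span_singleton_le_iff_mem _).2 h.orig
  let _ : Algebra R[X] R := (evalRingHom 0).toAlgebra
  let K := ResidueField O
  let r : R →ₐ[R[X]] K :=
    { toRingHom := ((residue O).comp (algebraMap R[X] O)).comp C
      commutes' := ev0 ((residue O).comp (algebraMap R[X] O))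
        ((residue_eq_zero_iff _).2 h.orig) }
  have : IsLocalHom r := ⟨fun x hx => by
    by_contra hn
    exact h.loc x hn (isUnit_of_map_unit (residue O) _ hx)⟩
  obtain ⟨ψ, hψ⟩ := SHL.lift h.ind r (IsScalarTower.toAlgHom R[X] O K)
  let g : O →ₐ[R[X]] O ⧸ I :=
    AlgHom.comp
      { toRingHom := ((Ideal.Quotient.mk I).comp (algebraMap R[X] O)).comp C
        commutes' := ev0 ((Ideal.Quotient.mk I).comp (algebraMap R[X] O))
          (Ideal.Quotient.eq_zero_iff_mem.2 (Ideal.mem_span_singleton_self _)) } ψ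
  let ρ : O ⧸ I →+* K := Ideal.Quotient.lift I (residue O) fun x hx =>
    (residue_eq_zero_iff _).2 (hI hx)
  have : IsLocalHom ρ := ⟨fun x hx => by
    obtain ⟨x, rfl⟩ := Ideal.Quotient.mk_surjective x
    exact (isUnit_of_map_unit (residue O) x hx).map _⟩
  have h1 : g = Ideal.Quotient.mkₐ R[X] I := h.ind.ext ρ fun x => congr($hψ x)
  exact ⟨ψ.toRingHom, ψ.commutes, fun x => Ideal.Quotient.eq.1 congr($h1 x)⟩

theorem germ_exs {R O : Type} [CommRing R] [SHL R] [CommRing O] [Algebra R[X] O] (h : Germ R O) :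
    T.Exs R[X] O (Ideal.span {X}) := by
  obtain ⟨s, h1, h2⟩ := germ_sec h
  refine ⟨h.ind, fun k _ _ ψ hψ => ?_⟩
  have h0 : ψ X = 0 := hψ (Ideal.mem_span_singleton_self _)
  refine ⟨(ψ.comp C).comp s, RingHom.ext fun p => ?_, fun w hw => RingHom.ext fun x => ?_⟩
  · exact (congrArg (fun a => ψ (C a)) (h1 p)).trans (ev0 ψ h0 p)
  · subst hw
    obtain ⟨c, hc⟩ := Ideal.mem_span_singleton'.1 (h2 x)
    have h3 : w (algebraMap R[X] O (C (s x)) - x) = 0 := by
      rw [← hc, map_mul, show w (algebraMap R[X] O X) = 0 from h0, mul_zero]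
    exact (sub_eq_zero.1 ((map_sub w _ _).symm.trans h3)).symm

variable {l : ℕ}

/-- Extension by zero along an open immersion. -/
theorem ext0 {Y Z : Scheme.{0}} (u : Z ⟶ Y) [IsOpenImmersion u] {G : SH Z} (hG : Tc l G) :
    ∃ K : SH Y, Tc l K ∧ (∀ (k : Type) [Field k] [IsAlgClosed k] (x : Spec (.of k) ⟶ Y),
      x (closedPoint k) ∉ Set.range u → S0 K x) ∧
      Nonempty ((pb (J := Scheme.etaleTopology) u).obj K ≅ G) := by
  have := obj_counit u G
  let P : SH Y := (pf (J := Scheme.etaleTopology) u).obj G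
  have h1 : Tc l ((pb (J := Scheme.etaleTopology) (u.isoOpensRange.inv ≫ u)).obj P) :=
    ((hG.of_iso (asIso ((pbpf u).counit.app G)).symm).pb u.isoOpensRange.inv).of_iso
      ((Scheme.etaleTopology.overMapPullbackComp Ab.{1} u.isoOpensRange.inv u).app P)
  rw [Scheme.Hom.isoOpensRange_inv_comp] at h1
  have h2 : IsIso ((pb (J := Scheme.etaleTopology) u).map ((ezι u.opensRange).app P)) :=
    Ez.isIso_of_bij _ fun T => ezι_bij _ P fun t => ⟨T.hom t, (Scheme.Hom.comp_apply _ _ _).symm⟩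
  exact ⟨(ez u.opensRange).obj P, ⟨⟨ez_LFP _ h1.1.1, ez_Rig _ h1.1.2⟩, ez_Tor _ h1.2⟩,
    fun k _ _ x hx s => ez_shl_zero _ P x hx s,
    ⟨asIso ((pb (J := Scheme.etaleTopology) u).map ((ezι u.opensRange).app P)) ≪≫
      asIso ((pbpf u).counit.app G)⟩⟩

theorem z0_pb {X Y T : Scheme.{0}} (u : Y ⟶ X) (a : T ⟶ Y) (F : SH X) (q : ℕ) :
    Z0 ((pb (J := Scheme.etaleTopology) u).obj F) a q ↔ Z0 F (a ≫ u) q :=
  ⟨fun h z => (slH_bij u (Over.mk a) F q).1 ((h _).trans (map_zero _).symm), fun h z => by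
    obtain ⟨z, rfl⟩ := (slH_bij u (Over.mk a) F q).2 z
    rw [h z, map_zero]⟩

theorem z0_iso {X T : Scheme.{0}} {F G : SH X} (e : F ≅ G) (a : T ⟶ X) (q : ℕ) (h : Z0 F a q) :
    Z0 G a q := fun z => by
  obtain ⟨z, rfl⟩ := (post_bij _ e.hom q).2 z
  rw [h z, map_zero]

theorem s0_iso {X T : Scheme.{0}} {F G : SH X} (e : F ≅ G) (a : T ⟶ X) (h : S0 G a) : S0 F a :=
  fun _ => (((sheafToPresheaf _ _).mapIso e).app (op (Over.mk a))).addCommGroupIsoToAddEquiv.injective
    ((h _).trans (map_zero _).symm)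

/-- No cohomology on the projective line without stalks on the closed fibre. -/
theorem z0_pl [Fact l.Prime] {R : Type} [CommRing R] [SHL R] (hl : IsUnit (l : R))
    (L : PL (Spec (.of R))) {G : SH L.P} (hG : Tc l G)
    (h : ∀ (k : Type) [Field k] [IsAlgClosed k] (x : Spec (.of k) ⟶ L.P),
      (L.π (x (closedPoint k))).asIdeal = maximalIdeal R → S0 G x) (q : ℕ) : Z0 G (𝟙 _) q := by
  have hj := PB.PBC1.fib_bc (IsPullback.of_hasPullback L.π (spc (residue R)))
  refine fun z => (PB.pbc0 (PB.cov PB.wex) PB.relP PB.nint PB.npt PB.nclo R l hl L _ _ hj G hG q).1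
    ((V.zero_pts hG.1 (pullback.fst L.π (spc (residue R)))
      (((Linv.spec hl).of_hom L.π).of_hom (pullback.fst L.π (spc (residue R))))
      (fun k _ _ y => h k _ ?_) q _).trans (map_zero _).symm)
  exact (hj.2 _).1 ⟨_, (Scheme.Hom.comp_apply _ _ _).symm⟩

end PAT

open PAT

theorem pat : PAT_s := by
  intro l _ R O D _ _ _ _ _ _ _ θ Y a F hl hO h1 h2 hF h0 q hq
  let L := PL.std (Spec (.of R))
  obtain ⟨G, hG, hz, ⟨e⟩⟩ := ext0 L.c₂ (hF.pb a)
  have tr {T : Scheme.{0}} (b : T ⟶ Spec (.of R[X])) : Z0 G (b ≫ L.c₂) q ↔ Z0 F (b ≫ a) q :=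
    (PAT.z0_pb _ _ _ _).symm.trans (Iff.trans ⟨z0_iso e _ _, z0_iso e.symm _ _⟩ (PAT.z0_pb _ _ _ _))
  have hP : Z0 G (𝟙 _) q := z0_pl hl L hG (fun k _ _ x hx => by
    by_cases hc : x (closedPoint k) ∈ Set.range L.c₂
    · obtain ⟨y, rfl⟩ : ∃ y, y ≫ L.c₂ = x := ⟨IsOpenImmersion.lift L.c₂ x (by
        rintro _ ⟨t, rfl⟩
        rwa [Subsingleton.elim (α := PrimeSpectrum k) t (closedPoint k)]),
        IsOpenImmersion.lift_fac _ _ _⟩
      obtain ⟨χ, rfl⟩ := Spec.map_surjective y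
      refine s0_iso e _ (h0 k χ.hom fun r hr => ?_)
      rw [← hx, ← Scheme.Hom.comp_apply, Category.assoc, L.pnt_π] at hr
      change χ.hom (C r) ∈ maximalIdeal k at hr
      rwa [maximalIdeal_eq_bot] at hr
    · exact hz k x hc) q
  let B := Localization.Away (X : R[X])
  let _ : Algebra R[X] D := ((algebraMap O D).comp (algebraMap R[X] O)).toAlgebra
  have : IsScalarTower R[X] O D := .of_algebraMap_eq fun _ => rfl
  have hu : IsUnit (algebraMap R[X] D X) := .of_mul_eq_one_right _ h2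
  let ψ : B →ₐ[R[X]] D := ⟨IsLocalization.Away.lift X hu, IsLocalization.Away.lift_eq X hu⟩
  let τ : R[X] →+* B := eval₂RingHom ((algebraMap R[X] B).comp C)
    (IsLocalization.Away.invSelf (X : R[X]))
  have t1 : algebraMap R[X] B X * τ X = 1 := by
    rw [coe_eval₂RingHom, eval₂_X]; exact IsLocalization.Away.mul_invSelf _
  have hp := L.isPullback_away τ (eval₂RingHom_comp_C _ _) t1
  have t2 : (ψ : B →+* D).comp τ = θ := Polynomial.ringHom_ext (fun r => by
      rw [h1, RingHom.comp_apply, coe_eval₂RingHom, eval₂_C]; exact ψ.commutes _)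
    (hu.mul_left_cancel (by
      rw [mul_comm _ (θ X), show θ X * algebraMap R[X] D X = 1 from h2, ← ψ.commutes]
      exact (map_mul ψ _ _).symm.trans ((congrArg ψ t1).trans (map_one ψ))))
  have hD : Z0 G (spc (algebraMap R[X] D) ≫ L.c₁) q := by
    have := (tr _).2 hq
    rwa [← t2, spc, CommRingCat.ofHom_comp, Spec.map_comp, Category.assoc, ← hp.w,
      ← Category.assoc, ← Spec.map_comp, ← CommRingCat.ofHom_comp, ψ.comp_algebraMap] at this
  obtain ⟨-, -, -, hg⟩ := V.mv (C' := D) X ψ L.c₁ (germ_exs hO) hG.1.1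
  rw [← Category.id_comp a, ← tr, Category.id_comp]
  intro x
  let g : ob L.c₁ B ⟶ Over.mk L.c₂ := Over.homMk (spc τ) hp.w.symm
  obtain ⟨z, hz, -⟩ := hg q (res g G q x) 0 ((hD _).trans (map_zero _).symm)
  have : IsIso (spc (algebraMap R[X] R[X])) := T.GG.spc_iso _ bijective_id
  let i₁ : ob L.c₁ R[X] ⟶ Over.mk (𝟙 L.P) := Over.homMk (spc (algebraMap R[X] R[X]) ≫ L.c₁)
  let i₂ : Over.mk L.c₂ ⟶ Over.mk (𝟙 L.P) := Over.homMk L.c₂
  have e0 : spc (algebraMap R[X] R[X]) = 𝟙 _ := Spec.map_id _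
  have hs : IsPullback (hm L.c₁ (up R[X] R[X] B)) g i₁ i₂ :=
    IsPullback.of_map_of_faithful (Over.forget _) (by
      change IsPullback (spc (algebraMap R[X] B)) (spc τ) (spc (algebraMap R[X] R[X]) ≫ L.c₁) L.c₂
      rwa [e0, Category.id_comp])
  have := mv_les (@mv_open _ _ _ _ _ _ _ _ _ hs
    (inferInstanceAs (IsOpenImmersion (spc (algebraMap R[X] R[X]) ≫ L.c₁)))
    (inferInstanceAs (IsOpenImmersion L.c₂)) fun t => by
      change t ∈ Set.range (spc (algebraMap R[X] R[X]) ≫ L.c₁) ∨ t ∈ Set.range L.c₂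
      rw [e0, Category.id_comp]
      exact L.cover t) G
  obtain ⟨w, hw⟩ := (this.e₂ q (z, x)).1 (by
    change res _ G q z + -(res g G q x) = 0
    rw [hz, add_neg_cancel])
  rw [hP w, map_zero] at hw
  exact (congrArg Prod.snd hw).symm

end Pool.Agent.MP_855f4c_ag.E.AV

end

end

section

/-! h67a section AV, row SPL: splitting off a closed subscheme. -/

set_option autoImplicit false
set_option backward.isDefEq.respectTransparency false

open CategoryTheory Limits Abelian Opposite AlgebraicGeometry Function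

namespace Pool.Agent.MP_855f4c_ag.E.AV

open E3 E4 T

namespace SPL

lemma sq {A A' A'' : Type} [CommRing A] [CommRing A'] [CommRing A''] (I : Ideal A) (α : A →+* A')
    (β : A' →+* A'') (hβ : Surjective β) (hk : RingHom.ker β = I.map α) (γ : A ⧸ I →+* A'')
    (w : γ.comp (Ideal.Quotient.mk I) = β.comp α) :
    IsPullback (spc β) (spc γ) (spc α) (spc (Ideal.Quotient.mk I)) := by
  have k (s : PushoutCocone (CommRingCat.ofHom α) (CommRingCat.ofHom (Ideal.Quotient.mk I))) :
      RingHom.ker β ≤ RingHom.ker s.inl.hom := by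
    rw [hk, Ideal.map_le_iff_le_comap]
    intro x hx
    refine (congrArg (fun f => f.hom x) s.condition).trans ?_
    change s.inr.hom (Ideal.Quotient.mk I x) = 0
    rw [Ideal.Quotient.eq_zero_iff_mem.2 hx, map_zero]
  refine isPullback_SpecMap_of_isPushout _ _ _ _ ⟨⟨CommRingCat.hom_ext w.symm⟩,
    ⟨PushoutCocone.IsColimit.mk _
      (fun s => CommRingCat.ofHom (β.liftOfSurjective hβ ⟨s.inl.hom, k s⟩))
      (fun s => CommRingCat.hom_ext (β.liftOfSurjective_comp hβ ⟨s.inl.hom, k s⟩)) (fun s => ?_)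
      fun s m h _ => ?_⟩⟩
  · refine CommRingCat.hom_ext (Ideal.Quotient.ringHom_ext (RingHom.ext fun x => ?_))
    refine (congrArg (β.liftOfSurjective hβ ⟨s.inl.hom, k s⟩) (RingHom.congr_fun w x)).trans ?_
    exact (β.liftOfSurjective_comp_apply hβ ⟨s.inl.hom, k s⟩ (α x)).trans
      (congrArg (fun f => f.hom x) s.condition)
  · refine CommRingCat.hom_ext (RingHom.ext fun y => ?_)
    obtain ⟨x, rfl⟩ := hβ y
    exact (congrArg (fun f => f.hom x) h).trans
      (β.liftOfSurjective_comp_apply hβ ⟨s.inl.hom, k s⟩ x).symm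

lemma zb {M N : Type*} [AddCommGroup M] [AddCommGroup N] {f : M →+ N} (h : Surjective f)
    (h0 : ∀ x : M, x = 0) (y : N) : y = 0 := by
  obtain ⟨x, rfl⟩ := h y
  rw [h0 x, map_zero]

end SPL

open SPL in
theorem spl : SPL_s := by
  intro l _ X A _ a F I hl hF
  have hG := hF.pb a
  refine ⟨(ez (opI I)).obj ((pbe a).obj F),
    ⟨CLZ.ez_cc hG.1, Tor.of_mono ((ezι _).app _) hG.2⟩, fun κ _ _ χ h s => Subtype.ext ?_,
    fun A' A'' _ _ α β hβ hk q h1 h2 => ?_⟩
  · rcases h with h | h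
    · refine CLZ.van (O := opI I) (W := Over.mk (spc χ)) (fun t ht => ht fun x hx => ?_) s
      change χ x ∈ t.asIdeal
      rw [RingHom.mem_ker.1 (h hx)]
      exact zero_mem _
    · exact h s.1
  let i := spc (Ideal.Quotient.mk I)
  have : IsClosedImmersion i := .spec_of_surjective _ Ideal.Quotient.mk_surjective
  have hO (x : Spec (.of A)) : x ∈ opI I ↔ x ∉ Set.range i := not_congr (by
    have := range_comap_of_surjective _ _ (Ideal.Quotient.mk_surjective (I := I))
    rw [Ideal.mk_ker] at this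
    exact (Set.ext_iff.1 this x).symm)
  have := CLZ.iso i hO (Linv.spec hl) hG.1
  let γ : A ⧸ I →+* A'' := Ideal.Quotient.lift I (β.comp α) fun x hx =>
    hk.ge (Ideal.mem_map_of_mem α hx)
  have p := sq I α β hβ hk γ (RingHom.ext fun _ => rfl)
  let T : Over (Spec (.of A)) := Over.mk (spc α)
  let e : (Over.map a).obj ((Over.map i).obj ((Over.pullback i).obj T)) ⟶
      Over.mk (spc (β.comp α) ≫ a) := Over.homMk p.isoPullback.inv (by
    have : spc (β.comp α) = spc β ≫ spc α := by rw [← Spec.map_comp]; rfl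
    simp [this, T, i, pullback.condition_assoc])
  have : IsIso e := isIso_homMk _ (inferInstanceAs (IsIso p.isoPullback.inv))
  have h3 := zb (post_bij ((fr _).obj T) (inv (cokernel.desc _ _ (CLZ.w i (fun x => (hO x).1)
    ((pbe a).obj F)))) q).2 (zb (intH_bij i T _ q).2 (zb (slH_bij i _ _ q).2
      (zb (slH_bij a _ F q).2 (zb (pre_bij ((fr _).map e) F q).2 h2))))
  intro z
  refine (slH_bij a T F q).1 ?_
  obtain ⟨y, hy⟩ := Ext.covariant_sequence_exact₂ _ (ShortComplex.ShortExact.mk'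
    (ShortComplex.exact_cokernel ((ezι (opI I)).app ((pbe a).obj F))) inferInstance inferInstance)
    (slH a T F q z) (h3 _)
  rw [← hy, h1 y, Ext.zero_comp, map_zero]

end Pool.Agent.MP_855f4c_ag.E.AV

end

section

namespace Pool.Agent.MP_855f4c_ag.E.AV

/-- Artin vanishing from its base case. -/
theorem avB (hBC : Pool.Agent.MP_855f4c_ag.AV.BC_s) : AV_s :=
  av hBC ler ptA zer geo a1 spl pat big

end Pool.Agent.MP_855f4c_ag.E.AV

end

section

/-! h67a, row RUJ0: the cut. -/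

set_option autoImplicit false
set_option backward.isDefEq.respectTransparency false

open CategoryTheory Limits Opposite AlgebraicGeometry Function IsLocalRing
open scoped TensorProduct

namespace Pool.Agent.MP_855f4c_ag.LG

open E E3 E4 E.AV Pool.Agent.MP_855f4c_ag.T

/-- The Milnor fibres of `R[1/p]` at points of large transcendence degree. -/
def RAV_s : Prop := ∀ (l : ℕ) [Fact l.Prime] (V R C : Type) [CommRing V] [IsDomain V]
  [ValuationRing V] [CommRing R] [Algebra V R] [Algebra.FiniteType V R] [CommRing C] [Algebra R C]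
  (p : R) [IsLocalization.Away p C] (d : ℕ), VV l V →
    (∀ (κ : Type) [Field κ] (φ : R →+* κ), Big V (d + 1) φ → φ p = 0) →
    ∀ (X : Scheme.{0}) (a : Spec (.of C) ⟶ X) (F : SH X), Tc l F →
    ∀ (r b : ℕ), r + b = d + 1 → ∀ (κ : Type) [Field κ] [IsAlgClosed κ] (O : Type) [CommRing O]
      [SHL O] [Algebra R O] (ψ : O →+* κ) [IsLocalHom ψ], IndEt R O →
      Big V r (ψ.comp (algebraMap R O)) → Z0 F (spc (algebraMap C (C ⊗[R] O)) ≫ a) b

/-- Restriction to a henselian neighbourhood is onto in the top degree. -/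
def SURJ_s : Prop := ∀ (l : ℕ) [Fact l.Prime] (V R R₁ : Type) [CommRing V] [IsDomain V]
  [ValuationRing V] [CommRing R] [Algebra V R] [Algebra.FiniteType V R] [CommRing R₁]
  [Algebra R R₁] (J : Ideal R), VV l V → Exs R R₁ J → T.HP R₁ (J.map (algebraMap R R₁)) → J.FG →
    ∀ (G : SH (Spec (.of R))) (n : ℕ), Tc l G → Sup V (n + 1) G (𝟙 _) →
      Surjective (res (hm (𝟙 _) (up R R R₁)) G n)

/-- Relative Leray, with `G b = cart (R^b g_* F)`. -/
def LRS_s : Prop := ∀ (l : ℕ) [Fact l.Prime] (R C R₁ C₁ : Type) [CommRing R] [CommRing C]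
  [CommRing R₁] [CommRing C₁] [Algebra R C] [Algebra R R₁] [Algebra R C₁] [Algebra C C₁]
  [Algebra R₁ C₁] [IsScalarTower R C C₁] [IsScalarTower R R₁ C₁] [Algebra.IsPushout R C R₁ C₁]
  (X : Scheme.{0}) (a : Spec (.of C) ⟶ X) (F : SH X), IndEt R R₁ → Tc l F →
    ∃ G : ℕ → SH (Spec (.of R)), (∀ b, Tc l (G b)) ∧
      (∀ (b : ℕ) (κ : Type) [Field κ] [IsAlgClosed κ] (χ : R →+* κ),
        (∀ (O : Type) [CommRing O] [SHL O] [Algebra R O] (ψ : O →+* κ) [IsLocalHom ψ],
          IndEt R O → ψ.comp (algebraMap R O) = χ →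
            Z0 F (spc (algebraMap C (C ⊗[R] O)) ≫ a) b) → S0 (G b) (spc χ)) ∧
      ∀ n, (∀ i b, i + b = n → Surjective (res (hm (𝟙 _) (up R R R₁)) (G b) i)) →
        (∀ i b, i + b = n + 1 → Z0 (G b) (𝟙 _) i) → Surjective (res (hm a (up C C C₁)) F n)

/-- The Runge surjection for a henselian neighbourhood of any closed subset. -/
def RNJ_s : Prop := ∀ (l : ℕ) [Fact l.Prime] (V R R₁ C C₁ : Type) [CommRing V] [IsDomain V]
  [ValuationRing V] [CommRing R] [Algebra V R] [Algebra.FiniteType V R] [CommRing R₁] [CommRing C]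
  [CommRing C₁] [Algebra R R₁] [Algebra R C] [Algebra R C₁] [Algebra R₁ C₁] [IsScalarTower R R₁ C₁]
  (p : R) [IsLocalization.Away p C] [IsLocalization.Away (algebraMap R R₁ p) C₁]
  (ψ : C →ₐ[R] C₁) (J : Ideal R) (d : ℕ), VV l V → Exs R R₁ J →
    T.HP R₁ (J.map (algebraMap R R₁)) → J.FG →
    (∀ (κ : Type) [Field κ] (φ : R →+* κ), Big V (d + 1) φ → φ p = 0) →
    ∀ (X : Scheme.{0}) (u : Spec (.of R) ⟶ X) (F : SH X), Tc l F →
      Surjective (res (hm u ψ) F d)

end Pool.Agent.MP_855f4c_ag.LG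

end

section

/-! h67a row RAV: Milnor fibres at points of large transcendence degree. -/

set_option autoImplicit false
set_option backward.isDefEq.respectTransparency false

open CategoryTheory Limits Opposite AlgebraicGeometry Function
open scoped TensorProduct

namespace Pool.Agent.MP_855f4c_ag.LG

open E E3 E4 E.AV

theorem rav (hA : AV_s) (hP : PT_s) (hB : BIG_s) : RAV_s := by
  intro l _ V R C _ _ _ _ _ _ _ _ p _ d hV hd X a F hF r b e κ _ _ O _ _ _ ψ _ hO ⟨x, hx⟩
  let := ((algebraMap R C).comp (algebraMap V R)).toAlgebra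
  let := ((algebraMap R O).comp (algebraMap V R)).toAlgebra
  have : IsScalarTower V R C := .of_algebraMap_eq' rfl
  have : Algebra.FiniteType R C := IsLocalization.finiteType_of_monoid_fg (Submonoid.powers p) C
  have : Algebra.FiniteType V C := .trans (S := R) inferInstance inferInstance
  have hc (t : R) : (Algebra.TensorProduct.includeRight (R := R) (A := C)).toRingHom
      (algebraMap R O t) = algebraMap C (C ⊗[R] O) (algebraMap R C t) :=
    (Algebra.TensorProduct.includeRight (R := R) (A := C) (B := O)).commutes t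
  refine hP l V hV C (C ⊗[R] O) O κ ψ Algebra.TensorProduct.includeRight.toRingHom r b
    (fun i => algebraMap R O (x i)) (fun i => algebraMap R C (x i)) (hO.baseChange C)
    (fun v => hc _) (fun i => hc _) hx (fun V' _ _ _ h _ => hA l V' h b) X a F hF
    (fun k _ _ φ h => ?_) b le_rfl
  rw [add_comm, e] at h
  exact absurd (hd k _ (hB.1 V R C k (IsScalarTower.toAlgHom V R C) φ _
    (hB.2.2 R C k φ (.of_isLocalization (Submonoid.powers p))) h))
    ((IsLocalization.Away.algebraMap_isUnit p).map φ).ne_zero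

end Pool.Agent.MP_855f4c_ag.LG

end

section

/-! h67a, row RNJ: the Runge surjection for a henselian neighbourhood. -/

set_option autoImplicit false
set_option backward.isDefEq.respectTransparency false

open CategoryTheory Limits Opposite AlgebraicGeometry Function IsLocalRing
open scoped TensorProduct

namespace Pool.Agent.MP_855f4c_ag.LG

open E E3 E4 E.AV Pool.Agent.MP_855f4c_ag.T

theorem rnj_base {X : Scheme.{0}} {R : Type} [CommRing R] (u : Spec (.of R) ⟶ X) (C D : Type)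
    [CommRing C] [CommRing D] [Algebra R C] [Algebra C D] [Algebra R D] [IsScalarTower R C D]
    {F : SH X} {d : ℕ} (h : Surjective (res (hm (spc (algebraMap R C) ≫ u) (up C C D)) F d)) :
    Surjective (res (hm u (up R C D)) F d) := fun y => by
  obtain ⟨x, hx⟩ := h (res (SA.obIso u C D).hom F d y)
  refine ⟨res (SA.obIso u C C).inv F d x, (pre_bij ((fr _).map (SA.obIso u C D).hom) F d).1 ?_⟩
  have e : (SA.obIso u C D).hom ≫ hm u (up R C D) ≫ (SA.obIso u C C).inv = hm _ (up C C D) :=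
    Over.OverMorphism.ext ((Category.id_comp _).trans (Category.comp_id _))
  rw [← hx, pre_pre, pre_pre, ← Functor.map_comp, ← Functor.map_comp, Category.assoc, e]

theorem rnj (hA : AV_s) (hR : RAV_s) (hS : SURJ_s) (hL : LRS_s) : RNJ_s := by
  intro l _ V R R₁ C C₁ _ _ _ _ _ _ _ _ _ _ _ _ _ _ p _ _ ψ J d hV hE hH hJ hp X u F hF
  let := ψ.toRingHom.toAlgebra
  have : IsScalarTower R C C₁ := .of_algebraMap_eq fun b => (ψ.commutes b).symm
  have : IsLocalization (Algebra.algebraMapSubmonoid R₁ (Submonoid.powers p)) C₁ := by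
    rwa [Algebra.algebraMapSubmonoid_powers]
  have : Algebra.IsPushout R C R₁ C₁ :=
    (Algebra.isPushout_of_isLocalization (Submonoid.powers p) C R₁ C₁).symm
  obtain ⟨G, hG, hs, hn⟩ := hL l R C R₁ C₁ X (spc (algebraMap R C) ≫ u) F hE.1 hF
  have hb : ∀ i b, i + b = d + 1 → Sup V i (G b) (𝟙 _) := fun i b h κ _ _ φ hφ => by
    rw [Category.comp_id]
    exact hs b κ φ fun O _ _ _ χ _ hO e =>
      hR l V R C p d hV hp X _ F hF i b h κ O χ hO (by rwa [e])
  have h := hn d (fun i b h => hS l V R R₁ J hV hE hH hJ (G b) i (hG b)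
    (hb (i + 1) b (by omega))) fun i b h => hA l V hV i R _ _ (G b) (hG b) (hb i b h) i le_rfl
  exact rnj_base u C C₁ h

end Pool.Agent.MP_855f4c_ag.LG

end

section

/-! h67a row LRS: relative Leray. -/

set_option autoImplicit false
set_option backward.isDefEq.respectTransparency false

open CategoryTheory Limits Abelian Opposite AlgebraicGeometry Function
open scoped TensorProduct

namespace Pool.Agent.MP_855f4c_ag.LG

open E E3 E4 E.AV E.SA Pool.Agent.MP_855f4c_ag.T

namespace Lrs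

section
universe w v v' u u'
variable {A : Type u'} [Category.{v'} A] [Abelian A] {B : Type u} [Category.{v} B] [Abelian B]
  [HasExt.{w} A] [EnoughInjectives A] [HasExt.{w} B] {L : B ⥤ A} {P : A ⥤ B} (adj : L ⊣ P)
  [L.Additive] [PreservesFiniteLimits L] [PreservesFiniteColimits L] [P.Additive]
  {R : ℕ → A ⥤ B} (D : NDF P R) {X' X : B} (a : X' ⟶ X)

include D in
theorem rel (n : ℕ) (F : A)
    (hs : ∀ i b, i + (b + 1) = n → Surjective (pre.{w} a ((R (b + 1)).obj F) i))
    (hi : ∀ i b, i + (b + 1) = n + 1 → Injective (pre.{w} a ((R (b + 1)).obj F) i))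
    (h0 : Injective (pre.{w} a (P.obj F) (n + 1))) (y : Ext.{w} (L.obj X') F n) :
    ∃ x z, y = pre (L.map a) F n x + edge adj X' F n z := by
  induction n generalizing F with
  | zero =>
    obtain ⟨z, rfl⟩ := (edge_zero_bij adj X' F).2 y
    exact ⟨0, z, by rw [map_zero, zero_add]⟩
  | succ n ih =>
    obtain ⟨Z, g, j, h₁, h₂, hT, hI, hU, hg, hd⟩ := D.step adj (sus_ex F)
    obtain ⟨y, rfl⟩ := dl_surj _ (sus_ex F) n y
    have hZ : Injective (pre.{w} a Z (n + 1)) := fun s t e =>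
      (dl_bij X hT n).1 (h0 (by rw [pre_dl _ hT, pre_dl _ hT]; exact congrArg _ e))
    have sq (b i : ℕ) : pre.{w} a _ i ∘ post X (D.δ (sus_ex F) (b + 1)) i =
        post X' (D.δ (sus_ex F) (b + 1)) i ∘ pre a _ i := funext fun x => pre_post _ _ x
    obtain ⟨x, z, rfl⟩ := ih (sus F).X₃ (fun i b e => by
        have := D.δ_iso (sus_ex F) inferInstance b
        have h := (hs i (b + 1) (by omega)).comp (post_bij X (D.δ (sus_ex F) (b + 1)) i).2
        rw [sq] at h
        exact h.of_comp_left (post_bij _ _ _).1)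
      (fun i b e => by
        have := D.δ_iso (sus_ex F) inferInstance b
        have h := (hi i (b + 1) (by omega)).comp (post_bij X (D.δ (sus_ex F) (b + 1)) i).1
        rw [sq] at h
        exact h.of_comp)
      ((injective_iff_map_eq_zero _).2 fun x hx => by
        obtain ⟨s, rfl⟩ := ((cov_les X hU).e₂ _ x).1 (hi (n + 1) 0 (by omega) (by
          rw [map_zero]
          exact (pre_post _ _ x).trans (by rw [hx, map_zero])))
        obtain ⟨t, ht⟩ := ((cov_les X' hU).e₁ n (pre a Z _ s)).1 ((pre_post _ _ s).symm.trans hx)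
        obtain ⟨t, rfl⟩ := hs n 0 rfl t
        rw [← hZ ((pre_dl a hU t).trans ht)]
        exact ((cov_les X hU).e₁ n).apply_apply_eq_zero t) y
    obtain ⟨t, ht⟩ := hs n 0 rfl (post X' (D.π (sus_ex F)) n z)
    obtain ⟨s, rfl⟩ := ((cov_les X hU).e₃ n t).1 (hZ (by
      rw [map_zero]
      exact (pre_dl a hU t).trans ((congrArg _ ht).trans
        (((cov_les X' hU).e₃ n).apply_apply_eq_zero z))))
    obtain ⟨r, hr⟩ := ((cov_les X' hU).e₂ n (z - pre a _ n s)).1 (by
      rw [map_sub]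
      exact sub_eq_zero.2 (ht.symm.trans (pre_post _ _ s)))
    refine ⟨dl _ (sus_ex F) n (x + edge adj X _ n s), dl X' hT n r, ?_⟩
    rw [hd, pre_dl _ (sus_ex F), ← map_add, map_add (pre _ _ _), ← edge_pre,
      show post X' j n r = _ from hr, map_sub, add_assoc, add_sub_cancel]

include D adj in
theorem rel_surj (n : ℕ) (F : A)
    (hs : ∀ i b, i + b = n → Surjective (pre.{w} a ((R b).obj F) i))
    (hi : ∀ i b, i + b = n + 1 → ∀ y : Ext.{w} X ((R b).obj F) i, y = 0) :
    Surjective (pre.{w} (L.map a) F n) := fun y => by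
  obtain ⟨x, z, rfl⟩ := rel adj D a n F (fun i b => hs i _)
    (fun i b e s t _ => (hi i _ e s).trans (hi i _ e t).symm)
    (fun s t _ => (post_bij X (D.e.hom.app F) _).1 ((hi _ 0 rfl _).trans (hi _ 0 rfl _).symm)) y
  obtain ⟨t, ht⟩ := hs n 0 rfl (post X' (D.e.hom.app F) n z)
  obtain ⟨t, rfl⟩ := (post_bij X (D.e.hom.app F) n).2 t
  rw [pre_post] at ht
  exact ⟨x + edge adj X F n t, by
    rw [map_add, ← edge_pre, (post_bij X' (D.e.hom.app F) n).1 ht]⟩
end

section
universe v u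
attribute [local irreducible] Ext.comp Ext.mk₀ Ext.mapExactFunctor ShortComplex.ShortExact.extClass

theorem rel_resH {C D : Type u} [Category.{v} C] [Category.{v} D] {J : GrothendieckTopology C}
    (K : GrothendieckTopology D) {L : C ⥤ D} {G : D ⥤ C} (adj : L ⊣ G) [L.IsContinuous J K]
    [G.IsContinuous K J] [PreservesFiniteColimits (push K J L)] {T' T : D} (g : T' ⟶ T) (F : Sh J)
    (n : ℕ) (hs : ∀ i b, i + b = n → Surjective (res g ((Rb J K G b).obj F) i))
    (hi : ∀ i b, i + b = n + 1 → ∀ y : H T ((Rb J K G b).obj F) i, y = 0) :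
    Surjective (res (G.map g) F n) := fun y => by
  obtain ⟨y, rfl⟩ := (pre_bij (frPb J K adj T') F n).2 y
  obtain ⟨x, rfl⟩ := rel_surj (padj J K adj) (rbNDF J K G) ((fr K).map g) n F hs hi y
  refine ⟨pre (frPb J K adj T) F n x, ?_⟩
  rw [pre_pre, pre_pre, frPb_nat]

theorem rel_res {X Y : Scheme.{0}} (f : X ⟶ Y) {T' T : Over Y} (g : T' ⟶ T) (F : SH X) (n : ℕ)
    (hs : ∀ i b, i + b = n → Surjective (res g ((Rq f b).obj F) i))
    (hi : ∀ i b, i + b = n + 1 → ∀ y : H T ((Rq f b).obj F) i, y = 0) :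
    Surjective (res ((Over.pullback f).map g) F n) :=
  rel_resH (Scheme.etaleTopology.over Y) (Over.mapPullbackAdj f) g F n hs hi
end

theorem sq_surj {X : Scheme.{0}} {S' S T' T : Over X} {g : S' ⟶ S} {k : T' ⟶ T} (e₁ : T' ⟶ S')
    [IsIso e₁] (e₀ : T ⟶ S) (e : e₁ ≫ g = k ≫ e₀) {F : SH X} {n : ℕ}
    (h : Surjective (res g F n)) : Surjective (res k F n) := fun y => by
  obtain ⟨y, rfl⟩ := (pre_bij ((fr _).map e₁) _ n).2 y
  obtain ⟨x, rfl⟩ := h y
  exact ⟨res e₀ F n x, by rw [pre_pre, pre_pre, ← Functor.map_comp, ← Functor.map_comp, e]⟩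

theorem ind_H {R R₁ : Type} [CommRing R] [CommRing R₁] [Algebra R R₁] (h : IndEt R R₁)
    {F G : SH (Spec (.of R))} (φ : F ⟶ G) (hF : LFP F.obj) (hG : LFP G.obj) (i : ℕ)
    (hb : ∀ U : Over (Spec (.of R)), Etale U.hom → Bijective (Hmap φ U i)) :
    Bijective (Hmap φ (ob (𝟙 _) R₁) i) :=
  ind_bij (𝟙 _) (lim_aff hF i) (lim_aff hG i) ((HPF i).map φ) (fun U _ => hb U) h

theorem cart_surj {R R₁ : Type} [CommRing R] [CommRing R₁] [Algebra R R₁] (h : IndEt R R₁)
    {G : SH (Spec (.of R))} (hG : LFP G.obj) (i : ℕ) :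
    Surjective (Hmap ((cartε _).app G) (ob (𝟙 _) R₁) i) :=
  (ind_H h _ (Cart.lfp G) hG i fun U h => have := h; cartH G U i).2

end Lrs

open Lrs in
theorem lrs : LRS_s := by
  intro l _ R C R₁ C₁ _ _ _ _ _ _ _ _ _ _ _ _ X a F hR hF
  have hF' := pb_tc a hF
  let g := spc (algebraMap R C)
  refine ⟨fun b => (cart _).obj ((Rq g b).obj ((pb a).obj F)), fun b => cartRq_Tc g hF'.2 b,
    fun b κ _ _ χ h => ?_, fun n hs hi => V.surj_pb a _ n ?_⟩
  · have key := cartRq_pt_zero (𝟙 _) g hF'.1.1 b χ fun O _ _ _ φ _ h1 h2 => by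
      have sq := (isPullback_SpecMap_of_isPushout _ _ _ _
        (CommRingCat.isPushout_tensorProduct R C O)).flip
      have sq' : IsPullback (spc (Algebra.TensorProduct.includeRight (R := R) (A := C)).toRingHom)
          (spc (algebraMap C (C ⊗[R] O))) (spc (algebraMap R O) ≫ 𝟙 _) g := by
        rw [Category.comp_id]
        exact sq
      exact (z0_pb a F (fbr g (spc (algebraMap R O) ≫ 𝟙 _)) sq'.isoPullback.inv
        (by rw [← Category.assoc]; exact congrArg (· ≫ a) sq'.isoPullback_inv_snd) b).1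
        (h O φ h1 h2)
    rw [Category.comp_id] at key
    exact key
  · have sq : IsPullback (spc (algebraMap R₁ C₁)) (spc (algebraMap C C₁))
        (spc (algebraMap R R₁) ≫ 𝟙 _) g := by
      rw [Category.comp_id]
      exact (isPullback_SpecMap_of_isPushout _ _ _ _
        (CommRingCat.isPushout_of_isPushout R C R₁ C₁)).flip
    let e₁ : ob (𝟙 _) C₁ ⟶ (Over.pullback g).obj (ob (𝟙 _) R₁) :=
      Over.homMk sq.isoPullback.hom (sq.isoPullback_hom_snd.trans (Category.comp_id _).symm)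
    have : IsIso ((Over.forget _).map e₁) := sq.isoPullback.isIso_hom
    have := isIso_of_reflects_iso e₁ (Over.forget _)
    have : IsIso (spc (algebraMap R R)) := GG.spc_iso _ bijective_id
    have : IsIso (ob (𝟙 (Spec (.of R))) R).hom := (inferInstance : IsIso (spc (algebraMap R R) ≫ 𝟙 _))
    have : IsIso ((Over.pullback g).obj (ob (𝟙 _) R)).hom :=
      (inferInstance : IsIso (pullback.snd (ob (𝟙 _) R).hom g))
    let e₀ : ob (𝟙 _) C ⟶ (Over.pullback g).obj (ob (𝟙 _) R) :=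
      Over.homMk ((ob (𝟙 _) C).hom ≫ inv ((Over.pullback g).obj (ob (𝟙 _) R)).hom) (by simp)
    have e : e₁ ≫ (Over.pullback g).map (hm (𝟙 _) (up R R R₁)) = hm (𝟙 _) (up C C C₁) ≫ e₀ :=
      Over.OverMorphism.ext ((cancel_mono ((Over.pullback g).obj (ob (𝟙 _) R)).hom).1
        ((Over.w _).trans (Over.w _).symm))
    refine sq_surj e₁ e₀ e (rel_res g _ _ n (fun i b h z => ?_)
      fun i b h => cartH_zero fun z => ?_)
    · obtain ⟨z, rfl⟩ := cart_surj hR (Rq_LFP g hF'.1.1 b) i z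
      obtain ⟨z, rfl⟩ := hs i b h z
      exact ⟨_, (Hmap_res _ _ i z).symm⟩
    · let k : ob (𝟙 _) R ≅ top (Spec (.of R)) := Over.isoMk (asIso (spc (algebraMap R R))) rfl
      rw [← res_iso k _ z, hi i b h (res k.inv _ _ _), map_zero]

end Pool.Agent.MP_855f4c_ag.LG

end

section

section

/-! Row SURJ: restriction to a henselian neighbourhood in the top degree. -/

set_option autoImplicit false
set_option backward.isDefEq.respectTransparency false

open CategoryTheory Limits Abelian Opposite AlgebraicGeometry Function IsLocalRing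

namespace Pool.Agent.MP_855f4c_ag.LG

open E E3 E4 E.SA E.AV Pool.Agent.MP_855f4c_ag.T Pool.Agent.MP_855f4c_ag.T.GG

theorem surj (hA : AV_s) : SURJ_s := by
  intro l _ V R R₁ _ _ _ _ _ _ _ _ J hV hE hH hJ G n hG hS b
  have hl : IsUnit (l : R) := by simpa using hV.unit.map (algebraMap V R)
  have hl₁ : IsUnit (l : R₁) := by simpa using hl.map (algebraMap R R₁)
  let U : (Spec (.of R)).Opens := opI J
  have hU := Pool.Agent.MP_855f4c_ag.V.ez_tc U hG
  have e0 : spc (algebraMap R R) = 𝟙 _ := Spec.map_id _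
  let W : Over (Spec (.of R)) := Over.mk U.ι
  let u : W ⟶ ob (𝟙 _) R := Over.homMk U.ι (by
    change U.ι ≫ spc (algebraMap R R) ≫ 𝟙 _ = U.ι
    rw [e0, Category.comp_id, Category.comp_id])
  have hp := IsPullback.of_hasPullback (hm (𝟙 _) (up R R R₁)) u
  have : IsOpenImmersion u.left := inferInstanceAs (IsOpenImmersion U.ι)
  have : CompactSpace W.left := isCompact_iff_compactSpace.1 (Exce.opI_compact hJ)
  have := exc_mono u
  let φ := pairMap (Scheme.etaleTopology.over _) _ _ hp.w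
  have mv (F : SH (Spec (.of R))) (hF : LFP F.obj) :=
    Pool.Agent.MP_855f4c_ag.V.les_mv (con_les (pair_exact _ _) F) (con_les (pair_exact _ _) F)
      (pre φ.τ₃ F) (pre φ.τ₂ F) (pre φ.τ₁ F) (fun _ x => by rw [pre_pre, pre_pre, φ.comm₂₃])
      (fun _ x => by rw [pre_pre, pre_pre, φ.comm₁₂])
      (fun _ x => (pre_dr (pair_exact _ _) (pair_exact _ _) φ x).symm)
      (exc hE.1 (Over.w (hm (𝟙 _) (up R R R₁))) hp (fun k _ _ y hy => by
        obtain ⟨χ, rfl⟩ := Spec.map_surjective y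
        obtain ⟨ψ, h1, h2⟩ := hE.2 k χ.hom fun x hx => by
          have : χ.hom x ∈ maximalIdeal k :=
            not_not.1 (fun h => hy (closedPoint k) ⟨⟨_, h⟩, rfl⟩) hx
          rwa [maximalIdeal_eq_bot] at this
        refine ⟨spc ψ, (Spec.map_comp _ _).symm.trans (congrArg Spec.map (CommRingCat.hom_ext h1)),
          fun w hw => ?_⟩
        obtain ⟨w, rfl⟩ := Spec.map_surjective w
        exact congrArg Spec.map (CommRingCat.hom_ext (h2 w.hom (congrArg CommRingCat.Hom.hom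
          (Spec.map_injective ((Spec.map_comp _ _).trans hw)))))) hF)
  obtain ⟨-, -, -, hg⟩ := mv G hG.1.1
  obtain ⟨d, hd, -⟩ := mv _ hU.1.1
  obtain ⟨y, hy⟩ := (Pool.Agent.MP_855f4c_ag.V.post_pts hU.1 hG.1 ((ezι U).app G)
    (pullback (hm (𝟙 _) (up R R R₁)) u).hom
    ((Linv.spec hl).of_hom (pullback (hm (𝟙 _) (up R R R₁)) u).hom) (fun k _ _ y =>
      ezι_bij U G fun t => by
        change (y ≫ _) t ∈ U
        rw [← Over.w (pullback.snd (hm (𝟙 _) (up R R R₁)) u), ← Category.assoc,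
          Scheme.Hom.comp_apply]
        exact Subtype.property _) n).2 (res (pullback.fst (hm (𝟙 _) (up R R R₁)) u) G n b)
  have hz : Sup V (n + 1) ((ez U).obj G) (spc (algebraMap R R) ≫ 𝟙 _) := fun k _ _ χ h => by
    rw [e0, Category.id_comp]
    intro s
    by_cases h1 : (spc χ ≫ 𝟙 (Spec (.of R))) (closedPoint k) ∈ U
    · exact (ezι_bij U G (T := Over.mk (spc χ ≫ 𝟙 _)) fun t => by
        rwa [Subsingleton.elim (α := PrimeSpectrum k) t (closedPoint k)]).1
        ((hS k χ h _).trans (map_zero _).symm)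
    · exact ez_shl_zero U _ _ h1 s
  obtain ⟨x, c, rfl⟩ := (hd n y).1 (hA l V hV (n + 1) R _ _ _ hU hz _ le_rfl _)
  have hc : c = 0 := by
    let I := J.map (algebraMap R R₁)
    have h1 := (hs_hm _ _).1 (gab_of PB.affv_final l _ R₁ (R₁ ⧸ I) (spc (algebraMap R R₁) ≫ 𝟙 _) _
      hl₁ Ideal.Quotient.mk_surjective (by rwa [Ideal.Quotient.algebraMap_eq, Ideal.mk_ker]) hU)
    refine (h1 n).1 ((Pool.Agent.MP_855f4c_ag.V.zero_pts hU.1 _
      (Linv.spec (by simpa using hl₁.map (Ideal.Quotient.mk I))) (fun k _ _ y => ?_) n _).trans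
      (map_zero _).symm)
    obtain ⟨χ, rfl⟩ := Spec.map_surjective y
    refine ez_shl_zero U _ _ fun h1 => h1 fun a ha => ?_
    change χ.hom (Ideal.Quotient.mk I (algebraMap R R₁ a)) ∈ maximalIdeal k
    rw [Ideal.Quotient.eq_zero_iff_mem.2 (Ideal.mem_map_of_mem _ ha), map_zero]
    exact zero_mem _
  rw [hc, map_zero, add_zero] at hy
  exact (hg n _ b ((pre_post _ _ x).trans hy)).imp fun _ h => h.2

end Pool.Agent.MP_855f4c_ag.LG

end

end
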