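import Pool.Agent.MP_855f4c_ag.VC.Vh
import Pool.Agent.MP_855f4c_ag.VC.Vf

set_option linter.all false

section

/-! h67a row FINJ: the final statement from the rows. -/

set_option autoImplicit false
set_option backward.isDefEq.respectTransparency false

open CategoryTheory Limits Opposite AlgebraicGeometry Function IsLocalRing
open scoped TensorProduct

namespace Pool.Agent.MP_855f4c_ag.LG

open E E3 Pool.Agent.MP_855f4c_ag.T Endr Algebra.TensorProduct

namespace Fnj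

lemma tp (R A B : Type) [CommRing R] [CommRing A] [CommRing B] [Algebra R A] [Algebra R B] :
    IsPullback (spc (algebraMap A (A ⊗[R] B))) (spc (includeRight : B →ₐ[R] A ⊗[R] B).toRingHom)
      (spc (algebraMap R A)) (spc (algebraMap R B)) :=
  isPullback_SpecMap_of_isPushout _ _ _ _ (CommRingCat.isPushout_tensorProduct R A B)

lemma sp2 {A B C : Type} [CommRing A] [CommRing B] [CommRing C] {f : A →+* B} {g : B →+* C}
    {h : A →+* C} (e : ∀ a, g (f a) = h a) : spc g ≫ spc f = spc h := by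
  rw [← Spec.map_comp, ← CommRingCat.ofHom_comp]
  exact congrArg (fun z => spc z) (RingHom.ext e)

lemma sp4 {A B B' C : Type} [CommRing A] [CommRing B] [CommRing B'] [CommRing C] {f : A →+* B}
    {g : B →+* C} {f' : A →+* B'} {g' : B' →+* C} (e : ∀ a, g (f a) = g' (f' a)) :
    spc g ≫ spc f = spc g' ≫ spc f' :=
  (sp2 (h := g.comp f) fun _ => rfl).trans (sp2 fun a => (e a).symm).symm

variable (O K Ω : Type) [CommRing O] [CommRing K] [CommRing Ω] [Algebra O K] [Algebra O Ω]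
  [Algebra K Ω] [IsScalarTower O K Ω] (C : Type) [CommRing C] [Algebra O C]

/-- Extension of scalars. -/
noncomputable def up : K ⊗[O] C →+* Ω ⊗[O] C :=
  (Algebra.TensorProduct.map (IsScalarTower.toAlgHom O K Ω) (AlgHom.id O C)).toRingHom

lemma up_l : spc (up O K Ω C) ≫ spc (algebraMap K (K ⊗[O] C)) =
    spc (algebraMap Ω (Ω ⊗[O] C)) ≫ spc (algebraMap K Ω) :=
  sp4 fun a => by simp [up]

lemma up_r : spc (up O K Ω C) ≫ spc (includeRight : C →ₐ[O] K ⊗[O] C).toRingHom =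
    spc (includeRight : C →ₐ[O] Ω ⊗[O] C).toRingHom := sp2 fun a => by simp [up]

lemma up_pb : IsPullback (spc (algebraMap Ω (Ω ⊗[O] C))) (spc (up O K Ω C)) (spc (algebraMap K Ω))
    (spc (algebraMap K (K ⊗[O] C))) := by
  refine IsPullback.of_bot ?_ (up_l O K Ω C).symm (tp O K C)
  rw [up_r, sp2 fun a => (IsScalarTower.algebraMap_apply O K Ω a).symm]
  exact tp O Ω C

variable {C} in
lemma up_tm {B : Type} [CommRing B] [Algebra O B] (ρ : C →ₐ[O] B) :
    spc (tm Ω ρ) ≫ spc (up O K Ω C) = spc (up O K Ω B) ≫ spc (tm K ρ) :=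
  sp4 fun a => by
    induction a using TensorProduct.induction_on with
    | zero => simp only [map_zero]
    | add x y hx hy => simp only [map_add, hx, hy]
    | tmul x y => simp [up]

variable {C} in
lemma tm_l {B : Type} [CommRing B] [Algebra O B] (ρ : C →ₐ[O] B) :
    spc (tm Ω ρ) ≫ spc (algebraMap Ω (Ω ⊗[O] C)) = spc (algebraMap Ω (Ω ⊗[O] B)) :=
  sp2 fun a => by simp

lemma away {O K : Type} [CommRing O] [IsDomain O] [IsDiscreteValuationRing O] [Field K]
    [Algebra O K] [IsFractionRing O K] {ϖ : O} (h : Irreducible ϖ) : IsLocalization.Away ϖ K := by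
  refine (IsLocalization.iff_of_le_of_exists_dvd (M := Submonoid.powers ϖ) (S := K) (nonZeroDivisors O)
    (powers_le_nonZeroDivisors_of_noZeroDivisors h.ne_zero) fun x hx => ?_).2 inferInstance
  obtain ⟨n, hn⟩ := IsDiscreteValuationRing.associated_pow_irreducible
    (nonZeroDivisors.ne_zero hx) h
  exact ⟨_, ⟨n, rfl⟩, hn.dvd⟩

/-- The geometric fibre: the rows over `Ω`. -/
lemma onto (hG : GY2_s) (hF : FINZ_s) (hL : LIM_s) (l : ℕ) [Fact l.Prime] {K Ω : Type} [Field K]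
    [Field Ω] [IsAlgClosed Ω] [CharZero Ω] [Algebra K Ω] {T D W₀ W U : Scheme.{0}}
    (F : T ⟶ Spec (.of K)) (d : ℕ) [SmoothOfRelativeDimension d F] [IsProper F]
    [GeometricallyIrreducible F] (σ : T ⟶ T) (hσ : σ ≫ F = F) (h2 : σ ≫ σ = 𝟙 T) (j : D ⟶ T)
    [IsClosedImmersion j] [Nonempty D] (hj : j ≫ σ = j) (c : W₀ ⟶ T) [IsOpenImmersion c]
    (hc : ∀ x, x ∈ Set.range c ↔ x ∉ Set.range j) (a : W ⟶ Spec (.of Ω)) (b : W ⟶ W₀)
    (sq : IsPullback a b (spc (algebraMap K Ω)) (c ≫ F)) (r₁ r₂ : U ⟶ W) (e₁ : r₁ ≫ a = r₂ ≫ a)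
    (e₂ : r₁ ≫ b ≫ c ≫ σ = r₂ ≫ b ≫ c) (i : ℕ) (hi : i < 2 * d)
    (hR : ∀ (m : ℕ) (y : HZ l m i U), ∃ z, pz l m i r₁ z = y ∧ pz l m i r₂ z = 0)
    (g : U ⟶ pullback (spc (algebraMap K Ω)) F) (g₁ : g ≫ pullback.fst _ _ = r₁ ≫ a)
    (g₂ : g ≫ pullback.snd _ _ = r₁ ≫ b ≫ c) (y) :
    ∃ x, hl l i g ((Et.act Ω F l i σ hσ - 1) x) = y := by
  let τ := spc (algebraMap K Ω)
  let w : W ⟶ pullback τ F := pullback.lift a (b ≫ c) (by rw [sq.w, Category.assoc])
  have w1 : w ≫ pullback.fst τ F = a := pullback.lift_fst _ _ _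
  have w2 : w ≫ pullback.snd τ F = b ≫ c := pullback.lift_snd _ _ _
  have sw : IsPullback w b (pullback.snd τ F) c :=
    IsPullback.of_right (by rw [w1]; exact sq.flip.flip) w2 (IsPullback.of_hasPullback τ F)
  have : IsOpenImmersion w := MorphismProperty.of_isPullback sw.flip ‹_›
  let s := sb F τ σ hσ
  have s1 : s ≫ pullback.fst τ F = pullback.fst τ F :=
    (pullback.lift_fst _ _ _).trans (Category.comp_id _)
  have s2 : s ≫ pullback.snd τ F = pullback.snd τ F ≫ σ := pullback.lift_snd _ _ _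
  have : AlgebraicGeometry.Surjective τ := ⟨fun x => ⟨default, Subsingleton.elim _ _⟩⟩
  have : Nonempty (pullback j (pullback.snd τ F) :) :=
    (pullback.fst j (pullback.snd τ F)).surjective.nonempty
  have : IrreducibleSpace (pullback τ F :) :=
    GeometricallyIrreducible.irreducibleSpace_of_subsingleton (pullback.fst τ F)
  have : SmoothOfRelativeDimension d (pullback.fst τ F) :=
    (smoothOfRelativeDimension_isStableUnderBaseChange (n := d)).of_isPullback
      (IsPullback.of_hasPullback τ F).flip ‹_›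
  have eg : g = r₁ ≫ w := pullback.hom_ext (by rw [g₁, Category.assoc, w1])
    (by rw [g₂, Category.assoc, w2])
  obtain ⟨n, hn, H⟩ := hG l Ω _ _ W (pullback.fst τ F) d (pullback.snd j (pullback.snd τ F)) w s s1
    (pullback.hom_ext (by rw [Category.assoc, s1, s1, Category.id_comp])
      (by rw [Category.assoc, s2, reassoc_of% s2, h2, Category.comp_id, Category.id_comp]))
    (pullback.hom_ext (by rw [Category.assoc, s1])
      (by rw [Category.assoc, s2, ← pullback.condition_assoc, hj, pullback.condition])) fun x => by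
      rw [Scheme.Pullback.range_snd, Set.mem_preimage, ← hc]
      refine ⟨?_, fun ⟨z, hz⟩ => ?_⟩
      · rintro ⟨z, rfl⟩
        exact ⟨b z, by rw [← Scheme.Hom.comp_apply, ← w2, Scheme.Hom.comp_apply]⟩
      · obtain ⟨p, hp, -⟩ := Scheme.exists_preimage_of_isPullback sw x z hz.symm
        exact ⟨p, hp⟩
  refine hL l i n _ U g s hn (fun m => hF l Ω _ (pullback.fst τ F) d m i) (fun m y => ?_) y
  obtain ⟨z, rfl, hz⟩ := hR m y
  rw [eg]
  exact H U r₁ r₂ (pullback.hom_ext (by simp only [Category.assoc, s1, w1, e₁])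
    (by simp only [Category.assoc, s2, w2, reassoc_of% w2, e₂])) m i hi z hz

/-- Equivariance. -/
lemma equi (l i : ℕ) {O K Ω B : Type} [CommRing O] [CommRing K] [Field Ω] [CommRing B] [Algebra O K]
    [Algebra O Ω] [Algebra K Ω] [Algebra O B] {T : Scheme.{0}} (F : T ⟶ Spec (.of K))
    (g : pullback (spc (algebraMap O Ω)) (spc (algebraMap O B)) ⟶ pullback (spc (algebraMap K Ω)) F)
    (t : _ ⟶ Spec (.of (K ⊗[O] B))) (s : _ ⟶ T) (g1 : g ≫ pullback.fst _ _ = pullback.fst _ _)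
    (g2 : g ≫ pullback.snd _ _ = t ≫ s)
    (t1 : t ≫ spc (algebraMap K _) = pullback.fst _ _ ≫ spc (algebraMap K Ω))
    (t2 : t ≫ spc (includeRight : B →ₐ[O] K ⊗[O] B).toRingHom = pullback.snd _ _)
    (ψ : Ω ≃ₐ[O] Ω) (ψ' : Ω ≃ₐ[K] Ω) (h : (ψ' : Ω →+* Ω) = ψ) (x) :
    hl l i g (Et.gal F l i ψ' x) = Et.gal (spc (algebraMap O B)) l i ψ (hl l i g x) := by
  refine hl_sq l i (pullback.hom_ext ?_ ?_) x
  · simp only [Category.assoc, pullback.lift_fst, g1, reassoc_of% g1, h]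
  · simp only [Category.assoc, pullback.lift_snd, Category.comp_id, g2]
    rw [← Category.assoc]
    congr 1
    refine (tp O K B).hom_ext ?_ ?_
    · simp only [Category.assoc, t1, pullback.lift_fst_assoc, ← h]
      rw [sp2 (f := algebraMap K Ω) (h := algebraMap K Ω) fun x => ψ'.commutes x]
    · simp only [Category.assoc, t2, pullback.lift_snd, Category.comp_id]

end Fnj

open Fnj in
theorem finj (hGP : GPJ_s) (hR : RUJ_s) (hG : GY2_s) (hF : FINZ_s) (hL : LIM_s) (hI : INV_s) :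
    RESJ_s := by
  intro O K Ω _ _ _ _ _ _ _ _ _ _ _ _ _ _ A _ _ _ _ Y f d hd _ _ N ι _ hι a _ ha hU I hI' B _ _ _ _ _
    hB hq l _ hl' φ u Q hQ hφ hu hr
  obtain ⟨ϖ, hϖ⟩ := IsDiscreteValuationRing.exists_irreducible O
  have := away (K := K) hϖ
  let := (IsFractionRing.lift (K := K) (FaithfulSMul.algebraMap_injective O Ω)).toAlgebra
  have : IsScalarTower O K Ω := .of_algebraMap_eq fun x => (IsFractionRing.lift_algebraMap _ x).symm
  have : CharZero K := (algebraMap K Ω).charZero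
  obtain ⟨T, ι₂, σ, D, j, C, _, _, ρ₁, ρ₂, J, c, h, hC, hE, hc, c1, c2, c3⟩ := hGP O K A B ϖ I Y f d N
    ι a (IsFractionRing.injective O K) hB hq (hI' (Ideal.mem_map_of_mem _ hϖ.not_isUnit)) hd hι ha hU
  have := h.cl; have := h.sm; have := h.gi; have := h.clj; have := h.ne
  have : IsProper (ι₂ ≫ pS K _) := Lr.prp K _ ι₂
  have hs : SmoothOfRelativeDimension d (spc (algebraMap K (K ⊗[O] C))) := by
    rw [← c1, ← zero_add d]
    infer_instance
  let τ := spc (algebraMap K Ω)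
  let F := ι₂ ≫ pS K (N + 1 + 1)
  let g₀ : Spec (.of (Ω ⊗[O] B)) ⟶ pullback τ F := pullback.lift (spc (algebraMap Ω _))
    (spc (up O K Ω B) ≫ spc (tm K ρ₁) ≫ c) (by
      simp only [Category.assoc, F, c1, tm_l, up_l, τ])
  have g1 : g₀ ≫ pullback.fst τ F = _ := pullback.lift_fst _ _ _
  have g2 : g₀ ≫ pullback.snd τ F = _ := pullback.lift_snd _ _ _
  have hon := onto hG hF hL l F d σ h.ov h.sq j h.fix c c2 _ _ (c1 ▸ up_pb O K Ω C)
    (spc (tm Ω ρ₁)) (spc (tm Ω ρ₂)) (by rw [tm_l, tm_l])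
    (by rw [← Category.assoc, up_tm, Category.assoc, c3, ← Category.assoc, ← up_tm, Category.assoc])
    d (by omega) (hR l O K Ω C B ϖ ρ₁ ρ₂ J d hl' hϖ hE hs) g₀ (by rw [g1, tm_l])
    (by rw [g2, ← Category.assoc _ _ c, ← up_tm, Category.assoc])
  let e := (tp O Ω B).isoPullback
  have e1 : e.inv ≫ _ = _ := (tp O Ω B).isoPullback_inv_fst
  have e2 : e.inv ≫ _ = _ := (tp O Ω B).isoPullback_inv_snd
  let ex : (Ω ≃ₐ[O] Ω) → (Ω ≃ₐ[K] Ω) := fun ψ =>
    AlgEquiv.ofRingEquiv (f := ψ.toRingEquiv) fun x => by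
      obtain ⟨x, y, hy, rfl⟩ := IsFractionRing.div_surjective (A := O) x
      change ψ _ = _
      simp only [map_div₀, ← IsScalarTower.algebraMap_apply, AlgEquiv.commutes]
  have eq := fun ψ => equi l d F (e.inv ≫ g₀) (e.inv ≫ spc (up O K Ω B)) (spc (tm K ρ₁) ≫ c)
    (by rw [Category.assoc, g1, e1]) (by rw [Category.assoc, g2, Category.assoc])
    (by rw [Category.assoc, up_l, reassoc_of% e1]) (by rw [Category.assoc, up_r, e2]) ψ (ex ψ) rfl
  obtain ⟨h1, h2, hM⟩ := hI O K Ω _ T ι₂ d σ D j h l d (ex φ) (ex u) Q hl' hQ hφ hu hr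
  refine ⟨ModuleCat.of ℚ (LinearMap.range (Et.act Ω F l d σ h.ov - 1)), _, _,
    hl l d (e.inv ≫ g₀) ∘ₗ Submodule.subtype _, fun y => ?_, LinearMap.ext fun x => eq φ x.1,
    LinearMap.ext fun x => eq u x.1, hM⟩
  obtain ⟨x, hx⟩ := hon (hl l d e.hom y)
  refine ⟨⟨_, x, rfl⟩, (hl_comp l d _ _ _).trans ?_⟩
  refine (congrArg _ hx).trans ?_
  rw [← hl_comp, e.inv_hom_id, hl_id]
  rfl

end Pool.Agent.MP_855f4c_ag.LG

end

section

/-! h67a, rows GY2 and LIM. -/

set_option autoImplicit false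
set_option backward.isDefEq.respectTransparency false

open CategoryTheory Limits Opposite AlgebraicGeometry Function
open scoped TensorProduct

namespace Pool.Agent.MP_855f4c_ag.LG

lemma gy2_pz (l m i : ℕ) {A B C : Scheme.{0}} (f : A ⟶ B) (g : B ⟶ C) (x : HZ l m i C) :
    pz l m i (f ≫ g) x = pz l m i f (pz l m i g x) := by
  rw [pz, op_comp, Functor.map_comp]
  rfl

theorem gy2 (hG : GYS_s) : GY2_s := by
  intro l _ Ω _ _ _ T D W f d _ _ _ j _ _ w _ σ h1 h2 h3 h4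
  have hr : Set.range (w ≫ σ) ⊆ Set.range w := by
    rintro _ ⟨x, rfl⟩
    refine (h4 _).2 fun ⟨z, hz⟩ => (h4 (w x)).1 ⟨x, rfl⟩ ⟨z, ?_⟩
    have e1 : σ (j z) = j z := congr($h3 z)
    have e2 : σ (σ (w x)) = w x := congr($h2 (w x))
    exact e1.symm.trans ((congrArg σ hz).trans e2)
  have hs : IsOpenImmersion.lift w (w ≫ σ) hr ≫ w = w ≫ σ := IsOpenImmersion.lift_fac _ _ _
  generalize IsOpenImmersion.lift w (w ≫ σ) hr = σ' at hs
  obtain ⟨c, hc, H⟩ := hG l Ω T D W f d j w σ σ' h1 h2 h3 hs h4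
  refine ⟨2 * c, mul_ne_zero two_ne_zero hc, fun U r₁ r₂ hr m i hi b hb => ?_⟩
  obtain ⟨x, hx⟩ := H m i hi b
  have e1 : r₁ ≫ σ' = r₂ := by rw [← cancel_mono w, Category.assoc, hs, hr]
  have e2 : r₂ ≫ σ' = r₁ := by
    rw [← cancel_mono w, Category.assoc, hs, ← Category.assoc, ← hr, Category.assoc,
      Category.assoc, h2, Category.comp_id]
  refine ⟨x, ?_⟩
  rw [map_sub, ← gy2_pz, Category.assoc, hr, gy2_pz, gy2_pz, hx, map_nsmul, map_nsmul, map_sub,
    map_sub, ← gy2_pz, ← gy2_pz, e1, e2, hb, sub_zero, zero_sub, smul_neg, sub_neg_eq_add, two_mul,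
    add_smul]

lemma lim_aux {D D' : ℕᵒᵖ ⥤ Ab.{1}} (a : D ⟶ D') (s : D ⟶ D) (c : ℕ)
    (hf : ∀ m, Finite (D.obj (op m)))
    (h : ∀ (m : ℕ) (y : D'.obj (op m)), ∃ x, a.app _ (x - s.app _ x) = c • y)
    (y : (limit D' : Ab.{1})) : ∃ x : (limit D : Ab.{1}), limMap a (x - limMap s x) = c • y := by
  let α (m : ℕ) := {x : D.obj (op m) // a.app _ (x - s.app _ x) = c • limit.π D' (op m) y}
  have (m : ℕ) : Nonempty (α m) := (h m _).elim fun x hx => ⟨⟨x, hx⟩⟩
  have (m : ℕ) : Finite (α m) := Subtype.finite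
  obtain ⟨f, hf⟩ := exists_seq_forall_proj_of_forall_finite (α := α)
    (fun {i j} hij x => ⟨D.map (homOfLE hij).op x.1, by
      have e1 : s.app _ (D.map (homOfLE hij).op x.1) = D.map (homOfLE hij).op (s.app _ x.1) :=
        congr($(s.naturality (homOfLE hij).op) x.1)
      have e2 (z) : a.app _ (D.map (homOfLE hij).op z) = D'.map (homOfLE hij).op (a.app _ z) :=
        congr($(a.naturality (homOfLE hij).op) z)
      have e3 : D'.map (homOfLE hij).op (limit.π D' (op j) y) = limit.π D' (op i) y :=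
        congr($(limit.w D' (homOfLE hij).op) y)
      rw [e1, ← map_sub, e2, x.2, map_nsmul, e3]⟩)
    (fun i x => Subtype.ext congr($(D.map_id (op i)) x.1))
    (fun i j k hij hjk x => Subtype.ext
      congr($(D.map_comp (homOfLE hjk).op (homOfLE hij).op) x.1).symm)
    fun i x => Set.toFinite _
  obtain ⟨e, h1, h2⟩ := Et.lim_bij D (fun n => (D.map (homOfLE (n.le_add_right 1)).op).hom)
    (fun _ => AddMonoidHom.id _) (fun _ => bijective_id) fun _ _ => rfl
  obtain ⟨x, hx⟩ := h1.2 ⟨fun n => (f n).1, fun n => congrArg Subtype.val (hf (n.le_add_right 1))⟩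
  refine ⟨x, Concrete.limit_ext D' _ _ fun ⟨n⟩ => ?_⟩
  have e0 : limit.π D (op n) x = (f n).1 := (h2 x n).symm.trans congr(($hx).1 n)
  have e1 (z) : limit.π D' (op n) (limMap a z) = a.app _ (limit.π D (op n) z) :=
    congr($(limMap_π a (op n)) z)
  have e2 : limit.π D (op n) (limMap s x) = s.app _ (limit.π D (op n) x) :=
    congr($(limMap_π s (op n)) x)
  rw [e1, map_sub, e2, e0, (f n).2, map_nsmul]

lemma lim_rat {A B : Type*} [AddCommGroup A] [AddCommGroup B] (a : A →ₗ[ℤ] B) (s : A →ₗ[ℤ] A)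
    {c : ℕ} (hc : c ≠ 0) (h : ∀ y, ∃ x, a (x - s x) = c • y) (y : ℚ ⊗[ℤ] B) :
    ∃ x, a.baseChange ℚ (s.baseChange ℚ x - x) = y := by
  induction y using TensorProduct.induction_on with
  | zero => exact ⟨0, by simp only [map_zero, sub_zero]⟩
  | add x y hx hy =>
    obtain ⟨x, rfl⟩ := hx
    obtain ⟨y, rfl⟩ := hy
    exact ⟨x + y, by rw [map_add, add_sub_add_comm, map_add]⟩
  | tmul q y =>
    obtain ⟨x, hx⟩ := h y
    refine ⟨(-(q / c)) ⊗ₜ[ℤ] x, ?_⟩
    rw [LinearMap.baseChange_tmul, ← TensorProduct.tmul_sub, LinearMap.baseChange_tmul, ← neg_sub,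
      map_neg, hx, TensorProduct.tmul_neg, TensorProduct.neg_tmul, neg_neg, ← natCast_zsmul,
      ← TensorProduct.smul_tmul, zsmul_eq_mul, Int.cast_natCast,
      mul_div_cancel₀ _ (Nat.cast_ne_zero.2 hc)]

theorem lim : LIM_s := fun l i c _ _ g σ hc hf h =>
  lim_rat (limMap (Functor.whiskerLeft (Et.tower l) ((Et.coh i).map g.op))).hom.toIntLinearMap
    (limMap (Functor.whiskerLeft (Et.tower l) ((Et.coh i).map σ.op))).hom.toIntLinearMap hc
    (lim_aux _ _ c hf h)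

end Pool.Agent.MP_855f4c_ag.LG

end

section

/-! h67a row FINZ: finiteness of cohomology with finite coefficients. -/

set_option autoImplicit false
set_option backward.isDefEq.respectTransparency false

open CategoryTheory Limits Abelian Opposite AlgebraicGeometry Function

namespace Pool.Agent.MP_855f4c_ag.LG

open E E3 Pool.Agent.MP_855f4c_ag.T

theorem fin_of_cof {l : ℕ} [Fact l.Prime] {X : Scheme.{0}} (U : Over X)
    (hc : ∀ i, Cof l (H U (Linf l X) i)) (m i : ℕ) : Finite (H U (Zl X l m) i) := by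
  have hS := EZ.Zj_exact l X m
  refine Set.finite_univ_iff.1 (Set.Finite.of_finite_fibers (Hmap (EZ.Zj l X m) U i)
    (((hc i).fin m).subset ?_) ?_)
  · rintro _ ⟨a, -, rfl⟩
    have := EZ.Hmap_comp (EZ.Zj l X m) (l ^ m • 𝟙 _) U i a
    rw [EZ.Zj_w, EZ.Hmap_nsmul] at this
    refine this.symm.trans ?_
    change a.comp (Ext.mk₀ 0) (add_zero i) = 0
    rw [Ext.mk₀_zero, Ext.comp_zero]
  rintro _ ⟨a, -, rfl⟩
  have hk : {b | Hmap (EZ.Zj l X m) U i b = 0}.Finite := by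
    cases i with
    | zero =>
      have := hS.mono_f
      exact (Set.finite_singleton 0).subset fun b hb =>
        Ext.postcomp_mk₀_injective_of_mono _ (EZ.Zj l X m) (hb.trans (map_zero _).symm)
    | succ j =>
      obtain ⟨c, h⟩ := (hc j).div
      refine (((hc j).fin c).image (hS.extClass.postcomp _ rfl)).subset fun b hb => ?_
      obtain ⟨y, rfl⟩ := Ext.covariant_sequence_exact₁ _ hS b hb rfl
      obtain ⟨y', e⟩ := h (c + m) y
      refine ⟨y - l ^ m • y', by rw [Set.mem_ofPred, smul_sub, e, pow_add, mul_smul, sub_self], ?_⟩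
      rw [map_sub, ← EZ.Hmap_nsmul]
      refine sub_eq_self.2 ?_
      change (y'.comp (Ext.mk₀ (l ^ m • 𝟙 _)) (add_zero j)).comp hS.extClass rfl = 0
      rw [Ext.comp_assoc_of_second_deg_zero]
      exact (congrArg (y'.comp · _) hS.comp_extClass).trans (Ext.comp_zero ..)
  refine (hk.image (· + a)).subset fun b hb => ⟨b - a, ?_, sub_add_cancel _ _⟩
  rw [Set.mem_ofPred, map_sub, sub_eq_zero]
  exact hb.2

theorem fin_of_hh {l : ℕ} [Fact l.Prime] (T : Scheme.{0}) (hc : ∀ i, Cof l (HH l T i)) (m i : ℕ) :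
    Finite (HZ l m i T) :=
  have := fin_of_cof (Over.mk (𝟙 T))
    (fun j => (zb.2 l T j).elim fun e _ => EZ.cof_tr (e _) (hc j)) m i
  .of_injective _ (Et.absZ_bij (Over.mk (𝟙 T)) l m i).1

theorem finz : FINZ_s := by
  intro l _ Ω _ _ _ T f d _ _ _
  have : Smooth f := SmoothOfRelativeDimension.smooth d f
  have hd := chart_of D.twf Ω T f d
  obtain ⟨t, ht⟩ := Kpd.pdh zb (All.hPDX l Ω T f d hd)
  refine fin_of_hh T fun i => ?_
  rcases le_or_gt i (2 * d) with hi | hi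
  · exact All.hKCOF l _ _ t (Kpd.qcs f) ht i hi
  · exact EZ.cof_zero (Kpd.van zb (All.hCDG l Ω T f d hd).1 hi)

end Pool.Agent.MP_855f4c_ag.LG

end

section

/-! h67a, row RUJ: Runge's theorem on geometric generic fibres, along any ideal `J`. -/

set_option autoImplicit false
set_option backward.isDefEq.respectTransparency false

open CategoryTheory Limits AlgebraicGeometry MvPolynomial Function
open scoped TensorProduct

namespace Pool.Agent.MP_855f4c_ag.LG

open E E3 Pool.Agent.MP_855f4c_ag.T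

namespace Ruj

lemma ss {A B C : Type} [CommRing A] [CommRing B] [CommRing C] (φ : A →+* B) (ψ : B →+* C) :
    spc ψ ≫ spc φ = spc (ψ.comp φ) := (Spec.map_comp _ _).symm

section
variable (O V Ω B : Type) [CommRing O] [CommRing V] [CommRing Ω] [CommRing B] [Algebra O V]
  [Algebra V Ω] [Algebra O Ω] [IsScalarTower O V Ω] [Algebra O B]

lemma away (p : V) [IsLocalization.Away p Ω] :
    @IsLocalization.Away _ _ (algebraMap V (V ⊗[O] B) p) (Ω ⊗[O] B) _
      (Su.tm O V Ω B B).toAlgebra := by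
  let : Algebra (V ⊗[O] B) (Ω ⊗[O] B) := (Su.tm O V Ω B B).toAlgebra
  have : IsScalarTower V (V ⊗[O] B) (Ω ⊗[O] B) := .of_algebraMap_eq fun x => by
    change algebraMap V Ω x ⊗ₜ 1 = algebraMap V Ω x ⊗ₜ algebraMap B B 1
    rw [map_one]
  have h1 := IsLocalization.tensorProduct_tensorProduct O B (Submonoid.powers p) Ω
    (RingHom.ext fun b => by
      change algebraMap V Ω 1 ⊗ₜ b = 1 ⊗ₜ b
      rw [map_one])
  rwa [Algebra.algebraMapSubmonoid_powers] at h1

lemma sq : IsPullback (spc (Su.tm O V Ω B B)) (spc (algebraMap Ω (Ω ⊗[O] B)))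
    (spc (algebraMap V (V ⊗[O] B))) (spc (algebraMap V Ω)) := by
  refine IsPullback.of_right ?_ ?_ (Su.pbT O V B)
  · rw [ss, ss, ← IsScalarTower.algebraMap_eq]
    have e : (Su.tm O V Ω B B).comp (iR O V B) = iR O Ω B := RingHom.ext fun b => by
      change algebraMap V Ω 1 ⊗ₜ b = 1 ⊗ₜ b
      rw [map_one]
    rw [e]
    exact Su.pbT O Ω B
  · rw [ss, ss]
    exact congrArg spc (RingHom.ext fun _ => rfl)

end

lemma exs_equiv {C C₁ C₂ : Type} [CommRing C] [CommRing C₁] [CommRing C₂] (a : C →+* C₁)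
    (b : C →+* C₂) (e : C₁ ≃+* C₂) (h : ∀ x, e (a x) = b x) (I : Ideal C)
    (H : @Exs C C₁ _ _ a.toAlgebra I) : @Exs C C₂ _ _ b.toAlgebra I := by
  let := a.toAlgebra
  let := b.toAlgebra
  refine ⟨H.1.of_equiv { e with commutes' := h }, fun k _ _ ψ hψ => ?_⟩
  obtain ⟨χ, h1, h2⟩ := H.2 k ψ hψ
  refine ⟨χ.comp e.symm.toRingHom, RingHom.ext fun x => ?_, fun χ' h3 => ?_⟩
  · change χ (e.symm (b x)) = ψ x
    rw [← h, e.symm_apply_apply]
    exact RingHom.congr_fun h1 x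
  · rw [← h2 (χ'.comp e.toRingHom) (RingHom.ext fun x =>
      (congrArg χ' (h x)).trans (RingHom.congr_fun h3 x))]
    exact RingHom.ext fun x => congrArg χ' (e.apply_symm_apply x).symm

lemma exs_tm {O C C₁ : Type} (V : Type) [CommRing O] [CommRing V] [CommRing C] [CommRing C₁]
    [Algebra O V] [Algebra O C] [Algebra O C₁] (ρ : C →ₐ[O] C₁) (J : Ideal C)
    (H : @Exs C C₁ _ _ (ρ : C →+* C₁).toAlgebra J) :
    @Exs (V ⊗[O] C) (V ⊗[O] C₁) _ _ (tm V ρ).toAlgebra (J.map (iR O V C)) := by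
  let : Algebra C C₁ := (ρ : C →+* C₁).toAlgebra
  have : IsScalarTower O C C₁ := .of_algebraMap_eq fun x => (ρ.commutes x).symm
  let : Algebra (V ⊗[O] C) (V ⊗[O] C₁) := (tm V ρ).toAlgebra
  constructor
  · let : Algebra C (V ⊗[O] C) := Algebra.TensorProduct.rightAlgebra
    let : Algebra C₁ (V ⊗[O] C₁) := Algebra.TensorProduct.rightAlgebra
    let : Algebra C (V ⊗[O] C₁) := ((algebraMap C₁ (V ⊗[O] C₁)).comp (algebraMap C C₁)).toAlgebra
    have : IsScalarTower C C₁ (V ⊗[O] C₁) := .of_algebraMap_eq fun _ => rfl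
    have : IsScalarTower C (V ⊗[O] C) (V ⊗[O] C₁) := .of_algebraMap_eq fun _ => rfl
    have : IsScalarTower V (V ⊗[O] C) (V ⊗[O] C₁) := .of_algebraMap_eq fun x =>
      ((Algebra.TensorProduct.map (AlgHom.id V V) ρ).commutes x).symm
    have : IsScalarTower O (V ⊗[O] C) (V ⊗[O] C₁) := .to₁₃₄ O V _ _
    have : IsScalarTower O C (V ⊗[O] C₁) := .to₁₂₄ O C (V ⊗[O] C) _
    have : Algebra.IsPushout C C₁ (V ⊗[O] C) (V ⊗[O] C₁) :=
      (Algebra.IsPushout.comp_iff O C V (V ⊗[O] C)).1 (Algebra.IsPushout.symm inferInstance)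
    have : Algebra.IsPushout C (V ⊗[O] C) C₁ (V ⊗[O] C₁) := this.symm
    exact H.1.of_isPushout _ _
  · intro k _ _ ψ hψ
    obtain ⟨χ, h1, h2⟩ := H.2 k (ψ.comp (iR O V C)) fun x hx =>
      hψ (Ideal.mem_map_of_mem _ hx)
    let : Algebra O k := (ψ.comp (algebraMap O _)).toAlgebra
    let f : V →ₐ[O] k := (⟨ψ, fun _ => rfl⟩ : V ⊗[O] C →ₐ[O] k).comp
      Algebra.TensorProduct.includeLeft
    let g : C₁ →ₐ[O] k := ⟨χ, fun o => by
      rw [IsScalarTower.algebraMap_apply O C C₁]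
      exact (RingHom.congr_fun h1 _).trans
        (congrArg ψ ((Algebra.TensorProduct.includeRight (R := O) (A := V)).commutes o))⟩
    let w := Algebra.TensorProduct.lift f g fun _ _ => .all _ _
    have w1 (v : V) : w (v ⊗ₜ 1) = ψ (v ⊗ₜ 1) := by
      rw [Algebra.TensorProduct.lift_tmul, map_one, mul_one]
      rfl
    have w2 (c : C₁) : w (1 ⊗ₜ c) = χ c := by
      rw [Algebra.TensorProduct.lift_tmul, map_one, one_mul]
      rfl
    have t1 (v : V) : tm V ρ (v ⊗ₜ 1) = v ⊗ₜ 1 := by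
      change v ⊗ₜ ρ 1 = _
      rw [map_one]
    refine ⟨w.toRingHom, Algebra.TensorProduct.ringHom_ext (RingHom.ext fun v => ?_)
      (RingHom.ext fun c => ?_), fun χ' h3 => Algebra.TensorProduct.ringHom_ext
        (RingHom.ext fun v => ?_) (RingHom.ext fun c => ?_)⟩
    · exact (congrArg w (t1 v)).trans (w1 v)
    · exact (w2 (ρ c)).trans (RingHom.congr_fun h1 c)
    · exact ((congrArg χ' (t1 v)).symm.trans (RingHom.congr_fun h3 _)).trans (w1 v).symm
    · refine (RingHom.congr_fun (h2 (χ'.comp (iR O V C₁)) (RingHom.ext fun x => ?_)) c).trans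
        (w2 c).symm
      exact RingHom.congr_fun h3 (1 ⊗ₜ x)

attribute [local instance] MvPolynomial.algebraMvPolynomial in
lemma ind_loc {V Ω κ ι : Type} [CommRing V] [CommRing Ω] [Algebra V Ω] [Field κ] (p : V)
    [IsLocalization.Away p Ω] (χ : Ω →+* κ) (x : ι → κ)
    (h : AV.Ind (χ.comp (algebraMap V Ω)) x) : AV.Ind χ x := by
  intro P hP
  obtain ⟨⟨Q, _, u, hu, rfl⟩, hQ⟩ :=
    IsLocalization.surj ((Submonoid.powers p).map (C (σ := ι))) P
  have e : P * C (algebraMap V Ω u) = map (algebraMap V Ω) Q := by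
    rw [← map_C]
    exact hQ
  have h1 := h Q (by rw [← eval₂_map, ← e, eval₂_mul, hP, zero_mul])
  rw [← map_map, ← e, map_mul, map_C, mul_eq_zero, C_eq_zero] at h1
  exact h1.resolve_right
    ((IsLocalization.map_units Ω (⟨u, hu⟩ : Submonoid.powers p)).map χ).ne_zero

end Ruj

open Ruj in
theorem ruj (hV : VB_s) (hD : DIM_s) (hR : RUJ0_s) : RUJ_s := by
  intro l _ O K Ω C B _ _ _ _ _ _ _ _ _ _ _ _ _ _ _ _ _ _ ϖ ρ₁ ρ₂ J d hl hϖ ⟨hE, hH, hJ⟩ hs
  obtain ⟨h1, h2, h3⟩ := hV O Ω l ϖ hl hϖ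
  let V := integralClosure O Ω
  let p := algebraMap O V ϖ
  let : Algebra (V ⊗[O] C) (Ω ⊗[O] C) := (Su.tm O V Ω C C).toAlgebra
  let : Algebra (V ⊗[O] B) (Ω ⊗[O] B) := (Su.tm O V Ω B B).toAlgebra
  let e := (Algebra.TensorProduct.prodRight O V V B B).toRingEquiv
  have he (x) : e (tm V (ρ₁.prod ρ₂) x) = (tm V ρ₁).prod (tm V ρ₂) x := by
    induction x with
    | zero => simp only [map_zero]
    | tmul a b => rfl
    | add a b ha hb => simp only [map_add, ha, hb]
  have t (ρ : C →ₐ[O] B) : tm V ρ (algebraMap V _ p) = algebraMap V _ p :=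
    (Algebra.TensorProduct.map (AlgHom.id V V) ρ).commutes p
  have := away O V Ω C p
  have : IsLocalization.Away (tm V ρ₁ (algebraMap V _ p)) (Ω ⊗[O] B) := by
    rw [t]
    exact away O V Ω B p
  have c (ρ : C →ₐ[O] B) : (tm Ω ρ).comp (algebraMap (V ⊗[O] C) (Ω ⊗[O] C)) =
      (algebraMap (V ⊗[O] B) (Ω ⊗[O] B)).comp (tm V ρ) :=
    Algebra.TensorProduct.ringHom_ext (RingHom.ext fun _ => rfl) (RingHom.ext fun _ => rfl)
  refine hR l V (V ⊗[O] C) (V ⊗[O] B) (Ω ⊗[O] C) (Ω ⊗[O] B) (algebraMap V _ p) (tm V ρ₁)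
    (tm V ρ₂) (tm Ω ρ₁) (tm Ω ρ₂) d (J.map (iR O V C)) h2 ((t _).trans (t _).symm)
    ⟨exs_equiv (tm V (ρ₁.prod ρ₂)) _ e he _ (exs_tm V (ρ₁.prod ρ₂) _ hE), ?_, hJ.map _⟩ (c _) (c _)
    fun κ _ φ ⟨b, hb⟩ => ?_
  · refine hp.2 (B × B) _ (e.toRingHom.comp (iR O V (B × B))) _ _
      ((Su.tm_int O V (B × B)).trans _ _ (RingHom.isIntegral_of_surjective _ e.surjective)) ?_ hH
    rw [Ideal.map_map, Ideal.map_map]
    exact congrArg (fun f : C →+* _ => (J.map f).radical) (RingHom.ext fun x => he (1 ⊗ₜ x))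
  · by_contra h0
    let : Algebra K Ω := (IsFractionRing.lift (FaithfulSMul.algebraMap_injective O Ω)).toAlgebra
    have : IsScalarTower O K Ω := .of_algebraMap_eq fun x => (IsFractionRing.lift_algebraMap _ x).symm
    have := smoothOfRelativeDimension_isStableUnderBaseChange d
    let φ' : Ω ⊗[O] C →+* κ := IsLocalization.Away.lift (algebraMap V _ p) (Ne.isUnit h0)
    have w (x) : φ' (algebraMap (V ⊗[O] C) _ x) = φ x := IsLocalization.Away.lift_eq _ _ x
    refine hD Ω (Ω ⊗[O] C) d (MorphismProperty.of_isPullback (sq O K Ω C) hs) κ φ'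
      ⟨fun i => algebraMap (V ⊗[O] C) _ (b i), ind_loc p _ _ ?_⟩
    have u : (φ'.comp (algebraMap Ω _)).comp (algebraMap V Ω) = φ.comp (algebraMap V _) :=
      RingHom.ext fun v => w (v ⊗ₜ 1)
    simp only [w, u]
    exact hb

end Pool.Agent.MP_855f4c_ag.LG

end

section

/-! h67a row RUJ0: Runge's theorem over the valuation ring, along any ideal. -/

set_option autoImplicit false
set_option backward.isDefEq.respectTransparency false

open CategoryTheory Limits Abelian Opposite AlgebraicGeometry Function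

namespace Pool.Agent.MP_855f4c_ag.LG

open E E3 E4 Pool.Agent.MP_855f4c_ag.T

namespace Ruj0

theorem away_prod {S S' : Type} [CommRing S] [CommRing S'] [Algebra S S'] (a : S)
    [IsLocalization.Away a S'] [Algebra (S × S) (S' × S')]
    (h : ∀ x, algebraMap (S × S) (S' × S') x = (algebraMap S S' x.1, algebraMap S S' x.2)) :
    IsLocalization.Away ((a, a) : S × S) (S' × S') := by
  refine .mk _ ?_ (fun s => ?_) fun x y e => ?_
  · rw [h, Prod.isUnit_iff]
    exact ⟨IsLocalization.Away.algebraMap_isUnit a, IsLocalization.Away.algebraMap_isUnit a⟩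
  · obtain ⟨n, x, hx⟩ := IsLocalization.Away.surj a s.1
    obtain ⟨k, y, hy⟩ := IsLocalization.Away.surj a s.2
    refine ⟨n + k, (x * a ^ k, y * a ^ n), ?_⟩
    rw [h, h]
    refine Prod.ext ?_ ?_
    · change s.1 * _ ^ (n + k) = algebraMap S S' (x * a ^ k)
      rw [map_mul, map_pow, ← hx, pow_add, mul_assoc]
    · change s.2 * _ ^ (n + k) = algebraMap S S' (y * a ^ n)
      rw [map_mul, map_pow, ← hy, add_comm, pow_add, mul_assoc]
  · rw [h, h, Prod.mk.injEq] at e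
    obtain ⟨n, hx⟩ := IsLocalization.Away.exists_of_eq a e.1
    obtain ⟨k, hy⟩ := IsLocalization.Away.exists_of_eq a e.2
    refine ⟨n + k, Prod.ext ?_ ?_⟩
    · change a ^ (n + k) * x.1 = a ^ (n + k) * y.1
      rw [add_comm, pow_add, mul_assoc, hx, mul_assoc]
    · change a ^ (n + k) * x.2 = a ^ (n + k) * y.2
      rw [pow_add, mul_assoc, hy, mul_assoc]

theorem pz_pz (l m i : ℕ) {T'' T' T : Scheme.{0}} (g : T'' ⟶ T') (f : T' ⟶ T) (x : HZ l m i T) :
    pz l m i g (pz l m i f x) = pz l m i (g ≫ f) x := by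
  change _ = (((Et.coh i).map (f.op ≫ g.op)).app _).hom x
  rw [Functor.map_comp]
  rfl

/-- The class `(y, 0)` on two copies of `Spec A`. -/
theorem two (l m i : ℕ) (A : Type) [CommRing A] (y : HZ l m i (Spec (.of A))) :
    ∃ z, pz l m i (spc (RingHom.fst A A)) z = y ∧ pz l m i (spc (RingHom.snd A A)) z = 0 := by
  let c : Over.mk (spc (RingHom.fst A A)) ⟶ top (Spec (.of (A × A))) := Over.homMk _
  let e : Over.mk (spc (RingHom.snd A A)) ⟶ top (Spec (.of (A × A))) := Over.homMk _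
  have : IsOpenImmersion c.left :=
    letI := (RingHom.fst A A).toAlgebra
    IsOpenImmersion.of_isLocalization (R := A × A) (S := A) (1, 0)
  obtain ⟨r, h1, h2⟩ := D.CLOP.split c
    (PrimeSpectrum.isClosed_range_comap_of_surjective A (RingHom.fst A A) Prod.fst_surjective)
  have h3 := h2 _ e fun z ⟨w, hw⟩ => by
    have h : ((1, 0) : A × A) ∈ (c.left w).asIdeal := hw ▸ z.asIdeal.zero_mem
    exact w.2.ne_top ((Ideal.eq_top_iff_one _).2 h)
  obtain ⟨z, hz⟩ := (Et.absZ_bij (top (Spec (.of (A × A)))) l m i).2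
    (pre r _ i (Et.absZ (Over.mk (spc (RingHom.fst A A))) l m i y))
  refine ⟨z, (Et.absZ_bij (Over.mk (spc (RingHom.fst A A))) l m i).1 ?_,
    (Et.absZ_bij (Over.mk (spc (RingHom.snd A A))) l m i).1 ?_⟩
  · refine (Et.absZ_res c l m i z).trans ?_
    rw [hz, pre_pre, h1, pre_id]
  · refine (Et.absZ_res e l m i z).trans ?_
    rw [hz, pre_pre, h3, map_zero, pre_apply, Ext.mk₀_zero, Ext.zero_comp]

end Ruj0

theorem ruj0 (hR : RNJ_s) : RUJ0_s := by
  intro l _ V R S C S' _ _ _ _ _ _ _ _ _ _ _ p ρ₁ ρ₂ ψ₁ ψ₂ d J _ _ hV hp hE e₁ e₂ hB m y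
  let := (ρ₁.prod ρ₂).toAlgebra
  let := ((algebraMap S S').prodMap (algebraMap S S')).toAlgebra
  let := ((algebraMap (S × S) (S' × S')).comp (algebraMap R (S × S))).toAlgebra
  have : IsScalarTower R (S × S) (S' × S') := .of_algebraMap_eq' rfl
  have ep : algebraMap R (S × S) p = (ρ₁ p, ρ₁ p) := Prod.ext rfl hp
  have : IsLocalization.Away (algebraMap R (S × S) p) (S' × S') :=
    ep ▸ Ruj0.away_prod (ρ₁ p) fun _ => rfl
  let ψ : C →ₐ[R] S' × S' := ⟨ψ₁.prod ψ₂, fun r =>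
    Prod.ext (DFunLike.congr_fun e₁ r) (DFunLike.congr_fun e₂ r)⟩
  have hs := hR l V R (S × S) C (S' × S') p ψ J d hV hE.1 hE.2.1 hE.2.2 hB _ (𝟙 _) _ (M3.zl_tc l m)
  obtain ⟨z, h1, h2⟩ := Ruj0.two l m d S' y
  obtain ⟨x, hx⟩ := hs (Et.absZ (ob (𝟙 _) (S' × S')) l m d z)
  obtain ⟨b, rfl⟩ := (Et.absZ_bij (ob (𝟙 _) C) l m d).2 x
  obtain rfl : pz l m d (spc (ψ₁.prod ψ₂)) b = z := (Et.absZ_bij (ob (𝟙 _) (S' × S')) l m d).1
    ((Et.absZ_res (hm (𝟙 _) ψ) l m d b).trans hx)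
  rw [Ruj0.pz_pz, ← GG.spc_comp] at h1 h2
  exact ⟨b, h1, h2⟩

end Pool.Agent.MP_855f4c_ag.LG

end
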