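import Pool.Agent.MP_855f4c_ag.Et.Def
import Pool.Agent.MP_855f4c_ag.AC.Ab

set_option linter.all false

section

/-! Bertini for a smooth affine variety in characteristic zero. -/

set_option autoImplicit false

open TensorProduct

namespace Pool.Agent.MP_855f4c_ag.L.Bq

section Gen

open MvPolynomial

/-- Derivations extend along formally etale maps. -/
lemma ext_der {K P k : Type} [CommRing K] [CommRing P] [CommRing k] [Algebra K P] [Algebra P k]
    [Algebra K k] [IsScalarTower K P k] [Algebra.FormallyEtale P k] (D : Derivation K P k) :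
    ∃ D' : Derivation K k k, ∀ s, D' (algebraMap P k s) = D s := by
  let e := KaehlerDifferential.tensorKaehlerEquivOfFormallyEtale K P k
  let lam : Ω[k⁄K] →ₗ[k] k := (D.liftKaehlerDifferential.liftBaseChange k) ∘ₗ e.symm.toLinearMap
  refine ⟨lam.compDer (KaehlerDifferential.D K k), fun s => ?_⟩
  change lam (KaehlerDifferential.D K k (algebraMap P k s)) = _
  simp only [lam, e, LinearMap.comp_apply, LinearEquiv.coe_coe,
    KaehlerDifferential.tensorKaehlerEquivOfFormallyEtale_symm_D_algebraMap,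
    LinearMap.liftBaseChange_tmul, one_smul, Derivation.liftKaehlerDifferential_comp_D]

open scoped IntermediateField.algebraAdjoinAdjoin in
/-- Partial derivatives with respect to algebraically independent elements. -/
lemma gen_der {K k ι : Type} [Field K] [CharZero K] [Field k] [Algebra K k] (c : ι → k)
    (hc : AlgebraicIndependent K c) (i₀ : ι) :
    ∃ D : Derivation K k k, D (c i₀) = 1 ∧ ∀ i, i ≠ i₀ → D (c i) = 0 := by
  classical
  obtain ⟨t, ht, hb⟩ := exists_isTranscendenceBasis_superset hc.to_subtype_range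
  let R := Algebra.adjoin K (Set.range ((↑) : t → k))
  let F := IntermediateField.adjoin K (Set.range ((↑) : t → k))
  let e : MvPolynomial t K ≃ₐ[K] R := hb.1.aevalEquiv
  let _ : Algebra (MvPolynomial t K) R := e.toAlgHom.toAlgebra
  let _ : Algebra (MvPolynomial t K) k := (aeval ((↑) : t → k) : _ →ₐ[K] k).toAlgebra
  have : IsScalarTower (MvPolynomial t K) R k := .of_algebraMap_eq fun x =>
    (hb.1.algebraMap_aevalEquiv x).symm
  have : IsScalarTower K (MvPolynomial t K) k := .of_algebraMap_eq fun x =>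
    ((aeval ((↑) : t → k) : _ →ₐ[K] k).commutes x).symm
  have : Algebra.FormallyEtale (MvPolynomial t K) R :=
    .of_equiv (A := MvPolynomial t K) { e.toRingEquiv with commutes' := fun _ => rfl }
  have : Algebra.FormallyEtale R F := .of_isLocalization (nonZeroDivisors _)
  have : Algebra.IsAlgebraic F k := hb.isAlgebraic_field
  have : CharZero F := algebraRat.charZero _
  have : Algebra.FormallyEtale F k := .of_isSeparable _ _
  have : Algebra.FormallyEtale R k := .comp _ F _
  have : Algebra.FormallyEtale (MvPolynomial t K) k := .comp _ R _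
  obtain ⟨D, hD⟩ := ext_der (K := K) ((Algebra.linearMap (MvPolynomial t K) k).compDer
    (pderiv (⟨c i₀, ht ⟨i₀, rfl⟩⟩ : t)))
  have h (i : ι) : D (c i) = algebraMap (MvPolynomial t K) k
      (pderiv (⟨c i₀, ht ⟨i₀, rfl⟩⟩ : t) (X ⟨c i, ht ⟨i, rfl⟩⟩)) := by
    refine Eq.trans (congrArg D ?_) (hD (X ⟨c i, ht ⟨i, rfl⟩⟩))
    exact (aeval_X ((↑) : t → k) (⟨c i, ht ⟨i, rfl⟩⟩ : t)).symm
  refine ⟨D, by rw [h, pderiv_X_self, map_one], fun i hi => ?_⟩
  rw [h, pderiv_X_of_ne (fun e => hi (hc.injective (congrArg Subtype.val e))), map_zero]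

/-- Finitely many derivations of a smooth algebra generate all derivations. -/
lemma der_basis (K A : Type) [CommRing K] [CommRing A] [Algebra K A] [Algebra.Smooth K A] :
    ∃ (n : ℕ) (D : Fin n → Derivation K A A), ∀ (M : Type) [AddCommGroup M] [Module A M]
      [Module K M] [IsScalarTower K A M] (δ : Derivation K A M),
      ∃ m : Fin n → M, ∀ a, δ a = ∑ j, D j a • m j := by
  obtain ⟨n, f, g, -, -, h⟩ := Module.Finite.exists_comp_eq_id_of_projective A Ω[A⁄K]
  refine ⟨n, fun j => ((LinearMap.proj j : _ →ₗ[A] A) ∘ₗ g).compDer (KaehlerDifferential.D K A),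
    fun M _ _ _ _ δ => ⟨fun j => δ.liftKaehlerDifferential (f (Pi.single j 1)), fun a => ?_⟩⟩
  have h1 : f (g (KaehlerDifferential.D K A a)) = KaehlerDifferential.D K A a :=
    LinearMap.congr_fun h _
  rw [← δ.liftKaehlerDifferential_comp_D, ← h1]
  conv_lhs => rw [pi_eq_sum_univ' (g (KaehlerDifferential.D K A a))]
  simp only [map_sum, map_smul]
  rfl

/-- No singular zero at algebraically independent coefficients. -/
lemma core {K A k ι : Type} [Field K] [CharZero K] [CommRing A] [Algebra K A] [Field k]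
    [Algebra A k] [Algebra K k] [IsScalarTower K A k] [Fintype ι] (f : ι → A) {n : ℕ}
    (D : Fin n → Derivation K A A)
    (hD : ∀ δ : Derivation K A k, ∃ m : Fin n → k, ∀ a, δ a = ∑ j, D j a • m j)
    (c : ι → k) (hc : AlgebraicIndependent K c) (h0 : ∑ i, c i * algebraMap A k (f i) = 0)
    (h1 : ∀ j, ∑ i, c i * algebraMap A k (D j (f i)) = 0) (i₀ : ι) :
    algebraMap A k (f i₀) = 0 := by
  obtain ⟨d, d1, d0⟩ := gen_der _ hc i₀
  obtain ⟨m, hm⟩ := hD (d.compAlgebraMap A)
  have h3 : ∑ i, c i * d (algebraMap A k (f i)) = 0 := by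
    have h4 (i) : d (algebraMap A k (f i)) = ∑ j, algebraMap A k (D j (f i)) * m j :=
      (hm (f i)).trans (Finset.sum_congr rfl fun j _ => Algebra.smul_def _ _)
    simp only [h4, Finset.mul_sum, ← mul_assoc]
    rw [Finset.sum_comm]
    refine Finset.sum_eq_zero fun j _ => ?_
    rw [← Finset.sum_mul, h1, zero_mul]
  have h5 := congrArg d h0
  simp only [map_sum, Derivation.leibniz, smul_eq_mul, Finset.sum_add_distrib, h3,
    map_zero, zero_add] at h5
  rwa [Finset.sum_eq_single i₀ (fun i _ hi => by rw [d0 i hi, mul_zero]) (by simp), d1,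
    mul_one] at h5

/-- The singular members of a base point free linear system lie on a hypersurface. -/
theorem bq (K A ι : Type) [Field K] [CharZero K] [CommRing A] [Algebra K A] [Algebra.Smooth K A]
    [Fintype ι] (f : ι → A) (i₀ : ι) (hf : IsUnit (f i₀)) :
    ∃ Δ : MvPolynomial ι K, Δ ≠ 0 ∧ ∀ c : ι → K, eval c Δ ≠ 0 →
      ∃ (D : Derivation K A A) (a : A), D (∑ i, c i • f i) = 1 + a * ∑ i, c i • f i := by
  obtain ⟨n, D, hD⟩ := der_basis K A
  let g : Option (Fin n) → MvPolynomial ι A := fun o =>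
    ∑ i, X i * C (o.elim (f i) fun j => D j (f i))
  have key : ∃ Δ : MvPolynomial ι K, Δ ≠ 0 ∧
      map (algebraMap K A) Δ ∈ Ideal.span (Set.range g) := by
    by_contra hn
    push Not at hn
    obtain ⟨p, hp, h1, h2⟩ := (Ideal.span (Set.range g)).exists_le_prime_disjoint
      ((nonZeroDivisors (MvPolynomial ι K)).map (map (algebraMap K A)))
      (Set.disjoint_left.2 (by
        rintro _ hx ⟨Δ, hΔ, rfl⟩
        exact hn Δ (nonZeroDivisors.ne_zero hΔ) hx))
    let k := p.ResidueField
    let φ := algebraMap (MvPolynomial ι A) k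
    have hφ (x) : φ x = 0 ↔ x ∈ p := Ideal.algebraMap_residueField_eq_zero
    have hC (a : A) : φ (C a) = algebraMap A k a :=
      (IsScalarTower.algebraMap_apply A (MvPolynomial ι A) k a).symm
    have hc : AlgebraicIndependent K fun i => φ (X i) := by
      rw [algebraicIndependent_iff]
      intro Δ h
      by_contra h0
      refine Set.disjoint_left.1 h2 ((hφ _).1 ?_) ⟨Δ, mem_nonZeroDivisors_of_ne_zero h0, rfl⟩
      refine Eq.trans ?_ h
      refine RingHom.congr_fun (f := φ.comp (map (algebraMap K A)))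
        (g := (aeval fun i => φ (X i) : _ →ₐ[K] k).toRingHom) ?_ Δ
      ext x
      · simp [hC, ← IsScalarTower.algebraMap_apply]
      · simp
    have hg (o : Option (Fin n)) :
        ∑ i, φ (X i) * algebraMap A k (o.elim (f i) fun j => D j (f i)) = 0 := by
      have := (hφ _).2 (h1 (Ideal.subset_span ⟨o, rfl⟩))
      simpa only [g, map_sum, map_mul, hC] using this
    exact (hf.map (algebraMap A k)).ne_zero
      (core f D (hD k) _ hc (hg none) (fun j => hg (some j)) i₀)
  obtain ⟨Δ, h0, h⟩ := key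
  refine ⟨Δ, h0, fun c hc => ?_⟩
  obtain ⟨a, ha⟩ := (Submodule.mem_span_range_iff_exists_fun _).1 h
  let ev := eval fun i => algebraMap K A (c i)
  have h1 : ev (map (algebraMap K A) Δ) = algebraMap K A (eval c Δ) := by
    refine RingHom.congr_fun (f := ev.comp (map (algebraMap K A)))
      (g := (algebraMap K A).comp (eval c)) ?_ Δ
    ext x <;> simp [ev]
  have h2 : ev (g none) = ∑ i, c i • f i := by simp [ev, g, Algebra.smul_def]
  have h3 (j) : ev (g (some j)) = D j (∑ i, c i • f i) := by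
    simp only [map_sum, Derivation.map_smul]
    simp [ev, g, Algebra.smul_def]
  have h4 := congrArg ev ha
  simp only [Fintype.sum_option, smul_eq_mul, map_add, map_mul, map_sum ev, h1, h2, h3] at h4
  have h5 : algebraMap K A (eval c Δ)⁻¹ * algebraMap K A (eval c Δ) = 1 := by
    rw [← map_mul, inv_mul_cancel₀ hc, map_one]
  refine ⟨∑ j, (algebraMap K A (eval c Δ)⁻¹ * ev (a (some j))) • D j,
    -(algebraMap K A (eval c Δ)⁻¹ * ev (a none)), ?_⟩
  generalize ∑ i, c i • f i = q at h4 ⊢
  rw [show ∀ E : Fin n → Derivation K A A, (∑ j, E j) q = ∑ j, E j q from fun E =>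
    (congrFun (map_sum Derivation.coeFnAddMonoidHom E _) q).trans (Finset.sum_apply _ _ _)]
  simp only [ Derivation.coe_smul, Pi.smul_apply, smul_eq_mul, mul_assoc,
    ← Finset.mul_sum]
  linear_combination algebraMap K A (eval c Δ)⁻¹ * h4 + h5

end Gen

section Smq

open KaehlerDifferential Module Polynomial

variable {K A : Type} [CommRing K] [CommRing A] [Algebra K A]

/-- A hypersurface with a transversal vector field is smooth. -/
theorem smq [Algebra.Smooth K A] {q a : A} (D : Derivation K A A) (h : D q = 1 + a * q) :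
    Algebra.Smooth K (A ⧸ Ideal.span {q}) := by
  refine ⟨.of_comp_surjective fun B _ _ I hI φ => ?_, ?_⟩
  · obtain ⟨ψ, hψ⟩ := Algebra.FormallySmooth.comp_surjective K A I hI
      (φ.comp (Ideal.Quotient.mkₐ K _))
    have h1 : ψ q ∈ I := by
      rw [← Ideal.Quotient.eq_zero_iff_mem]
      refine (AlgHom.congr_fun hψ q).trans ?_
      rw [AlgHom.comp_apply, Ideal.Quotient.mkₐ_eq_mk,
        Ideal.Quotient.eq_zero_iff_mem.2 (Ideal.mem_span_singleton_self q), map_zero]
    have h2 : ψ q * ψ q = 0 := by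
      rw [← Ideal.mem_bot, ← hI, pow_two]
      exact Ideal.mul_mem_mul h1 h1
    let χ : A →ₐ[K] B :=
      { toFun x := ψ x - ψ q * ψ (D x)
        map_one' := by simp
        map_zero' := by simp
        map_add' x y := by simp only [map_add]; ring
        map_mul' x y := by
          simp only [Derivation.leibniz, smul_eq_mul, map_add, map_mul]
          linear_combination (-(ψ (D x) * ψ (D y))) * h2
        commutes' r := by simp }
    have h3 : χ q = 0 := by
      change ψ q - ψ q * ψ (D q) = 0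
      rw [h, map_add, map_one, map_mul]
      linear_combination (-ψ a) * h2
    refine ⟨Ideal.Quotient.liftₐ _ χ fun x hx => ?_, Ideal.Quotient.algHom_ext _
      (AlgHom.ext fun x => ?_)⟩
    · obtain ⟨y, rfl⟩ := Ideal.mem_span_singleton'.1 hx
      rw [map_mul, h3, mul_zero]
    · refine Eq.trans ?_ (AlgHom.congr_fun hψ x)
      change Ideal.Quotient.mk I (ψ x - ψ q * ψ (D x)) = Ideal.Quotient.mk I (ψ x)
      rw [map_sub, Ideal.Quotient.eq_zero_iff_mem.2 (I.mul_mem_right _ h1), sub_zero]
  · exact .quotient (Submodule.fg_span_singleton q)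

variable (K A) in
/-- The differentials have rank `d` at all primes. -/
def Rk (d : ℕ) : Prop := ∀ p : PrimeSpectrum A, rankAtStalk Ω[A⁄K] p = d

lemma rk_away [Algebra.Smooth K A] (x : A) (p : PrimeSpectrum (Localization.Away x)) :
    rankAtStalk Ω[Localization.Away x⁄K] p = rankAtStalk Ω[A⁄K] (p.comap (algebraMap A _)) :=
  have := Algebra.FormallyEtale.of_isLocalization (Rₘ := Localization.Away x) (.powers x)
  rankAtStalk_isBaseChange (isBaseChange_of_formallyEtale K A _) p

lemma ex_away {x : A} {p : PrimeSpectrum A} (h : x ∉ p.asIdeal) :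
    ∃ p' : PrimeSpectrum (Localization.Away x), p'.comap (algebraMap A _) = p := by
  have : p ∈ Set.range (PrimeSpectrum.comap (algebraMap A (Localization.Away x))) := by
    rw [PrimeSpectrum.localization_away_comap_range _ x]
    exact h
  exact this

theorem loc_iff {d : ℕ} :
    RingHom.Locally (RingHom.IsStandardSmoothOfRelativeDimension d) (algebraMap K A) ↔
      Algebra.Smooth K A ∧ Rk K A d := by
  constructor
  · intro h
    have hs : Algebra.Smooth K A := by
      rw [← RingHom.smooth_algebraMap]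
      exact (RingHom.locally_iff_of_localizationSpanTarget RingHom.Smooth.respectsIso
        RingHom.Smooth.ofLocalizationSpanTarget _).1 (RingHom.locally_of_locally (fun {_ _} _ _ {f} hf =>
          (hf.isStandardSmooth).smooth) h)
    obtain ⟨s, h1, h2⟩ := h
    refine ⟨hs, fun p => ?_⟩
    obtain ⟨x, hx, hp⟩ : ∃ x ∈ s, x ∉ p.asIdeal := by
      by_contra hn
      push Not at hn
      exact p.2.ne_top (top_le_iff.1 (h1 ▸ Ideal.span_le.2 hn))
    obtain ⟨p', rfl⟩ := ex_away hp
    have h3 := h2 x hx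
    rw [← IsScalarTower.algebraMap_eq,
      RingHom.isStandardSmoothOfRelativeDimension_algebraMap] at h3
    have := p'.nontrivial
    have := h3.isStandardSmooth
    rw [← rk_away, rankAtStalk_eq_finrank_of_free]
    exact finrank_eq_of_rank_eq
      (Algebra.IsStandardSmoothOfRelativeDimension.rank_kaehlerDifferential d)
  · rintro ⟨hs, h⟩
    choose f h1 h2 using fun p : PrimeSpectrum A =>
      Algebra.IsSmoothAt.exists_notMem_isStandardSmooth K p.asIdeal
    refine ⟨Set.range f, ?_, ?_⟩
    · by_contra hn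
      obtain ⟨m, hm, hle⟩ := Ideal.exists_le_maximal _ hn
      exact h1 ⟨m, hm.isPrime⟩ (hle (Ideal.subset_span ⟨_, rfl⟩))
    · rintro _ ⟨p, rfl⟩
      obtain ⟨p', -⟩ := ex_away (h1 p)
      have := p'.nontrivial
      have := h2 p
      rw [← IsScalarTower.algebraMap_eq, RingHom.isStandardSmoothOfRelativeDimension_algebraMap,
        Algebra.IsStandardSmoothOfRelativeDimension.iff_of_isStandardSmooth, ← finrank_eq_rank,
        ← h (p'.comap (algebraMap A _)), ← rk_away, rankAtStalk_eq_finrank_of_free]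
      rfl

lemma rk_poly [Algebra.Smooth K A] {d : ℕ} (h : Rk K A d) : Rk K A[X] (d + 1) := fun p => by
  have := p.nontrivial
  have hi : Function.Injective (mapBaseChange K A A[X]) := by
    rw [injective_iff_map_eq_zero]
    intro x hx
    obtain ⟨x, rfl⟩ := (Algebra.H1Cotangent.exact_δ_mapBaseChange K A A[X] x).mp hx
    rw [Subsingleton.elim x 0, map_zero]
  obtain ⟨l, hl⟩ := projective_lifting_property (KaehlerDifferential.map K A A[X] A[X]) .id
    (map_surjective K A A[X])
  let e := ((exact_mapBaseChange_map K A A[X]).splitSurjectiveEquiv hi ⟨l, hl⟩).1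
  rw [rankAtStalk_eq_of_equiv e, rankAtStalk_prod, Pi.add_apply, rankAtStalk_baseChange, h,
    rankAtStalk_eq_of_equiv (polynomialEquiv A), rankAtStalk_self, Pi.one_apply]

lemma rk_quot [Algebra.Smooth K A] {q a : A} (D : Derivation K A A) (h : D q = 1 + a * q) {d : ℕ}
    (hd : Rk K A (d + 1)) : Rk K (A ⧸ Ideal.span {q}) d := fun p => by
  have := p.nontrivial
  have := smq D h
  let S := A ⧸ Ideal.span {q}
  have hq : algebraMap A S q = 0 :=
    Ideal.Quotient.eq_zero_iff_mem.2 (Ideal.mem_span_singleton_self q)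
  let v : S ⊗[A] Ω[A⁄K] := 1 ⊗ₜ KaehlerDifferential.D K A q
  let l : S ⊗[A] Ω[A⁄K] →ₗ[S] S :=
    ((Algebra.linearMap A S).compDer D).liftKaehlerDifferential.liftBaseChange S
  have hl : l v = 1 := by
    simp only [l, v, LinearMap.liftBaseChange_tmul, one_smul,
      Derivation.liftKaehlerDifferential_comp_D]
    change algebraMap A S (D q) = 1
    rw [h, map_add, map_one, map_mul, hq, mul_zero, add_zero]
  have he : Function.Exact (LinearMap.toSpanSingleton S _ v) (mapBaseChange K A S) := fun x => by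
    constructor
    · intro hx
      obtain ⟨y, rfl⟩ := (exact_kerCotangentToTensor_mapBaseChange K A S
        Ideal.Quotient.mk_surjective x).1 hx
      obtain ⟨⟨y, hy⟩, rfl⟩ := Ideal.toCotangent_surjective _ y
      obtain ⟨r, rfl⟩ := Ideal.mem_span_singleton'.1 (Ideal.Quotient.eq_zero_iff_mem.1 hy)
      refine ⟨algebraMap A S r, ?_⟩
      rw [kerCotangentToTensor_toCotangent, LinearMap.toSpanSingleton_apply, Derivation.leibniz,
        tmul_add, tmul_smul, tmul_smul, ← algebraMap_smul S q, hq, zero_smul, add_zero,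
        algebraMap_smul]
    · rintro ⟨s, rfl⟩
      rw [LinearMap.toSpanSingleton_apply, map_smul, mapBaseChange_tmul, map_D, hq, map_zero,
        smul_zero, smul_zero]
  let e := (he.splitInjectiveEquiv (mapBaseChange_surjective K A S Ideal.Quotient.mk_surjective)
    ⟨l, LinearMap.ext fun s => by simp [hl]⟩).1
  have h1 := hd (p.comap (algebraMap A S))
  rw [← rankAtStalk_baseChange, rankAtStalk_eq_of_equiv e, rankAtStalk_prod, Pi.add_apply,
    rankAtStalk_self, Pi.one_apply, add_comm] at h1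
  exact Nat.add_right_cancel h1

/-- The vector field on the double cover. -/
lemma der2 {q a : A} (D : Derivation K A A) (h : D q = 1 + a * q) (h2 : IsUnit (2 : A)) :
    ∃ D' : Derivation K A[X] A[X], D' (X ^ 2 - C q) = 1 + C (-a) * (X ^ 2 - C q) := by
  obtain ⟨b, hb⟩ := h2.exists_right_inv
  let D₁ : Derivation K A[X] A[X] :=
    (PolynomialModule.equivPolynomialSelf (R := A)).toLinearMap.compDer D.mapCoeffs
  have h1 : D₁ X = 0 := by simp [D₁]
  have h3 : D₁ (C q) = 1 + C a * C q := by
    rw [← C_mul, ← C_1, ← C_add, ← h]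
    simp [D₁]
  have h4 : (2 : A[X]) * C b = 1 := by
    rw [← C_1, ← hb, C_mul]
    rfl
  refine ⟨-D₁ - (C a * C b * X : A[X]) • (derivative' (R := A)).restrictScalars K, ?_⟩
  simp only [Derivation.sub_apply, Derivation.neg_apply, Derivation.smul_apply, map_sub, pow_two,
    Derivation.leibniz, h1, h3, smul_eq_mul, Derivation.restrictScalars_apply, derivative'_apply,
    derivative_X, derivative_C, map_neg]
  linear_combination (-(C a * X * X)) * h4

/-- The double cover is smooth. -/
theorem smq2 [Algebra.Smooth K A] {q a : A} (D : Derivation K A A) (h : D q = 1 + a * q)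
    (h2 : IsUnit (2 : A)) : Algebra.Smooth K (AdjoinRoot (X ^ 2 - C q)) :=
  have ⟨D', h'⟩ := der2 D h h2
  have : Algebra.Smooth A A[X] := {}
  have : Algebra.Smooth K A[X] := .comp K A _
  smq D' h'

/-- The double cover is smooth of the same relative dimension. -/
theorem smq2_loc {q a : A} (D : Derivation K A A) (h : D q = 1 + a * q) (h2 : IsUnit (2 : A))
    {d : ℕ}
    (hd : RingHom.Locally (RingHom.IsStandardSmoothOfRelativeDimension d) (algebraMap K A)) :
    RingHom.Locally (RingHom.IsStandardSmoothOfRelativeDimension d)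
      (algebraMap K (AdjoinRoot (X ^ 2 - C q))) :=
  have ⟨_, h1⟩ := loc_iff.1 hd
  have ⟨D', h'⟩ := der2 D h h2
  have : Algebra.Smooth A A[X] := {}
  have : Algebra.Smooth K A[X] := .comp K A _
  loc_iff.2 ⟨smq D' h', rk_quot D' h' (rk_poly h1)⟩

end Smq

end Pool.Agent.MP_855f4c_ag.L.Bq

end

section

namespace Pool.Agent.MP_855f4c_ag.L.Wei

/-- A model `A` of `R[1/w]` on which `w ^ 2 = 1` modulo `π` is a localisation of a model of `R`. -/
theorem wei {O K R Rw A : Type} [CommRing O] [CommRing K] [CommRing R] [CommRing Rw] [CommRing A]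
    [Algebra O K] [Algebra K R] [Algebra O R] [IsScalarTower O K R] [Algebra O A] [Algebra R Rw]
    [Algebra A Rw] [Algebra O Rw] [IsScalarTower O R Rw] [IsScalarTower O A Rw] (π : O) (w : R)
    [IsLocalization.Away π K] [IsLocalization.Away w Rw]
    [IsLocalization.Away (algebraMap O A π) Rw] [Algebra.FiniteType O A] [Algebra.FiniteType K R]
    (hinj : Function.Injective (algebraMap A Rw)) (a y : A)
    (ha : algebraMap A Rw a = algebraMap R Rw w) (hu : IsUnit a)
    (hy : a ^ 2 - 1 = algebraMap O A π * y) :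
    ∃ (C : Subalgebra O R) (g : C →ₐ[O] A) (w₀ y₀ : C), Algebra.FiniteType O C ∧ w₀.1 = w ∧
      IsLocalization.Away (algebraMap O C π) R ∧
      (∀ c, algebraMap A Rw (g c) = algebraMap R Rw c) ∧
      @IsLocalization.Away C _ w₀ A _ g.toRingHom.toAlgebra ∧
      w₀ ^ 2 - 1 = algebraMap O C π * y₀ := by
  classical
  have hπ : IsUnit (algebraMap O R π) := by
    rw [IsScalarTower.algebraMap_apply O K R]
    exact (IsLocalization.Away.algebraMap_isUnit π).map _
  obtain ⟨p, hp⟩ := hπ.exists_right_inv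
  have eA : algebraMap A Rw (algebraMap O A π) = algebraMap R Rw (algebraMap O R π) := by
    rw [← IsScalarTower.algebraMap_apply, ← IsScalarTower.algebraMap_apply]
  obtain ⟨s, hs⟩ := Algebra.FiniteType.out (R := O) (A := A)
  obtain ⟨t, ht⟩ := Algebra.FiniteType.out (R := K) (A := R)
  choose n b hb using fun x : A => IsLocalization.Away.surj w (algebraMap A Rw x)
  choose k c hc using fun x : R => IsLocalization.Away.surj (algebraMap O A π) (algebraMap R Rw x)
  let G : Finset R := insert w (insert ((w ^ 2 - 1) * p)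
    (s.image b ∪ t.image fun x => x * algebraMap O R π ^ k x))
  let C := Algebra.adjoin O (G : Set R)
  let D : Subalgebra O R :=
    (IsScalarTower.toAlgHom O A Rw).range.comap (IsScalarTower.toAlgHom O R Rw)
  have mD {x : R} (z : A) (h : algebraMap A Rw z = algebraMap R Rw x) : x ∈ D := ⟨z, h⟩
  have hCD : C ≤ D := by
    refine Algebra.adjoin_le fun x hx => ?_
    simp only [G, Finset.coe_insert, Finset.coe_union, Finset.coe_image, Set.mem_insert_iff,
      Set.mem_union, Set.mem_image] at hx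
    rcases hx with rfl | rfl | ⟨x, -, rfl⟩ | ⟨x, -, rfl⟩
    · exact mD a ha
    · refine mD y ?_
      have h1 := congrArg (algebraMap A Rw) hy
      rw [map_sub, map_pow, ha, map_one, map_mul, eA] at h1
      rw [map_mul, map_sub, map_pow, map_one, h1, mul_right_comm, ← map_mul, hp, map_one, one_mul]
    · exact mD (x * a ^ n x) (by rw [map_mul, map_pow, ha, hb])
    · exact mD (c x) (by rw [← hc, map_mul, map_pow, eA])
  let e := AlgEquiv.ofInjective (IsScalarTower.toAlgHom O A Rw) hinj
  let g : C →ₐ[O] A := e.symm.toAlgHom.comp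
    (((IsScalarTower.toAlgHom O R Rw).comp C.val).codRestrict _ fun x => hCD x.2)
  have hg (x : C) : algebraMap A Rw (g x) = algebraMap R Rw x :=
    congrArg Subtype.val (e.apply_symm_apply _)
  have mC {x : R} (h : x ∈ G) : x ∈ C := Algebra.subset_adjoin h
  let w₀ : C := ⟨w, mC (by simp [G])⟩
  have gw : g w₀ = a := hinj ((hg _).trans ha.symm)
  refine ⟨C, g, w₀, ⟨(w ^ 2 - 1) * p, mC (by simp [G])⟩,
    (Subalgebra.fg_iff_finiteType _).1 ⟨G, rfl⟩, rfl, ?_, hg, ?_, Subtype.ext ?_⟩
  · refine IsLocalization.Away.mk _ hπ (fun x => ?_) fun x y h => ⟨0, by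
      rw [show x = y from Subtype.ext h]⟩
    suffices ∃ m : ℕ, x * algebraMap O R π ^ m ∈ C from this.imp fun m hm => ⟨⟨_, hm⟩, rfl⟩
    have hx : x ∈ Algebra.adjoin K (t : Set R) := ht ▸ Algebra.mem_top
    induction hx using Algebra.adjoin_induction with
    | mem x hx => exact ⟨k x, mC (by
        simp only [G, Finset.mem_insert, Finset.mem_union, Finset.mem_image]
        exact .inr (.inr (.inr ⟨x, hx, rfl⟩)))⟩
    | algebraMap r =>
      obtain ⟨m, o, ho⟩ := IsLocalization.Away.surj π r
      refine ⟨m, ?_⟩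
      rw [IsScalarTower.algebraMap_apply O K R, ← map_pow, ← map_mul, ho,
        ← IsScalarTower.algebraMap_apply]
      exact C.algebraMap_mem o
    | add x y _ _ hx hy =>
      obtain ⟨i, hi⟩ := hx
      obtain ⟨j, hj⟩ := hy
      refine ⟨i + j, ?_⟩
      have := C.add_mem (C.mul_mem hi (C.pow_mem (C.algebraMap_mem π) j))
        (C.mul_mem hj (C.pow_mem (C.algebraMap_mem π) i))
      convert this using 1
      ring
    | mul x y _ _ hx hy =>
      obtain ⟨i, hi⟩ := hx
      obtain ⟨j, hj⟩ := hy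
      refine ⟨i + j, ?_⟩
      convert C.mul_mem hi hj using 1
      ring
  · let _ := g.toRingHom.toAlgebra
    have ge (x : C) : algebraMap C A x = g x := rfl
    refine IsLocalization.Away.mk _ (by rw [ge, gw]; exact hu) (fun x => ?_) fun x y h => ?_
    · simp only [ge, gw]
      have hx : x ∈ Algebra.adjoin O (s : Set A) := hs ▸ Algebra.mem_top
      induction hx using Algebra.adjoin_induction with
      | mem x hx =>
        refine ⟨n x, ⟨b x, mC (by
          simp only [G, Finset.mem_insert, Finset.mem_union, Finset.mem_image]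
          exact .inr (.inr (.inl ⟨x, hx, rfl⟩)))⟩, hinj ?_⟩
        rw [hg, map_mul, map_pow, ha, hb]
      | algebraMap r => exact ⟨0, algebraMap O C r, by simp⟩
      | add x y _ _ hx hy =>
        obtain ⟨i, u, hi⟩ := hx
        obtain ⟨j, v, hj⟩ := hy
        exact ⟨i + j, u * w₀ ^ j + v * w₀ ^ i, by
          simp only [map_add, map_mul, map_pow, gw, ← hi, ← hj]; ring⟩
      | mul x y _ _ hx hy =>
        obtain ⟨i, u, hi⟩ := hx
        obtain ⟨j, v, hj⟩ := hy
        exact ⟨i + j, u * v, by simp only [map_mul, ← hi, ← hj]; ring⟩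
    · have h1 : algebraMap R Rw x = algebraMap R Rw y := by rw [← hg, ← hg, ← ge, ← ge, h]
      obtain ⟨m, hm⟩ := IsLocalization.Away.exists_of_eq w h1
      exact ⟨m, Subtype.ext hm⟩
  · change w ^ 2 - 1 = algebraMap O R π * ((w ^ 2 - 1) * p)
    rw [mul_left_comm, hp, mul_one]

end Pool.Agent.MP_855f4c_ag.L.Wei

end

section

namespace Pool.Agent.MP_855f4c_ag.T.Hr

open Polynomial Finset

/-- The polynomial whose roots are the products of `k` roots has coefficients that are universal
polynomials in the elementary symmetric functions. -/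
theorem univ_poly (σ : Type) [Fintype σ] [DecidableEq σ] (k : ℕ) :
    ∃ G : (MvPolynomial (Fin (Fintype.card σ)) ℤ)[X], G.Monic ∧
      ∀ (R : Type) [CommRing R] (r : σ → R),
        G.map (MvPolynomial.aeval (R := ℤ)
          (fun i : Fin (Fintype.card σ) => (univ.val.map r).esymm (i + 1))).toRingHom =
        ∏ S ∈ powersetCard k (univ : Finset σ), (X - C (∏ i ∈ S, r i)) := by
  let G0 : (MvPolynomial σ ℤ)[X] :=
    ∏ S ∈ powersetCard k (univ : Finset σ), (X - C (∏ i ∈ S, MvPolynomial.X i))
  have hm : G0.Monic := monic_prod_of_monic _ _ fun S _ => monic_X_sub_C _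
  have hmap (R : Type) [CommRing R] (g : MvPolynomial σ ℤ →+* R) : G0.map g =
      ∏ S ∈ powersetCard k (univ : Finset σ), (X - C (∏ i ∈ S, g (MvPolynomial.X i))) := by
    simp only [G0, Polynomial.map_prod, Polynomial.map_sub, map_X, map_C, map_prod]
  have hs (e : Equiv.Perm σ) : G0.map (MvPolynomial.rename e).toRingHom = G0 := by
    rw [hmap]
    refine Finset.prod_equiv e.finsetCongr (fun S => by simp) fun S _ => ?_
    simp [Equiv.finsetCongr_apply, Finset.prod_map]
  let φ : MvPolynomial (Fin (Fintype.card σ)) ℤ →ₐ[ℤ] MvPolynomial σ ℤ :=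
    MvPolynomial.aeval fun i => MvPolynomial.esymm σ ℤ (i + 1)
  have hl : G0 ∈ lifts φ.toRingHom := by
    rw [lifts_iff_coeff_lifts]
    intro n
    have h1 : (G0.coeff n).IsSymmetric := fun e => by
      have := congrArg (fun p => p.coeff n) (hs e)
      simpa [coeff_map] using this
    obtain ⟨P, hP⟩ := MvPolynomial.esymmAlgHom_surjective ℤ (σ := σ) le_rfl ⟨_, h1⟩
    exact ⟨P, (MvPolynomial.esymmAlgHom_apply P).symm.trans (congrArg Subtype.val hP)⟩
  obtain ⟨G, hG, -, hGm⟩ := lifts_and_natDegree_eq_and_monic hl hm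
  refine ⟨G, hGm, fun R _ r => ?_⟩
  have h2 : (MvPolynomial.aeval (R := ℤ)
      (fun i : Fin (Fintype.card σ) => (univ.val.map r).esymm (i + 1))).toRingHom =
      (MvPolynomial.aeval (R := ℤ) r).toRingHom.comp φ.toRingHom := by
    refine MvPolynomial.ringHom_ext (fun n => by simp) fun i => ?_
    simp [φ, MvPolynomial.aeval_esymm_eq_multiset_esymm]
  rw [h2, ← Polynomial.map_map, hG, hmap]
  simp

theorem esymm_eq {σ R : Type} [Fintype σ] [CommRing R] (r : σ → R) (i : Fin (Fintype.card σ)) :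
    (univ.val.map r).esymm (i + 1) =
      (-1) ^ (i + 1 : ℕ) * (∏ j, (X - C (r j))).coeff (Fintype.card σ - (i + 1)) := by
  have hc : Multiset.card (univ.val.map r) = Fintype.card σ := by simp
  have h := Multiset.prod_X_sub_C_coeff (univ.val.map r) (k := Fintype.card σ - (i + 1))
    (by rw [hc]; exact Nat.sub_le _ _)
  have h3 : Fintype.card σ - (Fintype.card σ - (i + 1)) = i + 1 := by have := i.2; omega
  rw [hc, h3, Multiset.map_map] at h
  have h4 : ∏ j, (X - C (r j)) = (univ.val.map ((fun a => X - C a) ∘ r)).prod := rfl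
  rw [h4, h, ← mul_assoc, ← mul_pow]
  simp

/-- Gabber's trick: a product of `k` roots is a unit that comes from the base. -/
theorem gab {A R : Type} [CommRing A] (I : Ideal A) [HenselianRing A I] [CommRing R] [IsDomain R]
    (ψ : A →+* R) (k : ℕ) (f : A[X]) (r : Fin k ⊕ Fin k → R)
    (h0 : f.map (Ideal.Quotient.mk I) = X ^ k * (X - 1) ^ k)
    (h1 : f.map ψ = ∏ j, (X - C (r j))) :
    ∃ S : Finset (Fin k ⊕ Fin k), S.card = k ∧ IsUnit (∏ i ∈ S, r i) := by
  classical
  obtain ⟨G, hG, H⟩ := univ_poly (Fin k ⊕ Fin k) k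
  let a : Fin (Fintype.card (Fin k ⊕ Fin k)) → A := fun i =>
    (-1) ^ (i + 1 : ℕ) * f.coeff (Fintype.card (Fin k ⊕ Fin k) - (i + 1))
  let g : A[X] := G.map (MvPolynomial.aeval (R := ℤ) a).toRingHom
  have key (R : Type) [CommRing R] (ψ : A →+* R) (r : Fin k ⊕ Fin k → R)
      (h1 : f.map ψ = ∏ j, (X - C (r j))) : g.map ψ =
        ∏ S ∈ powersetCard k (univ : Finset (Fin k ⊕ Fin k)), (X - C (∏ i ∈ S, r i)) := by
    rw [← H R r, Polynomial.map_map]
    congr 1
    refine MvPolynomial.ringHom_ext (fun n => by simp) fun i => ?_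
    have := esymm_eq r i
    rw [← h1, coeff_map] at this
    simp only [AlgHom.toRingHom_eq_coe, RingHom.coe_comp, RingHom.coe_coe, Function.comp_apply,
      MvPolynomial.aeval_X, this, a, map_mul, map_pow, map_neg, map_one]
  let r0 : Fin k ⊕ Fin k → A ⧸ I := Sum.elim 0 1
  have h2 := key _ (Ideal.Quotient.mk I) r0 (by
    rw [h0, Fintype.prod_sum_type]; simp [r0])
  let S0 : Finset (Fin k ⊕ Fin k) := univ.map Function.Embedding.inr
  have hS0 : S0 ∈ powersetCard k (univ : Finset (Fin k ⊕ Fin k)) := by simp [S0]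
  have h3 : ∀ S ∈ (powersetCard k (univ : Finset (Fin k ⊕ Fin k))).erase S0,
      (X - C (∏ i ∈ S, r0 i) : (A ⧸ I)[X]) = X := by
    intro S hS
    rw [mem_erase, mem_powersetCard] at hS
    have : ¬ S ⊆ S0 := fun h => hS.1 (eq_of_subset_of_card_le h (by simp [S0, hS.2.2]))
    obtain ⟨i, hi, hi'⟩ := not_subset.1 this
    rcases i with i | i
    · rw [prod_eq_zero hi (by simp [r0]), C_0, sub_zero]
    · exact absurd (by simp [S0]) hi'
  rw [← mul_prod_erase _ _ hS0, prod_congr rfl h3, prod_const] at h2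
  have h4 : ∏ i ∈ S0, r0 i = 1 := by simp [S0, r0]
  rw [h4] at h2
  have e1 (p : A[X]) : Ideal.Quotient.mk I (p.eval 1) = (p.map (Ideal.Quotient.mk I)).eval 1 := by
    rw [eval_one_map]
  obtain ⟨α, hα, hα1⟩ := HenselianRing.is_henselian (I := I) g (hG.map _) 1
    (by rw [← Ideal.Quotient.eq_zero_iff_mem, e1, h2]; simp)
    (by rw [e1, ← derivative_map, h2]; simp)
  have hu : IsUnit α := by
    have := Ideal.isUnit_of_sub_one_mem_jacobson_bot α (HenselianRing.jac hα1)
    exact this
  have h5 : (g.map ψ).eval (ψ α) = 0 := by rw [eval_map, eval₂_hom, hα.eq_zero, map_zero]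
  rw [key R ψ r h1, eval_prod, prod_eq_zero_iff] at h5
  obtain ⟨S, hS, h6⟩ := h5
  refine ⟨S, (mem_powersetCard.1 hS).2, ?_⟩
  rw [eval_sub, eval_X, eval_C, sub_eq_zero] at h6
  exact h6 ▸ hu.map ψ

/-- A henselian pair in the sense of Mathlib is `HP`. -/
theorem hp_of_henselianRing (A : Type) [CommRing A] (I : Ideal A) [HenselianRing A I] :
    T.HP A I := by
  classical
  intro D _ _ ψ hψ
  have hmax (m : Ideal D) [m.IsMaximal] : I.map ψ ≤ m := by
    rw [Ideal.map_le_iff_le_comap]
    have := Ideal.isMaximal_comap_of_isIntegral_of_isMaximal' ψ hψ m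
    exact HenselianRing.jac.trans (sInf_le ⟨bot_le, this⟩)
  refine ⟨?_, fun x hx => ?_⟩
  · obtain ⟨m, hm⟩ := Ideal.exists_maximal D
    exact fun h => hm.ne_top (top_le_iff.1 (h ▸ hmax m))
  let _ := ψ.toAlgebra
  have : Algebra.IsIntegral A D := ⟨hψ⟩
  obtain ⟨p, hp, hpx, hpI⟩ := exists_monic_aeval_eq_zero_forall_mem_of_mem_map (I := I) hx
  set k := p.natDegree
  have hq : (X * (X - 1) : A[X]).Monic := monic_X.mul (monic_X_sub_C 1)
  let f : A[X] := p.comp (X * (X - 1))
  have hp0 : p.map (Ideal.Quotient.mk I) = X ^ k := by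
    ext i
    rw [coeff_map, coeff_X_pow]
    split_ifs with h
    · rw [h, hp.coeff_natDegree, map_one]
    · exact Ideal.Quotient.eq_zero_iff_mem.2 (hpI i h)
  have h0 : f.map (Ideal.Quotient.mk I) = X ^ k * (X - 1) ^ k := by
    simp only [f, map_comp, hp0, X_pow_comp, Polynomial.map_mul, Polynomial.map_sub, map_X,
      Polynomial.map_one, mul_pow]
  let L := AlgebraicClosure (FractionRing D)
  let R := integralClosure D L
  have hinj : Function.Injective (algebraMap D L) :=
    (algebraMap (FractionRing D) L).injective.comp (IsFractionRing.injective D _)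
  let χ : A →+* L := (algebraMap D L).comp ψ
  have hq2 : ((X * (X - 1) : A[X]).map χ).natDegree = 2 := by
    simp only [Polynomial.map_mul, Polynomial.map_sub, map_X, Polynomial.map_one]
    rw [← C_1, monic_X.natDegree_mul (monic_X_sub_C (1 : L)), natDegree_X, natDegree_X_sub_C]
  have hfm : (f.map χ).Monic := by
    rw [map_comp]
    exact (hp.map χ).comp (hq.map χ) (by rw [hq2]; decide)
  have hfd : (f.map χ).natDegree = k * 2 := by
    rw [map_comp, natDegree_comp, hq2, hp.natDegree_map]
  have hsp : (f.map χ).Splits := IsAlgClosed.splits _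
  have hc : Fintype.card (Fin k ⊕ Fin k) = Fintype.card (f.map χ).roots := by
    rw [Multiset.card_coe, ← hsp.natDegree_eq_card_roots, hfd]; simp [mul_two]
  let e := Fintype.equivOfCardEq hc
  let s : Fin k ⊕ Fin k → L := fun j => (e j : L)
  have hs : f.map χ = ∏ j, (X - C (s j)) := by
    rw [e.prod_comp fun j : (f.map χ).roots => (X - C (j : L))]
    conv_lhs => rw [hsp.eq_prod_roots_of_monic hfm, ← Multiset.map_univ_coe (f.map χ).roots,
      Multiset.map_map]
    rfl
  have hint (j) : IsIntegral D (s j) := by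
    have h1 : (f.map χ).eval (s j) = 0 := by
      rw [hs, eval_prod]; exact prod_eq_zero (mem_univ j) (by simp)
    have h2 : (f.map ψ).Monic := by
      refine monic_of_injective hinj ?_
      rwa [Polynomial.map_map]
    exact ⟨f.map ψ, h2, by rwa [eval₂_map, ← eval_map]⟩
  let r : Fin k ⊕ Fin k → R := fun j => ⟨s j, hint j⟩
  let χ' : A →+* R := (algebraMap D R).comp ψ
  have h1 : f.map χ' = ∏ j, (X - C (r j)) := by
    apply map_injective (algebraMap R L) Subtype.val_injective
    rw [Polynomial.map_map, Polynomial.map_prod]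
    simp only [Polynomial.map_sub, map_X, map_C]
    exact hs
  obtain ⟨S, hS, hu⟩ := gab I χ' k f r h0 h1
  have hx0 : ∃ j, r j = algebraMap D R x := by
    have h2 : (f.map χ').eval (algebraMap D R x) = 0 := by
      rw [← Polynomial.map_map, eval_map, eval₂_hom, eval_map, eval₂_comp]
      have : eval₂ ψ x (X * (X - 1) : A[X]) = x * x - x := by simp [mul_sub]
      rw [this]
      exact (congrArg _ hpx).trans (map_zero _)
    rw [h1, eval_prod, prod_eq_zero_iff] at h2
    obtain ⟨j, -, hj⟩ := h2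
    rw [eval_sub, eval_X, eval_C, sub_eq_zero] at hj
    exact ⟨j, hj.symm⟩
  obtain ⟨j, hj⟩ := hx0
  have lo (z : D) (hz : ¬ IsUnit z) : ∃ Q : Ideal R, Q.IsMaximal ∧ algebraMap D R z ∈ Q ∧
      I ≤ Q.comap χ' := by
    obtain ⟨m, hm, hzm⟩ := exists_max_ideal_of_mem_nonunits hz
    obtain ⟨Q, hQ, hQm⟩ := Ideal.exists_ideal_over_maximal_of_isIntegral (S := R) m (by
      intro y hy
      have : y = 0 := hinj ((congrArg Subtype.val hy).trans (map_zero _).symm)
      exact this ▸ m.zero_mem)
    refine ⟨Q, hQ, ?_, fun y hy => ?_⟩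
    · rwa [← hQm] at hzm
    · have := hmax m (Ideal.mem_map_of_mem ψ hy)
      rwa [← hQm] at this
  have hun (i) (hi : i ∈ S) : IsUnit (r i) := isUnit_of_dvd_unit (dvd_prod_of_mem r hi) hu
  by_cases hjS : j ∈ S
  · have hxu : IsUnit x := by
      by_contra h
      obtain ⟨Q, hQ, h2, -⟩ := lo x h
      exact hQ.ne_top (Q.eq_top_of_isUnit_mem h2 (hj ▸ hun j hjS))
    right
    rw [← Ideal.unit_mul_mem_iff_mem _ hxu, mul_sub, mul_one]
    exact hx
  · have hxu : IsUnit (x - 1) := by
      by_contra h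
      obtain ⟨Q, hQ, h2, h3⟩ := lo _ h
      have := hQ.isPrime
      let π := Ideal.Quotient.mk Q
      let r0 : Fin k ⊕ Fin k → R ⧸ Q := Sum.elim 0 1
      have h4 : (∏ i, (X - C (π (r i))) : (R ⧸ Q)[X]) = ∏ i, (X - C (r0 i)) := by
        have h5 := congrArg (Polynomial.map π) h1
        have h6 := congrArg (Polynomial.map (Ideal.quotientMap Q χ' h3)) h0
        rw [Polynomial.map_map, Ideal.quotientMap_comp_mk, ← Polynomial.map_map, h5,
          Polynomial.map_prod] at h6
        rw [Fintype.prod_sum_type (fun i => X - C (r0 i))]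
        simpa [r0] using h6
      have h7 : univ.val.map (fun i => π (r i)) = univ.val.map r0 := by
        rw [← roots_multiset_prod_X_sub_C (univ.val.map fun i => π (r i)),
          ← roots_multiset_prod_X_sub_C (univ.val.map r0), Multiset.map_map, Multiset.map_map]
        exact congrArg roots h4
      have h8 := congrArg (Multiset.countP (· ≠ 0)) h7
      rw [Multiset.countP_map, Multiset.countP_map] at h8
      have h9 : (univ.filter fun i => π (r i) ≠ 0).card = (univ.filter fun i => r0 i ≠ 0).card := h8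
      have h10 : (univ.filter fun i => r0 i ≠ 0) = univ.map Function.Embedding.inr := by
        ext i; rcases i with i | i <;> simp [r0]
      have h11 : insert j S ⊆ univ.filter fun i => π (r i) ≠ 0 := by
        intro i hi
        rw [mem_filter]
        refine ⟨mem_univ _, ?_⟩
        rcases mem_insert.1 hi with rfl | hi
        · have : π (r i) = 1 := by
            rw [hj, ← map_one π, Ideal.Quotient.eq]
            simpa using h2
          rw [this]; exact one_ne_zero
        · exact ((hun i hi).map π).ne_zero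
      have h12 := card_le_card h11
      rw [card_insert_of_notMem hjS, hS, h9, h10] at h12
      simp at h12
    left
    rw [← Ideal.unit_mul_mem_iff_mem _ hxu, sub_mul, one_mul]
    exact hx

end Pool.Agent.MP_855f4c_ag.T.Hr

end

section

/-! h67a: the direct form of the conclusion for a quotient of a pure space. -/

namespace Pool.Agent.MP_855f4c_ag.Et

theorem aeval_comm {W H : Type*} [AddCommGroup W] [Module ℚ W] [AddCommGroup H] [Module ℚ H]
    (q : W →ₗ[ℚ] H) {a : Module.End ℚ W} {b : Module.End ℚ H} (h : ∀ v, q (a v) = b (q v))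
    (P : Polynomial ℚ) (v : W) : q (Polynomial.aeval a P v) = Polynomial.aeval b P (q v) := by
  induction P using Polynomial.induction_on generalizing v with
  | C c => simp [Algebra.algebraMap_eq_smul_one]
  | add P P' h1 h2 => simp only [map_add, LinearMap.add_apply, h1, h2]
  | monomial n c h1 =>
    simp only [pow_succ, ← mul_assoc, map_mul (Polynomial.aeval _) _ Polynomial.X,
      Polynomial.aeval_X, Module.End.mul_apply, h1, h]

theorem Mw.quot {Q : ℕ} {i : ℤ} {W H : ModuleCat.{1} ℚ} {φ' u' : Module.End ℚ W}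
    {φ u : Module.End ℚ H} (q : W →ₗ[ℚ] H) (hq : Function.Surjective q)
    (h1 : ∀ v, q (φ' v) = φ (q v)) (h2 : ∀ v, q (u' v) = u (q v)) (h : Mw Q i φ' u') :
    ∃ m > 0, ∃ M : ℤ → Submodule ℚ H, Monotone M ∧ (∃ a, M a = ⊥) ∧ (∃ a, M a = ⊤) ∧
      (∀ a, ∀ v ∈ M a, (u ^ m - 1) v ∈ M (a - 2)) ∧
      (∀ r : ℕ, ∀ w ∈ M (-r), ∃ v ∈ M r, w - ((u ^ m - 1) ^ r) v ∈ M (-r - 1)) ∧
      ∀ a, (∀ v ∈ M a, φ v ∈ M a) ∧ ∃ P : Polynomial ℚ, P ≠ 0 ∧
        (∀ z : ℂ, Polynomial.aeval z P = 0 → ‖z‖ ^ 2 = (Q : ℝ) ^ (a + i)) ∧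
          ∀ v ∈ M a, Polynomial.aeval φ P v ∈ M (a - 1) := by
  obtain ⟨m, hm, M, a1, ⟨b, a2⟩, ⟨c, a3⟩, a4, a5, a6⟩ := h
  have e (r : ℕ) (v) : q (((u' ^ m - 1) ^ r) v) = ((u ^ m - 1) ^ r) (q v) := by
    have h := aeval_comm q h2 ((Polynomial.X ^ m - 1) ^ r) v
    rwa [map_pow, map_pow, map_sub, map_sub, map_pow, map_pow, map_one, map_one,
      Polynomial.aeval_X, Polynomial.aeval_X] at h
  refine ⟨m, hm, fun a => (M a).map q, fun _ _ h => Submodule.map_mono (a1 h),
    ⟨b, by simp only [a2, Submodule.map_bot]⟩,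
    ⟨c, by simp only [a3, Submodule.map_top, LinearMap.range_eq_top.2 hq]⟩, ?_, ?_, fun a => ⟨?_, ?_⟩⟩
  · rintro a _ ⟨v, hv, rfl⟩
    exact ⟨_, a4 a v hv, by simpa using e 1 v⟩
  · rintro r _ ⟨w, hw, rfl⟩
    obtain ⟨v, hv, h⟩ := (a5 r).2 w hw
    exact ⟨q v, ⟨v, hv, rfl⟩, _, h, by rw [map_sub, e]⟩
  · rintro _ ⟨v, hv, rfl⟩
    exact ⟨_, (a6 a).1 v hv, h1 v⟩
  · obtain ⟨P, b1, b2, b3⟩ := (a6 a).2
    refine ⟨P, b1, b2, ?_⟩
    rintro _ ⟨v, hv, rfl⟩
    exact ⟨_, b3 v hv, aeval_comm q h1 P v⟩

end Pool.Agent.MP_855f4c_ag.Et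

end

section

/-! h67a row MODL: the integral model of the chart `z ≠ 0` of the double cover. -/

set_option autoImplicit false
set_option backward.isDefEq.respectTransparency false

open Function
open scoped TensorProduct

namespace Pool.Agent.MP_855f4c_ag.LG

open E E3 Pool.Agent.MP_855f4c_ag.T

namespace Modl

/-- The etale cover `y ^ 2 + y = c`, `1 + 2 * y ≠ 0`. -/
structure AS {A E : Type} [CommRing A] [CommRing E] [Algebra A E] (c : A) (y : E) : Prop where
  eq : y ^ 2 + y = algebraMap A E c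
  un : IsUnit (1 + 2 * y)
  lift : ∀ (D : Type) [CommRing D] (φ : A →+* D) (x : D), x ^ 2 + x = φ c → IsUnit (1 + 2 * x) →
    ∃ f : E →+* D, f.comp (algebraMap A E) = φ ∧ f y = x
  ext : ∀ (D : Type) [CommRing D] (f g : E →+* D),
    f.comp (algebraMap A E) = g.comp (algebraMap A E) → f y = g y → f = g

open Polynomial in
theorem ex_as {A : Type} [CommRing A] (c : A) : ∃ (E : Type) (_ : CommRing E) (_ : Algebra A E)
    (_ : Algebra.Etale A E) (y : E), AS c y := by
  let P : StandardEtalePair A :=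
    ⟨X ^ 2 + X - C c, by monicity!, 1 + 2 * X, 1, 0, 1, by simp; ring⟩
  have hm {D : Type} [CommRing D] [Algebra A D] (x : D) :
      P.HasMap x ↔ x ^ 2 + x = algebraMap A D c ∧ IsUnit (1 + 2 * x) := by
    simp [StandardEtalePair.HasMap, P, sub_eq_zero, map_ofNat]
  refine ⟨P.Ring, _, _, inferInstance, P.X, ((hm _).1 P.hasMap_X).1, ((hm _).1 P.hasMap_X).2,
    fun D _ φ x h1 h2 => ?_, fun D _ f g h1 h2 => ?_⟩
  · let _ := φ.toAlgebra
    have h := (hm x).2 ⟨h1, h2⟩
    exact ⟨P.lift x h, AlgHom.comp_algebraMap _, P.lift_X x h⟩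
  · let _ := (g.comp (algebraMap A P.Ring)).toAlgebra
    exact congrArg AlgHom.toRingHom (P.hom_ext (f := ⟨f, fun x => congr($h1 x)⟩)
      (g := ⟨g, fun _ => rfl⟩) h2)

theorem ind_prod {C B : Type} [CommRing C] [CommRing B] (ρ₁ ρ₂ : C →+* B)
    (h₁ : @IndEt C B _ _ ρ₁.toAlgebra) (h₂ : @IndEt C B _ _ ρ₂.toAlgebra) :
    @IndEt C (B × B) _ _ (ρ₁.prod ρ₂).toAlgebra := by
  let _ := (ρ₁.prod ρ₂).toAlgebra
  intro P _ _ _ f
  let pr : Bool → B × B →+* B := fun b => bif b then .fst B B else .snd B B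
  have (b : Bool) : ∃ (E : Type) (_ : CommRing E) (_ : Algebra C E) (_ : Algebra.Etale C E)
      (g : P →ₐ[C] E) (h : E →+* B), h.comp (algebraMap C E) = (pr b).comp (ρ₁.prod ρ₂) ∧
      h.comp (g : P →+* E) = (pr b).comp (f : P →+* B × B) := by
    let _ := ((pr b).comp (ρ₁.prod ρ₂)).toAlgebra
    have H : IndEt C B := by cases b; exacts [h₂, h₁]
    obtain ⟨E, _, _, _, g, h, hh⟩ := H P
      { (pr b).comp (f : P →+* B × B) with commutes' := fun c => congrArg (pr b) (f.commutes c) }
    exact ⟨E, _, _, ‹_›, g, h, h.comp_algebraMap, congrArg AlgHom.toRingHom hh⟩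
  choose E _ _ _ g h h1 h2 using this
  refine ⟨∀ b, E b, _, _, inferInstance, AlgHom.pi g,
    { ((h true).comp (Pi.evalRingHom E true)).prod ((h false).comp (Pi.evalRingHom E false)) with
      commutes' := fun c => Prod.ext congr($(h1 true) c) congr($(h1 false) c) }, ?_⟩
  exact AlgHom.ext fun x => Prod.ext congr($(h2 true) x) congr($(h2 false) x)

/-- The chart `s 0 ≠ 0` of `R` is the generic fibre of the cover. -/
theorem away {O K A E R : Type} [CommRing O] [Field K] [CharZero K] [Algebra O K] [CommRing A]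
    [Algebra O A] [CommRing E] [Algebra A E] [Algebra O E] [IsScalarTower O A E] [CommRing R]
    [Algebra K R] {n : ℕ} {ξ : Fin (n + 1) → K ⊗[O] A} {s : Fin (n + 1) → R}
    {g : MvPolynomial (Fin (n + 1)) K} {c : A} {y w : E} (H : AS c y) (hw : (1 + 2 * y) * w = 1)
    (h0 : ξ 0 = 1) (hξ : Surjective (MvPolynomial.aeval ξ : _ →ₐ[K] K ⊗[O] A))
    (hs : Surjective (MvPolynomial.aeval s : _ →ₐ[K] R)) (hg : g.IsHomogeneous 2)
    (hc : MvPolynomial.aeval ξ g = (1 : K) ⊗ₜ[O] c) (h1 : s 0 ^ 2 + 4 * MvPolynomial.aeval s g = 1)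
    (U : ∀ (D : Type) [CommRing D] [Algebra K D] (ψ : R →ₐ[K] D), IsUnit (ψ (s 0)) →
      ∃ α : K ⊗[O] A →ₐ[K] D, ∀ k, α (ξ k) * ψ (s 0) = ψ (s k)) (ψ : R →ₐ[K] K ⊗[O] E)
    (hψ : ∀ k, ψ (s k) = (1 : K) ⊗ₜ[O] w * Algebra.TensorProduct.map (AlgHom.id K K)
      (IsScalarTower.toAlgHom O A E) (ξ k)) (L : Type) [CommRing L] [Algebra R L] [Algebra K L]
    [IsScalarTower K R L] [IsLocalization.Away (s 0) L] :
    @IsLocalization.Away R _ (s 0) (K ⊗[O] E) _ ψ.toRingHom.toAlgebra := by
  let _ := ψ.toRingHom.toAlgebra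
  let _ : Algebra O L := ((algebraMap K L).comp (algebraMap O K)).toAlgebra
  have : IsScalarTower O K L := .of_algebraMap_eq fun _ => rfl
  let j := IsScalarTower.toAlgHom K R L
  let i : L := IsLocalization.Away.invSelf (s 0)
  have hi : j (s 0) * i = 1 := IsLocalization.Away.mul_invSelf (s 0)
  obtain ⟨α, hα⟩ := U L j (.of_mul_eq_one _ hi)
  have h2 : 2 * algebraMap K L 2⁻¹ = 1 := by
    rw [← map_ofNat (algebraMap K L), ← map_mul, mul_inv_cancel₀ two_ne_zero, map_one]
  have h3 : j (s 0) ^ 2 * (1 + 4 * α (1 ⊗ₜ c)) = 1 := by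
    have := congrArg j h1
    rw [map_add, map_mul, map_pow, map_one, map_ofNat, MvPolynomial.comp_aeval_apply] at this
    rw [show (fun k => j (s k)) = fun k => j (s 0) * α (ξ k) from funext fun k => by
      rw [← hα k, mul_comm], Mtx.scal hg, ← MvPolynomial.comp_aeval_apply, hc] at this
    linear_combination this
  have hx : 1 + 2 * ((i - 1) * algebraMap K L 2⁻¹) = i := by linear_combination (i - 1) * h2
  obtain ⟨F, F1, F2⟩ := H.lift L ((α : _ →+* L).comp Algebra.TensorProduct.includeRight.toRingHom)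
    ((i - 1) * algebraMap K L 2⁻¹) (by
      change _ = α (1 ⊗ₜ c)
      linear_combination algebraMap K L 2⁻¹ ^ 2 * ((1 + 4 * α (1 ⊗ₜ c)) * (j (s 0) * i + 1) * hi -
        i ^ 2 * h3) + (α (1 ⊗ₜ c) * (2 * algebraMap K L 2⁻¹ + 1) - (i - 1) * algebraMap K L 2⁻¹) * h2)
    (hx.symm ▸ .of_mul_eq_one_right _ hi)
  have Fw : F w = j (s 0) := by
    have := congrArg F hw
    rw [map_mul, map_add, map_mul, map_one, map_ofNat, F2, hx] at this
    linear_combination j (s 0) * this - F w * hi
  let G : K ⊗[O] E →ₐ[K] L := Algebra.TensorProduct.lift (Algebra.ofId K L)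
    ⟨F, fun o => by
      rw [IsScalarTower.algebraMap_apply O A E]
      refine congr($F1 _).trans ((congrArg α ?_).trans (α.commutes (algebraMap O K o)))
      exact (Algebra.TensorProduct.includeRight (R := O) (A := K) (B := A)).commutes o⟩ fun _ _ => .all _ _
  have G1 (x : E) : G (1 ⊗ₜ x) = F x := by simp [G]
  let α₀ := Algebra.TensorProduct.map (AlgHom.id K K) (IsScalarTower.toAlgHom O A E)
  have Ga : G.comp α₀ = α := by
    ext a
    exact (G1 _).trans congr($F1 a)
  have Gp : G.comp ψ = j := (AlgHom.cancel_right hs).1 (by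
    ext k
    simp only [AlgHom.comp_apply, MvPolynomial.aeval_X, hψ, map_mul, G1, Fw]
    rw [← hα k, mul_comm, ← Ga]; rfl)
  have p0 : ψ (s 0) = 1 ⊗ₜ w := by rw [hψ, h0, map_one, mul_one]
  have hz : (1 + 2 * (1 : K) ⊗ₜ[O] y) * ψ (s 0) = 1 := by
    have := congrArg (Algebra.TensorProduct.includeRight (R := O) (A := K)) hw
    rw [map_mul, map_add, map_mul, map_ofNat, map_one] at this
    rw [p0]; exact this
  let T : L →ₐ[K] K ⊗[O] E := IsLocalization.Away.liftAlgHom (s 0) (.of_mul_eq_one_right _ hz)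
  have T1 (x : R) : T (j x) = ψ x :=
    IsLocalization.Away.lift_eq (g := ψ.toRingHom) (s 0) (.of_mul_eq_one_right _ hz) x
  have Ta : T.comp α = α₀ := (AlgHom.cancel_right hξ).1 (by
    ext k
    have := congrArg T (hα k)
    rw [map_mul, T1, T1, hψ k, ← p0] at this
    simp only [AlgHom.comp_apply, MvPolynomial.aeval_X]
    linear_combination (1 + 2 * (1 : K) ⊗ₜ[O] y) * this - (T (α (ξ k)) - α₀ (ξ k)) * hz)
  have TF : T.toRingHom.comp F = Algebra.TensorProduct.includeRight.toRingHom := by
    refine H.ext _ _ _ (RingHom.ext fun a => (congrArg T congr($F1 a)).trans congr($Ta (1 ⊗ₜ a))) ?_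
    have t1 := congrArg T hi
    have t2 := congrArg T h2
    rw [map_mul, map_one] at t1 t2
    rw [T1] at t1
    rw [map_ofNat] at t2
    change T (F y) = 1 ⊗ₜ y
    rw [F2, map_mul, map_sub, map_one]
    linear_combination T (algebraMap K L 2⁻¹) * ((1 + 2 * (1 : K) ⊗ₜ[O] y) * t1 - T i * hz) +
      (1 : K) ⊗ₜ[O] y * t2
  have TG : T.comp G = .id K _ := by
    ext x
    exact (congrArg T (G1 x)).trans congr($TF x)
  have GT : G.toRingHom.comp T.toRingHom = .id L := IsLocalization.ringHom_ext (.powers (s 0))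
    (RingHom.ext fun x => (congrArg G (T1 x)).trans congr($Gp x))
  exact IsLocalization.isLocalization_of_algEquiv _ (AlgEquiv.ofBijective
    (⟨T, T1⟩ : L →ₐ[R] K ⊗[O] E) ⟨LeftInverse.injective (g := G) fun x => congr($GT x),
      RightInverse.surjective (g := G) fun x => congr($TG x)⟩)

end Modl

end Pool.Agent.MP_855f4c_ag.LG

end
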