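import Pool.Agent.MP_855f4c_ag.VC.Vh
import Pool.Agent.MP_855f4c_ag.VC.Vg

set_option linter.all false

section

/-! h67a, row CH: charts of a closed subscheme of projective space. -/

set_option autoImplicit false
set_option backward.isDefEq.respectTransparency false

open CategoryTheory Limits AlgebraicGeometry MvPolynomial Function

namespace Pool.Agent.MP_855f4c_ag.LG

open E E3 Pool.Agent.MP_855f4c_ag.T YJ

attribute [local instance] MvPolynomial.gradedAlgebra

variable {K : Type} [CommRing K] {n : ℕ} {Y : Scheme.{0}} {ι : Y ⟶ PP K n} {o : Fin n}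

/-- A chart lies over the base. -/
lemma Ch.over {R : Type} [CommRing R] [Algebra K R] {v : Fin n → R} {u : Spec (.of R) ⟶ Y}
    (h : Ch ι o v u) : u ≫ ι ≫ pS K n = spc (algebraMap K R) := by
  rw [← Category.assoc, h.pnt (h.one ▸ isUnit_one)]
  exact pt_over _ _ _ _

lemma ch1 (ι : Y ⟶ PP K n) [IsClosedImmersion ι] (o : Fin n) :
    ∃ (R : Type) (_ : CommRing R) (_ : Algebra K R) (v : Fin n → R) (u : Spec (.of R) ⟶ Y),
      Ch ι o v u := by
  obtain ⟨a, j, hj, hr, hp⟩ := Aff.core ι o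
  let v : Fin n → MvPolynomial {k // k ≠ o} K ⧸ a :=
    fun k => if h : k = o then 1 else Ideal.Quotient.mk _ (X ⟨k, h⟩)
  have h1 : v o = 1 := dif_pos rfl
  have h2 (k : {k // k ≠ o}) : v k = Ideal.Quotient.mk _ (X k) := dif_neg k.2
  refine ⟨_, _, inferInstance, v, j, h1, fun z => ?_, hj, hr, fun h => ?_⟩
  · obtain ⟨g, rfl⟩ := Ideal.Quotient.mk_surjective z
    refine ⟨rename Subtype.val g, ?_⟩
    have : (aeval v).comp (rename Subtype.val) = Ideal.Quotient.mkₐ K a :=
      algHom_ext fun k => by simp [h2]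
    exact congr($this g)
  · have := hp _ (RingHom.id _) v h fun k => by rw [h1, one_mul, h2]; rfl
    rwa [CommRingCat.ofHom_id, Spec.map_id, Category.id_comp] at this

/-- Transport of a chart along an isomorphism. -/
lemma ch2 [IsClosedImmersion ι] (R : Type) [CommRing R] [Algebra K R] (u : Spec (.of R) ⟶ Y)
    [IsOpenImmersion u] (hu : u ≫ ι ≫ pS K n = spc (algebraMap K R))
    (hr : ∀ y, y ∈ Set.range u ↔ X o ∉ (ι y).asHomogeneousIdeal) : ∃ v, Ch ι o v u := by
  obtain ⟨S, _, _, v, j, h⟩ := ch1 ι o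
  have := h.opn
  have e : Set.range u = Set.range j := Set.ext fun y => (hr y).trans (h.rng y).symm
  obtain ⟨m, hm⟩ := Spec.map_surjective (IsOpenImmersion.isoOfRangeEq u j e).hom
  have hj : Spec.map m ≫ j = u := hm ▸ IsOpenImmersion.isoOfRangeEq_hom_fac u j e
  have hi : IsIso m := by
    have : IsIso (Spec.map m) := hm ▸ inferInstance
    exact (isIso_SpecMap_iff.1 this) |> fun b => (ConcreteCategory.isIso_iff_bijective m).2 b
  have hs : Surjective m.hom := ((ConcreteCategory.isIso_iff_bijective m).1 hi).2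
  have hK : m.hom.comp (algebraMap K S) = algebraMap K R := by
    rw [← hj, Category.assoc, h.over, ← Spec.map_comp] at hu
    exact congrArg CommRingCat.Hom.hom (Spec.map_injective hu)
  let m' : S →ₐ[K] R := ⟨m.hom, fun c => congr($hK c)⟩
  refine ⟨fun k => m.hom (v k), by rw [h.one, map_one], ?_, ‹_›, hr, fun hv => ?_⟩
  · have : (aeval fun k => m.hom (v k) : MvPolynomial (Fin n) K →ₐ[K] R) = m'.comp (aeval v) :=
      algHom_ext fun k => by simp [m']
    rw [this]
    exact hs.comp h.sur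
  · rw [← hj, Category.assoc, h.pnt (h.one ▸ isUnit_one), ← hK]
    exact pt_comp _ _ _ _ m.hom

/-- Points factor through a chart. -/
lemma Ch.fac {R : Type} [CommRing R] [Algebra K R] {v : Fin n → R} {u : Spec (.of R) ⟶ Y}
    (H : Ch ι o v u) {D : Type} [CommRing D] {χ : K →+* D} {w : Fin n → D} {i : Fin n}
    {h : IsUnit (w i)} {y : Spec (.of D) ⟶ Y} (hy : y ≫ ι = pt χ w i h) (ho : IsUnit (w o)) :
    ∃ ψ : R →+* D, ψ.comp (algebraMap K R) = χ ∧ (∀ k, ψ (v k) * w o = w k) ∧ spc ψ ≫ u = y := by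
  have := H.opn
  have hr : Set.range y ⊆ Set.range u := by
    rintro _ ⟨z, rfl⟩
    rw [H.rng, ← Scheme.Hom.comp_apply, hy]
    refine (pt_mem χ w i h (xm K o) one_pos z).2 ?_
    rw [eval₂_X]
    exact fun hz => z.isPrime.ne_top (Ideal.eq_top_of_isUnit_mem _ hz ho)
  obtain ⟨m, hm⟩ := Spec.map_surjective (IsOpenImmersion.lift u y hr)
  have e : Spec.map m ≫ u = y := hm ▸ IsOpenImmersion.lift_fac u y hr
  have h1 : IsUnit (v o) := H.one ▸ isUnit_one
  refine ⟨m.hom, ?_, fun k => ?_, e⟩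
  · have := pt_over χ w i h
    rw [← hy, ← e, Category.assoc, Category.assoc, H.over, ← Spec.map_comp] at this
    exact congrArg CommRingCat.Hom.hom (Spec.map_injective this)
  · rw [← e, Category.assoc, H.pnt h1] at hy
    have := pt_inj _ _ _ _ ((pt_comp _ _ _ _ m.hom).symm.trans hy) k
    rwa [H.one, map_one, mul_one] at this

theorem ch : CH_s := fun _ _ _ _ ι _ o =>
  ⟨ch1 ι o, fun R _ _ u _ hu hr => ch2 R u hu hr, fun _ _ _ _ _ H _ _ _ _ _ _ _ hy ho => H.fac hy ho⟩

end Pool.Agent.MP_855f4c_ag.LG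

end

section

set_option autoImplicit false

open MvPolynomial

namespace Pool.Agent.MP_855f4c_ag.LG

lemma bert_grid {K ι : Type} [Field K] [CharZero K] (Δ : MvPolynomial ι K) (h : Δ ≠ 0)
    (c₀ : ι → K) (c : K) (hc : c ≠ 0) : ∃ m : ι → ℕ, eval (fun i => c₀ i + c * m i) Δ ≠ 0 := by
  by_contra hn
  push Not at hn
  refine h (funext_set (s := fun i => Set.range fun x : ℕ => c₀ i + c * x)
    (fun i => Set.infinite_range_of_injective fun x y e => ?_) fun x hx => ?_)
  · exact Nat.cast_injective (mul_left_cancel₀ hc (add_left_cancel e))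
  · choose m hm using fun i => hx i trivial
    rw [map_zero, ← funext hm]
    exact hn m

theorem bert : BERT_s := by
  intro O K _ _ _ _ n R _ _ _ v c hv hc
  choose Δ h0 h1 using fun o => L.Bq.bq K (R o) _
    (fun p : Fin (n + 1) × Fin (n + 1) => v o p.1 * v o p.2) (o, o)
    (by rw [hv o, mul_one]; exact isUnit_one)
  obtain ⟨m, hm⟩ := bert_grid (∏ o, Δ o) (Finset.prod_ne_zero_iff.2 fun o _ => h0 o)
    (Pi.single (0, 0) 1) c hc
  rw [map_prod, Finset.prod_ne_zero_iff] at hm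
  refine ⟨∑ p, C (m p : O) * (X p.1 * X p.2), .sum _ _ _ fun p _ =>
    ((isHomogeneous_X O p.1).mul (isHomogeneous_X O p.2)).C_mul _, fun o => ?_⟩
  have e : aeval (v o) (X 0 ^ 2 + C c * map (algebraMap O K) (∑ p, C (m p : O) * (X p.1 * X p.2))) =
      ∑ p, ((Pi.single (0, 0) 1 : Fin (n + 1) × Fin (n + 1) → K) p + c * m p) •
        (v o p.1 * v o p.2) := by
    simp only [add_smul, Finset.sum_add_distrib]
    conv_rhs => rw [Finset.sum_eq_single (0, 0)
      (fun p _ hp => by rw [Pi.single_eq_of_ne hp, zero_smul]) (by simp)]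
    simp [Algebra.smul_def, Finset.mul_sum, mul_assoc, pow_two]
  rw [e]
  exact h1 o _ (hm o (Finset.mem_univ o))

end Pool.Agent.MP_855f4c_ag.LG

end

section

/-! h67a row SMQ: the double cover and its branch locus are smooth. -/

set_option autoImplicit false
set_option backward.isDefEq.respectTransparency false

open CategoryTheory AlgebraicGeometry

namespace Pool.Agent.MP_855f4c_ag.LG

open E

/-- A smooth algebra over a field is reduced. -/
lemma smq_red (K A : Type) [Field K] [CommRing A] [Algebra K A] [h : Algebra.Smooth K A] :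
    _root_.IsReduced A := by
  have : Smooth (spc (algebraMap K A)) :=
    (HasRingHomProperty.Spec_iff (P := @Smooth)).2 (RingHom.smooth_algebraMap.2 h)
  have (x : Spec (.of A)) : _root_.IsReduced ((Spec (.of A)).presheaf.stalk x) := by
    obtain ⟨U, hx, -, _⟩ := D.intb K _ (spc (algebraMap K A)) x
    obtain ⟨y, rfl⟩ : ∃ y : U.toScheme, U.ι y = x := ⟨⟨x, hx⟩, rfl⟩
    exact isReduced_of_injective _ (asIso (U.ι.stalkMap y)).commRingCatIsoToRingEquiv.injective
  exact (affine_isReduced_iff (.of A)).1 (isReduced_of_isReduced_stalk _)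

theorem smq : SMQ_s := by
  intro K R _ _ _ _ d q h ⟨D, a, hD⟩
  have h1 := (HasRingHomProperty.Spec_iff (P := @SmoothOfRelativeDimension d)).1 h
  obtain ⟨_, -⟩ := L.Bq.loc_iff.1 h1
  have h2 : IsUnit (2 : R) := by
    simpa only [map_ofNat] using (IsUnit.mk0 (2 : K) two_ne_zero).map (algebraMap K R)
  have := L.Bq.smq2 D hD h2
  have h3 := L.Bq.smq D hD
  exact ⟨(HasRingHomProperty.Spec_iff (P := @SmoothOfRelativeDimension d)).2
    (L.Bq.smq2_loc D hD h2 h1), smq_red K _,
    (HasRingHomProperty.Spec_iff (P := @Smooth)).2 (RingHom.smooth_algebraMap.2 h3), smq_red K _⟩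

end Pool.Agent.MP_855f4c_ag.LG

end

section

/-! h67a, row RS: reduced closed subschemes with given charts. -/

set_option autoImplicit false
set_option backward.isDefEq.respectTransparency false

open CategoryTheory Limits AlgebraicGeometry MvPolynomial Function

namespace Pool.Agent.MP_855f4c_ag.LG

open E E3 Pool.Agent.MP_855f4c_ag.T YJ Scheme.IdealSheafData

attribute [local instance] MvPolynomial.gradedAlgebra

namespace RS

/-- The reduced closed subscheme on a closed set. -/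
lemma red (P : Scheme.{0}) (Z : Set P) (hZ : IsClosed Z) : ∃ (T : Scheme.{0}) (ι : T ⟶ P),
    IsClosedImmersion ι ∧ IsReduced T ∧ Set.range ι = Z ∧
    ∀ (T' : Scheme.{0}) [IsReduced T'] (t : T' ⟶ P), Set.range t ⊆ Z → ∃ s, s ≫ ι = t := by
  let I := vanishingIdeal (X := P) ⟨Z, hZ⟩
  refine ⟨I.subscheme, I.subschemeι, inferInstance, ?_, ?_, fun T' _ t ht => ?_⟩
  · refine (IsReduced.iff_of_openCover _ I.subschemeCover.openCover).2 fun U => ?_
    have : _root_.IsReduced (Γ(P, U.1) ⧸ I.ideal U) :=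
      (Ideal.isRadical_iff_quotient_reduced _).1 (PrimeSpectrum.isRadical_vanishingIdeal _)
    exact inferInstanceAs (IsReduced (Spec (.of (Γ(P, U.1) ⧸ I.ideal U))))
  · rw [range_subschemeι, coe_support_vanishingIdeal]
    rfl
  · refine ⟨_, IsClosedImmersion.lift_fac I.subschemeι t ?_⟩
    rw [ker_subschemeι, ← map_bot, ← T'.nilradical_eq_bot, ← vanishingIdeal_top,
      map_vanishingIdeal]
    exact vanishingIdeal_antimono (TopologicalSpace.Closeds.closure_le.2
      ((Set.image_subset_range _ _).trans ht))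

/-- A closed subscheme of an open part that fills a reduced closed subscheme there. -/
lemma opn {P T U W : Scheme.{0}} (ι : T ⟶ P) [IsClosedImmersion ι] [IsReduced T] (t : U ⟶ P)
    [IsOpenImmersion t] (q : W ⟶ U) [IsClosedImmersion q] (c : W ⟶ T) (h : c ≫ ι = q ≫ t)
    (hc : ∀ y, ι y ∈ Set.range t → y ∈ Set.range c) : IsOpenImmersion c := by
  have e : pullback.lift c q h ≫ pullback.fst ι t = c := pullback.lift_fst _ _ _
  have : IsClosedImmersion (pullback.lift c q h ≫ pullback.snd ι t) := by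
    rwa [pullback.lift_snd]
  have := IsClosedImmersion.of_comp_isClosedImmersion (pullback.lift c q h) (pullback.snd ι t)
  have := isReduced_of_isOpenImmersion (pullback.fst ι t)
  have : AlgebraicGeometry.Surjective (pullback.lift c q h) := ⟨fun x => by
    obtain ⟨s, hs⟩ := hc _ ((Scheme.Pullback.range_fst ι t).le ⟨x, rfl⟩)
    refine ⟨s, (pullback.fst ι t).isOpenEmbedding.injective ?_⟩
    rw [← Scheme.Hom.comp_apply, e, hs]⟩
  have := isIso_of_isClosedImmersion_of_surjective (pullback.lift c q h)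
  rw [← e]
  infer_instance

end RS

theorem rs : RS_s := by
  intro K _ m κ e S _ _ _ w Z hZ h₁ h₂ h₃
  obtain ⟨T, ι, _, _, hr, hl⟩ := RS.red _ Z hZ
  have hu : ∀ i, IsUnit (w i (e i)) := fun i => h₁ i ▸ isUnit_one
  choose c hc using fun i => hl _ (pt (algebraMap K (S i)) (w i) (e i) (hu i))
    fun z hz => ((h₃ i _ z).1 hz).1
  have h₄ : ∀ i y, y ∈ Set.range (c i) ↔ X (e i) ∉ (ι y).asHomogeneousIdeal := fun i y => by
    rw [← and_iff_right (a := ι y ∈ Z) (b := X (e i) ∉ _) (hr.le ⟨y, rfl⟩), ← h₃ i (hu i), ← hc]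
    exact exists_congr fun s => by
      rw [Scheme.Hom.comp_apply, ι.isClosedEmbedding.injective.eq_iff]
  refine ⟨T, ι, c, ‹_›, ‹_›, hr, fun i => ⟨h₁ i, h₂ i, ?_, h₄ i, fun _ => hc i⟩, hl⟩
  have : IsClosedImmersion (spc (ev _ (eval₂Hom (algebraMap K (S i)) (w i)) (X (e i))
      (unit_X _ (hu i)))) := IsClosedImmersion.spec_of_surjective _ fun x => by
    obtain ⟨f, rfl⟩ := h₂ i x
    refine ⟨eval₂Hom (kB K (e i)) (fr K (e i)) f, ?_⟩
    change ((ev _ _ _ (unit_X _ (hu i))).comp _) f = eval₂Hom (algebraMap K (S i)) (w i) f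
    rw [comp_eval₂Hom]
    congr 2
    · exact RingHom.ext (ev_kB _ _ (hu i))
    · exact funext fun k => by simpa [h₁ i] using ev_fr (algebraMap K (S i)) (w i) (hu i) k
  refine RS.opn ι (Proj.awayι _ _ (xm K (e i)) one_pos) _ (c i) (hc i) fun y hy => (h₄ i y).2 ?_
  exact (Proj.opensRange_awayι _ _ (xm K (e i)) one_pos).le hy

end Pool.Agent.MP_855f4c_ag.LG

end

section

/-! h67a, row SGP: the reflection of projective space in the first coordinate. -/

set_option autoImplicit false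
set_option backward.isDefEq.respectTransparency false

open CategoryTheory Limits Opposite AlgebraicGeometry MvPolynomial Function HomogeneousLocalization

namespace Pool.Agent.MP_855f4c_ag.LG

open E E3 Pool.Agent.MP_855f4c_ag.T YJ

attribute [local instance] MvPolynomial.gradedAlgebra

namespace SGP

section
variable {σ A D : Type} [CommRing A] [SetLike σ A] [AddSubgroupClass σ A] {𝒜 : ℕ → σ}
  [GradedRing 𝒜] [CommRing D] (g : GradedRingHom 𝒜 𝒜)
  (hg : HomogeneousIdeal.irrelevant 𝒜 ≤ (HomogeneousIdeal.irrelevant 𝒜).map g)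

lemma sp_map (Φ : A →+* D) {s : A} {d : ℕ} (hs : s ∈ 𝒜 d) (hd : 0 < d) (h : IsUnit (Φ (g s))) :
    sp 𝒜 Φ (g.2 hs) hd h ≫ Proj.map g hg = sp 𝒜 (Φ.comp g.1) hs hd h := by
  have e : (ev 𝒜 Φ (g s) h).comp (Away.map g s) = ev 𝒜 (Φ.comp g.1) s h :=
    ev_ext 𝒜 _ _ hs _ fun n a ha => by
      rw [RingHom.comp_apply, Away.map_mk]
      exact ev_mk 𝒜 Φ h _ n _ _
  rw [sp, sp, Category.assoc, ← e, CommRingCat.ofHom_comp, Spec.map_comp_assoc]
  exact congrArg _ (Proj.awayι_comp_map g hg hd s hs)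

lemma map_one (e : g = .id 𝒜) : Proj.map g hg = 𝟙 _ := by
  subst e
  exact Proj.map_id

lemma map_over {K : Type} [CommRing K] (φ : K →+* 𝒜 0) (e : ∀ c, g (φ c) = φ c) :
    Proj.map g hg ≫ Proj.toSpecZero 𝒜 ≫ spc φ = Proj.toSpecZero 𝒜 ≫ spc φ := by
  refine (Proj.mapAffineOpenCover g hg).openCover.hom_ext _ _ fun s => ?_
  refine (Proj.awayι_comp_map_assoc g hg s.1.2 _ s.2.2 _).trans ?_
  refine Eq.trans ?_ (Proj.awayι_toSpecZero_assoc 𝒜 _ (g.2 s.2.2) s.1.2 _).symm
  rw [Proj.awayι_toSpecZero_assoc, spc, ← Spec.map_comp, ← Spec.map_comp, ← Spec.map_comp]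
  congr 1
  ext1
  ext1 c
  apply val_injective
  exact congrArg₂ Localization.mk (e c) (Subtype.ext (_root_.map_one g))

end

variable (K : Type) [CommRing K] (m : ℕ)

/-- The signs. -/
def sg : Fin (m + 1) → K := Fin.cons (-1) fun _ => 1

lemma sg_sq (k : Fin (m + 1)) : sg K m k * sg K m k = 1 := by
  refine Fin.cases ?_ (fun k => ?_) k <;> simp [sg]

/-- The reflection on polynomials. -/
noncomputable def rf : GradedRingHom (homogeneousSubmodule (Fin (m + 1)) K)
    (homogeneousSubmodule (Fin (m + 1)) K) where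
  toRingHom := (aeval fun k => C (sg K m k) * X k :
    MvPolynomial (Fin (m + 1)) K →ₐ[K] MvPolynomial (Fin (m + 1)) K).toRingHom
  map_mem := fun {i x} hx => by
    have := (show x.IsHomogeneous i from hx).aeval (n := 1) (fun k => C (sg K m k) * X k)
      fun k => (isHomogeneous_X K k).C_mul _
    rwa [one_mul] at this

lemma rf_C (c : K) : rf K m (C c) = C c := aeval_C _ c

lemma rf_X (k : Fin (m + 1)) : rf K m (X k) = C (sg K m k) * X k := aeval_X _ k

lemma rf_rf : (rf K m).comp (rf K m) = .id _ := by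
  have : (rf K m).1.comp (rf K m).1 = RingHom.id _ :=
    MvPolynomial.ringHom_ext (fun c => (congrArg (rf K m) (rf_C K m c)).trans (rf_C K m c))
      fun k => by
        change rf K m (rf K m (X k)) = X k
        rw [rf_X, map_mul, rf_C, rf_X, ← mul_assoc, ← map_mul, sg_sq, _root_.map_one, one_mul]
  exact GradedRingHom.ext fun x => DFunLike.congr_fun this x

lemma rf_irr : HomogeneousIdeal.irrelevant (homogeneousSubmodule (Fin (m + 1)) K) ≤
    (HomogeneousIdeal.irrelevant _).map (rf K m) :=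
  (HomogeneousIdeal.irrelevant_le _).2 fun i hi x hx => by
    have e : rf K m (rf K m x) = x := DFunLike.congr_fun (rf_rf K m) x
    exact e ▸ Ideal.mem_map_of_mem (rf K m)
      (HomogeneousIdeal.mem_irrelevant_of_mem _ hi ((rf K m).2 hx))

end SGP

open SGP in
theorem sgp : SGP_s := by
  intro K _ m
  refine ⟨Proj.map (rf K m) (rf_irr K m), ?_, map_over _ _ _ (rf_C K m), ?_⟩
  · exact (Proj.map_comp _ _ _ _).symm.trans (SGP.map_one _ _ (rf_rf K m))
  · intro D _ χ w w' i h h' h0 hs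
    have e : (eval₂Hom χ w).comp (rf K m).1 = eval₂Hom χ w' :=
      MvPolynomial.ringHom_ext (fun c => (congrArg (eval₂Hom χ w) (rf_C K m c)).trans
        ((eval₂Hom_C _ _ c).trans (eval₂Hom_C _ _ c).symm)) fun k => by
          change eval₂Hom χ w (rf K m (X k)) = _
          rw [rf_X, map_mul, eval₂Hom_C, eval₂Hom_X', eval₂Hom_X']
          refine Fin.cases ?_ (fun k => ?_) k <;> simp [sg, h0, hs]
    have hu : IsUnit (eval₂Hom χ w (rf K m (X i))) :=
      (DFunLike.congr_fun e (X i)).symm ▸ unit_X χ h'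
    rw [pt, pt, sp_chart _ _ (xm K i) one_pos _ ((rf K m).2 (xm K i)) one_pos hu]
    refine (sp_map _ _ _ (xm K i) one_pos hu).trans ?_
    congr 1

end Pool.Agent.MP_855f4c_ag.LG

end

section

/-! h67a, row NE: a hypersurface meets a variety of positive dimension. -/

set_option autoImplicit false
set_option backward.isDefEq.respectTransparency false

open CategoryTheory Limits Opposite AlgebraicGeometry MvPolynomial Function IsLocalRing

namespace Pool.Agent.MP_855f4c_ag.LG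

open E E3 Pool.Agent.MP_855f4c_ag.T YJ

attribute [local instance] MvPolynomial.gradedAlgebra

lemma NE.core {R S : Type} [CommRing R] [CommRing S] [Nontrivial S] (hR : IsField R) (φ : R →+* S)
    {d : ℕ} (hd : 0 < d) (h1 : φ.IsStandardSmoothOfRelativeDimension d) (h2 : φ.QuasiFinite) :
    False := by
  let := hR.toField
  obtain ⟨g, hg, he⟩ := h1.exists_etale_mvPolynomial
  let := φ.toAlgebra
  have : Algebra.QuasiFinite R S := h2
  have : Module.Finite R S := .of_quasiFinite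
  let := g.toAlgebra
  have : Algebra.Etale (MvPolynomial (Fin d) R) S := he
  let g' : MvPolynomial (Fin d) R →ₐ[R] S := ⟨g, fun r => congr($hg r)⟩
  have hi : Injective g' := (injective_iff_map_eq_zero g').2 fun p hp => by
    by_contra h
    have hr : IsSMulRegular S p :=
      Module.Flat.isSMulRegular_of_nonZeroDivisors (mem_nonZeroDivisors_of_ne_zero h)
    refine one_ne_zero (hr (?_ : p • (1 : S) = p • 0))
    rw [smul_zero, Algebra.smul_def, mul_one]
    exact hp
  exact transcendental_X R (⟨0, hd⟩ : Fin d)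
    ((isAlgebraic_algHom_iff g' hi).1 (Algebra.IsAlgebraic.isAlgebraic _))

theorem ne : NE_s := by
  intro K _ n Y f d _ hY ι _ q r hf hd hr hq
  by_contra h
  push Not at h
  have hp : IsProper f := hf ▸ Lr.prp K (Fin n) ι
  have ha : IsAffineOpen (⊤ : Y.Opens) := by
    have e : ι ⁻¹ᵁ Proj.basicOpen (homogeneousSubmodule (Fin n) K) q = ⊤ :=
      top_le_iff.1 fun y _ => h y
    exact e ▸ (Proj.isAffineOpen_basicOpen _ q hq hr).preimage ι
  have : IsAffine (⊤ : Y.Opens) := ha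
  have : IsAffine Y := .of_isIso Y.topIso.inv
  have : IsFinite f := IsFinite.iff_isProper_and_isAffineHom.2 ⟨hp, inferInstance⟩
  obtain ⟨y⟩ := hY
  obtain ⟨U, hU, V, hV, hy, e, hs⟩ :=
    SmoothOfRelativeDimension.exists_isStandardSmoothOfRelativeDimension (n := d) (f := f) y
  obtain rfl : U = ⊤ := top_le_iff.1 fun z _ => Subsingleton.elim (f y) z ▸ e hy
  have : Nonempty V := ⟨⟨y, hy⟩⟩
  exact NE.core ((Scheme.ΓSpecIso (.of K)).commRingCatIsoToRingEquiv.toMulEquiv.isField
    (Field.toIsField K)) _ hd hs (LocallyQuasiFinite.quasiFinite_appLE hU hV e)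

end Pool.Agent.MP_855f4c_ag.LG

end

section

/-! h67a, row GI: the double cover is geometrically irreducible. -/

set_option autoImplicit false
set_option backward.isDefEq.respectTransparency false

open CategoryTheory Limits AlgebraicGeometry TensorProduct

namespace Pool.Agent.MP_855f4c_ag.LG.Gi

open E3

/-- The local rings of a smooth algebra over a field are domains. -/
lemma loc (L : Type) {A : Type} [Field L] [CommRing A] [Algebra L A] [Algebra.Smooth L A]
    (p : Ideal A) [p.IsPrime] : IsDomain (Localization.AtPrime p) := by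
  have : Algebra.IsSmoothAt L p := Algebra.FormallySmooth.comp L A (Localization.AtPrime p)
  obtain ⟨h, hh, n, _, _, _⟩ := Algebra.IsSmoothAt.exists_isStandardEtale_mvPolynomial (R := L)
    (p := p)
  have hle : Submonoid.powers h ≤ p.primeCompl := Submonoid.powers_le.2 hh
  let _ := IsLocalization.localizationAlgebraOfSubmonoidLe (Localization.Away h)
    (Localization.AtPrime p) _ _ hle
  have := IsLocalization.localization_isScalarTower_of_submonoid_le (Localization.Away h)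
    (Localization.AtPrime p) _ _ hle
  have := IsLocalization.isLocalization_of_submonoid_le (Localization.Away h)
    (Localization.AtPrime p) _ _ hle
  let _ : Algebra (MvPolynomial (Fin n) L) (Localization.AtPrime p) :=
    ((algebraMap (Localization.Away h) _).comp (algebraMap _ _)).toAlgebra
  have : IsScalarTower (MvPolynomial (Fin n) L) (Localization.Away h) (Localization.AtPrime p) :=
    .of_algebraMap_eq' rfl
  have : IsIntegrallyClosed (MvPolynomial (Fin n) L) :=
    UniqueFactorizationMonoid.instIsIntegrallyClosed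
  exact ((IndEt.of_etale (R := MvPolynomial (Fin n) L) (C := Localization.Away h)).comp
    (IndEt.of_isLocalization (C := Localization.AtPrime p)
      (p.primeCompl.map (algebraMap A (Localization.Away h))))).isDomain

section
variable {R S : Type} [CommRing R] [CommRing S] (φ : R →+* S) (Z : S)
  (hb : Function.Bijective fun x : R × R => φ x.1 + φ x.2 * Z)
include hb

lemma nzd {t : R} (ht : t ∈ nonZeroDivisors R) : φ t ∈ nonZeroDivisors S := by
  refine mem_nonZeroDivisors_iff_left.2 fun s hs => ?_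
  obtain ⟨⟨a, b⟩, rfl⟩ := hb.2 s
  have h : (t * a, t * b) = (0, 0) := hb.1 (by
    simp only [map_mul, map_zero, zero_mul, add_zero]
    rw [← hs]
    ring)
  rw [Prod.mk.injEq] at h
  simp [mem_nonZeroDivisors_iff_left.1 ht a h.1, mem_nonZeroDivisors_iff_left.1 ht b h.2]

/-- A double cover of a domain that is branched somewhere and locally a domain is a domain. -/
lemma dom [IsDomain R] {q : R} (hZ : Z ^ 2 = φ q) (hq : ¬ IsUnit q)
    (hl : ∀ (p : Ideal S) [p.IsPrime], IsDomain (Localization.AtPrime p)) : IsDomain S := by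
  obtain ⟨m, hm, hqm⟩ := exists_max_ideal_of_mem_nonunits hq
  have mul (a b c d : R) : (φ a + φ b * Z) * (φ c + φ d * Z) =
      φ (a * c + b * d * q) + φ (a * d + b * c) * Z := by
    simp only [map_add, map_mul, ← hZ]
    ring
  let p : Ideal S :=
    { carrier := {s | ∃ a ∈ m, ∃ b, s = φ a + φ b * Z}
      zero_mem' := ⟨0, m.zero_mem, 0, by simp⟩
      add_mem' := by
        rintro _ _ ⟨a, ha, b, rfl⟩ ⟨c, hc, d, rfl⟩
        exact ⟨a + c, m.add_mem ha hc, b + d, by simp only [map_add]; ring⟩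
      smul_mem' := by
        rintro s _ ⟨c, hc, d, rfl⟩
        obtain ⟨⟨a, b⟩, rfl⟩ := hb.2 s
        exact ⟨_, m.add_mem (m.mul_mem_left a hc) (m.mul_mem_left (b * d) hqm), _, mul a b c d⟩ }
  have mem (a b : R) : φ a + φ b * Z ∈ p ↔ a ∈ m := by
    refine ⟨?_, fun h => ⟨a, h, b, rfl⟩⟩
    rintro ⟨c, hc, d, h⟩
    exact (Prod.mk.injEq ..).mp (hb.1 (a₁ := (a, b)) (a₂ := (c, d)) h) |>.1 ▸ hc
  have hp : p.IsPrime := by
    refine ⟨(Ideal.ne_top_iff_one _).2 fun h => (Ideal.ne_top_iff_one _).1 hm.ne_top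
      ((mem 1 0).1 (by simpa using h)), fun {x y} h => ?_⟩
    obtain ⟨⟨a, b⟩, rfl⟩ := hb.2 x
    obtain ⟨⟨c, d⟩, rfl⟩ := hb.2 y
    simp only [mul, mem] at h ⊢
    exact hm.isPrime.mem_or_mem ((m.add_mem_iff_left (m.mul_mem_left _ hqm)).1 h)
  have := hl p
  refine Function.Injective.isDomain (algebraMap S (Localization.AtPrime p))
    (IsLocalization.injective _ (M := p.primeCompl) fun s hs => ?_)
  obtain ⟨⟨a, b⟩, rfl⟩ := hb.2 s
  have h1 : a * a + b * -b * q ≠ 0 := fun h => hs ((mem a b).2 (hm.isPrime.mem_of_pow_mem 2 (by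
    rw [sq, eq_neg_of_add_eq_zero_left h]
    exact m.neg_mem (m.mul_mem_left _ hqm))))
  have h2 := nzd φ Z hb (mem_nonZeroDivisors_of_ne_zero h1)
  have h3 := mul a b a (-b)
  rw [show a * -b + b * a = 0 by ring, map_zero, zero_mul, add_zero] at h3
  exact (mul_mem_nonZeroDivisors.1 (h3 ▸ h2)).1

end

/-- The basis `1, Z` after base change. -/
lemma bc {K R S : Type} (L : Type) [CommRing K] [CommRing L] [CommRing R] [CommRing S] [Algebra K L]
    [Algebra K R] [Algebra K S] (φ : R →ₐ[K] S) (Z : S)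
    (hb : Function.Bijective fun x : R × R => φ x.1 + φ x.2 * Z) :
    Function.Bijective fun x : (L ⊗[K] R) × (L ⊗[K] R) =>
      Algebra.TensorProduct.map (AlgHom.id K L) φ x.1 +
        Algebra.TensorProduct.map (AlgHom.id K L) φ x.2 * (1 ⊗ₜ Z) := by
  let e : (R × R) ≃ₗ[K] S := LinearEquiv.ofBijective
    (φ.toLinearMap.coprod ((LinearMap.mulRight K Z).comp φ.toLinearMap)) hb
  have he (a b : R) : e (a, b) = φ a + φ b * Z := rfl
  let e' := (prodRight K K L R R).symm ≪≫ₗ e.lTensor L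
  convert e'.bijective using 1
  ext ⟨a, b⟩
  have h1 : Algebra.TensorProduct.map (AlgHom.id K L) φ a = e' (a, 0) := by
    induction a with
    | zero => simp [Prod.mk_zero_zero]
    | add x y hx hy => rw [map_add, hx, hy, ← map_add, Prod.mk_add_mk, add_zero]
    | tmul l r => 
      have : (prodRight K K L R R).symm (l ⊗ₜ r, 0) = l ⊗ₜ (r, 0) := by
        rw [LinearEquiv.symm_apply_eq]; simp
      simp [e', this, he]
  have h2 : Algebra.TensorProduct.map (AlgHom.id K L) φ b * (1 ⊗ₜ Z) = e' (0, b) := by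
    induction b with
    | zero => simp [Prod.mk_zero_zero]
    | add x y hx hy => rw [map_add, add_mul, hx, hy, ← map_add, Prod.mk_add_mk, add_zero]
    | tmul l r => 
      have : (prodRight K K L R R).symm (0, l ⊗ₜ r) = l ⊗ₜ (0, r) := by
        rw [LinearEquiv.symm_apply_eq]; simp
      simp [e', this, he]
  rw [h1, h2, ← map_add, Prod.mk_add_mk, add_zero, zero_add]

section
variable {K : Type} [Field K]

/-- Geometric irreducibility of an affine scheme. -/
lemma aff_iff (A : Type) [CommRing A] [Algebra K A] :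
    GeometricallyIrreducible (Spec.map (CommRingCat.ofHom (algebraMap K A))) ↔
      ∀ (L : Type) [Field L] [Algebra K L], IrreducibleSpace (PrimeSpectrum (L ⊗[K] A)) := by
  rw [geometricallyIrreducible_iff, geometrically_iff_of_commRing_of_isClosedUnderIsomorphisms]
  refine forall_congr' fun L => forall_congr' fun _ => forall_congr' fun _ => ?_
  exact (pullbackSymmetry _ _ ≪≫ pullbackSpecIso K L A).hom.homeomorph.irreducibleSpace_iff

/-- An irreducible smooth algebra is a domain. -/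
lemma dom_of (L : Type) {A : Type} [Field L] [CommRing A] [Algebra L A] [Algebra.Smooth L A]
    [IrreducibleSpace (PrimeSpectrum A)] : IsDomain A := by
  have : _root_.IsReduced A := isReduced_ofLocalizationMaximal A fun p _ =>
    have := loc L p
    inferInstance
  have := (PrimeSpectrum.irreducibleSpace_iff_isPrime_nilradical (R := A)).1 inferInstance
  rw [nilradical_eq_zero, Ideal.zero_eq_bot] at this
  exact IsDomain.of_bot_isPrime A

/-- The branched chart. -/
lemma chart {R S : Type} [CommRing R] [CommRing S] [Algebra K R] [Algebra K S] [Algebra.Smooth K R]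
    [Algebra.Smooth K S] (φ : R →ₐ[K] S) (Z : S)
    (hb : Function.Bijective fun x : R × R => φ x.1 + φ x.2 * Z) {q : R} (hZ : Z ^ 2 = φ q)
    (hq : ¬ IsUnit q) [h : GeometricallyIrreducible (Spec.map (CommRingCat.ofHom (algebraMap K R)))] :
    GeometricallyIrreducible (Spec.map (CommRingCat.ofHom (algebraMap K S))) := by
  refine (aff_iff S).2 fun L _ _ => ?_
  have := (aff_iff R).1 h L
  have := dom_of L (A := L ⊗[K] R)
  have := dom (Algebra.TensorProduct.map (AlgHom.id K L) φ : L ⊗[K] R →+* L ⊗[K] S) (1 ⊗ₜ Z)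
    (bc L φ Z hb) (q := 1 ⊗ₜ q) (by simp [hZ]) (fun hu => ?_) (fun p _ => loc L p)
  · infer_instance
  · have : Nontrivial (R ⧸ Ideal.span {q}) :=
      Ideal.Quotient.nontrivial_iff.2 fun h => hq (Ideal.span_singleton_eq_top.1 h)
    have h1 := hu.map (Algebra.TensorProduct.map (AlgHom.id K L) (Ideal.Quotient.mkₐ K (Ideal.span {q})))
    simp at h1

/-- A scheme with a dense geometrically irreducible open subscheme. -/
lemma of_dense {U X : Scheme.{0}} (c : U ⟶ X) (g : X ⟶ Spec (.of K)) (hc : DenseRange c)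
    [IsOpenImmersion c] [GeometricallyIrreducible (c ≫ g)] : GeometricallyIrreducible g := by
  refine ⟨geometrically_iff_of_isClosedUnderIsomorphisms.mpr fun L _ y => ?_⟩
  have h1 : IrreducibleSpace ↥(pullback c (pullback.fst g y)) := by
    rw [(pullbackRightPullbackFstIso g y c).hom.homeomorph.irreducibleSpace_iff]
    exact pullback_of_geometrically GeometricallyIrreducible.geometrically_irreducibleSpace L y
  have h2 : DenseRange (pullback.snd c (pullback.fst g y)) := by
    rw [DenseRange, Scheme.Pullback.range_snd]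
    exact hc.preimage (pullback.fst g y).isOpenMap
  have h3 := ((IrreducibleSpace.isIrreducible_univ _).image _
    (pullback.snd c (pullback.fst g y)).continuous.continuousOn).closure
  rw [Set.image_univ, h2.closure_range] at h3
  exact (irreducibleSpace_def _).2 h3

/-- The complement of the zeros of a non-zero-divisor is dense. -/
lemma dense_bo {S : Type} [CommRing S] {t : S} (ht : t ∈ nonZeroDivisors S) :
    Dense {y : PrimeSpectrum S | t ∉ y.asIdeal} := fun y => by
  obtain ⟨p, hp, hy⟩ := Ideal.exists_minimalPrimes_le (I := ⊥) (J := y.asIdeal) bot_le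
  refine closure_mono (s := {⟨p, hp.1.1⟩}) ?_ ?_
  · rintro _ rfl h
    exact notMem_nonZeroDivisors_of_mem_mem_minimalPrimes h hp ht
  · exact (PrimeSpectrum.le_iff_mem_closure _ _).1 hy

/-- A smooth double cover, branched somewhere, of a smooth geometrically irreducible variety is
geometrically irreducible. -/
theorem core {X Y : Scheme.{0}} (f : Y ⟶ Spec (.of K)) [Smooth f] [GeometricallyIrreducible f]
    (g : X ⟶ Spec (.of K)) {ν : Type} (R S : ν → Type) [∀ i, CommRing (R i)]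
    [∀ i, CommRing (S i)] [∀ i, Algebra K (R i)] [∀ i, Algebra K (S i)] (φ : ∀ i, R i →ₐ[K] S i)
    (u : ∀ i, Spec (.of (R i)) ⟶ Y) [∀ i, IsOpenImmersion (u i)]
    (hu : ∀ i, u i ≫ f = Spec.map (CommRingCat.ofHom (algebraMap K (R i))))
    (c : ∀ i, Spec (.of (S i)) ⟶ X) [∀ i, IsOpenImmersion (c i)]
    (hc : ∀ i, c i ≫ g = Spec.map (CommRingCat.ofHom (algebraMap K (S i))))
    (cov : ∀ x, ∃ i y, c i y = x) (Z : ∀ i, S i)
    (hb : ∀ i, Function.Bijective fun x : R i × R i => φ i x.1 + φ i x.2 * Z i)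
    (o : ν) (q : R o) (hZ : Z o ^ 2 = φ o q) (hq : ¬ IsUnit q)
    (so : Smooth (Spec.map (CommRingCat.ofHom (algebraMap K (S o))))) (t : ∀ i, R i)
    (ht : ∀ i (y : PrimeSpectrum (R i)), u i y ∈ Set.range (u o) → t i ∉ y.asIdeal)
    (ht' : ∀ i (y : PrimeSpectrum (S i)), φ i (t i) ∉ y.asIdeal → c i y ∈ Set.range (c o)) :
    GeometricallyIrreducible g := by
  have sm (A : Type) [CommRing A] [Algebra K A]
      (h : Smooth (Spec.map (CommRingCat.ofHom (algebraMap K A)))) : Algebra.Smooth K A :=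
    RingHom.smooth_algebraMap.1 ((HasRingHomProperty.Spec_iff (P := @Smooth)).1 h)
  have sR (i) := sm (R i) (hu i ▸ inferInstance)
  have sS := sm (S o) so
  have : IrreducibleSpace Y := GeometricallyIrreducible.irreducibleSpace_of_subsingleton f
  have no : Nonempty (Spec (.of (R o))) := by
    obtain ⟨m, hm, -⟩ := exists_max_ideal_of_mem_nonunits hq
    exact ⟨⟨m, hm.isPrime⟩⟩
  have : Surjective (u o ≫ f) := ⟨fun _ => ⟨no.some, Subsingleton.elim _ _⟩⟩
  have : GeometricallyIrreducible (Spec.map (CommRingCat.ofHom (algebraMap K (R o)))) :=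
    hu o ▸ inferInstance
  have : GeometricallyIrreducible (c o ≫ g) := hc o ▸ chart (φ o) (Z o) (hb o) hZ hq
  refine of_dense (c o) g fun x => ?_
  obtain ⟨i, y, rfl⟩ := cov x
  have ni : Nonempty (Spec (.of (R i))) := ⟨PrimeSpectrum.comap (φ i : R i →+* S i) y⟩
  have : IrreducibleSpace (PrimeSpectrum (R i)) := (u i).isOpenEmbedding.irreducibleSpace
  have := dom_of K (A := R i)
  obtain ⟨_, ⟨z, rfl⟩, hz⟩ := nonempty_preirreducible_inter (u i).isOpenEmbedding.isOpen_range
    (u o).isOpenEmbedding.isOpen_range (Set.range_nonempty _) (Set.range_nonempty _)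
  have h0 : t i ≠ 0 := fun h => ht i z hz (h ▸ Ideal.zero_mem _)
  exact map_mem_closure (c i).continuous
    (dense_bo (nzd (φ i : R i →+* S i) (Z i) (hb i) (mem_nonZeroDivisors_of_ne_zero h0)) y) (ht' i)

end

open Polynomial in
/-- The standard double cover. -/
lemma dc {R : Type} [CommRing R] (q : R) :
    AdjoinRoot.root (X ^ 2 - C q) ^ 2 = algebraMap R (Dc q) q ∧
    Function.Bijective fun x : R × R =>
      algebraMap R (Dc q) x.1 + algebraMap R (Dc q) x.2 * AdjoinRoot.root _ := by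
  have e : AdjoinRoot.root (X ^ 2 - C q) ^ 2 = algebraMap R (Dc q) q := by
    have := AdjoinRoot.eval₂_root (X ^ 2 - C q : R[X])
    rwa [eval₂_sub, eval₂_X_pow, eval₂_C, sub_eq_zero] at this
  refine ⟨e, fun x y h => ?_, fun s => ?_⟩
  · nontriviality R
    have h' : (X ^ 2 - C q : R[X]) ∣ C (x.2 - y.2) * X + C (x.1 - y.1) := by
      rw [← AdjoinRoot.mk_eq_zero, ← sub_eq_zero.2 h]
      simp only [map_add, map_mul, map_sub, AdjoinRoot.mk_C, AdjoinRoot.mk_X,
        AdjoinRoot.algebraMap_eq]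
      ring
    have z : C (x.2 - y.2) * X + C (x.1 - y.1) = 0 := by_contra fun m =>
      (monic_X_pow_sub_C q two_ne_zero).not_dvd_of_degree_lt m (by
        rw [degree_X_pow_sub_C two_pos]
        exact degree_linear_le.trans_lt (by norm_num)) h'
    exact Prod.ext (by simpa [sub_eq_zero] using congrArg (coeff · 0) z)
      (by simpa [sub_eq_zero] using congrArg (coeff · 1) z)
  · obtain ⟨p, rfl⟩ := AdjoinRoot.mk_surjective s
    induction p using Polynomial.induction_on with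
    | C a => exact ⟨(a, 0), by simp⟩
    | add p p' hp hp' =>
      obtain ⟨x, h⟩ := hp
      obtain ⟨y, h'⟩ := hp'
      exact ⟨x + y, by simp only [map_add, ← h, ← h', Prod.fst_add, Prod.snd_add]; ring⟩
    | monomial n a hp =>
      obtain ⟨x, h⟩ := hp
      exact ⟨(x.2 * q, x.1), by
        rw [pow_succ X n, ← mul_assoc, map_mul _ _ X, ← h, AdjoinRoot.mk_X]
        simp only [map_mul, ← e]
        ring⟩

end Pool.Agent.MP_855f4c_ag.LG.Gi

namespace Pool.Agent.MP_855f4c_ag.LG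

open MvPolynomial E E3 Pool.Agent.MP_855f4c_ag.T YJ

attribute [local instance] MvPolynomial.gradedAlgebra

/-- Zeros of a form in a chart. -/
lemma Ch.gi_mem {K : Type} [CommRing K] {n : ℕ} {Y : Scheme.{0}} {ι : Y ⟶ PP K n} {o : Fin n}
    {R : Type} [CommRing R] [Algebra K R] {v : Fin n → R} {u : Spec (.of R) ⟶ Y} (h : Ch ι o v u)
    {g : MvPolynomial (Fin n) K} {e : ℕ} (hg : g.IsHomogeneous e) (he : 0 < e)
    (y : PrimeSpectrum R) : g ∉ (ι (u y)).asHomogeneousIdeal ↔ aeval v g ∉ y.asIdeal := by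
  rw [← Scheme.Hom.comp_apply, h.pnt (h.one ▸ isUnit_one)]
  exact pt_mem _ _ _ _ hg he y

theorem gi (hS : SMQ_s) : GI_s := by
  intro K _ _ n Y f d _ _ ι _ R _ _ v u q T ι₂ _ c hf hq hu hJ ⟨y, hy⟩ hc cov
  have ov {m : ℕ} {Y : Scheme.{0}} {ι : Y ⟶ PP K m} {o : Fin m} {R : Type} [CommRing R]
      [Algebra K R] {v : Fin m → R} {u : Spec (.of R) ⟶ Y} (h : Ch ι o v u) :
      u ≫ ι ≫ pS K m = spc (algebraMap K R) := by
    rw [← Category.assoc, h.pnt (h.one ▸ isUnit_one)]
    exact pt_over _ _ _ _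
  have : Smooth f := SmoothOfRelativeDimension.smooth d f
  have := fun i => (hu i).opn
  have := fun i => (hc i).opn
  obtain ⟨o, ho⟩ := cov_X (ι y)
  obtain ⟨z, rfl⟩ := ((hu o).rng y).2 ho
  have hu' (i) : u i ≫ f = spc (algebraMap K (R i)) := hf ▸ ov (hu i)
  have so := (hS K (R o) d _ (by
    rw [← hu', ← zero_add d]
    infer_instance) (hJ o)).1
  refine Gi.core f _ R (fun i => Dc (aeval (v i) q)) (fun i => IsScalarTower.toAlgHom K _ _) u hu' c
    (fun i => ov (hc i)) (fun x => cov x) (fun i => AdjoinRoot.root _) (fun i => (Gi.dc _).2) o _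
    (Gi.dc _).1 (fun h => ?_) (SmoothOfRelativeDimension.smooth d _) (fun i => v i o)
    (fun i w h => ?_) fun i w h => ?_
  · exact ((hu o).gi_mem hq two_pos z).2
      (fun m => z.isPrime.ne_top (Ideal.eq_top_of_isUnit_mem _ m h)) hy
  · simpa using ((hu i).gi_mem (xm K o) one_pos w).1 (((hu o).rng _).1 h)
  · exact ((hc o).rng _).2 (((hc i).gi_mem (xm K o.succ) one_pos w).2 (by simpa [dv] using h))

end Pool.Agent.MP_855f4c_ag.LG

end

section

/-! h67a, row DBL: the double cover. -/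

set_option autoImplicit false
set_option backward.isDefEq.respectTransparency false

open CategoryTheory Limits Opposite AlgebraicGeometry MvPolynomial Function IsLocalRing

namespace Pool.Agent.MP_855f4c_ag.LG

open E E3 Pool.Agent.MP_855f4c_ag.T YJ

attribute [local instance] MvPolynomial.gradedAlgebra

namespace Dbl

theorem lift_red {T' X Y : Scheme.{0}} [IsReduced T'] (t : T' ⟶ X) (ι : Y ⟶ X)
    [IsClosedImmersion ι] (h : Set.range t ⊆ Set.range ι) : ∃ s, s ≫ ι = t := by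
  have : AlgebraicGeometry.Surjective (pullback.fst t ι) := ⟨Set.range_eq_univ.1 (by
    rw [Scheme.Pullback.range_fst]; exact Set.eq_univ_of_forall fun x => h ⟨x, rfl⟩)⟩
  have := isIso_of_isClosedImmersion_of_surjective (pullback.fst t ι)
  exact ⟨inv (pullback.fst t ι) ≫ pullback.snd t ι, by
    rw [Category.assoc, ← pullback.condition, IsIso.inv_hom_id_assoc]⟩

variable {K : Type} [Field K] {n : ℕ}

theorem mem {m : ℕ} {E : Type} [CommRing E] (χ : K →+* E) (w : Fin m → E) (i : Fin m)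
    (h : IsUnit (w i)) {g : MvPolynomial (Fin m) K} {e : ℕ} (hg : g.IsHomogeneous e) (he : 0 < e)
    (x : Spec (.of E)) :
    g ∈ (pt χ w i h x).asHomogeneousIdeal ↔ eval₂ χ w g ∈ x.asIdeal :=
  not_iff_not.1 (pt_mem χ w i h hg he x)

theorem memX {m : ℕ} {E : Type} [CommRing E] (χ : K →+* E) (w : Fin m → E) (i : Fin m)
    (h : IsUnit (w i)) (k : Fin m) (x : Spec (.of E)) :
    X k ∈ (pt χ w i h x).asHomogeneousIdeal ↔ w k ∈ x.asIdeal := by
  rw [mem χ w i h (xm K k) one_pos, eval₂_X]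

theorem fld {Ω : Type} [Field Ω] {x : Spec (.of Ω)} {a : Ω} (h : a ∈ x.asIdeal) : a = 0 := by
  by_contra h0
  exact x.isPrime.ne_top (Ideal.eq_top_of_isUnit_mem _ h (Ne.isUnit h0))

theorem fpt {m : ℕ} (z : PP K m) (j : Fin m) (hz : X j ∉ z.asHomogeneousIdeal) :
    ∃ (Ω : Type) (_ : Field Ω) (χ : K →+* Ω) (w : Fin m → Ω) (h : w j = 1) (x : Spec (.of Ω)),
      pt χ w j (h ▸ isUnit_one) x = z := by
  obtain ⟨p, rfl⟩ : z ∈ (Proj.awayι (homogeneousSubmodule (Fin m) K) _ (xm K j) one_pos).opensRange := by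
    rw [Proj.opensRange_awayι]; exact hz
  let g := algebraMap (HomogeneousLocalization.Away (homogeneousSubmodule (Fin m) K) (X j))
    p.asIdeal.ResidueField
  have h : g (YJ.fr K j j) = 1 := by rw [fr_self, map_one]
  refine ⟨_, inferInstance, g.comp (kB K j), fun k => g (YJ.fr K j k), h,
    (⟨⊥, Ideal.isPrime_bot⟩ : PrimeSpectrum _), ?_⟩
  rw [← away_pt g, Scheme.Hom.comp_apply]
  congr 1
  exact PrimeSpectrum.ext (Ideal.ker_algebraMap_residueField _)

theorem ev_ren {E : Type} [CommRing E] (χ : K →+* E) (w : Fin (n + 1) → E)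
    (g : MvPolynomial (Fin n) K) : eval₂ χ w (rename Fin.succ g) = eval₂ χ (Fin.tail w) g :=
  eval₂_rename _ _ _ _

theorem ev_sc {R E : Type} [CommRing R] [Algebra K R] [CommRing E] {χ : K →+* E} {ψ : R →+* E}
    (h : ψ.comp (algebraMap K R) = χ) {v : Fin n → R} {w : Fin n → E} {a : E}
    (hv : ∀ k, ψ (v k) * a = w k) {g : MvPolynomial (Fin n) K} {e : ℕ} (hg : g.IsHomogeneous e) :
    eval₂ χ w g = ψ (aeval v g) * a ^ e := by
  rw [← funext hv, aeval_def, eval₂_comp_left, h]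
  exact hom_scale χ _ a hg

variable {Y : Scheme.{0}} (ι : Y ⟶ PP K n) (q : MvPolynomial (Fin n) K)

/-- The support of the double cover. -/
def ZZ : Set (PP K (n + 1)) := {z | X 0 ^ 2 - rename Fin.succ q ∈ z.asHomogeneousIdeal} ∩
  ⋂ (g : MvPolynomial (Fin n) K) (e : ℕ) (_ : 0 < e) (_ : g.IsHomogeneous e)
    (_ : ∀ y, g ∈ (ι y).asHomogeneousIdeal), {z | rename Fin.succ g ∈ z.asHomogeneousIdeal}

theorem clo {m : ℕ} (g : MvPolynomial (Fin m) K) :
    IsClosed {z : PP K m | g ∈ z.asHomogeneousIdeal} :=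
  isOpen_compl_iff.1 (Proj.basicOpen (homogeneousSubmodule (Fin m) K) g).isOpen

theorem ZZ_clo : IsClosed (ZZ ι q) :=
  (clo _).inter (isClosed_iInter fun _ => isClosed_iInter fun _ => isClosed_iInter fun _ =>
    isClosed_iInter fun _ => isClosed_iInter fun _ => clo _)

variable {ι q} (hq : q.IsHomogeneous 2)
include hq

theorem mem_ZZ {E : Type} [CommRing E] (χ : K →+* E) (w : Fin (n + 1) → E) (i : Fin (n + 1))
    (h : IsUnit (w i)) (x : Spec (.of E)) : pt χ w i h x ∈ ZZ ι q ↔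
      w 0 ^ 2 - eval₂ χ (Fin.tail w) q ∈ x.asIdeal ∧
      ∀ (g : MvPolynomial (Fin n) K) (e : ℕ), 0 < e → g.IsHomogeneous e →
        (∀ y, g ∈ (ι y).asHomogeneousIdeal) → eval₂ χ (Fin.tail w) g ∈ x.asIdeal := by
  simp only [ZZ, Set.mem_inter_iff, Set.mem_iInter, Set.mem_ofPred_eq]
  refine and_congr ?_ (forall₂_congr fun g e => forall₃_congr fun he hg _ => ?_)
  · rw [mem χ w i h ((isHomogeneous_X_pow 0 2).sub hq.rename_isHomogeneous) two_pos, eval₂_sub,
      eval₂_pow, eval₂_X, ev_ren]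
  · rw [mem χ w i h hg.rename_isHomogeneous he, ev_ren]

theorem cov {z : PP K (n + 1)} (hz : z ∈ ZZ ι q) : ∃ o : Fin n, X o.succ ∉ z.asHomogeneousIdeal := by
  obtain ⟨j, hj⟩ := cov_X z
  by_contra hc
  push Not at hc
  obtain ⟨Ω, _, χ, w, h, x, rfl⟩ := fpt z j hj
  have h0 : Fin.tail w = fun k => Fin.tail w k * 0 := funext fun k =>
    (fld ((memX χ w j _ _ x).1 (hc k))).trans (mul_zero _).symm
  have h1 := fld ((mem_ZZ hq χ w j _ x).1 hz).1
  rw [h0, show eval₂ χ _ q = _ from hom_scale χ _ 0 hq] at h1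
  refine Fin.cases (motive := fun j => w j = 1 → False) (fun h => ?_) (fun k h => ?_) j h
  · simp [h] at h1
  · exact one_ne_zero (h.symm.trans ((congrFun h0 k).trans (mul_zero _)))

variable {R : Type} [CommRing R] [Algebra K R] {v : Fin n → R} {u : Spec (.of R) ⟶ Y} {o : Fin n}

theorem up (hc : Ch ι o v u) {E : Type} [CommRing E] {χ : K →+* E} (ψ : R →+* E)
    (hψ : ψ.comp (algebraMap K R) = χ) (w : Fin (n + 1) → E) (hw : ∀ k, ψ (v k) = w k.succ)
    (h0 : w 0 ^ 2 = ψ (aeval v q)) (i : Fin (n + 1)) (h : IsUnit (w i)) (x : Spec (.of E)) :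
    pt χ w i h x ∈ ZZ ι q := by
  have e {g : MvPolynomial (Fin n) K} {e : ℕ} (hg : g.IsHomogeneous e) :
      eval₂ χ (Fin.tail w) g = ψ (aeval v g) := by
    rw [ev_sc hψ (a := 1) (w := Fin.tail w) (fun k => (mul_one _).trans (hw k)) hg, one_pow, mul_one]
  refine (mem_ZZ hq χ w i h x).2 ⟨by rw [e hq, h0, sub_self]; exact zero_mem _,
    fun g r hr hg H => ?_⟩
  have := H (u (spc ψ x))
  rw [← Scheme.Hom.comp_apply u, hc.pnt (hc.one ▸ isUnit_one), mem _ _ _ _ hg hr] at this
  rw [e hg]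
  exact this

theorem down [IsClosedImmersion ι] (ch : CH_s) (hc : Ch ι o v u) {z : PP K (n + 1)}
    (hz : z ∈ ZZ ι q) (ho : X o.succ ∉ z.asHomogeneousIdeal) :
    ∃ (Ω : Type) (_ : Field Ω) (ψ : R →+* Ω) (a : Ω) (h : IsUnit _) (x : Spec (.of Ω)),
      a ^ 2 = ψ (aeval v q) ∧
      pt (ψ.comp (algebraMap K R)) (Fin.cons a fun k => ψ (v k)) o.succ h x = z := by
  obtain ⟨Ω, _, χ, w, h, x, rfl⟩ := fpt z _ ho
  have hu : IsUnit (Fin.tail w o) := (h ▸ isUnit_one : IsUnit (w o.succ))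
  obtain ⟨h1, h2⟩ := (mem_ZZ hq χ w _ _ x).1 hz
  obtain ⟨y, hy⟩ := lift_red (pt χ (Fin.tail w) o hu) ι (by
    rintro _ ⟨x', rfl⟩
    exact pt_mem_closed χ _ o hu _ ι.isClosedEmbedding.isClosed_range
      (fun G r hr hG H => fld (h2 G r hr hG fun y => not_not.1 (H _ ⟨y, rfl⟩))) x')
  obtain ⟨ψ, a, b, -⟩ := (ch K n Y ι o).2.2 R v u hc Ω χ _ o hu y hy hu
  have e : w = Fin.cons (w 0) fun k => ψ (v k) := by
    conv_lhs => rw [← Fin.cons_self_tail w]
    congr 1
    funext k
    rw [← b k, show Fin.tail w o = 1 from h, mul_one]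
  refine ⟨Ω, _, ψ, w 0, e ▸ hu, x, ?_, by rw [a, ← pt_congr χ e]⟩
  rw [sub_eq_zero.1 (fld h1), ev_sc a b hq, show Fin.tail w o = 1 from h, one_pow, mul_one]

omit hq in
theorem sur (hc : Ch ι o v u) {S : Type} [CommRing S] [Algebra K S] (φ : R →ₐ[K] S) (a : S) (r : R) :
    φ r ∈ (aeval (Fin.cons a fun k => φ (v k) : Fin (n + 1) → S) : _ →ₐ[K] S).range := by
  obtain ⟨P, rfl⟩ := hc.sur r
  exact ⟨rename Fin.succ P, by
    rw [← AlgHom.comp_apply φ, comp_aeval]; exact aeval_rename _ _ _⟩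

omit hq in
theorem surT (hc : Ch ι o v u) (a : R) :
    Function.Surjective (aeval (dv a v) : _ →ₐ[K] Dc a) := fun s => by
  change s ∈ (aeval (dv a v) : _ →ₐ[K] Dc a).range
  induction s using AdjoinRoot.induction_on with
  | ih p =>
    induction p using Polynomial.induction_on' with
    | add p r hp hr => rw [map_add]; exact add_mem hp hr
    | monomial m b =>
      rw [← Polynomial.C_mul_X_pow_eq_monomial, map_mul, map_pow, AdjoinRoot.mk_C, AdjoinRoot.mk_X]
      exact mul_mem (sur hc (IsScalarTower.toAlgHom K R (Dc a)) _ b)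
        (pow_mem ((AlgHom.mem_range _).2 ⟨X 0, aeval_X _ _⟩) _)

omit hq in
theorem root_sq (a : R) : (AdjoinRoot.root _ : Dc a) ^ 2 = algebraMap R (Dc a) a := by
  have := AdjoinRoot.eval₂_root (Polynomial.X ^ 2 - Polynomial.C a)
  rwa [Polynomial.eval₂_sub, Polynomial.eval₂_X_pow, Polynomial.eval₂_C, sub_eq_zero] at this

omit hq in
theorem ex_lift {E : Type} [CommRing E] (ψ : R →+* E) {a : R} {b : E} (h : b ^ 2 = ψ a) :
    ∃ φ : Dc a →+* E, φ.comp (algebraMap R (Dc a)) = ψ ∧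
      (fun k => φ (dv a v k)) = Fin.cons b fun k => ψ (v k) := by
  have e : Polynomial.eval₂ ψ b (Polynomial.X ^ 2 - Polynomial.C a) = 0 := by
    rw [Polynomial.eval₂_sub, Polynomial.eval₂_X_pow, Polynomial.eval₂_C, h, sub_self]
  refine ⟨AdjoinRoot.lift ψ b e, AdjoinRoot.lift_comp_of e, funext fun k => ?_⟩
  exact Fin.cases (AdjoinRoot.lift_root e) (fun k => AdjoinRoot.lift_of e) k

theorem rngT [IsClosedImmersion ι] (ch : CH_s) (hc : Ch ι o v u) (h : IsUnit _)
    (z : PP K (n + 1)) :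
    z ∈ Set.range (pt (algebraMap K (Dc (aeval v q))) (dv (aeval v q) v) o.succ h) ↔
      z ∈ ZZ ι q ∧ X o.succ ∉ z.asHomogeneousIdeal := by
  constructor
  · rintro ⟨x, rfl⟩
    exact ⟨up hq hc (algebraMap R _) (IsScalarTower.algebraMap_eq K R _).symm _ (fun _ => rfl)
      (root_sq _) _ h x, fun H => x.isPrime.ne_top
        (Ideal.eq_top_of_isUnit_mem _ ((memX _ _ _ h _ x).1 H) h)⟩
  · rintro ⟨hz, ho⟩
    obtain ⟨Ω, _, ψ, a, h', x, ha, rfl⟩ := down hq ch hc hz ho
    obtain ⟨φ, rfl, e⟩ := ex_lift (v := v) ψ ha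
    refine ⟨spc φ x, ?_⟩
    rw [← Scheme.Hom.comp_apply, pt_comp, pt_congr _ e, IsScalarTower.algebraMap_eq K R]
    rfl

/-- Coordinates on the branch locus. -/
noncomputable def bv (a : R) (v : Fin n → R) : Fin (n + 1) → R ⧸ Ideal.span {a} :=
  Fin.cons 0 fun k => Ideal.Quotient.mk _ (v k)

omit hq in
theorem surD (hc : Ch ι o v u) (a : R) :
    Function.Surjective (aeval (bv a v) : _ →ₐ[K] R ⧸ Ideal.span {a}) := fun s => by
  obtain ⟨r, rfl⟩ := Ideal.Quotient.mk_surjective s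
  exact (AlgHom.mem_range _).1 (sur hc (Ideal.Quotient.mkₐ K _) 0 r)

theorem rngD [IsClosedImmersion ι] (ch : CH_s) (hc : Ch ι o v u) (h : IsUnit _)
    (z : PP K (n + 1)) :
    z ∈ Set.range (pt (algebraMap K _) (bv (aeval v q) v) o.succ h) ↔
      z ∈ ZZ ι q ∩ {z | X 0 ∈ z.asHomogeneousIdeal} ∧ X o.succ ∉ z.asHomogeneousIdeal := by
  constructor
  · rintro ⟨x, rfl⟩
    refine ⟨⟨up hq hc (Ideal.Quotient.mk _) rfl _ (fun _ => rfl) ?_ _ h x,
      (memX _ _ _ h _ x).2 (zero_mem _)⟩, fun H => x.isPrime.ne_top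
        (Ideal.eq_top_of_isUnit_mem _ ((memX _ _ _ h _ x).1 H) h)⟩
    rw [Ideal.Quotient.eq_zero_iff_mem.2 (Ideal.mem_span_singleton_self _)]
    exact zero_pow two_ne_zero
  · rintro ⟨⟨hz, h0⟩, ho⟩
    obtain ⟨Ω, _, ψ, a, h', x, ha, rfl⟩ := down hq ch hc hz ho
    obtain rfl : a = 0 := fld ((memX _ _ _ h' 0 x).1 h0)
    let φ : R ⧸ Ideal.span {aeval v q} →+* Ω := Ideal.Quotient.lift _ ψ
      ((Ideal.span_singleton_le_iff_mem (RingHom.ker ψ)).2 (ha.symm.trans (zero_pow two_ne_zero)))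
    have e : (fun k => φ (bv (aeval v q) v k)) = Fin.cons 0 fun k => ψ (v k) :=
      funext fun k => Fin.cases (map_zero φ) (fun _ => rfl) k
    refine ⟨spc φ x, ?_⟩
    rw [← Scheme.Hom.comp_apply, pt_comp, pt_congr _ e]
    rfl

omit hq in
theorem ov {m : ℕ} {T : Scheme.{0}} {ι : T ⟶ PP K m} {o : Fin m} {v : Fin m → R}
    {u : Spec (.of R) ⟶ T} (hc : Ch ι o v u) : u ≫ ι ≫ pS K m = spc (algebraMap K R) := by
  rw [← Category.assoc, hc.pnt (hc.one ▸ isUnit_one)]
  exact pt_over _ _ _ _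

end Dbl

open Dbl in
theorem dbl (ch : CH_s) (smq : SMQ_s) (rs : RS_s) (sgp : SGP_s) (ne : NE_s) (gi : GI_s) :
    DBL_s := by
  intro K _ _ n Y f d _ _ ι _ R _ _ v u q hf hd hq hc hj
  have sm o := smq K (R o) d _ (by
    have := (hc o).opn
    rw [← ov (hc o), hf]
    exact Nat.zero_add d ▸ (inferInstance : SmoothOfRelativeDimension (0 + d) (u o ≫ f))) (hj o)
  have r1 o := (sm o).2.1
  have r2 o := (sm o).2.2.2
  obtain ⟨T, ι₂, c, cl, red, rg, hT, uT⟩ := rs K (n + 1) (Fin n) Fin.succ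
    (fun o => Dc (aeval (v o) q)) (fun o => dv _ (v o)) (ZZ ι q) (ZZ_clo ι q)
    (fun o => (congrArg (algebraMap _ _) (hc o).one).trans (map_one _)) (fun o => surT (hc o) _)
    fun o => rngT hq ch (hc o)
  obtain ⟨D, ι₃, c', cl', red', rg', hD, -⟩ := rs K (n + 1) (Fin n) Fin.succ
    (fun o => R o ⧸ Ideal.span {aeval (v o) q}) (fun o => bv _ (v o))
    (ZZ ι q ∩ {z | X 0 ∈ z.asHomogeneousIdeal}) ((ZZ_clo ι q).inter (clo (X 0)))
    (fun o => (congrArg (Ideal.Quotient.mk _) (hc o).one).trans (map_one _)) (fun o => surD (hc o) _)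
    fun o => rngD hq ch (hc o)
  have cT x : ∃ o, x ∈ Set.range (c o) :=
    (cov hq (rg.le ⟨x, rfl⟩)).imp fun o h => ((hT o).rng x).2 h
  have cD x : ∃ o, x ∈ Set.range (c' o) :=
    (cov hq (rg'.le ⟨x, rfl⟩).1).imp fun o h => ((hD o).rng x).2 h
  let 𝒰 : T.OpenCover := Scheme.Cover.mkOfCovers (Fin n) _ c cT fun o => (hT o).opn
  let 𝒱 : D.OpenCover := Scheme.Cover.mkOfCovers (Fin n) _ c' cD fun o => (hD o).opn
  obtain ⟨τ, t1, t2, t3⟩ := sgp K n
  obtain ⟨σ, hσ⟩ := uT T (ι₂ ≫ τ) (by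
    rintro _ ⟨x, rfl⟩
    obtain ⟨o, x, rfl⟩ := cT x
    have h : IsUnit (dv (aeval (v o) q) (v o) o.succ) := (hT o).one ▸ isUnit_one
    rw [← Scheme.Hom.comp_apply, ← Category.assoc, (hT o).pnt h,
      t3 _ _ _ (Fin.cons (-AdjoinRoot.root _) fun k => algebraMap (R o) _ (v o k)) _ h h rfl
        fun _ => rfl]
    refine up hq (hc o) (algebraMap (R o) _) (IsScalarTower.algebraMap_eq K _ _).symm _
      (fun _ => rfl) ?_ _ _ x
    exact (neg_sq _).trans (root_sq _))
  obtain ⟨j, hj'⟩ := uT D ι₃ (rg'.le.trans Set.inter_subset_left)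
  have : Nonempty Y := let ⟨y, _⟩ := f.surjective (Classical.arbitrary _); ⟨y⟩
  have nq := ne K n Y f d ι q 2 hf hd two_pos hq
  refine ⟨T, ι₂, σ, D, j, ⟨cl, ?_, gi K n Y f d ι R v u q T ι₂ c hf hq hc hj nq hT cT, ?_, ?_, ?_, ?_,
    ?_, ?_, fun x => ?_⟩, fun E _ χ w => ⟨fun i h x hx => ?_, fun o ho y hy e => ?_⟩⟩
  · exact IsZariskiLocalAtSource.of_openCover (P := @SmoothOfRelativeDimension d) 𝒰 fun o =>
      ov (hT o) ▸ (sm o).1
  · rw [← Category.assoc, hσ, Category.assoc, t2]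
  · rw [← cancel_mono ι₂, Category.assoc, hσ, ← Category.assoc, hσ, Category.assoc, t1,
      Category.id_comp, Category.comp_id]
  · have : IsClosedImmersion (j ≫ ι₂) := hj' ▸ cl'
    exact .of_comp_isClosedImmersion j ι₂
  · rw [← Category.assoc, hj']
    exact IsZariskiLocalAtSource.of_openCover (P := @Smooth) 𝒱 fun o => ov (hD o) ▸ (sm o).2.2.1
  · obtain ⟨y, hy⟩ := nq
    obtain ⟨o, ho⟩ := cov_X (ι y)
    obtain ⟨x, rfl⟩ := ((hc o).rng y).2 ho
    rw [← Scheme.Hom.comp_apply, (hc o).pnt ((hc o).one ▸ isUnit_one), mem _ _ _ _ hq two_pos] at hy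
    have : Nontrivial (R o ⧸ Ideal.span {aeval (v o) q}) := Ideal.Quotient.nontrivial_iff.2 fun e =>
      x.isPrime.ne_top (top_unique (e.ge.trans ((Ideal.span_singleton_le_iff_mem _).2 hy)))
    exact ⟨c' o (Classical.arbitrary _)⟩
  · rw [← cancel_mono ι₂, Category.assoc, hσ, ← Category.assoc, hj']
    refine 𝒱.hom_ext _ _ fun o => ?_
    have h : IsUnit (bv (aeval (v o) q) (v o) o.succ) := (hD o).one ▸ isUnit_one
    change c' o ≫ _ = c' o ≫ _
    rw [← Category.assoc, (hD o).pnt h]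
    exact t3 _ _ _ _ _ h h neg_zero.symm fun _ => rfl
  · constructor
    · rintro ⟨y, rfl⟩
      rw [← Scheme.Hom.comp_apply, hj']
      exact (rg'.le ⟨y, rfl⟩).2
    · intro h
      obtain ⟨y, hy⟩ := rg'.ge ⟨rg.le ⟨x, rfl⟩, h⟩
      exact ⟨y, ι₂.isClosedEmbedding.injective (by rw [← Scheme.Hom.comp_apply, hj', hy])⟩
  · refine ⟨?_, fun o ho => ?_, fun w' h' a b => ?_⟩
    · have sp : Ideal.span (Set.range (Fin.tail w)) = ⊤ := by
        by_contra hn
        obtain ⟨m, hm, hle⟩ := Ideal.exists_le_maximal _ hn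
        obtain ⟨o, ho⟩ := cov hq (rg.le ⟨x (⟨m, hm.isPrime⟩ : PrimeSpectrum E), rfl⟩)
        rw [← Scheme.Hom.comp_apply, hx, memX] at ho
        exact ho (hle (Ideal.subset_span ⟨o, rfl⟩))
      refine Localization.algebraMap_injective_of_span_eq_top _ sp (funext ?_)
      rintro ⟨_, o, rfl⟩
      let g := algebraMap E (Localization.Away (Fin.tail w o))
      obtain ⟨ψ, a, b, -⟩ := (ch K _ T ι₂ o.succ).2.2 _ _ _ (hT o) _ (g.comp χ) (fun k => g (w k)) i
        (h.map g) (spc g ≫ x) (by rw [Category.assoc, hx, pt_comp])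
        (IsLocalization.Away.algebraMap_isUnit (Fin.tail w o))
      change g (eval₂ χ (Fin.tail w) q) = g (w 0 ^ 2)
      rw [eval₂_comp_left, ev_sc (ψ := ψ.comp (algebraMap (R o) _)) (v := v o) (w := g ∘ Fin.tail w) (by
        rw [RingHom.comp_assoc, ← IsScalarTower.algebraMap_eq, a]) (fun k => b k.succ) hq, map_pow,
        ← b 0, mul_pow, ← map_pow ψ]
      exact congrArg (ψ · * _) (root_sq _).symm
    · obtain ⟨ψ, a, b, -⟩ := (ch K _ T ι₂ o.succ).2.2 _ _ _ (hT o) _ χ w i h x hx ho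
      have h1 : IsUnit (v o o) := (hc o).one ▸ isUnit_one
      refine ⟨spc (ψ.comp (algebraMap (R o) _)) ≫ u o, ?_⟩
      rw [Category.assoc, (hc o).pnt h1, pt_comp, RingHom.comp_assoc,
        ← IsScalarTower.algebraMap_eq, a]
      exact pt_eq _ _ _ fun k => (b k.succ).trans (by rw [(hc o).one, map_one, mul_one]; rfl)
    · rw [hσ, ← Category.assoc, hx, t3 _ _ _ _ _ h h' a b]
  · obtain ⟨ψ, a, b, -⟩ := (ch K _ Y ι o).2.2 _ _ _ (hc o) _ χ _ o ho y hy ho
    obtain ⟨t, ht⟩ := ho.exists_right_inv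
    obtain ⟨φ, rfl, e'⟩ := ex_lift (v := v o) ψ (a := aeval (v o) q) (b := w 0 * t) (by
      rw [mul_pow, ← e, ev_sc a b hq, mul_assoc, ← mul_pow]
      exact (congrArg (_ * · ^ 2) ht).trans (by rw [one_pow, mul_one]))
    have h1 : IsUnit (dv (aeval (v o) q) (v o) o.succ) := (hT o).one ▸ isUnit_one
    refine ⟨spc φ ≫ c o, ?_⟩
    rw [Category.assoc, (hT o).pnt h1, pt_comp, ← a, RingHom.comp_assoc,
      ← IsScalarTower.algebraMap_eq]
    refine pt_eq _ _ _ fun k => ?_
    rw [(hT o).one, map_one, mul_one, congrFun e' k]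
    exact Fin.cases (by rw [Fin.cons_zero, mul_assoc, mul_comm t, ht, mul_one]) b k

end Pool.Agent.MP_855f4c_ag.LG

end

section

/-! h67a, row GPJ: the geometric package along an ideal `I`. -/

set_option autoImplicit false
set_option backward.isDefEq.respectTransparency false

open CategoryTheory Limits Opposite AlgebraicGeometry MvPolynomial Function IsLocalRing
open scoped TensorProduct

namespace Pool.Agent.MP_855f4c_ag.LG

open E E3 Pool.Agent.MP_855f4c_ag.T YJ

attribute [local instance] MvPolynomial.gradedAlgebra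

namespace Gpj

theorem den {O K A : Type} [CommRing O] [CommRing K] [Algebra O K] [CommRing A] [Algebra O A]
    (ϖ : O) [IsLocalization.Away ϖ K] (x : K ⊗[O] A) :
    ∃ M : ℕ, ∀ m ≥ M, ∃ a : A, ϖ ^ m • x = (1 : K) ⊗ₜ[O] a := by
  induction x using TensorProduct.induction_on with
  | zero => exact ⟨0, fun _ _ => ⟨0, by simp⟩⟩
  | tmul k a =>
    obtain ⟨n, o, h⟩ := IsLocalization.Away.surj ϖ k
    refine ⟨n, fun m hm => ⟨(ϖ ^ (m - n) * o) • a, ?_⟩⟩
    rw [TensorProduct.smul_tmul', ← TensorProduct.smul_tmul, Algebra.smul_def, Algebra.smul_def,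
      mul_one, map_mul, ← h, ← map_pow, mul_comm k, ← mul_assoc, ← map_mul, ← pow_add,
      Nat.sub_add_cancel hm]
  | add x y hx hy =>
    obtain ⟨M, hx⟩ := hx
    obtain ⟨M', hy⟩ := hy
    refine ⟨max M M', fun m hm => ?_⟩
    obtain ⟨a, ha⟩ := hx m (le_trans (le_max_left _ _) hm)
    obtain ⟨b, hb⟩ := hy m (le_trans (le_max_right _ _) hm)
    exact ⟨a + b, by rw [smul_add, ha, hb, TensorProduct.tmul_add]⟩

theorem dens {O K A ν : Type} [CommRing O] [CommRing K] [Algebra O K] [CommRing A] [Algebra O A]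
    [Finite ν] (ϖ : O) [IsLocalization.Away ϖ K] (ξ : ν → K ⊗[O] A) (g : MvPolynomial ν O)
    (hg : g.IsHomogeneous 2) (M : ℕ) (a : ν → A) (h : ∀ k, ϖ ^ M • ξ k = (1 : K) ⊗ₜ[O] a k) :
    aeval ξ (C (algebraMap O K ϖ ^ (2 * M + 1)) * map (algebraMap O K) g) =
      (1 : K) ⊗ₜ[O] (ϖ • aeval a g) := by
  have e1 := hom_scale (algebraMap O (K ⊗[O] A)) ξ (algebraMap O (K ⊗[O] A) ϖ ^ M) hg
  have e2 : (fun k => ξ k * algebraMap O (K ⊗[O] A) ϖ ^ M) =
      fun k => (Algebra.TensorProduct.includeRight : A →ₐ[O] K ⊗[O] A) (a k) := funext fun k => by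
    rw [Algebra.TensorProduct.includeRight_apply, ← h, Algebra.smul_def, map_pow, mul_comm]
  have e3 : (1 : K) ⊗ₜ[O] aeval a g =
      aeval ξ g * (algebraMap O (K ⊗[O] A) ϖ ^ M) ^ 2 := by
    rw [← Algebra.TensorProduct.includeRight_apply, ← AlgHom.comp_apply, comp_aeval, ← e2]
    exact e1
  rw [map_mul, aeval_map_algebraMap, aeval_C, map_pow, ← IsScalarTower.algebraMap_apply,
    TensorProduct.tmul_smul, e3, Algebra.smul_def]
  ring

theorem ovr {K : Type} [CommRing K] {n : ℕ} {Y : Scheme.{0}} {ι : Y ⟶ PP K n} {o : Fin n}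
    {R : Type} [CommRing R] [Algebra K R] {v : Fin n → R} {u : Spec (.of R) ⟶ Y}
    (h : Ch ι o v u) : u ≫ ι ≫ pS K n = spc (algebraMap K R) := by
  rw [← Category.assoc, h.pnt (h.one ▸ isUnit_one)]
  exact pt_over _ _ _ _

theorem map_pt {K : Type} [CommRing K] {n : ℕ} {Y : Scheme.{0}} {ι : Y ⟶ PP K n} {o : Fin n}
    {R : Type} [CommRing R] [Algebra K R] {v : Fin n → R} {u : Spec (.of R) ⟶ Y}
    (h : Ch ι o v u) {D : Type} [CommRing D] [Algebra K D] (ψ : R →ₐ[K] D)
    (h' : IsUnit (ψ (v o))) :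
    (spc (ψ : R →+* D) ≫ u) ≫ ι = pt (algebraMap K D) (fun k => ψ (v k)) o h' := by
  rw [Category.assoc, h.pnt (h.one ▸ isUnit_one), pt_comp]
  congr 1
  exact ψ.comp_algebraMap

theorem sur_tail {K R : Type} [CommRing K] [CommRing R] [Algebra K R] {n : ℕ}
    (w : Fin (n + 1) → R) (h0 : w 0 = 1)
    (h : Surjective (aeval w : MvPolynomial (Fin (n + 1)) K →ₐ[K] R)) :
    Surjective (aeval (Fin.tail w) : MvPolynomial (Fin n) K →ₐ[K] R) := by
  intro r
  obtain ⟨P, rfl⟩ := h r
  refine ⟨aeval (Fin.cons 1 X : Fin (n + 1) → MvPolynomial (Fin n) K) P, ?_⟩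
  rw [← AlgHom.comp_apply, comp_aeval]
  congr 2
  funext k
  refine Fin.cases ?_ (fun k => ?_) k
  · simp [h0]
  · simp [Fin.tail]

end Gpj

open Gpj in
theorem gpj (hC : CH_s) (hB : BERT_s) (hD : DBL_s) (hM : MODJ_s) : GPJ_s := by
  intro O K A B _ _ _ _ _ _ _ _ _ _ _ _ ϖ _ _ I _ Y f d _ _ N ι _ a _ hO hI hQ hp hd hι ha hr
  choose R _ _ v u hu using fun o => (hC K (N + 1) Y ι o).1
  obtain ⟨ξ, hξ⟩ := (hC K (N + 1) Y ι 0).2.1 (K ⊗[O] A) a (by rw [hι, ha]) hr
  have hs : ∀ o, Algebra.Smooth K (R o) := fun o => by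
    have := (hu o).opn
    have : Smooth f := SmoothOfRelativeDimension.smooth d f
    have h1 : Smooth (u o ≫ f) := inferInstance
    rw [← hι, ovr (hu o)] at h1
    exact RingHom.smooth_algebraMap.1 ((HasRingHomProperty.Spec_iff (P := @Smooth)).1 h1)
  choose M₀ hM₀ using fun k => den ϖ (ξ k)
  obtain ⟨M, hM₁⟩ := Finite.exists_le M₀
  choose b hb using fun k => hM₀ k M (hM₁ k)
  have hϖ : algebraMap O K ϖ ≠ 0 := (IsLocalization.Away.algebraMap_isUnit ϖ).ne_zero
  obtain ⟨g₀, hg₀, hJ⟩ := hB O K N R v (4 * algebraMap O K ϖ ^ (2 * M + 1)) (fun o => (hu o).one)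
    (mul_ne_zero (by norm_num) (pow_ne_zero _ hϖ))
  obtain ⟨g, hgd⟩ : ∃ g, g = C (algebraMap O K ϖ ^ (2 * M + 1)) * map (algebraMap O K) g₀ :=
    ⟨_, rfl⟩
  have hg : g.IsHomogeneous 2 := hgd ▸ (hg₀.map _).C_mul _
  have hq : X 0 ^ 2 + C (4 * algebraMap O K ϖ ^ (2 * M + 1)) * map (algebraMap O K) g₀ =
      X 0 ^ 2 + 4 * g := by
    rw [hgd, C_mul, mul_assoc]
    rfl
  rw [hq] at hJ
  have hq2 : (X 0 ^ 2 + 4 * g).IsHomogeneous 2 :=
    (isHomogeneous_X_pow 0 2).add (hg.C_mul 4)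
  have hev : ∀ (D : Type) [CommRing D] [Algebra K D] (x : Fin (N + 1) → D),
      eval₂ (algebraMap K D) x (X 0 ^ 2 + 4 * g) = x 0 ^ 2 + 4 * aeval x g := fun D _ _ x => by
    rw [← aeval_def, map_add, map_mul, map_pow, aeval_X, map_ofNat]
  obtain ⟨T, ι₂, σ, D, j, hR, hU⟩ := hD K (N + 1) Y f d ι R v u _ hι hd hq2 hu hJ
  have := hR.cl
  obtain ⟨S, _, _, w, c, hc⟩ := (hC K (N + 1 + 1) T ι₂ 0).1
  have hw : IsUnit (w 0) := hc.one ▸ isUnit_one
  obtain ⟨C, _, _, e, ρ₁, ρ₂, J, hF, hE, hρ⟩ := hM O K A B S ϖ I N ξ (Fin.tail w) g (aeval b g₀)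
    hO hI hQ hp hξ.one hξ.sur (sur_tail w hc.one hc.sur) hg (hgd ▸ dens ϖ ξ g₀ hg₀ M b hb)
    (by
      have h1 := ((hU S (algebraMap K S) w).1 0 hw c (hc.pnt hw)).1
      rwa [hev, hc.one, one_pow] at h1)
    (fun E _ _ ψ hψ => by
      obtain ⟨y, hy⟩ := ((hU E (algebraMap K E) fun k => ψ (w k)).1 0 (hw.map ψ) _
        (map_pt hc ψ _)).2.1 0 hψ
      obtain ⟨α, h1, h2, -⟩ := (hC K (N + 1) Y ι 0).2.2 _ ξ a hξ E _ _ 0 hψ y hy hψ
      exact ⟨⟨α, fun k => congr($h1 k)⟩, h2⟩)
    (fun E _ _ α t ht => by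
      have hx : α (ξ 0) = 1 := by rw [hξ.one, map_one]
      have ht' : IsUnit (α (ξ 0) * t) := by
        rw [hx, one_mul]
        exact IsUnit.of_mul_eq_one (t * (1 + 4 * α (aeval ξ g))) (by rw [← mul_assoc, ← sq, ht])
      obtain ⟨x, hx'⟩ := (hU E (algebraMap K E) (Fin.cons 1 fun k => α (ξ k) * t)).2 0 ht'
        (spc (α : K ⊗[O] A →+* E) ≫ a)
        ((map_pt hξ α (hx ▸ isUnit_one)).trans (pt_eq _ _ _ fun k => by
          simp only [Fin.tail_cons]; ring))
        (by
          have h1 := hom_scale (algebraMap K E) (fun k => α (ξ k)) t hq2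
          rw [coe_eval₂Hom] at h1
          rw [Fin.tail_cons, h1, coe_eval₂Hom, hev, hx, ← comp_aeval, AlgHom.comp_apply,
            Fin.cons_zero, one_pow, mul_comm, ht])
      obtain ⟨ψ, h1, h2, -⟩ := (hC K (N + 1 + 1) T ι₂ 0).2.2 _ w c hc E _ _ _ ht' x hx' isUnit_one
      refine ⟨⟨ψ, fun k => congr($h1 k)⟩, fun k => ?_⟩
      have h3 := h2 k.succ
      rw [Fin.cons_zero, mul_one, Fin.cons_succ, mul_comm] at h3
      exact h3)
  have := hc.opn
  have : IsIso (spc (e.symm : S →+* K ⊗[O] C)) :=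
    have : IsIso (CommRingCat.ofHom (e.symm : S →+* K ⊗[O] C)) :=
      (ConcreteCategory.isIso_iff_bijective _).2 e.symm.bijective
    inferInstance
  refine ⟨T, ι₂, σ, D, j, C, inferInstance, inferInstance, ρ₁, ρ₂, J,
    spc (e.symm : S →+* K ⊗[O] C) ≫ c, hR, hF, hE, inferInstance, ?_, fun x => ?_, ?_⟩
  · rw [Category.assoc, ovr hc, ← Spec.map_comp, ← CommRingCat.ofHom_comp]
    congr 2
    exact e.symm.toAlgHom.comp_algebraMap
  · rw [hR.rng, ← hc.rng]
    constructor
    · rintro ⟨y, rfl⟩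
      exact ⟨_, (Scheme.Hom.comp_apply _ _ y).symm⟩
    · rintro ⟨y, rfl⟩
      obtain ⟨z, rfl⟩ := (spc (e.symm : S →+* K ⊗[O] C)).surjective y
      exact ⟨z, Scheme.Hom.comp_apply _ _ z⟩
  · let ψ : (C →ₐ[O] B) → (S →ₐ[K] K ⊗[O] B) := fun ρ =>
      (Algebra.TensorProduct.map (AlgHom.id K K) ρ).comp e.symm.toAlgHom
    have hψ : ∀ ρ, spc (tm K ρ) ≫ spc (e.symm : S →+* K ⊗[O] C) ≫ c =
        spc (ψ ρ : S →+* K ⊗[O] B) ≫ c := fun ρ => by
      rw [← Category.assoc, ← Spec.map_comp, ← CommRingCat.ofHom_comp]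
      rfl
    have h0 : ∀ ρ, ψ ρ (w 0) = 1 := fun ρ => by rw [hc.one, map_one]
    rw [← cancel_mono ι₂, ← Category.assoc, hψ, hψ, map_pt hc (ψ ρ₂) (hw.map _), Category.assoc,
      ((hU _ (algebraMap K (K ⊗[O] B)) fun k => ψ ρ₁ (w k)).1 0 (hw.map _) _
        (map_pt hc (ψ ρ₁) _)).2.2 (Fin.cons (-1) fun k => ψ ρ₁ (w k.succ)) isUnit_one.neg
        (by rw [h0]; rfl) fun _ => rfl]
    refine pt_eq _ _ _ fun k => ?_
    refine Fin.cases (mul_comm _ _) (fun k => ?_) k
    have h1 : ψ ρ₂ (w k.succ) = - ψ ρ₁ (w k.succ) := hρ k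
    simp only [Fin.cons_succ, Fin.cons_zero, h0, h1]
    ring

end Pool.Agent.MP_855f4c_ag.LG

end

section

/-! h67a row MODJ: the integral model, henselisation along any ideal that contains `ϖ`. -/

set_option autoImplicit false
set_option backward.isDefEq.respectTransparency false

open Function
open scoped TensorProduct

namespace Pool.Agent.MP_855f4c_ag.LG

open E E3 Pool.Agent.MP_855f4c_ag.T

namespace Modl

/-- The two sheets. -/
theorem exj {A E B C : Type} [CommRing A] [CommRing E] [CommRing B] [CommRing C] [Algebra A E]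
    [Algebra A B] [Algebra.Etale A E] [Algebra C E] {p a : A} {y : E} (H : AS (p * a) y)
    {I : Ideal A} [HenselianRing B (I.map (algebraMap A B))] [IsNoetherianRing C] (hp : p ∈ I)
    (h1 : IndEt A B) (h2 : QIso A B I) (β₁ β₂ : E →ₐ[A] B) (r : B)
    (hr : r ∈ I.map (algebraMap A B)) (e₁ : β₁ y = r) (e₂ : β₂ y = -1 - r) (π w₀ y₀ : C)
    [IsLocalization.Away w₀ E] (hπ : algebraMap C E π = algebraMap A E p)
    (hw : w₀ ^ 2 - 1 = π * y₀) :
    ExJ ((β₁ : E →+* B).comp (algebraMap C E)) ((β₂ : E →+* B).comp (algebraMap C E))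
      ((I.map (algebraMap A E)).comap (algebraMap C E)) := by
  have hJ : ((I.map (algebraMap A E)).comap (algebraMap C E)).map (algebraMap C E) = _ :=
    IsLocalization.map_under (.powers w₀) E (I.map (algebraMap A E))
  have hM : (I.map (algebraMap A B)).map (algebraMap B (B × B)) =
      ((I.map (algebraMap A E)).comap (algebraMap C E)).map (((β₁ : E →+* B).comp
        (algebraMap C E)).prod ((β₂ : E →+* B).comp (algebraMap C E))) := by
    rw [show ((β₁ : E →+* B).comp (algebraMap C E)).prod ((β₂ : E →+* B).comp (algebraMap C E)) =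
      ((β₁ : E →+* B).prod β₂).comp (algebraMap C E) from RingHom.ext fun _ => rfl,
      ← Ideal.map_map (algebraMap C E), hJ, Ideal.map_map, Ideal.map_map]
    exact congrArg (fun f : A →+* B × B => I.map f)
      (RingHom.ext fun x => Prod.ext (β₁.commutes x).symm (β₂.commutes x).symm)
  have hi (β : E →ₐ[A] B) : @IndEt C B _ _ ((β : E →+* B).comp (algebraMap C E)).toAlgebra := by
    let _ := ((β : E →+* B).comp (algebraMap C E)).toAlgebra
    let _ := (β : E →+* B).toAlgebra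
    have : IsScalarTower A E B := .of_algebraMap_eq fun x => (β.commutes x).symm
    have : IsScalarTower C E B := .of_algebraMap_eq fun x => rfl
    exact (IndEt.of_isLocalization (C := E) (.powers w₀)).comp (h1.cancel_etale E)
  refine ⟨⟨ind_prod _ _ (hi β₁) (hi β₂), fun k _ _ ψ hψ => ?_⟩, T.hp.2 B (B × B)
    (algebraMap B (B × B)) _ _ Algebra.IsIntegral.isIntegral (congrArg Ideal.radical hM)
    (Hr.hp_of_henselianRing B (I.map (algebraMap A B))), IsNoetherian.noetherian _⟩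
  have h0 : ψ π = 0 := hψ (Ideal.mem_comap.2 (hπ ▸ Ideal.mem_map_of_mem _ hp))
  have hu : IsUnit (ψ w₀) := .of_mul_eq_one (ψ w₀) (by
    have := congrArg ψ hw
    rw [map_mul, h0, zero_mul, map_sub, map_pow, map_one] at this
    linear_combination this)
  let ψ' : E →+* k := IsLocalization.Away.lift w₀ hu
  have e' : ψ'.comp (algebraMap C E) = ψ := IsLocalization.Away.lift_comp w₀ hu
  have h0' : ψ' (algebraMap A E p) = 0 := by rw [← hπ, ← h0, ← e']; rfl
  have hI : I ≤ RingHom.ker (ψ'.comp (algebraMap A E)) := by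
    rw [← RingHom.comap_ker, ← Ideal.map_le_iff_le_comap, ← hJ, Ideal.map_le_iff_le_comap,
      RingHom.comap_ker, e']
    exact hψ
  obtain ⟨χ, hχ, uχ⟩ := Exq.ext h2 (ψ'.comp (algebraMap A E)) hI
  have h0χ : χ r = 0 := (Ideal.map_le_iff_le_comap.2 fun x hx =>
    congr($hχ x).trans (hI hx) : _ ≤ RingHom.ker χ) hr
  have key (ψ₁ : B × B →+* k) (h : ψ₁.comp (((β₁ : E →+* B).comp (algebraMap C E)).prod
      ((β₂ : E →+* B).comp (algebraMap C E))) = ψ) (b : B × B) :
      ψ₁ b = χ b.1 * (1 + ψ' y) - χ b.2 * ψ' y := by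
    have e1 : ψ₁.comp ((β₁ : E →+* B).prod β₂) = ψ' :=
      IsLocalization.ringHom_ext (.powers w₀) (h.trans e'.symm)
    have e2 : ψ₁.comp ((RingHom.id B).prod (RingHom.id B)) = χ := uχ _ (RingHom.ext fun x => by
      rw [← e1]
      exact congrArg ψ₁ (Prod.ext (β₁.commutes x).symm (β₂.commutes x).symm))
    have e3 (b : B) : χ b = ψ₁ (b, b) := congr($e2 b).symm
    have e4 : ψ' y = -ψ₁ (0, 1) := by
      rw [← zero_sub, ← zero_mul (ψ₁ (1, -1)), ← h0χ, e3, ← map_mul, ← map_sub, ← e1]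
      exact congrArg ψ₁ (Prod.ext (by simp [e₁]) (by simp [e₂]; ring))
    rw [e4, e3, e3, ← map_neg, ← map_one ψ₁, ← map_add, ← map_mul, ← map_mul, ← map_sub]
    exact congrArg ψ₁ (Prod.ext (by simp) (by simp))
  refine existsUnique_of_exists_of_unique ?_ fun ψ₁ ψ₂ k₁ k₂ =>
    RingHom.ext fun b => (key ψ₁ k₁ b).trans (key ψ₂ k₂ b).symm
  have hy : ψ' y * (ψ' y + 1) = 0 := by
    have := congrArg ψ' H.eq
    rw [map_mul, map_mul, h0', zero_mul, map_add, map_pow] at this
    linear_combination this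
  have ex (β : E →ₐ[A] B) (h : χ (β y) = ψ' y) :
      χ.comp ((β : E →+* B).comp (algebraMap C E)) = ψ := by
    rw [← RingHom.comp_assoc, H.ext k (χ.comp β) ψ' (by
      rw [RingHom.comp_assoc, β.comp_algebraMap, hχ]) h, e']
  rcases mul_eq_zero.1 hy with h | h
  · exact ⟨χ.comp (.fst B B), ex β₁ (by rw [e₁, h0χ, h])⟩
  · exact ⟨χ.comp (.snd B B), ex β₂ (by
      rw [e₂, map_sub, h0χ, map_neg, map_one]; linear_combination -h)⟩

end Modl

attribute [local instance] Algebra.TensorProduct.rightAlgebra in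
theorem modj : MODJ_s := by
  intro O K A B R _ _ _ _ _ _ _ _ _ _ _ _ _ _ ϖ _ _ I hB n ξ s g a hi h1 h2 hp h0 hξ hs hg hc hq U V
  obtain ⟨E, _, _, _, y, H⟩ := Modl.ex_as (algebraMap O A ϖ * a)
  let _ : Algebra O E := ((algebraMap A E).comp (algebraMap O A)).toAlgebra
  have : IsScalarTower O A E := .of_algebraMap_eq fun _ => rfl
  let _ : Algebra O R := ((algebraMap K R).comp (algebraMap O K)).toAlgebra
  have : IsScalarTower O K R := .of_algebraMap_eq fun _ => rfl
  obtain ⟨w, hw⟩ := H.un.exists_right_inv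
  rw [Algebra.smul_def] at hc
  have hw2 : w ^ 2 * (1 + 4 * algebraMap A E (algebraMap O A ϖ * a)) = 1 := by
    rw [← H.eq]; linear_combination (1 + (1 + 2 * y) * w) * hw
  obtain ⟨ψ, hψ⟩ := V (K ⊗[O] E) (Algebra.TensorProduct.map (AlgHom.id K K)
      (IsScalarTower.toAlgHom O A E)) ((1 : K) ⊗ₜ[O] w) (by
    have := congrArg (Algebra.TensorProduct.includeRight (R := O) (A := K)) hw2
    rw [map_mul, map_pow, map_add, map_mul, map_ofNat, map_one] at this
    rw [hc]; exact this)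
  have hl := Modl.away H hw h0 hξ hs hg hc hq U ψ hψ (Localization.Away (s 0))
  let _ := ψ.toRingHom.toAlgebra
  have : IsScalarTower O R (K ⊗[O] E) := .of_algebraMap_eq fun o =>
    (ψ.commutes (algebraMap O K o)).symm
  have : Algebra.FiniteType O E := .trans (S := A) inferInstance inferInstance
  have : Algebra.FiniteType K R := .of_surjective _ hs
  have : Module.Flat O E := .trans O A E
  obtain ⟨C, γ, w₀, y₀, hf, -, hR, hγ, hE, hy⟩ := L.Wei.wei (O := O) (K := K) (R := R)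
    (Rw := K ⊗[O] E) (A := E) ϖ (s 0) (Algebra.TensorProduct.includeRight_injective hi) w
    (-(4 * algebraMap A E a * w ^ 2)) (by
      change _ = ψ (s 0)
      rw [hψ, h0, map_one, mul_one]; rfl) (.of_mul_eq_one_right _ hw) (by
      rw [map_mul] at hw2
      change _ = algebraMap A E (algebraMap O A ϖ) * _
      linear_combination hw2)
  obtain ⟨r, hr, hr'⟩ := hB.is_henselian (Polynomial.X ^ 2 + Polynomial.X -
    Polynomial.C (algebraMap A B (algebraMap O A ϖ * a))) (by monicity!) 0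
    (by simpa using Ideal.mul_mem_right _ _ (Ideal.mem_map_of_mem _ hp)) (by simp)
  rw [sub_zero] at hr'
  have hu : IsUnit (1 + 2 * r) := by
    have := Ideal.mem_jacobson_bot.1 (hB.jac hr') 2
    rwa [add_comm, mul_comm] at this
  have hr : r ^ 2 + r = algebraMap A B (algebraMap O A ϖ * a) := by
    simpa [sub_eq_zero] using hr
  obtain ⟨f₁, c₁, e₁⟩ := H.lift B (algebraMap A B) r hr hu
  obtain ⟨f₂, c₂, e₂⟩ := H.lift B (algebraMap A B) (-1 - r) (by linear_combination hr)
    (by convert hu.neg using 1; ring)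
  let β₁ : E →ₐ[A] B := ⟨f₁, fun x => congr($c₁ x)⟩
  let β₂ : E →ₐ[A] B := ⟨f₂, fun x => congr($c₂ x)⟩
  have : IsNoetherianRing C := Algebra.FiniteType.isNoetherianRing O C
  have : IsLocalization (Algebra.algebraMapSubmonoid C (.powers ϖ)) R := by
    simpa using hR
  have := (Algebra.isPushout_of_isLocalization (.powers ϖ) K C R).symm
  let e := Algebra.IsPushout.equiv O K C R
  let _ := γ.toRingHom.toAlgebra
  refine ⟨C, _, _, e, (β₁.restrictScalars O).comp γ, (β₂.restrictScalars O).comp γ, _, hf,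
    Modl.exj H hp h1 h2 β₁ β₂ r hr' e₁ e₂ _ w₀ y₀ (γ.commutes ϖ) hy, fun k => ?_⟩
  have k1 (z : K ⊗[O] C) : Algebra.TensorProduct.map (AlgHom.id K K) γ z = ψ (e z) := by
    refine congr($(show Algebra.TensorProduct.map (AlgHom.id K K) γ = ψ.comp e.toAlgHom from ?_) z)
    ext c
    exact (hγ c).trans (congrArg ψ (by simp [e, Algebra.IsPushout.equiv_tmul]))
  have k2 (β : E →ₐ[A] B) : tm K ((β.restrictScalars O).comp γ) (e.symm (s k)) = (1 : K) ⊗ₜ[O] β w *
      Algebra.TensorProduct.map (AlgHom.id K K) (IsScalarTower.toAlgHom O A B) (ξ k) := by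
    refine congr($(Algebra.TensorProduct.map_id_comp (S := K) (A := K) (β.restrictScalars O) γ)
      (e.symm (s k))).trans ?_
    rw [AlgHom.comp_apply, k1, e.apply_symm_apply, hψ, map_mul, ← AlgHom.comp_apply _ _ (ξ k),
      ← Algebra.TensorProduct.map_id_comp]
    rw [show (β.restrictScalars O).comp (IsScalarTower.toAlgHom O A E) =
      IsScalarTower.toAlgHom O A B from AlgHom.ext β.commutes]
    rfl
  have k3 : β₂ w = -β₁ w := by
    have t₁ := congrArg f₁ hw
    have t₂ := congrArg f₂ hw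
    rw [map_mul, map_add, map_mul, map_one, map_ofNat] at t₁ t₂
    rw [e₁] at t₁
    rw [e₂] at t₂
    change f₂ w = -f₁ w
    linear_combination (-f₂ w) * t₁ - f₁ w * t₂
  rw [k2, k2, k3, TensorProduct.tmul_neg, neg_mul]

end Pool.Agent.MP_855f4c_ag.LG

end

section

/-! h67a, row DIM: points of a smooth scheme have small transcendence degree. -/

set_option autoImplicit false
set_option backward.isDefEq.respectTransparency false

open AlgebraicGeometry MvPolynomial Function
open scoped TensorProduct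

namespace Pool.Agent.MP_855f4c_ag.LG

namespace Dim

/-- Values of an etale algebra at a point are integral over any field containing the base values. -/
theorem int {P S k κ : Type} [CommRing P] [CommRing S] [Field k] [Field κ] [Algebra k κ]
    (g : P →+* S) (hg : g.Etale) (χ : P →+* k) (ψ : S →+* κ)
    (h : ψ.comp g = (algebraMap k κ).comp χ) (s : S) : IsIntegral k (ψ s) := by
  let _ := g.toAlgebra
  let _ := χ.toAlgebra
  let _ := (ψ.comp g).toAlgebra
  have : Algebra.Etale P S := hg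
  have : IsScalarTower P k κ := .of_algebraMap_eq' h
  have := Algebra.FormallyUnramified.finite_of_free k (k ⊗[P] S)
  let e : k ⊗[P] S →ₐ[k] κ := Algebra.TensorProduct.lift (Algebra.ofId k κ)
    ⟨ψ, fun _ => rfl⟩ fun _ _ => Commute.all _ _
  have := (Algebra.IsIntegral.isIntegral (R := k) ((1 : k) ⊗ₜ[P] s)).map e
  simpa [e] using this

/-- Independent elements that are algebraic over `d` elements. -/
theorem le {Ω κ : Type} [Field Ω] [Field κ] [Algebra Ω κ] {n d : ℕ} (y : Fin n → κ) (x : Fin d → κ)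
    (hy : AlgebraicIndependent Ω y)
    (h : ∀ i, IsAlgebraic (Algebra.adjoin Ω (Set.range x)) (y i)) : n ≤ d := by
  have h1 : (AlgebraicIndependent.matroid Ω κ).Indep (Set.range y) := hy.to_subtype_range
  have h2 := h1.encard_le_eRk_of_subset
    (X := (AlgebraicIndependent.matroid Ω κ).closure (Set.range x)) (by
      rw [AlgebraicIndependent.matroid_closure_eq]
      rintro _ ⟨i, rfl⟩
      exact h i)
  rw [Matroid.eRk_closure_eq] at h2
  have h3 := hy.injective.encard_range.trans (h2.trans ((Matroid.eRk_le_encard _ _).trans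
    (Set.image_univ ▸ Set.encard_image_le x _)))
  simpa using h3

end Dim

theorem dim : DIM_s := by
  rintro Ω C _ _ _ d hs κ _ φ ⟨b, hb⟩
  obtain ⟨s, h1, h2⟩ := (HasRingHomProperty.Spec_iff (P := @SmoothOfRelativeDimension d)).1 hs
  obtain ⟨t, ht, h0⟩ : ∃ t ∈ s, φ t ≠ 0 := by
    by_contra! h
    have : Ideal.span s ≤ RingHom.ker φ := Ideal.span_le.2 h
    exact RingHom.ker_ne_top φ (top_le_iff.1 (h1 ▸ this))
  obtain ⟨g, g1, g2⟩ := (h2 t ht).exists_etale_mvPolynomial
  let ψ : Localization.Away t →+* κ := IsLocalization.Away.lift t (Ne.isUnit h0)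
  have e : ∀ c, ψ (algebraMap C _ c) = φ c := IsLocalization.Away.lift_eq t _
  let _ := (φ.comp (algebraMap Ω C)).toAlgebra
  let x : Fin d → κ := fun i => ψ (g (X i))
  let k := IntermediateField.adjoin Ω (Set.range x)
  let x' : Fin d → k := fun i => ⟨x i, IntermediateField.subset_adjoin _ _ ⟨i, rfl⟩⟩
  have hy : AlgebraicIndependent Ω fun i => φ (b i) := algebraicIndependent_iff.2 fun P hP =>
    map_injective _ (algebraMap Ω κ).injective ((hb P hP).trans (map_zero _).symm)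
  refine absurd (Dim.le _ x hy fun i => IntermediateField.isAlgebraic_adjoin_iff.1 ?_) (by omega)
  rw [← e]
  refine (Dim.int g g2 (aeval x' : _ →ₐ[Ω] k) ψ (ringHom_ext (fun a => ?_) fun j => ?_) _).isAlgebraic
  · have h3 : ψ (g (MvPolynomial.C a)) = algebraMap Ω κ a :=
      (congrArg ψ (RingHom.congr_fun g1 a)).trans (e _)
    simpa using h3
  · simp [x', x]

end Pool.Agent.MP_855f4c_ag.LG

end

section

/-! h67a: the integral closure of a henselian discrete valuation ring. -/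

namespace Pool.Agent.MP_855f4c_ag.LG.Vb

open Polynomial IsLocalRing

/-- A domain that is integral over a henselian local ring is local. -/
theorem loc (O D : Type) [CommRing O] [HenselianLocalRing O] [CommRing D] [IsDomain D]
    [Algebra O D] [Algebra.IsIntegral O D] : IsLocalRing D := by
  have hi : (algebraMap O D).IsIntegral := Algebra.IsIntegral.isIntegral
  obtain ⟨-, h2⟩ := T.Hr.hp_of_henselianRing O (maximalIdeal O) D (algebraMap O D) hi
  set J := (maximalIdeal O).map (algebraMap O D)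
  have hJ : J ≤ Ideal.jacobson ⊥ := le_sInf fun m hm => by
    have := hm.2
    exact Ideal.map_le_iff_le_comap.2 (eq_maximalIdeal
      (Ideal.isMaximal_comap_of_isIntegral_of_isMaximal' _ hi m)).ge
  have un (z : D) (h : IsUnit (Ideal.Quotient.mk J z)) : IsUnit z := by
    obtain ⟨y, hy⟩ := h.exists_right_inv
    obtain ⟨y, rfl⟩ := Ideal.Quotient.mk_surjective y
    rw [← map_mul, ← map_one (Ideal.Quotient.mk J), Ideal.Quotient.eq] at hy
    exact isUnit_of_mul_isUnit_left (Ideal.isUnit_of_sub_one_mem_jacobson_bot _ (hJ hy))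
  refine .of_isUnit_or_isUnit_one_sub_self fun x => ?_
  obtain ⟨p, hp, hx⟩ := hi x
  let χ : ResidueField O →+* D ⧸ J := Ideal.quotientMap J (algebraMap O D) Ideal.le_comap_map
  set y := Ideal.Quotient.mk J x with hy
  have h0 : (p.map (residue O)).eval₂ χ y = 0 := by
    rw [eval₂_map, hy]
    exact (hom_eval₂ p (algebraMap O D) (Ideal.Quotient.mk J) x).symm.trans (by rw [hx, map_zero])
  obtain ⟨q, hq, hq0⟩ := exists_eq_pow_rootMultiplicity_mul_and_not_dvd _ (hp.map (residue O)).ne_zero 0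
  set m := rootMultiplicity 0 (p.map (residue O))
  rw [C_0, sub_zero, X_dvd_iff] at hq0
  rw [hq, C_0, sub_zero, ← q.X_mul_divX_add, eval₂_mul, eval₂_add, eval₂_mul, eval₂_X_pow, eval₂_X,
    eval₂_C] at h0
  obtain ⟨c, hc⟩ := ((Ne.isUnit hq0).map χ).exists_right_inv
  obtain ⟨t, ht⟩ := Ideal.Quotient.mk_surjective (-(eval₂ χ y q.divX * c))
  set s := Ideal.Quotient.mk J t
  have h1 : y ^ m = y ^ m * (y * s) := by
    rw [ht]; linear_combination c * h0 - y ^ m * hc
  have h3 (k : ℕ) : y ^ m = y ^ m * (y * s) ^ k := by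
    induction k with
    | zero => simp
    | succ k ih => rw [pow_succ', ← mul_assoc, ← h1, ← ih]
  rcases h2 ((x * t) ^ m) (by
    rw [← Ideal.Quotient.eq_zero_iff_mem]
    simp only [map_sub, map_mul, map_pow]
    change (y * s) ^ m * (y * s) ^ m - (y * s) ^ m = 0
    linear_combination (-s ^ m) * h3 m) with h | h
  · rw [← Ideal.Quotient.eq_zero_iff_mem, map_pow, map_mul] at h
    refine .inr (un _ ?_)
    rw [map_sub, map_one]
    exact IsNilpotent.isUnit_one_sub ⟨m, (h3 m).trans (by rw [show (y * s) ^ m = 0 from h, mul_zero])⟩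
  · rw [← Ideal.Quotient.eq_zero_iff_mem, map_sub, map_pow, map_mul, map_one, sub_eq_zero] at h
    refine .inl (un _ (IsUnit.of_mul_eq_one s ?_))
    have h' : (y * s) ^ m = 1 := h
    linear_combination (-s ^ m) * h1 + (1 - y * s) * h'

/-- The `u`, `1 / u` lemma. -/
theorem uu {O Ω : Type} [CommRing O] [Field Ω] [Algebra O Ω] [IsLocalRing (integralClosure O Ω)]
    (z : Ω) (n : ℕ) : ∀ P : (integralClosure O Ω)[X], P.natDegree ≤ n → (∃ j, IsUnit (P.coeff j)) →
      aeval z P = 0 → z ∈ integralClosure O Ω ∨ z⁻¹ ∈ integralClosure O Ω := by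
  induction n with
  | zero =>
    rintro P hP ⟨j, hj⟩ h
    rw [eq_C_of_natDegree_le_zero hP] at h hj
    rw [aeval_C] at h
    rw [show P.coeff 0 = 0 from Subtype.ext h, C_0, coeff_zero] at hj
    exact absurd hj not_isUnit_zero
  | succ n ih =>
    rintro P hP ⟨j, hj⟩ h
    rcases hP.lt_or_eq with hP | hP
    · exact ih P (Nat.le_of_lt_succ hP) ⟨j, hj⟩ h
    let b : integralClosure O Ω := ⟨_, isIntegral_trans _ (isIntegral_leadingCoeff_smul P z h)⟩
    have hb : (b : Ω) = P.leadingCoeff * z := rfl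
    have key := ih (P.eraseLead + monomial n b)
      ((natDegree_add_le _ _).trans (max_le (by have := P.eraseLead_natDegree_le; omega)
        (natDegree_monomial_le _)))
    have h0 : aeval z (P.eraseLead + monomial n b) = 0 := by
      rw [← h]
      conv_rhs => rw [← P.eraseLead_add_monomial_natDegree_leadingCoeff]
      rw [map_add, map_add, aeval_monomial, aeval_monomial, hP, pow_succ', ← mul_assoc]
      rfl
    rcases lt_trichotomy j n with h1 | rfl | h1
    · refine key ⟨j, ?_⟩ h0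
      rwa [coeff_add, eraseLead_coeff_of_ne _ (by omega), coeff_monomial, if_neg h1.ne', add_zero]
    · rcases isUnit_or_isUnit_of_isUnit_add (a := P.coeff j + b) (b := -b) (by simpa using hj)
        with h2 | h2
      · refine key ⟨j, ?_⟩ h0
        rwa [coeff_add, eraseLead_coeff_of_ne _ (by omega), coeff_monomial, if_pos rfl]
      · obtain ⟨c, hc⟩ := ((IsUnit.neg_iff b).1 h2).exists_right_inv
        have h3 : (b : Ω) * c = 1 := congrArg Subtype.val hc
        have : z⁻¹ = (P.leadingCoeff * c : integralClosure O Ω) :=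
          inv_eq_of_mul_eq_one_right (by rw [← h3, hb]; push_cast; ring)
        exact .inr (this ▸ Subtype.prop _)
    · have h2 : j = n + 1 := by
        by_contra h3
        rw [coeff_eq_zero_of_natDegree_lt (by omega)] at hj
        exact not_isUnit_zero hj
      rw [h2, ← hP] at hj
      obtain ⟨c, hc⟩ := hj.exists_right_inv
      have h3 : (P.leadingCoeff : Ω) * c = 1 := congrArg Subtype.val hc
      have : z = (b * c : integralClosure O Ω) := by
        push_cast
        rw [hb]; linear_combination (-z) * h3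
      exact .inl (this ▸ Subtype.prop _)

theorem ex_min {V ι : Type} [CommRing V] [IsDomain V] [ValuationRing V] (c : ι → V)
    (F : Finset ι) (hF : F.Nonempty) : ∃ i ∈ F, ∀ j ∈ F, c i ∣ c j := by
  induction hF using Finset.Nonempty.cons_induction with
  | singleton a => exact ⟨a, by simp, by simp⟩
  | cons a s ha hs ih =>
    obtain ⟨i, hi, h⟩ := ih
    rcases ValuationRing.dvd_total (c a) (c i) with h1 | h1
    · exact ⟨a, by simp, (Finset.forall_mem_cons _ _).2 ⟨dvd_rfl, fun j hj => h1.trans (h j hj)⟩⟩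
    · exact ⟨i, Finset.mem_cons.2 (.inr hi), (Finset.forall_mem_cons _ _).2 ⟨h1, h⟩⟩

variable (O Ω : Type) [CommRing O] [IsDomain O] [IsDiscreteValuationRing O] [Field Ω] [Algebra O Ω]
  [FaithfulSMul O Ω] [Algebra.IsAlgebraic O Ω]

/-- The integral closure of a henselian discrete valuation ring is a valuation ring. -/
theorem val [HenselianLocalRing O] : ValuationRing (integralClosure O Ω) := by
  have := loc O (integralClosure O Ω)
  have key (z : Ω) : z ∈ integralClosure O Ω ∨ z⁻¹ ∈ integralClosure O Ω := by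
    obtain ⟨P, h0, hP⟩ := Algebra.IsAlgebraic.isAlgebraic (R := O) z
    obtain ⟨j, hj, h⟩ := ex_min P.coeff P.support (nonempty_support_iff.2 h0)
    obtain ⟨Q, hQ⟩ := (C_dvd_iff_dvd_coeff (P.coeff j) P).2 fun i => by
      by_cases hi : i ∈ P.support
      exacts [h i hi, by rw [notMem_support_iff.1 hi]; exact dvd_zero _]
    have h1 : Q.coeff j = 1 := mul_left_cancel₀ (mem_support_iff.1 hj) (by
      rw [← coeff_C_mul, ← hQ, mul_one])
    refine uu z _ (Q.map (algebraMap O _)) le_rfl ⟨j, by rw [coeff_map, h1, map_one]; exact isUnit_one⟩ ?_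
    rw [hQ, map_mul, aeval_C] at hP
    rw [aeval_map_algebraMap]
    exact (mul_eq_zero.1 hP).resolve_left
      ((map_ne_zero_iff _ (FaithfulSMul.algebraMap_injective O Ω)).2 (mem_support_iff.1 hj))
  have : PreValuationRing (integralClosure O Ω) := ⟨fun a b => by
    by_cases ha : (a : Ω) = 0
    · exact ⟨0, .inr (Subtype.ext (by simp [ha]))⟩
    by_cases hb : (b : Ω) = 0
    · exact ⟨0, .inl (Subtype.ext (by simp [hb]))⟩
    rcases key (b / a) with h | h
    · exact ⟨⟨_, h⟩, .inl (Subtype.ext (mul_div_cancel₀ _ ha))⟩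
    · exact ⟨⟨_, h⟩, .inr (Subtype.ext (by
        change (b : Ω) * ((b : Ω) / a)⁻¹ = a
        field_simp))⟩⟩
  exact {}

omit [IsDomain O] [IsDiscreteValuationRing O] [FaithfulSMul O Ω] [Algebra.IsAlgebraic O Ω] in
theorem aic [IsAlgClosed Ω] : E3.Aic (integralClosure O Ω) := by
  intro p hp hd
  obtain ⟨z, hz⟩ := IsAlgClosed.exists_aeval_eq_zero Ω p fun h => hd (natDegree_eq_of_degree_eq_some h)
  refine ⟨⟨z, isIntegral_trans z ⟨p, hp, hz⟩⟩, Subtype.ext ?_⟩
  exact (aeval_algebraMap_apply_eq_algebraMap_eval _ p).symm.trans hz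

/-- The field is obtained by inverting a uniformiser. -/
theorem away {π : O} (hπ : Irreducible π) :
    IsLocalization.Away (algebraMap O (integralClosure O Ω) π) Ω := by
  have inj := FaithfulSMul.algebraMap_injective O Ω
  refine IsLocalization.Away.mk _ (Ne.isUnit ((map_ne_zero_iff _ inj).2 hπ.ne_zero)) (fun z => ?_)
    fun x y h => ⟨0, by rw [show x = y from Subtype.ext h]⟩
  obtain ⟨o, h0, ho⟩ := (Algebra.IsAlgebraic.isAlgebraic (R := O) z).exists_integral_multiple
  obtain ⟨n, u, rfl⟩ := IsDiscreteValuationRing.eq_unit_mul_pow_irreducible h0 hπ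
  refine ⟨n, ⟨_, ho.smul (↑u⁻¹ : O)⟩, ?_⟩
  change z * algebraMap O Ω π ^ n = (↑u⁻¹ : O) • ((u : O) * π ^ n) • z
  rw [smul_smul, Units.inv_mul_cancel_left, Algebra.smul_def, map_pow, mul_comm]

omit [FaithfulSMul O Ω] [Algebra.IsAlgebraic O Ω] in
theorem dim : Ring.DimensionLEOne (integralClosure O Ω) := inferInstance

end Pool.Agent.MP_855f4c_ag.LG.Vb

namespace Pool.Agent.MP_855f4c_ag.LG

theorem vb : VB_s := fun O Ω _ _ _ _ _ _ _ _ _ _ l _ hl hπ =>
  ⟨Vb.val O Ω, ⟨Vb.aic O Ω, by simpa using hl.map (algebraMap O (integralClosure O Ω)), Vb.dim O Ω,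
    inferInstance⟩, Vb.away O Ω hπ⟩

end Pool.Agent.MP_855f4c_ag.LG

end

section

section

/-! Row GYS, the part on long exact sequences. -/

set_option autoImplicit false
set_option backward.isDefEq.respectTransparency false

open CategoryTheory Limits Abelian Opposite AlgebraicGeometry Function

namespace Pool.Agent.MP_855f4c_ag.LG

open E E3 E4 E.D
open CV (Ln Lm)

/-- The involution acts trivially on classes supported on its fixed locus. -/
def PDQ_s : Prop := ∀ (l : ℕ) [Fact l.Prime] (Ω : Type) [Field Ω] [IsAlgClosed Ω] [CharZero Ω]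
  (T D W : Scheme.{0}) (f : T ⟶ Spec (.of Ω)) (d : ℕ) [SmoothOfRelativeDimension d f] [IsProper f]
  [IrreducibleSpace T] (j : D ⟶ T) [IsClosedImmersion j] [Nonempty D] (w : W ⟶ T)
  [IsOpenImmersion w] (σ : T ⟶ T) (σ' : W ⟶ W) (h : σ ≫ f = f), σ ≫ σ = 𝟙 T → j ≫ σ = j →
    σ' ≫ w = w ≫ σ → (∀ x, x ∈ Set.range w ↔ x ∉ Set.range j) →
    ∀ (m i : ℕ), i ≤ 2 * d →
      ∀ s : cokernel (Lm (l ^ m) (Over.homMk w : Over.mk (w ≫ f) ⟶ Over.mk f)) ⟶ _,
        cokernel.π _ ≫ s = Lm (l ^ m) (Over.homMk σ h : Over.mk f ⟶ Over.mk f) ≫ cokernel.π _ →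
        ∀ x : Ext.{1} _ (Linf l (Spec (.of Ω))) i, pre s _ i x = x

namespace GYL

variable {l : ℕ} [Fact l.Prime] {S : Scheme.{0}}

lemma prj_lm (n : ℕ) {T' T : Over S} (g : T' ⟶ T) :
    DWK.prj T' n ≫ Lm n g = (fr _).map g ≫ DWK.prj T n := cokernel.π_desc _ _ _

/-- The square of `s - 1` vanishes. -/
lemma sq0 {Q : Sh (Scheme.etaleTopology.over S)} (s : Q ⟶ Q) (m n : ℕ)
    (h₀ : ∀ x : Ext.{1} Q (Linf l S) n, pre s _ n x = x)
    (h₁ : ∀ x : Ext.{1} Q (Linf l S) (n + 1), pre s _ _ x = x) (y : Ext.{1} Q (Zl S l m) (n + 1)) :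
    pre s _ _ (y - pre s _ _ y) = y - pre s _ _ y := by
  obtain ⟨z, hz⟩ := ((cov_les Q (EZ.Zj_exact l S m)).e₁ n (y - pre s _ _ y)).1 (by
    rw [map_sub, ← pre_post, h₁, sub_self])
  rw [← hz]
  exact (pre_dl s (EZ.Zj_exact l S m) z).trans (congrArg _ (h₀ z))

theorem core {T W : Over S} (w : W ⟶ T) [Mono w] (σ : T ⟶ T) (σ' : W ⟶ W) (e : σ' ≫ w = w ≫ σ)
    (e' : σ' ≫ σ' = 𝟙 W) (m n : ℕ)
    (h : ∀ s : cokernel (Lm (l ^ m) w) ⟶ _, cokernel.π _ ≫ s = Lm (l ^ m) σ ≫ cokernel.π _ →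
      ∀ i, i ≤ n + 1 → ∀ x : Ext.{1} _ (Linf l S) i, pre s _ i x = x) (b : H W (Zl S l m) n) :
    ∃ x, res w _ n x = 2 • (b - res σ' _ n b) := by
  have := (lnm S (l ^ m)).2.2.2.1 _ _ w inferInstance
  let C := ShortComplex.mk _ _ (cokernel.condition (Lm (l ^ m) w))
  have hC : C.ShortExact := { exact := ShortComplex.exact_cokernel _ }
  have e₁ : Lm (l ^ m) σ' ≫ Lm (l ^ m) w = Lm (l ^ m) w ≫ Lm (l ^ m) σ := by
    rw [← coef_Lm_comp, ← coef_Lm_comp, e]
  let φ : C ⟶ C := ⟨Lm _ σ', Lm _ σ, cokernel.map _ _ _ _ e₁.symm, e₁, (cokernel.π_desc _ _ _).symm⟩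
  have hs := h φ.τ₃ (cokernel.π_desc _ _ _)
  obtain ⟨β, rfl⟩ := DWK.lift W (pow_ne_zero m (Fact.out : l.Prime).ne_zero) _ n b (DWK.tor W m n b)
  let γ := β - pre φ.τ₁ _ n β
  obtain ⟨ξ, hξ⟩ := ((con_les hC (Zl S l m)).e₃ n (γ - pre φ.τ₁ _ n γ)).1 (by
    rw [map_sub, ← pre_dr hC hC φ, map_sub, ← pre_dr hC hC φ,
      sq0 φ.τ₃ m n (hs n n.le_succ) (hs _ le_rfl), sub_self])
  have p (y : Ext.{1} (Ln (l ^ m) W) (Zl S l m) n) : pre (DWK.prj W _) _ n (pre φ.τ₁ _ n y) =
      res σ' _ n (pre (DWK.prj W _) _ n y) := by rw [pre_pre, pre_pre, prj_lm]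
  refine ⟨pre (DWK.prj T _) _ n ξ, ?_⟩
  rw [pre_pre, ← prj_lm, ← pre_pre, show pre (Lm _ w) _ n ξ = _ from hξ, map_sub, p, map_sub, p,
    map_sub, pre_pre ((fr _).map σ') ((fr _).map σ'), ← Functor.map_comp, e',
    CategoryTheory.Functor.map_id, pre_id]
  abel

end GYL

/-- `GYS_s` in the degrees below `2 * d`. -/
theorem gyl (hP : PDQ_s) (l : ℕ) [Fact l.Prime] (Ω : Type) [Field Ω] [IsAlgClosed Ω] [CharZero Ω]
    (T D W : Scheme.{0}) (f : T ⟶ Spec (.of Ω)) (d : ℕ) [SmoothOfRelativeDimension d f]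
    [IsProper f] [IrreducibleSpace T] (j : D ⟶ T) [IsClosedImmersion j] [Nonempty D] (w : W ⟶ T)
    [IsOpenImmersion w] (σ : T ⟶ T) (σ' : W ⟶ W) (h1 : σ ≫ f = f) (h2 : σ ≫ σ = 𝟙 T)
    (h3 : j ≫ σ = j) (h4 : σ' ≫ w = w ≫ σ) (h5 : ∀ x, x ∈ Set.range w ↔ x ∉ Set.range j)
    (m i : ℕ) (hi : i < 2 * d) (b : HZ l m i W) :
    ∃ x, pz l m i w x = 2 • (b - pz l m i σ' b) := by
  let w₀ : Over.mk (w ≫ f) ⟶ Over.mk f := Over.homMk w
  let s₀ : Over.mk f ⟶ Over.mk f := Over.homMk σ h1
  let s₁ : Over.mk (w ≫ f) ⟶ Over.mk (w ≫ f) :=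
    Over.homMk σ' (by change σ' ≫ w ≫ f = w ≫ f; rw [reassoc_of% h4, h1])
  have : Mono w₀ := have : Mono w₀.left := inferInstanceAs (Mono w); Over.mono_of_mono_left _
  obtain ⟨x, hx⟩ := GYL.core w₀ s₀ s₁ (Over.OverMorphism.ext h4) (Over.OverMorphism.ext (by
    change σ' ≫ σ' = 𝟙 W
    rw [← cancel_mono w, Category.assoc, h4, reassoc_of% h4, h2, Category.comp_id,
      Category.id_comp])) m i
    (fun s hs k hk => hP l Ω T D W f d j w σ σ' h1 h2 h3 h4 h5 m k (hk.trans hi) s hs)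
    (Et.absZ (Over.mk (w ≫ f)) l m i b)
  obtain ⟨x, rfl⟩ := (Et.absZ_bij (Over.mk f) l m i).2 x
  refine ⟨x, (Et.absZ_bij (Over.mk (w ≫ f)) l m i).1 ?_⟩
  rw [map_nsmul, map_sub]
  exact (Et.absZ_res w₀ l m i x).trans
    (hx.trans (congrArg (fun z => 2 • (_ - z)) (Et.absZ_res s₁ l m i b).symm))

end Pool.Agent.MP_855f4c_ag.LG

end

end
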