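import Pool.Agent.MP_855f4c_ag.AC.Ao
import Pool.Agent.MP_855f4c_ag.AC.Ap
import Pool.Agent.MP_855f4c_ag.AC.Aw
import Pool.Agent.MP_855f4c_ag.VC.Vi

set_option linter.all false

section

/-! h67a row PDQ: the involution acts trivially on classes supported on its fixed locus. -/

set_option autoImplicit false
set_option backward.isDefEq.respectTransparency false

open CategoryTheory Limits Abelian Opposite AlgebraicGeometry Function

namespace Pool.Agent.MP_855f4c_ag.LG.Pdq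

open E E3 E4 Pool.Agent.MP_855f4c_ag.T Pbc Eza

variable {T T' T'' : Scheme.{0}}

lemma cst_pce {g' : T'' ⟶ T'} {g : T' ⟶ T} {k : T'' ⟶ T} (e : g' ≫ g = k) (M : Ab.{1}) :
    (M2.cstPb g').inv.app M ≫ (pbe g').map ((M2.cstPb g).inv.app M) ≫
      (pce e ((cst T).obj M)).hom = (M2.cstPb k).inv.app M := by
  subst e
  rw [pce_rfl]
  exact cst_pc g' g M

variable {D : Scheme.{0}} (j : D ⟶ T)

/-- `A` has no stalks outside the image of `j`. -/
def Off (A : Sh (Scheme.etaleTopology.over T)) : Prop :=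
  ∀ (k : Type) [Field k] [IsAlgClosed k] (x : Spec (.of k) ⟶ T), (∀ t, x t ∉ Set.range j) →
    ∀ s : sec A (Over.mk x), s = 0

variable {l : ℕ} [IsClosedImmersion j] (hl : Linv l T) {A : Sh (Scheme.etaleTopology.over T)}
  (hA : Cc l A) (h : Off j A)
include hl hA h

lemma unit_iso : IsIso ((pbpf j).unit.app A) := by
  let O : T.Opens := ⟨(Set.range j)ᶜ, j.isClosedEmbedding.isClosed_range.isOpen_compl⟩
  have h1 := CLZ.iso j (O := O) (fun _ => Iff.rfl) hl hA
  have h2 : IsZero ((ez O).obj A) := PB.npt T l hl _ (CLZ.ez_cc hA) fun k _ _ b s =>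
    Subtype.ext (by
      by_cases e : ∀ t, b t ∉ Set.range j
      · exact h k b e _
      · exact CLZ.van (fun t ht => e fun t' => by rwa [Subsingleton.elim t' t]) s)
  have h3 : IsIso (cokernel.π ((ezι O).app A)) := cokernel.π_of_zero (h2.eq_of_src _ _)
  rw [← cokernel.π_desc _ _ (CLZ.w j (O := O) (fun _ => id) A)]
  exact IsIso.comp_isIso' h3 h1

/-- Classes with such coefficients are determined by their restriction. -/
lemma inj (n : ℕ) : Injective (cmp (pbe j) (zpb j).inv A n) := by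
  have := unit_iso j hl hA h
  intro y y' e
  have h1 := CLZ.adj_pb j (zpb j) (𝟙 _) n y
  rw [e, CLZ.adj_pb j (zpb j) (𝟙 _) n y'] at h1
  exact (post_bij (Zs T) _ n).1 h1.symm

lemma key (σ : T ⟶ T) (h1 : j ≫ σ = j) (h2 : σ ≫ σ = 𝟙 T) (a : A ⟶ (pbe σ).obj A)
    (ha : (pbe j).map a ≫ (pce h1 A).hom = 𝟙 _) {n : ℕ} (y : Ext (Zs T) A n) :
    cmp (pbe σ) (zpb σ).inv _ n y = post _ a n y := by
  refine inj j hl (pb_cc σ hA) (fun k _ _ x hx s => h k (x ≫ σ) (fun t ⟨z, hz⟩ => hx t ⟨z, ?_⟩) s)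
    n ?_
  · have e1 : σ (j z) = j z := congr($h1 z)
    have e2 : σ (σ (x t)) = x t := congr($h2 (x t))
    exact e1.symm.trans ((congrArg σ hz).trans e2)
  have e1 : (pce h1 A).inv ≫ (pbe j).map (𝟙 _) ≫ 𝟙 _ = (pbe j).map a := by
    rw [← cancel_mono (pce h1 A).hom, ha]
    simp
  have e3 := gp_gp h1 (zpb j).inv (𝟙 _) (zpb σ).inv (𝟙 _) y
  rw [gp_apply, gp_apply, gp_apply, post_id, post_id, e1] at e3
  refine e3.trans ((congrArg (fun c => post _ _ n (pre c _ n _)) (cst_pce h1 _)).trans ?_)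
  rw [E.D.cmp_eq, map_post, pre_post]
  rfl

end Pool.Agent.MP_855f4c_ag.LG.Pdq

namespace Pool.Agent.MP_855f4c_ag.LG

open E E3 E4 Pool.Agent.MP_855f4c_ag.T Pbc Eza A

/-- Duality: the action on `Ext (A, ℚ_l / ℤ_l)` is trivial. -/
theorem pdq (l : ℕ) [Fact l.Prime] {Ω : Type} [Field Ω] [IsAlgClosed Ω] [CharZero Ω]
    {T D : Scheme.{0}} (f : T ⟶ Spec (.of Ω)) (d : ℕ) [SmoothOfRelativeDimension d f] [IsProper f]
    [IrreducibleSpace T] (j : D ⟶ T) [IsClosedImmersion j] [Nonempty D] (σ : T ⟶ T)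
    (h₁ : σ ≫ f = f) (h₂ : σ ≫ σ = 𝟙 T) (h₃ : j ≫ σ = j) {F : Sh (Scheme.etaleTopology.over T)}
    (hF : Tc l F) (h : Pdq.Off j F) (a : F ⟶ (pbe σ).obj F)
    (ha : (pbe j).map a ≫ (pce h₃ F).hom = 𝟙 _) (i : ℕ) (hi : i ≤ 2 * d)
    (x : Ext F (Linf l T) i) : Eza.gp σ a (lpb l σ).hom i x = x := by
  have hl0 : (l : Ω) ≠ 0 := Nat.cast_ne_zero.2 (Fact.out : l.Prime).ne_zero
  have hl : Linv l T := (Linv.spec hl0.isUnit).of_hom f
  have : Smooth f := SmoothOfRelativeDimension.smooth d f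
  have : IsIso σ := ⟨σ, h₂, h₂⟩
  obtain ⟨t, ht⟩ := Kpd.pdh zb (Pool.Agent.MP_855f4c_ag.T.All.hPDX l Ω T f d (chart_of E.D.twf Ω T f d))
  obtain ⟨p, hp⟩ := Zetk.pt (RingHom.id Ω) (j ≫ f)
  obtain ⟨n, hn⟩ := Nat.exists_eq_add_of_le' hi
  refine (ht F hF i n hn.symm).1 (AddMonoidHom.ext fun y => congrArg t ?_)
  refine Eq.trans ?_ (zeta kl sg oex exc (ths kl) thj (mat0 (ths kl) thj) (nt0 (ths kl) oex) zalg l Ω T f d σ
    (p ≫ j) h₁ ((Category.assoc _ _ _).trans (hp.trans (Spec.map_id _))) (by rw [Category.assoc, h₃]) (y.comp x hn.symm))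
  change y.comp (Eza.gp σ a (lpb l σ).hom i x) hn.symm = hpb l σ _ (y.comp x hn.symm)
  rw [hpb, gpb_apply, gp_apply, Ext.mapExactFunctor_comp, pre_comp, post_comp,
    ← E.D.cmp_eq (pbe σ) (zpb σ).inv, Pdq.key j hl hF.1 h σ h₃ h₂ a ha, ← comp_pre, pre_post]

end Pool.Agent.MP_855f4c_ag.LG

end

section

section

/-! Row GYS, passage from the site of the base to the site of the variety. -/

set_option autoImplicit false
set_option backward.isDefEq.respectTransparency false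

open CategoryTheory Limits Abelian Opposite AlgebraicGeometry Function

namespace Pool.Agent.MP_855f4c_ag.LG

open E E3 E4 E.D Pool.Agent.MP_855f4c_ag.T Pool.Agent.MP_855f4c_ag.T.Les2
open CV (Ln Lm)

namespace GYT

variable {X Y Z : Scheme.{0}} (g : Y ⟶ X) {V V' : Over Y} {U U' : Over X}

/-- The tautological map. -/
noncomputable def ft (θ : (Over.map g).obj V ⟶ U) : (fr _).obj V ⟶ (pbe g).obj ((fr _).obj U) :=
  frPs (Over.map g) _ _ V ≫ (pbe g).map ((fr _).map θ)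

lemma ft_eq (θ : (Over.map g).obj V ⟶ U) :
    frEquiv V _ (ft g θ) = frEquiv _ _ ((fr (Scheme.etaleTopology.over X)).map θ) :=
  frEquiv_frPs _ _ _ _ _

lemma ft_post (θ : (Over.map g).obj V ⟶ U) (u : U ⟶ U') :
    ft g θ ≫ (pbe g).map ((fr _).map u) = ft g (θ ≫ u) := by
  rw [ft, ft, Category.assoc, ← Functor.map_comp, ← Functor.map_comp]

lemma ft_pre (t : V' ⟶ V) (θ : (Over.map g).obj V ⟶ U) :
    (fr _).map t ≫ ft g θ = ft g ((Over.map g).map t ≫ θ) := by
  rw [← ft_post, ft, ← Category.assoc, frPs_nat]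
  rfl

lemma ft_ft {g' : Z ⟶ Y} {k : Z ⟶ X} (e : g' ≫ g = k) {V'' : Over Z}
    (θ' : (Over.map g').obj V'' ⟶ V) (θ : (Over.map g).obj V ⟶ U) (θ'' : (Over.map k).obj V'' ⟶ U)
    (h : θ''.left = θ'.left ≫ θ.left) :
    ft g' θ' ≫ (pbe g').map (ft g θ) ≫ (pce e _).hom = ft k θ'' := by
  subst e
  refine (frEquiv V'' _).injective ?_
  have e1 : frEquiv V'' _ (ft g' θ' ≫ (pbe g').map (ft g θ)) =
      frEquiv _ _ ((fr (Scheme.etaleTopology.over X)).map ((Over.map g).map θ' ≫ θ)) := by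
    rw [ft, Category.assoc, ← Functor.map_comp]
    exact (frEquiv_frPs _ _ _ _ _).trans ((congrArg _ (ft_pre g θ' θ)).trans (ft_eq g _))
  rw [← Category.assoc, frEquiv_post, e1, ft_eq, pce, eqToIso_refl, Iso.trans_refl]
  refine (frEquiv_pre ((Over.mapComp g' g).hom.app V'') _).symm.trans ?_
  rw [← Functor.map_comp]
  exact congrArg (fun a => frEquiv _ _ ((fr (Scheme.etaleTopology.over X)).map a))
    (Over.OverMorphism.ext (by simp [h]))

lemma ft_bij (θ : (Over.map g).obj V ⟶ U) [IsIso θ] (F : Sh (Scheme.etaleTopology.over X)) (q : ℕ) :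
    Bijective (E.cmp (pbe g) (ft g θ) F q) := by
  rw [show ⇑(E.cmp (pbe g) (ft g θ) F q) = slH g V F q ∘ res θ F q from
    funext fun x => (cmp_pre _ _ _ x).symm]
  exact (slH_bij g V F q).comp (pre_bij _ _ q)

variable (n : ℕ)

/-- The same modulo `n`. -/
noncomputable def lt (θ : (Over.map g).obj V ⟶ U) : Ln n V ⟶ (pbe g).obj (Ln n U) :=
  cokernel.desc _ (ft g θ ≫ (pbe g).map (DWK.prj U n)) (by
    rw [Preadditive.zsmul_comp, Category.id_comp, ← Preadditive.comp_zsmul, ← Functor.map_zsmul,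
      ← Category.id_comp (DWK.prj U n), ← Preadditive.zsmul_comp, DWK.prj, cokernel.condition,
      Functor.map_zero, comp_zero])

lemma prj_lt (θ : (Over.map g).obj V ⟶ U) :
    DWK.prj V n ≫ lt g n θ = ft g θ ≫ (pbe g).map (DWK.prj U n) := cokernel.π_desc _ _ _

instance (V : Over Y) : Epi (DWK.prj V n) := coequalizer.π_epi

lemma lt_bij (hn : n ≠ 0) (θ : (Over.map g).obj V ⟶ U) [IsIso θ]
    (F : Sh (Scheme.etaleTopology.over X)) (q : ℕ) : Bijective (E.cmp (pbe g) (lt g n θ) F q) :=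
  E.D.cmp_τ₃ (pbe g) (lnS_exact hn U) (lnS_exact hn V) ⟨ft g θ, ft g θ, lt g n θ, by
    simp only [lnS, ShortComplex.map_f, Functor.map_zsmul, CategoryTheory.Functor.map_id,
      Preadditive.zsmul_comp, Preadditive.comp_zsmul]
    exact congrArg _ ((Category.comp_id _).trans (Category.id_comp _).symm),
    (prj_lt g n θ).symm⟩ F (ft_bij g θ F) (ft_bij g θ F) q

variable {t : V' ⟶ V} {u : U' ⟶ U} {θ' : (Over.map g).obj V' ⟶ U'} {θ : (Over.map g).obj V ⟶ U}
  (e : (Over.map g).map t ≫ θ = θ' ≫ u)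

include e in
lemma lt_nat : lt g n θ' ≫ (pbe g).map (Lm n u) = Lm n t ≫ lt g n θ := by
  rw [← cancel_epi (DWK.prj V' n), reassoc_of% prj_lt, ← Functor.map_comp, GYL.prj_lm,
    Functor.map_comp, reassoc_of% ft_post, reassoc_of% GYL.prj_lm, prj_lt, reassoc_of% ft_pre, e]

/-- The same for pairs. -/
noncomputable def qt : cokernel (Lm n t) ⟶ (pbe g).obj (cokernel (Lm n u)) :=
  cokernel.desc _ (lt g n θ ≫ (pbe g).map (cokernel.π _)) (by
    rw [← reassoc_of% lt_nat g n e, ← Functor.map_comp, cokernel.condition, Functor.map_zero,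
      comp_zero])

lemma prj_qt : (DWK.prj V n ≫ cokernel.π _) ≫ qt g n e =
    ft g θ ≫ (pbe g).map (DWK.prj U n ≫ cokernel.π _) := by
  rw [Category.assoc, qt, cokernel.π_desc, reassoc_of% prj_lt, Functor.map_comp]

lemma qt_bij (hn : n ≠ 0) [IsIso θ] [IsIso θ'] [Mono t] [Mono u]
    (F : Sh (Scheme.etaleTopology.over X)) (q : ℕ) : Bijective (E.cmp (pbe g) (qt g n e) F q) :=
  have := (lnm _ n).2.2.2.1 _ _ t inferInstance
  have := (lnm _ n).2.2.2.1 _ _ u inferInstance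
  E.D.cmp_τ₃ (pbe g) (T := .mk _ _ (cokernel.condition (Lm n u)))
    (S := .mk _ _ (cokernel.condition (Lm n t))) { exact := ShortComplex.exact_cokernel _ }
    { exact := ShortComplex.exact_cokernel _ }
    ⟨lt g n θ', lt g n θ, qt g n e, lt_nat g n e, (cokernel.π_desc _ _ _).symm⟩ F
    (lt_bij g n hn θ' F) (lt_bij g n hn θ F) q

/-- No stalks off the complement. -/
lemma stalk {W : Scheme.{0}} (w : W ⟶ Y) [IsOpenImmersion w] {k : Type} [Field k] [IsAlgClosed k]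
    (x : Spec (.of k) ⟶ Y) (hx : x (IsLocalRing.closedPoint k) ∈ Set.range w)
    (s : sec (cokernel (Lm n (tot (Over.mk w)))) (Over.mk x)) : s = 0 := by
  obtain ⟨e, -, he⟩ := (lnm Y n).2.2.2.2 k x
  obtain ⟨s, rfl⟩ := pt_shl x (cokernel.π (Lm n (tot (Over.mk w)))) s
  obtain ⟨t, ht⟩ := Finsupp.mapDomain_surjective (M := ZMod n)
    (f := fun y : Over.mk x ⟶ Over.mk w => y ≫ tot _) (fun y =>
      ⟨Over.homMk (IsOpenImmersion.lift w x (by
        rintro _ ⟨t, rfl⟩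
        rwa [Subsingleton.elim (α := PrimeSpectrum k) t (IsLocalRing.closedPoint k)]))
        (IsOpenImmersion.lift_fac _ _ _), Over.mkIdTerminal.hom_ext _ _⟩) (e _ s)
  obtain ⟨t, rfl⟩ := (e _).surjective t
  rw [← (e _).injective ((he _ _ _ t).trans ht)]
  exact congrArg (fun a => a.hom.app (op (Over.mk x)) t) (cokernel.condition (Lm n (tot (Over.mk w))))

end GYT

open GYT in
theorem pdqs : PDQ_s := by
  intro l _ Ω _ _ _ T D W f d _ _ _ j _ _ w _ σ σ' h1 h2 h3 h4 h5 m i hi s hs x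
  have hn := pow_ne_zero m (Fact.out : l.Prime).ne_zero
  let t : Over.mk w ⟶ top T := tot _
  let u : Over.mk (w ≫ f) ⟶ Over.mk f := Over.homMk w
  have : Mono t := have : Mono t.left := inferInstanceAs (Mono w); Over.mono_of_mono_left _
  have : Mono u := have : Mono u.left := inferInstanceAs (Mono w); Over.mono_of_mono_left _
  have e₁ : (Over.map f).map t ≫ DU.ιt f = 𝟙 ((Over.map f).obj (Over.mk w)) ≫ u :=
    Over.OverMorphism.ext (by simp [t, u, tot, DU.ιt])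
  have e₂ : (Over.map σ).map t ≫ tot _ = (Over.homMk σ' h4 : _ ⟶ Over.mk w) ≫ t :=
    Over.mkIdTerminal.hom_ext _ _
  let a := qt f (l ^ m) e₁
  let α := qt σ (l ^ m) e₂
  let p := DWK.prj (top T) (l ^ m) ≫ cokernel.π (Lm (l ^ m) t)
  have hA : Tc l (cokernel (Lm (l ^ m) t)) :=
    Tc.coker _ ((lnm T _).1 l _ ⟨m, rfl⟩ (inferInstanceAs (Etale w))).1
      ((lnm T _).1 l _ ⟨m, rfl⟩ (inferInstanceAs (Etale (𝟙 T))))
  have hα : (pbe j).map α ≫ (pce h3 _).hom = 𝟙 _ := by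
    have : IsIso (ft j (V := top D) (tot _)) := E.D.tt_iso j _
    rw [← cancel_epi ((pbe j).map p), ← cancel_epi (ft j (V := top D) (tot _)), ← Functor.map_comp_assoc, prj_qt,
      Functor.map_comp_assoc, pce_nat,
      reassoc_of% ft_ft σ h3 (tot _) (tot _) (tot _) (by simp [tot, h3]), Category.comp_id]
  have hc : α ≫ (pbe σ).map a ≫ (pce h1 _).hom = a ≫ (pbe f).map s := by
    rw [← cancel_epi p, ← Category.assoc p, prj_qt, Category.assoc, ← Functor.map_comp_assoc, prj_qt,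
      Functor.map_comp_assoc, pce_nat, reassoc_of% ft_ft f h1 (tot _) (DU.ιt f)
        (DU.ιt f ≫ Over.homMk σ h1) (by simp [tot, DU.ιt]), ← Category.assoc p, prj_qt,
      Category.assoc, ← Functor.map_comp, Category.assoc, hs, reassoc_of% GYL.prj_lm,
      Functor.map_comp _ ((fr _).map _), reassoc_of% ft_post]
  have h : kp σ α (lpb l σ).hom i _ = _ := pdq l f d j σ h1 h2 h3 hA
    (fun k _ _ y hy => stalk _ w y ((h5 _).2 (hy _))) α hα i hi (kp f a (lpb l f).hom i x)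
  rw [kp_kp h1, hc, ← pce_lpb h1, Iso.inv_hom_id_assoc] at h
  refine ((post_bij _ (lpb l f).hom i).comp (qt_bij f _ e₁ hn _ i)).1 (Eq.trans ?_ h)
  exact congrArg (post _ _ i) (cmp_pre _ _ _ x)

theorem gys : GYS_s := fun l _ Ω _ _ _ T D W f d _ _ _ j _ _ w _ σ σ' h1 h2 h3 h4 h5 =>
  ⟨2, two_ne_zero, gyl pdqs l Ω T D W f d j w σ σ' h1 h2 h3 h4 h5⟩

end Pool.Agent.MP_855f4c_ag.LG

end

end
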