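import Pool.Agent.MP_855f4c_ag.AC.All
import Pool.Agent.MP_855f4c_ag.VC.Vd
import Pool.Agent.MP_855f4c_ag.VC.Vj
import Pool.Agent.MP_855f4c_ag.VC.Vk

set_option linter.all false

section

/-! h67a row INV: the reflection theorem for an involution. -/

set_option autoImplicit false
set_option backward.isDefEq.respectTransparency false

open CategoryTheory Limits AlgebraicGeometry

namespace Pool.Agent.MP_855f4c_ag.LG

open E Pool.Agent.MP_855f4c_ag.T

theorem inv : INV_s := by
  intro O K Ω _ _ _ _ _ _ _ _ _ _ _ _ n T ι d σ D j h l _ i φ u Q ul h1 h2 h3 h4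
  have := h.cl
  have := h.sm
  have := h.gi
  have := h.clj
  have := h.smj
  have := h.ne
  change MR (ι ≫ pS K _) σ h.ov l i Q φ u
  by_cases hj : ∃ x : T, x ∉ Set.range j
  · have : IsProper (ι ≫ pS K _) := Lr.prp K _ ι
    exact genr _ σ h.ov O Ω l ul i (fun p _ _ _ hl φ u Q => A.All.hCORE p l hl K T _ d n ι rfl D j
      h.rng hj σ h.ov h.fix 2 two_pos ((pow_two _).trans h.sq) i φ u Q) φ u Q h1 h2 h3 h4
  · have : Surjective j := ⟨fun x => not_not.1 fun h => hj ⟨x, h⟩⟩
    have : Smooth (ι ≫ pS K _) := SmoothOfRelativeDimension.smooth d _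
    have : IsReduced T := by
      choose U h1 _ h3 using E.D.intb K T (ι ≫ pS K _)
      exact (IsReduced.iff_of_openCover _ (T.openCoverOfIsOpenCover U
        (eq_top_iff.2 fun x _ => TopologicalSpace.Opens.mem_iSup.2 ⟨x, h1 x⟩))).2 fun i =>
          have := h3 i
          inferInstanceAs (IsReduced (U i).toScheme)
    have := isIso_of_isClosedImmersion_of_surjective j
    exact Finr.mr_id _ l i _ _ ((cancel_epi j).1 (h.fix.trans (Category.comp_id j).symm)) h1

end Pool.Agent.MP_855f4c_ag.LG

end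

section

/-! h67a: every row without hypotheses. -/

namespace Pool.Agent.MP_855f4c_ag.LG

theorem avA : E.AV.AV_s := E.AV.avB AV.RG.bcA

theorem resJ : RESJ_s :=
  finj (gpj ch bert (dbl ch smq rs sgp ne (gi smq)) modj)
    (ruj vb dim (ruj0 (rnj avA (rav avA E.AV.ptA E.AV.big) (surj avA) lrs))) (gy2 gys) finz lim inv

end Pool.Agent.MP_855f4c_ag.LG

end
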