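import Pool.Agent.MP_855f4c_ag.EC.F2f
import Pool.Agent.MP_855f4c_ag.TC.Te
import Pool.Agent.MP_855f4c_ag.VC.Va
import Pool.Agent.MP_855f4c_ag.TC.Td
import Pool.Agent.MP_855f4c_ag.WD.H
import Pool.Agent.MP_855f4c_ag.EC.De
import Pool.Agent.MP_855f4c_ag.EC.Db

set_option linter.all false

section

/-! h67a, section RG: definitions and rows. -/

set_option autoImplicit false
set_option backward.isDefEq.respectTransparency false

open CategoryTheory Limits Abelian Opposite AlgebraicGeometry Polynomial Function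

namespace Pool.Agent.MP_855f4c_ag.AV.RG

open E E3 E4 T
open E.CV (Ln Lm)
open E.D (Aet TwN)

/-- A punctured germ of the affine line over a valuation ring of rank one. -/
structure GD (l : ℕ) where
  V : Type
  K : Type
  O : Type
  O₀ : Type
  [cV : CommRing V]
  [dV : IsDomain V]
  [vV : ValuationRing V]
  [fK : Field K]
  [aK : IsAlgClosed K]
  [zK : CharZero K]
  [gK : Algebra V K]
  [rK : IsFractionRing V K]
  p : V
  [lK : IsLocalization.Away p K]
  [cO : CommRing O]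
  [gO : Algebra V[X] O]
  [c₀ : CommRing O₀]
  [g₀ : Algebra O O₀]
  [g₁ : Algebra V[X] O₀]
  [t₀ : IsScalarTower V[X] O O₀]
  [l₀ : IsLocalization.Away (algebraMap V[X] O X) O₀]
  aic : Aic V
  mx : ∀ q : Ideal V, q.IsPrime → q ≠ ⊥ → q.IsMaximal
  np : ¬ IsUnit p
  ul : IsUnit (l : V)
  germ : Germ V O

attribute [instance] GD.cV GD.dV GD.vV GD.fK GD.aK GD.zK GD.gK GD.rK GD.lK GD.cO GD.gO GD.c₀ GD.g₀
  GD.g₁ GD.t₀ GD.l₀

/-- A henselisation `C` of `A` along `g`, with `A' = A[1/g]` and `C' = C[1/g]`. -/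
structure Sq (A : Type) [CommRing A] (g : A) where
  A' : Type
  C : Type
  C' : Type
  [rA' : CommRing A']
  [rC : CommRing C]
  [rC' : CommRing C']
  [aA' : Algebra A A']
  [aC : Algebra A C]
  [aC' : Algebra A C']
  [bC' : Algebra C C']
  [cC' : Algebra A' C']
  [t₁ : IsScalarTower A C C']
  [t₂ : IsScalarTower A A' C']
  [lA' : IsLocalization.Away g A']
  [lC' : IsLocalization.Away (algebraMap A C g) C']
  exs : Exs A C (Ideal.span {g})
  hen : T.Hens C (Ideal.span {algebraMap A C g})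
  hp : T.HP C (Ideal.span {algebraMap A C g})

attribute [instance] Sq.rA' Sq.rC Sq.rC' Sq.aA' Sq.aC Sq.aC' Sq.bC' Sq.cC' Sq.t₁ Sq.t₂ Sq.lA' Sq.lC'

/-- A finite product of fields. -/
def Fld (A : Type) [CommRing A] : Prop :=
  IsReduced A ∧ Finite (PrimeSpectrum A) ∧ ∀ q : Ideal A, q.IsPrime → q.IsMaximal

/-- `Eˣ / l` has dimension at most one. -/
def Cyc (l : ℕ) (E : Type) [Field E] : Prop := ∀ x y : Eˣ, ∃ a b : ℤ,
  ¬ ((l : ℤ) ∣ a ∧ (l : ℤ) ∣ b) ∧ ∃ z : Eˣ, x ^ a * y ^ b = z ^ l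

/-- `E` is algebraic over the image of `φ`. -/
def Alg {R E : Type} [CommRing R] [Field E] (φ : R →+* E) : Prop :=
  ∀ z : E, ∃ f : R[X], f.map φ ≠ 0 ∧ f.eval₂ φ z = 0

/-- Transcendence degree at most one over an algebraically closed field. -/
def CD1 (l : ℕ) (E : Type) [Field E] : Prop := ∃ (k : Type) (_ : Field k) (_ : IsAlgClosed k)
  (_ : Algebra k E), C.TD1 k E ∧ (l : k) ≠ 0

/-! ### Rows without cohomology -/

def SQ0_s : Prop := ∀ (A : Type) [CommRing A] (g : A), Nonempty (Sq A g)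

def ALG_s : Prop := ∀ (R A E : Type) [CommRing R] [CommRing A] [Algebra R A] [Field E]
  (φ : A →+* E), IndEt R A → φ.IsIntegral → Alg (φ.comp (algebraMap R A))

def PTS_s : Prop := ∀ (l : ℕ) (V E : Type) [CommRing V] [IsDomain V] [ValuationRing V] [Field E]
  (ψ : V[X] →+* E), Aic V → IsUnit (l : V) → Alg ψ → CD1 l E ∧ (Trc ψ ∨ IsAlgClosed E)

def DIM_s : Prop := ∀ (l : ℕ) (D : GD l), IsDomain D.O₀ ∧ IsIntegrallyClosed D.O₀ ∧
  IndEt D.V[X] D.O₀ ∧ Injective (algebraMap D.V[X] D.O₀) ∧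
  (∀ q : Ideal D.O₀, q.IsPrime → q ≠ ⊥ → q.IsMaximal) ∧
  (∀ g : D.O₀, g ≠ 0 → {q : PrimeSpectrum D.O₀ | g ∈ q.asIdeal}.Finite) ∧
  (∀ q : Ideal D.O₀, q.IsPrime → algebraMap D.V[X] D.O₀ (C D.p) ∈ q →
    q.comap (algebraMap D.V[X] D.O₀) = (IsLocalRing.maximalIdeal D.V).map C) ∧
  ∀ h : D.O₀, h ≠ 0 → ∃ f : D.V[X], f ≠ 0 ∧ h ∣ algebraMap D.V[X] D.O₀ f

def SQF_s : Prop := ∀ (A : Type) [CommRing A] [IsDomain A] [IsIntegrallyClosed A] (g : A)
  (Q : Sq A g), (∀ q : Ideal A, q.IsPrime → q ≠ ⊥ → q.IsMaximal) → g ≠ 0 →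
    {q : PrimeSpectrum A | g ∈ q.asIdeal}.Finite →
    IndEt A Q.C' ∧ Fld Q.C' ∧ Fld (Q.C ⧸ (Ideal.span {algebraMap A Q.C g}).radical) ∧
    (∀ q : Ideal Q.C, q.IsPrime → algebraMap A Q.C g ∈ q → q.IsMaximal) ∧
    ∀ (E : Type) [Field E] (φ : Q.C' →+* E), Injective (φ.comp (algebraMap A Q.C'))

def GF_s : Prop := ∀ (R S : Type) [CommRing R] [IsDomain R] [CommRing S] [Algebra R S]
  [Algebra.Etale R S], ∃ f : R, f ≠ 0 ∧ ∀ (f' : R) (n : ℕ), f ∣ f' ^ n →
    ∀ (R' S' : Type) [CommRing R'] [CommRing S'] [Algebra R R'] [Algebra S S'] [Algebra R S']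
      [Algebra R' S'] [IsScalarTower R S S'] [IsScalarTower R R' S'] [IsLocalization.Away f' R']
      [IsLocalization.Away (algebraMap R S f') S'], Module.Finite R' S' ∧ Algebra.Etale R' S'

/-- The two tubes are connected and contain a point with coordinate zero. -/
def CON_s : Prop := ∀ (l : ℕ) (D : GD l),
  (∀ Q : Sq D.V[X] (C D.p), ConnectedSpace (PrimeSpectrum Q.C') ∧
    ∃ (k : Type) (_ : Field k) (_ : IsAlgClosed k) (φ : Q.C' →+* k),
      φ (algebraMap D.V[X] Q.C' X) = 0) ∧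
  ∀ (g : D.V[X]) (G : Type) [CommRing G] [Algebra D.O G]
    [IsLocalization.Away (algebraMap D.V[X] D.O g) G], g.eval 0 ≠ 0 →
      ConnectedSpace (PrimeSpectrum G) ∧
      ∃ (k : Type) (_ : Field k) (_ : IsAlgClosed k) (φ : G →+* k),
        φ (algebraMap D.O G (algebraMap D.V[X] D.O X)) = 0

def CYC_s : Prop := ∀ (l : ℕ) [Fact l.Prime] (D : GD l) (g : D.O₀) (Q : Sq D.O₀ g), g ≠ 0 →
  ∀ (E : Type) [Field E] (φ : Q.C' →+* E), φ.IsIntegral → Cyc l E

/-! ### Rows for any scheme -/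

section
variable {X : Scheme.{0}}

/-- `W × T`. -/
noncomputable abbrev PW (W : Over X) : Over X ⥤ Over X := Over.pullback W.hom ⋙ Over.map W.hom

/-- The projection `W × T → W`. -/
noncomputable def prW (W T : Over X) : (PW W).obj T ⟶ W :=
  Over.homMk ((Over.pullback W.hom).obj T).hom

/-- The projection `W × T → T`. -/
noncomputable abbrev prT (W T : Over X) : (PW W).obj T ⟶ T :=
  (Over.mapPullbackAdj W.hom).counit.app T

lemma map_prW (W : Over X) {T' T : Over X} (g : T' ⟶ T) : (PW W).map g ≫ prW W T = prW W T' :=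
  Over.OverMorphism.ext (Over.w ((Over.pullback W.hom).map g))

/-- The cohomology vanishes in degree `q`. -/
def Z (T : Over X) (F : Sh (Scheme.etaleTopology.over X)) (q : ℕ) : Prop := ∀ x : H T F q, x = 0

/-- `F` vanishes at the geometric points `φ` with the property `P`. -/
def VanP (F : Sh (Scheme.etaleTopology.over X)) {A : Type} [CommRing A] (u : Spec (.of A) ⟶ X)
    (P : ∀ (k : Type) [Field k], (A →+* k) → Prop) : Prop :=
  ∀ (k : Type) [Field k] [IsAlgClosed k] (φ : A →+* k), P k φ →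
    ∀ s : sec F (Over.mk (spc φ ≫ u)), s = 0

/-- The algebra map of a tower. -/
noncomputable abbrev tw {R : Type} [CommRing R] (u : Spec (.of R) ⟶ X) (A B : Type) [CommRing A]
    [CommRing B] [Algebra R A] [Algebra R B] [Algebra A B] [IsScalarTower R A B] :
    ob u B ⟶ ob u A := hm u (IsScalarTower.toAlgHom R A B)

/-- The structure map. -/
noncomputable def t0 {R : Type} [CommRing R] (u : Spec (.of R) ⟶ X) (A : Type) [CommRing A]
    [Algebra R A] : ob u A ⟶ Over.mk u := Over.homMk (spc (algebraMap R A))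

end

def HV_s : Prop := ∀ (l : ℕ) [Fact l.Prime] (X : Scheme.{0}) (F : Sh (Scheme.etaleTopology.over X)),
  (∀ T : Over X, Linv l T.left → Tc l F →
    (∀ (k : Type) [Field k] [IsAlgClosed k] (y : Spec (.of k) ⟶ T.left)
      (s : sec F (Over.mk (y ≫ T.hom))), s = 0) → ∀ q, Z T F q) ∧
  ∀ (A : Type) [CommRing A] (u : Spec (.of A) ⟶ X) (I : Ideal A), IsUnit (l : A) → T.HP A I →
    Tc l F → VanP F u (fun _ _ φ => I ≤ RingHom.ker φ) → ∀ q, Z (Over.mk u) F q

def MVX_s : Prop := ∀ (X : Scheme.{0}) (A : Type) [CommRing A] (u : Spec (.of A) ⟶ X) (g : A)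
  (Q : Sq A g) (F : Sh (Scheme.etaleTopology.over X)), LFP F.obj →
    ∀ (q : ℕ) (x : H (Over.mk u) F (q + 1)), res (t0 u Q.A') F _ x = 0 → res (t0 u Q.C) F _ x = 0 →
      Surjective (res (tw u Q.A' Q.C') F q) → x = 0

def GENZ_s : Prop := ∀ (X : Scheme.{0}) (A K : Type) [CommRing A] [IsDomain A] [Field K]
  [Algebra A K] [IsFractionRing A K] (u : Spec (.of A) ⟶ X)
  (F : Sh (Scheme.etaleTopology.over X)), LFP F.obj → ∀ (q : ℕ) (x : H (Over.mk u) F q),
    res (t0 u K) F q x = 0 → ∃ h : A, h ≠ 0 ∧ ∀ (B : Type) [CommRing B] [Algebra A B],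
      IsUnit (algebraMap A B h) → res (t0 u B) F q x = 0

def ART_s : Prop := ∀ (X : Scheme.{0}) (A : Type) [CommRing A] (u : Spec (.of A) ⟶ X)
  (F : Sh (Scheme.etaleTopology.over X)) (q : ℕ), Fld A →
    (∀ (E : Type) [Field E] (φ : A →+* E), Surjective φ → Z (Over.mk (spc φ ≫ u)) F q) →
    Z (Over.mk u) F q

def FLD_s : Prop := ∀ (l : ℕ) [Fact l.Prime] (X : Scheme.{0}) (A : Type) [CommRing A]
  (u : Spec (.of A) ⟶ X) (Y : Over X) (y : Y ⟶ Over.mk u), IsFinite y.left → Etale y.left →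
    Fld A → (∃ (k : Type) (_ : Field k) (_ : IsAlgClosed k) (_ : k →+* A), (l : k) ≠ 0) →
    (∀ (E : Type) [Field E] (φ : A →+* E), φ.IsIntegral → Cyc l E) →
    Finite (H Y (Zl X l 1) 1) ∧ Nat.card (H Y (Zl X l 1) 1) ≤ Nat.card (H Y (Zl X l 1) 0)

def PUSH_s : Prop := ∀ (l : ℕ) [Fact l.Prime] (X : Scheme.{0}) (U W : Over X) (ρ : W ⟶ U),
  IsOpenImmersion U.hom → IsFinite ρ.left → Etale ρ.left → IsAffine U.left →
  IsLocallyNoetherian U.left → Linv l U.left → ∀ q : ℕ,
    ∃ e : ∀ T : Over X, (T ⟶ U) → (H T (Ln l W) q ≃+ H ((PW W).obj T) (Zl X l 1) q),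
      ∀ (T' T : Over X) (g : T' ⟶ T) (a' : T' ⟶ U) (a : T ⟶ U) (x : H T (Ln l W) q),
        e T' a' (res g _ q x) = res ((PW W).map g) _ q (e T a x)

def PAIRZ_s : Prop := ∀ (l : ℕ) [Fact l.Prime] (X : Scheme.{0}) (W T : Over X)
  (β : Ext (Ln l W) (Linf l X) 1),
    res (prW W T) _ 1 (pre (cokernel.π _) (Linf l X) 1 β) = 0 →
    ∀ c : H T (Ln l W) 0, c.comp β (zero_add 1) = 0

def PDV_s : Prop := ∀ (l : ℕ) [Fact l.Prime] (K : Type) [Field K] [IsAlgClosed K] [CharZero K]
  (X : Scheme.{0}) (T : Over X) (g : T.left ⟶ Spec (.of K)), TwN 1 g → IsOpenImmersion T.hom →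
    ∃ t : H T (Linf l X) 2 →+ QZ l, ∀ (W : Over X) (w : W ⟶ T), Etale w.left →
      ∀ z : H T (Ln l W) 1,
        (∀ β : Ext (Ln l W) (Linf l X) 1, t (z.comp β (rfl : 1 + 1 = 2)) = 0) → z = 0

def EZB_s : Prop := ∀ (X : Scheme.{0}) (U : X.Opens) (F : Sh (Scheme.etaleTopology.over X)),
  (∀ (W : Over X), (ovU U).mem W → ∀ q : ℕ,
    Bijective (post ((fr (Scheme.etaleTopology.over X)).obj W) ((ezι U).app F) q) ∧
    ∀ n : ℕ, n ≠ 0 → Bijective (post (Ln n W) ((ezι U).app F) q)) ∧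
  ∀ l : ℕ, Tc l F → Tc l ((ez U).obj F) ∧ Van l U ((ez U).obj F)

def SEC0_s : Prop := ∀ (n : ℕ) (X : Scheme.{0}) (W T : Over X), Etale W.hom → IsSeparated W.hom →
  ConnectedSpace T.left → ∀ (k : Type) [Field k] [IsAlgClosed k] (y : Spec (.of k) ⟶ T.left),
    IsEmpty (Over.mk (y ≫ T.hom) ⟶ W) → Z T (Ln n W) 0

def CKZ_s : Prop := ∀ (l : ℕ) [Fact l.Prime] (X : Scheme.{0}) (W' W : Over X) (i : W' ⟶ W),
  Etale W'.hom → Etale W.hom → Tc l (cokernel (Lm l i)) ∧
    ∀ (k : Type) [Field k] [IsAlgClosed k] (y : Spec (.of k) ⟶ X),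
      (∀ w : Over.mk y ⟶ W, ∃ w', w' ≫ i = w) →
      ∀ s : sec (cokernel (Lm l i)) (Over.mk y), s = 0

def DEV_s : Prop := ∀ (l : ℕ) [Fact l.Prime] (X : Scheme.{0}) [IsAffine X] (N : ℕ), Linv l X →
  (∀ F, Tc l F → Z (top X) F (N + 1)) → (∀ W : Over X, Aet W → Z (top X) (Ln l W) N) →
    ∀ F, Tc l F → Z (top X) F N

def DESC_s : Prop := ∀ (n : ℕ) (X : Scheme.{0}) (R A : Type) [CommRing R] [CommRing A]
  [Algebra R A] (u : Spec (.of R) ⟶ X) (q : ℕ), IsOpenImmersion u → IndEt R A →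
    (∀ (S : Type) [CommRing S] [Algebra R S] [Algebra.Etale R S], Z (ob u A) (Ln n (ob u S)) q) →
    ∀ W : Over (Spec (.of A)), Aet W → Z (top _) (Ln n W) q

/-- Counting. -/
def CNT_s : Prop := ∀ (l : ℕ) [Fact l.Prime] (A B N : Type 1) [AddCommGroup A] [AddCommGroup B]
  [AddCommGroup N] (r : B →+ N) (b : A →+ B →+ QZ l), Finite N → Nat.card N ≤ Nat.card A →
    (∀ x, (∀ y, b x y = 0) → x = 0) → (∀ y, r y = 0 → ∀ x, b x y = 0) → Surjective r

/-! ### The boundary map -/

namespace GD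
variable {l : ℕ} (D : GD l) (L : PL (Spec (.of D.V)))

/-- The punctured germ over the projective line. -/
noncomputable abbrev u : Spec (.of D.O₀) ⟶ L.P := spc (algebraMap D.V[X] D.O₀) ≫ L.c₁

/-- The generic fibre. -/
noncomputable abbrev gen : Over L.P := fbr L.π (spc (algebraMap D.V D.K))

/-- The complement of the origin of the special fibre. -/
noncomputable def Po : L.P.Opens := L.c₂.opensRange ⊔ L.π ⁻¹ᵁ PrimeSpectrum.basicOpen D.p

/-- The punctured spectrum of the germ. -/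
noncomputable abbrev So : Over L.P :=
  opn (ob L.c₁ D.O) (opI (Ideal.span {algebraMap D.V[X] D.O X, algebraMap D.V[X] D.O (C D.p)}))

/-- Torsion sheaves that vanish on the special fibre. -/
def Vs (F : Sh (Scheme.etaleTopology.over L.P)) : Prop :=
  Tc l F ∧ Van l ((L.π ⁻¹ᵁ PrimeSpectrum.basicOpen D.p : L.P.Opens) : Set L.P) F

end GD

/-- Excision at the zeros of `g`. -/
def G1_s : Prop := ∀ (l : ℕ) (D : GD l) (L : PL (Spec (.of D.V))) (g : D.V[X])
  (Q : Sq D.O₀ (algebraMap D.V[X] D.O₀ g)) (G : Type) [CommRing G] [Algebra D.O G]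
  [Algebra D.V[X] G] [IsScalarTower D.V[X] D.O G]
  [IsLocalization.Away (algebraMap D.V[X] D.O g) G], C D.p ∣ g → g.eval 0 ≠ 0 →
    ∃ (a : ob (D.u L) Q.C' ⟶ ob L.c₁ G) (b : ob (D.u L) Q.C ⟶ D.So L) (γ : ob L.c₁ G ⟶ D.So L)
      (h : tw (D.u L) Q.C Q.C' ≫ b = a ≫ γ), Mono (tw (D.u L) Q.C Q.C') ∧ Mono γ ∧
      ∀ F : Sh (Scheme.etaleTopology.over L.P), LFP F.obj → ExtBij.{1} (prM h) F

/-- Excision at the origin. -/
def G2_s : Prop := ∀ (l : ℕ) [Fact l.Prime] (D : GD l) (L : PL (Spec (.of D.V))),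
  ∃ m : D.So L ⟶ Over.mk (D.Po L).ι, ∀ F, D.Vs L F → SA.HB m F

/-- Excision along the affine line of the special fibre. -/
def G3_s : Prop := ∀ (l : ℕ) [Fact l.Prime] (D : GD l) (L : PL (Spec (.of D.V)))
  (Q : Sq D.V[X] (C D.p)), ∃ κ : D.gen L ⟶ Over.mk (D.Po L).ι,
    ∀ F, D.Vs L F → Z (ob L.c₂ Q.C') F 0 → Injective (res κ F 1)

/-- The boundary map. -/
def BD_s : Prop := ∀ (l : ℕ) [Fact l.Prime] (D : GD l) (L : PL (Spec (.of D.V))) (g : D.V[X])
  (Q : Sq D.O₀ (algebraMap D.V[X] D.O₀ g)) (Q₂ : Sq D.V[X] (C D.p)) (G : Type) [CommRing G]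
  [Algebra D.O G] [Algebra D.V[X] G] [IsScalarTower D.V[X] D.O G]
  [IsLocalization.Away (algebraMap D.V[X] D.O g) G], C D.p ∣ g → g.eval 0 ≠ 0 →
    ∀ F M, D.Vs L F → D.Vs L M → Z (ob (D.u L) Q.C) F 0 → Z (ob L.c₁ G) F 0 →
      Z (ob L.c₂ Q₂.C') F 0 →
      ∃ d : H (ob (D.u L) Q.C') F 0 →+ H (D.gen L) F 1, Injective d ∧
        ∀ (c : H (ob (D.u L) Q.C') F 0) (β : Ext F M 1),
          c.comp β (zero_add 1) = 0 → (d c).comp β (rfl : 1 + 1 = 2) = 0

/-! ### Glue rows -/

/-- Everything except the vanishing in degree two. -/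
def ZZ_s : Prop := ∀ (l : ℕ) [Fact l.Prime] (D : GD l) (X : Scheme.{0}) (a : Spec (.of D.O₀) ⟶ X)
  (F : Sh (Scheme.etaleTopology.over X)), Tc l F →
    (∀ (K : Type) [Field K] [Algebra D.O₀ K] [IsFractionRing D.O₀ K] (q : ℕ), Z (ob a K) F (q + 2)) ∧
    (∀ q, Z (Over.mk a) F (q + 3)) ∧
    (VanP F a (fun _ _ φ => Injective φ) → ∀ q, Z (Over.mk a) F (q + 2)) ∧
    (VanP F a (fun _ _ φ => Trc (φ.comp (algebraMap D.V[X] D.O₀))) →
      ∀ q, Z (Over.mk a) F (q + 1))

/-- The approximation theorem. -/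
def KEY_s : Prop := ∀ (l : ℕ) [Fact l.Prime] (D : GD l) (L : PL (Spec (.of D.V))) (g : D.V[X])
  (Q : Sq D.O₀ (algebraMap D.V[X] D.O₀ g)) (R S : Type) [CommRing R] [CommRing S]
  [Algebra D.V[X] R] [Algebra D.V[X] S] [Algebra R S] [IsScalarTower D.V[X] R S]
  [IsLocalization.Away (X * g) R] [Module.Finite R S] [Algebra.Etale R S],
    C D.p ∣ g → g.eval 0 ≠ 0 →
    Surjective (res (tw (D.u L) Q.A' Q.C') (Ln l (ob L.c₁ S)) 1)

def CORE_s : Prop := ∀ (l : ℕ) [Fact l.Prime] (D : GD l) (L : PL (Spec (.of D.V))) (S : Type)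
  [CommRing S] [Algebra D.V[X] S] [Algebra.Etale D.V[X] S],
    Z (ob L.c₁ D.O₀) (Ln l (ob L.c₁ S)) 2

/-- The case of a field. -/
def BCF_s : Prop := ∀ (V O O₀ : Type) [CommRing V] [IsDomain V] [ValuationRing V] [CommRing O]
  [Algebra V[X] O] [CommRing O₀] [Algebra O O₀] [IsLocalization.Away (algebraMap V[X] O X) O₀],
    IsField V → Germ V O → IsField O₀

end Pool.Agent.MP_855f4c_ag.AV.RG

end

section

/-! h67a, section RG: four rows of commutative algebra. -/

set_option autoImplicit false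
set_option backward.isDefEq.respectTransparency false

open Polynomial Function

namespace Pool.Agent.MP_855f4c_ag.AV.RG

open E E3 E4 T
open scoped IntermediateField

theorem sq0 : SQ0_s := by
  intro A _ g
  obtain ⟨C, _, _, h₁, h₂, h₃⟩ := T.hens A (Ideal.span {g})
  have h₄ := T.exs.2 A C _ h₁ h₃
  rw [Ideal.map_span, Set.image_singleton] at h₂
  let C' := Localization.Away (algebraMap A C g)
  have hu : IsUnit (algebraMap A C' g) := by
    rw [IsScalarTower.algebraMap_apply A C C']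
    exact IsLocalization.Away.algebraMap_isUnit _
  let _ : Algebra (Localization.Away g) C' := (IsLocalization.Away.lift g hu).toAlgebra
  have : IsScalarTower A (Localization.Away g) C' :=
    .of_algebraMap_eq fun x => (IsLocalization.Away.lift_eq g hu x).symm
  exact ⟨Sq.mk (Localization.Away g) C C' h₄ h₂ (T.hp.1 C _ h₂)⟩

/-- The field generated by the image of a ring. -/
lemma frac {R E : Type} [CommRing R] [Field E] (χ : R →+* E) :
    ∃ (k : Type) (_ : Field k) (_ : Algebra k E) (ι : R →+* k), (algebraMap k E).comp ι = χ ∧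
      (Aic R → IsAlgClosed k) ∧
      ∀ z : E, IsAlgebraic k z → ∃ f : R[X], f.map χ ≠ 0 ∧ f.eval₂ χ z = 0 := by
  let k := FractionRing χ.range
  let _ : Algebra k E := FractionRing.liftAlgebra χ.range E
  have : IsScalarTower χ.range k E := FractionRing.isScalarTower_liftAlgebra χ.range E
  refine ⟨k, inferInstance, inferInstance, (algebraMap χ.range k).comp χ.rangeRestrict, ?_,
    fun h => (h.of_surjective _ χ.rangeRestrict_surjective).isAlgClosed k, fun z hz => ?_⟩
  · rw [← RingHom.comp_assoc, ← IsScalarTower.algebraMap_eq]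
    rfl
  · obtain ⟨p, hp, hz⟩ := (IsFractionRing.isAlgebraic_iff χ.range k E).2 hz
    obtain ⟨f, rfl⟩ := map_surjective _ χ.rangeRestrict_surjective p
    refine ⟨f, fun h => hp (map_injective (algebraMap χ.range E) Subtype.val_injective ?_), ?_⟩
    · rw [Polynomial.map_map, Polynomial.map_zero]
      exact h
    · rw [aeval_def, eval₂_map] at hz
      exact hz

theorem alg : ALG_s := by
  intro R A E _ _ _ _ φ H hφ z
  obtain ⟨k, _, _, ι, hι, -, h⟩ := frac (φ.comp (algebraMap R A))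
  let _ : Algebra R E := (φ.comp (algebraMap R A)).toAlgebra
  let _ : Algebra R k := ι.toAlgebra
  have : IsScalarTower R k E := .of_algebraMap_eq' hι.symm
  have h₁ : ∀ a, φ a ∈ integralClosure k E := fun a =>
    (H.isSeparable k { φ with commutes' := fun _ => rfl } a).isIntegral
  obtain ⟨p, hp, hz⟩ := hφ z
  have h₂ : IsIntegral (integralClosure k E) z :=
    ⟨p.map (φ.codRestrict (integralClosure k E) h₁), hp.map _, by rw [eval₂_map]; exact hz⟩
  exact h z (isIntegral_trans z h₂).isAlgebraic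

theorem pts : PTS_s := by
  intro l V E _ _ _ _ ψ hV hl hψ
  obtain ⟨k, _, _, ι, hι, hk, -⟩ := frac (ψ.comp C)
  have hk := hk hV
  have hc : ∀ a, ψ (C a) = algebraMap k E (ι a) := fun a => (congr($hι a) :).symm
  have he : ∀ f : V[X], aeval (ψ X) (f.map ι) = ψ f := fun f => by
    rw [aeval_def, eval₂_map, hι]
    exact (hom_eval₂ f C ψ X).symm.trans (by rw [eval₂_C_X])
  have h₁ : ∀ f, ψ f ∈ k⟮ψ X⟯ := fun f => by
    rw [← he f]
    exact IntermediateField.algebra_adjoin_le_adjoin k _ (aeval_mem_adjoin_singleton k _)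
  have h₂ : Algebra.IsAlgebraic k⟮ψ X⟯ E := ⟨fun z => by
    obtain ⟨f, hf, hz⟩ := hψ z
    refine ⟨f.map (ψ.codRestrict k⟮ψ X⟯ h₁), fun h => hf ?_, ?_⟩
    · have := congr(Polynomial.map (algebraMap k⟮ψ X⟯ E) $h)
      rw [Polynomial.map_map, Polynomial.map_zero] at this
      exact this
    · rw [aeval_def, eval₂_map]
      exact hz⟩
  refine ⟨⟨k, inferInstance, hk, inferInstance, ⟨_, h₂⟩, ?_⟩, ?_⟩
  · simpa using (hl.map ι).ne_zero
  · refine or_iff_not_imp_left.2 fun h => ?_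
    obtain ⟨f, hf⟩ := not_forall.1 h
    obtain ⟨h₃, h₄⟩ := Classical.not_imp.1 hf
    have h₅ : IsAlgebraic k (ψ X) := ⟨f.map ι, fun h₆ => h₄ fun i => by
      rw [hc, ← coeff_map, h₆, coeff_zero, map_zero], (he f).trans h₃⟩
    have := IntermediateField.isAlgebraic_adjoin_simple h₅.isIntegral
    have := Algebra.IsAlgebraic.trans k k⟮ψ X⟯ E
    exact IsAlgClosed.of_ringEquiv k E
      (RingEquiv.ofBijective _ IsAlgClosed.algebraMap_bijective_of_isIntegral)

theorem bcf : BCF_s := by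
  intro V O O₀ _ _ _ _ _ _ _ _ hV G
  let _ := hV.toField
  have := G.shl.toIsLocalRing
  have := G.ind.isDomain
  have hX : algebraMap V[X] O X ≠ 0 := (map_ne_zero_iff _ G.ind.injective).2 X_ne_zero
  have hm : (IsLocalRing.maximalIdeal O).comap (algebraMap V[X] O) = Ideal.span {X} :=
    ((PrincipalIdealRing.isMaximal_of_irreducible irreducible_X).eq_of_le
      (Ideal.IsPrime.ne_top inferInstance)
      ((Ideal.span_singleton_le_iff_mem _).2 G.orig)).symm
  have hp := powers_le_nonZeroDivisors_of_noZeroDivisors hX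
  have : IsDomain O₀ := IsLocalization.isDomain_of_le_nonZeroDivisors O₀ hp
  refine ⟨exists_pair_ne _, mul_comm, fun {a} ha => IsUnit.exists_right_inv ?_⟩
  obtain ⟨⟨x, s⟩, hs⟩ := IsLocalization.surj (Submonoid.powers (algebraMap V[X] O X)) a
  have hu := IsLocalization.map_units O₀ s
  have hx : x ≠ 0 := by
    rintro rfl
    exact mul_ne_zero ha hu.ne_zero (hs.trans (map_zero _))
  obtain ⟨n, u, h₁, h₂⟩ := G.ind.pow_mul_unit hm hx
  refine isUnit_of_mul_isUnit_left (y := algebraMap O O₀ s) ?_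
  rw [hs, h₂, map_mul, map_pow]
  exact ((IsLocalization.Away.algebraMap_isUnit _).pow n).mul (h₁.map _)

end Pool.Agent.MP_855f4c_ag.AV.RG

end

section

/-! h67a, section RG: the primes of a punctured germ. -/

set_option autoImplicit false
set_option backward.isDefEq.respectTransparency false

open Polynomial Function IsLocalRing

namespace Pool.Agent.MP_855f4c_ag.AV.RG

open E3

namespace Dim

theorem prim {V : Type} [CommRing V] [IsDomain V] [ValuationRing V] {f : V[X]} (hf : f ≠ 0) :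
    ∃ (c : V) (g : V[X]) (i : ℕ), c ≠ 0 ∧ f = C c * g ∧ g.coeff i = 1 := by
  obtain ⟨i, hi, h⟩ := Cont.exists_min f.coeff f.support (support_nonempty.2 hf)
  obtain ⟨g, hg⟩ := (C_dvd_iff_dvd_coeff (f.coeff i) f).2 fun j => by
    by_cases hj : j ∈ f.support
    · exact h j hj
    · rw [notMem_support_iff.1 hj]; exact dvd_zero _
  refine ⟨_, g, i, mem_support_iff.1 hi, hg, mul_left_cancel₀ (mem_support_iff.1 hi) ?_⟩
  rw [← coeff_C_mul, ← hg, mul_one]

theorem incomp {R C : Type} [CommRing R] [CommRing C] [Algebra R C] (H : IndEt R C)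
    {P Q : Ideal C} [P.IsPrime] [Q.IsPrime] (h : P ≤ Q)
    (e : (Q.comap (algebraMap R C)).map (algebraMap R C) ≤ P) : P = Q := by
  refine le_antisymm h fun x hx => ?_
  obtain ⟨s, hs, hsx⟩ := H.prime Q hx
  exact (Ideal.IsPrime.mem_or_mem inferInstance (e hsx)).resolve_left fun h1 => hs (h h1)

variable {V O : Type} [CommRing V] [IsLocalRing V] [CommRing O] [Algebra V[X] O]

theorem spec (h : Germ V O) (Q : Ideal O) [Q.IsPrime]
    (hm : ∀ a ∈ maximalIdeal V, algebraMap V[X] O (C a) ∈ Q) (hx : algebraMap V[X] O X ∉ Q) :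
    Q.comap (algebraMap V[X] O) = (maximalIdeal V).map C := by
  have := h.shl
  have h0 : (maximalIdeal V).map C ≤ Q.comap (algebraMap V[X] O) :=
    Ideal.map_le_iff_le_comap.2 fun a ha => hm a ha
  refine le_antisymm (fun f hf => ?_) h0
  by_contra hn
  have h1 : ∀ g : V[X], g.map (residue V) = 0 ↔ g ∈ (maximalIdeal V).map (C : V →+* V[X]) :=
    fun g => by
      rw [Ideal.mem_map_C_iff, Polynomial.ext_iff]
      simp [residue_eq_zero_iff]
  obtain ⟨g', hg, hg0⟩ := exists_eq_pow_rootMultiplicity_mul_and_not_dvd _ (mt (h1 f).1 hn) 0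
  obtain ⟨g, rfl⟩ := map_surjective _ (residue_surjective (R := V)) g'
  rw [C_0, sub_zero] at hg hg0
  generalize rootMultiplicity 0 (f.map (residue V)) = n at hg
  have h2 := h0 ((h1 (f - X ^ n * g)).1 (by simp [hg]))
  have h3 : X ^ n * g ∈ Q.comap (algebraMap V[X] O) := by simpa using sub_mem hf h2
  rw [Ideal.mem_comap, map_mul, map_pow] at h3
  rcases Ideal.IsPrime.mem_or_mem inferInstance h3 with h4 | h4
  · exact hx (Ideal.IsPrime.mem_of_pow_mem inferInstance n h4)
  have h5 : algebraMap V[X] O g ∈ maximalIdeal O := le_maximalIdeal Ideal.IsPrime.ne_top' h4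
  have h6 : algebraMap V[X] O (C (g.coeff 0)) ∈ maximalIdeal O := by
    have : algebraMap V[X] O (X * g.divX) ∈ maximalIdeal O := by
      rw [map_mul]; exact Ideal.mul_mem_right _ _ h.orig
    have h7 := sub_mem h5 this
    rwa [← map_sub, sub_eq_of_eq_add' (X_mul_divX_add g).symm] at h7
  refine hg0 (X_dvd_iff.2 ?_)
  rw [coeff_map, residue_eq_zero_iff]
  exact fun hu => h6 ((hu.map C).map _)

theorem mprime (h : Germ V O) :
    (((maximalIdeal V).map (C : V →+* V[X])).map (algebraMap V[X] O)).IsPrime := by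
  have := h.shl
  set I := (maximalIdeal V).map (C : V →+* V[X])
  let e : (ResidueField V)[X] ≃+* V[X] ⧸ I :=
    (maximalIdeal V).polynomialQuotientEquivQuotientPolynomial
  have : IsDomain (V[X] ⧸ I) := e.symm.toMulEquiv.isDomain _
  have : IsIntegrallyClosed (V[X] ⧸ I) := .of_equiv e
  have hI : I.map (algebraMap V[X] O) ≤ maximalIdeal O :=
    Ideal.map_le_iff_le_comap.2 (Ideal.map_le_iff_le_comap.2 fun a ha => h.loc a ha)
  have : Nontrivial (O ⧸ I.map (algebraMap V[X] O)) := Ideal.Quotient.nontrivial_iff.2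
    fun h1 => (maximalIdeal.isMaximal O).ne_top (top_le_iff.1 (h1 ▸ hI))
  have : IsLocalRing (O ⧸ I.map (algebraMap V[X] O)) :=
    .of_surjective' (Ideal.Quotient.mk _) Ideal.Quotient.mk_surjective
  have H : IndEt (V[X] ⧸ I) (O ⧸ I.map (algebraMap V[X] O)) :=
    (h.ind.baseChange (V[X] ⧸ I)).of_equiv
      (Algebra.TensorProduct.quotIdealMapEquivQuotTensor O I).symm
  exact (Ideal.Quotient.isDomain_iff_prime _).1 H.isDomain

theorem uniq (h : Germ V O) (Q : Ideal O) [Q.IsPrime]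
    (hm : ∀ a ∈ maximalIdeal V, algebraMap V[X] O (C a) ∈ Q) (hx : algebraMap V[X] O X ∉ Q) :
    ((maximalIdeal V).map (C : V →+* V[X])).map (algebraMap V[X] O) = Q := by
  have := mprime h
  have h1 := spec h Q hm hx
  exact incomp h.ind (h1 ▸ Ideal.map_comap_le) (h1 ▸ le_rfl)

end Dim

theorem dim : DIM_s := by
  intro l D
  obtain ⟨_, _, hinj⟩ := D.germ.dom D.aic
  have := D.germ.shl
  have := D.aic.isIntegrallyClosed
  have hx : algebraMap D.V[X] D.O X ≠ 0 := (map_ne_zero_iff _ hinj).2 X_ne_zero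
  let M := Submonoid.powers (algebraMap D.V[X] D.O X)
  have hM : M ≤ nonZeroDivisors D.O := powers_le_nonZeroDivisors_of_noZeroDivisors hx
  have hd : IsDomain D.O₀ := IsLocalization.isDomain_of_le_nonZeroDivisors D.O₀ hM
  have hi : IndEt D.V[X] D.O₀ := D.germ.ind.comp (IndEt.of_isLocalization M)
  have hp : D.p ≠ 0 := fun h => (IsLocalization.Away.algebraMap_isUnit (S := D.K) D.p).ne_zero
    (by rw [h, map_zero])
  have h8 : ∀ h : D.O₀, h ≠ 0 → ∃ f : D.V[X], f ≠ 0 ∧ h ∣ algebraMap D.V[X] D.O₀ f := fun h h0 =>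
    (hi.isAlgebraic.isAlgebraic h).exists_nonzero_dvd (mem_nonZeroDivisors_of_ne_zero h0)
  have ht : ∀ f, algebraMap D.O D.O₀ (algebraMap D.V[X] D.O f) = algebraMap D.V[X] D.O₀ f :=
    fun f => (IsScalarTower.algebraMap_apply _ _ _ f).symm
  -- primes of `O`
  have hV : ∀ (Q : Ideal D.O) [Q.IsPrime] (c : D.V), c ≠ 0 → algebraMap D.V[X] D.O (C c) ∈ Q →
      ∀ a ∈ maximalIdeal D.V, algebraMap D.V[X] D.O (C a) ∈ Q := fun Q _ c hc h a ha => by
    have h1 := eq_maximalIdeal (D.mx (Q.comap ((algebraMap D.V[X] D.O).comp C)) inferInstance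
      fun h2 => hc (by rw [← Ideal.mem_bot, ← h2]; exact h))
    rw [← h1] at ha
    exact ha
  have hX : ∀ (q : Ideal D.O₀) [q.IsPrime],
      algebraMap D.V[X] D.O X ∉ q.comap (algebraMap D.O D.O₀) := fun q _ h =>
    Ideal.IsPrime.ne_top' (q.eq_top_of_isUnit_mem h (IsLocalization.Away.algebraMap_isUnit _))
  have h7 : ∀ q : Ideal D.O₀, q.IsPrime → algebraMap D.V[X] D.O₀ (C D.p) ∈ q →
      q.comap (algebraMap D.V[X] D.O₀) = (maximalIdeal D.V).map C := fun q _ h => by
    rw [IsScalarTower.algebraMap_eq D.V[X] D.O D.O₀, ← Ideal.comap_comap]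
    exact Dim.spec D.germ _ (hV _ _ hp (by rwa [Ideal.mem_comap, ht])) (hX q)
  let _ : Algebra D.V D.O := ((algebraMap D.V[X] D.O).comp C).toAlgebra
  have : IsScalarTower D.V D.V[X] D.O := .of_algebraMap_eq fun _ => rfl
  let N := Algebra.algebraMapSubmonoid D.O (nonZeroDivisors D.V)
  let OL := Localization N
  let _ : Algebra D.K OL := (IsLocalization.lift (M := nonZeroDivisors D.V)
    (g := algebraMap D.V OL) fun y => IsLocalization.map_units OL (⟨_, _, y.2, rfl⟩ : N)).toAlgebra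
  have : IsScalarTower D.V D.K OL := .of_algebraMap_eq fun v => (IsLocalization.lift_eq _ v).symm
  obtain ⟨_, _, -⟩ := D.germ.pid D.K OL D.aic
  have hG : ∀ (Q : Ideal D.O) [Q.IsPrime], algebraMap D.V[X] D.O (C D.p) ∉ Q →
      ∃ n : Ideal OL, n.IsPrime ∧ n.comap (algebraMap D.O OL) = Q := fun Q hQ h => by
    have h1 : (⟨Q, hQ⟩ : PrimeSpectrum D.O) ∈ Set.range (PrimeSpectrum.comap (algebraMap D.O OL)) := by
      rw [PrimeSpectrum.localization_comap_range OL N]
      refine Set.disjoint_left.2 ?_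
      rintro _ ⟨v, hv, rfl⟩ h2
      exact h (hV Q v (nonZeroDivisors.ne_zero hv) h2 _ D.np)
    obtain ⟨n, hn⟩ := h1
    exact ⟨n.1, n.2, congrArg PrimeSpectrum.asIdeal hn⟩
  have hc : ∀ q q' : Ideal D.O₀, q.comap (algebraMap D.O D.O₀) = q'.comap (algebraMap D.O D.O₀) →
      q = q' := fun q q' h => by
    rw [← IsLocalization.map_under M D.O₀ q, ← IsLocalization.map_under M D.O₀ q']
    exact congrArg _ h
  refine ⟨hd, hi.isIntegrallyClosed, hi, hi.injective, fun q hq h0 => ?_, fun g hg => ?_, h7, h8⟩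
  · obtain ⟨m, hm, hqm⟩ := q.exists_le_maximal hq.ne_top
    suffices q = m from this ▸ hm
    by_cases h1 : algebraMap D.V[X] D.O₀ (C D.p) ∈ q
    · refine Dim.incomp hi hqm ?_
      rw [h7 m inferInstance (hqm h1), ← h7 q hq h1]
      exact Ideal.map_comap_le
    rw [← ht] at h1
    obtain ⟨z, hz, hz0⟩ := Submodule.exists_mem_ne_zero_of_ne_bot h0
    obtain ⟨f, hf, hzf⟩ := h8 z hz0
    have hfq : algebraMap D.V[X] D.O₀ f ∈ q := q.mem_of_dvd hzf hz
    by_cases h2 : algebraMap D.V[X] D.O₀ (C D.p) ∈ m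
    · obtain ⟨c, g, i, hc0, rfl, hg⟩ := Dim.prim hf
      rw [map_mul] at hfq
      rcases hq.mem_or_mem hfq with h3 | h3
      · exact absurd (hV (q.comap (algebraMap D.O D.O₀)) c hc0 (by rwa [Ideal.mem_comap, ht]) _
          D.np) h1
      have h4 : g ∈ m.comap (algebraMap D.V[X] D.O₀) := hqm h3
      rw [h7 m inferInstance h2, Ideal.mem_map_C_iff] at h4
      exact absurd isUnit_one (hg ▸ h4 i)
    rw [← ht] at h2
    obtain ⟨n, hn, e⟩ := hG (q.comap (algebraMap D.O D.O₀)) h1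
    obtain ⟨n', hn', e'⟩ := hG (m.comap (algebraMap D.O D.O₀)) h2
    have h3 : n ≤ n' := by
      rw [← IsLocalization.map_under N OL n, ← IsLocalization.map_under N OL n']
      exact Ideal.map_mono (e.le.trans ((Ideal.comap_mono hqm).trans e'.ge))
    have h4 : n ≠ ⊥ := by
      rintro rfl
      have h5 : algebraMap D.V[X] D.O f ∈ q.comap (algebraMap D.O D.O₀) := by
        rwa [Ideal.mem_comap, ht]
      rw [← e, Ideal.mem_comap, Ideal.mem_bot, IsLocalization.map_eq_zero_iff N] at h5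
      obtain ⟨⟨_, v, hv, rfl⟩, h6⟩ := h5
      refine hf ((mul_eq_zero.1 (hinj (a₁ := C v * f) (a₂ := 0) ?_)).resolve_left ?_)
      · rw [map_mul, map_zero]; exact h6
      · exact C_ne_zero.2 (nonZeroDivisors.ne_zero hv)
    refine hc _ _ ?_
    rw [← e, ← e', (hn.isMaximal h4).eq_of_le hn'.ne_top h3]
  · obtain ⟨f, hf, hgf⟩ := h8 g hg
    have h5 : algebraMap D.O OL (algebraMap D.V[X] D.O f) ≠ 0 := by
      rw [Ne, IsLocalization.map_eq_zero_iff N]
      rintro ⟨⟨_, v, hv, rfl⟩, h6⟩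
      refine hf ((mul_eq_zero.1 (hinj (a₁ := C v * f) (a₂ := 0) ?_)).resolve_left ?_)
      · rw [map_mul, map_zero]; exact h6
      · exact C_ne_zero.2 (nonZeroDivisors.ne_zero hv)
    have h6 := Ideal.finite_factors (Ideal.span_singleton_eq_bot.not.2 h5)
    refine Set.Finite.of_finite_image (f := fun q => q.asIdeal.comap (algebraMap D.O D.O₀))
      (((h6.image fun v => v.asIdeal.comap (algebraMap D.O OL)).insert
        (((maximalIdeal D.V).map (C : D.V →+* D.V[X])).map (algebraMap D.V[X] D.O))).subset ?_)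
      fun q _ q' _ h => PrimeSpectrum.ext (hc _ _ h)
    rintro _ ⟨q, hq, rfl⟩
    by_cases h1 : algebraMap D.V[X] D.O (C D.p) ∈ q.asIdeal.comap (algebraMap D.O D.O₀)
    · exact Or.inl (Dim.uniq D.germ _ (hV _ _ hp h1) (hX _)).symm
    obtain ⟨n, hn, e⟩ := hG _ h1
    have h2 : algebraMap D.O OL (algebraMap D.V[X] D.O f) ∈ n := by
      rw [← Ideal.mem_comap, e, Ideal.mem_comap, ht]
      exact Ideal.mem_of_dvd _ hgf hq
    exact Or.inr ⟨⟨n, hn, fun h => h5 (by rwa [h] at h2)⟩,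
      Ideal.dvd_span_singleton.2 h2, e⟩

end Pool.Agent.MP_855f4c_ag.AV.RG

end

section

/-! h67a, section RG: generic finiteness of etale algebras, connectedness of the two tubes. -/

set_option autoImplicit false
set_option backward.isDefEq.respectTransparency false

open Polynomial Function TensorProduct

namespace Pool.Agent.MP_855f4c_ag.AV.RG

open E E3 E4 T

namespace Gf

/-- Every element of an etale algebra over a domain has an integral multiple. -/
theorem mult {R S : Type} [CommRing R] [IsDomain R] [CommRing S] [Algebra R S] [Algebra.Etale R S]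
    (s : S) : ∃ m : R, m ≠ 0 ∧ IsIntegral R (m • s) := by
  let K := FractionRing R
  have : Module.Finite K (K ⊗[R] S) := Algebra.FormallyUnramified.finite_of_free _ _
  have h1 : IsIntegral K ((1 : K) ⊗ₜ[R] s) := Algebra.IsIntegral.isIntegral _
  obtain ⟨⟨m, hm⟩, h2⟩ := h1.exists_multiple_integral_of_isLocalization (nonZeroDivisors R) _
  refine ⟨m, nonZeroDivisors.ne_zero hm, ?_⟩
  have hi := Algebra.TensorProduct.includeRight_injective (R := R) (A := K) (B := S)
    (IsFractionRing.injective R K)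
  refine (isIntegral_algHom_iff (Algebra.TensorProduct.includeRight : S →ₐ[R] K ⊗[R] S) hi).1 ?_
  rw [map_smul]
  exact h2

/-- Two points with the same kernel have a common geometric point. -/
theorem common {B k₁ k₂ : Type} [CommRing B] [Field k₁] [Field k₂] (f₁ : B →+* k₁) (f₂ : B →+* k₂)
    (h : RingHom.ker f₁ = RingHom.ker f₂) : ∃ (k : Type) (_ : Field k) (_ : IsAlgClosed k)
      (g₁ : k₁ →+* k) (g₂ : k₂ →+* k), g₁.comp f₁ = g₂.comp f₂ := by
  have := RingHom.ker_isPrime f₁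
  let F := (RingHom.ker f₁).ResidueField
  let a₁ : F →+* k₁ := Ideal.ResidueField.lift _ f₁ le_rfl fun x hx =>
    (isUnit_iff_ne_zero.2 hx : IsUnit (f₁ x))
  let a₂ : F →+* k₂ := Ideal.ResidueField.lift _ f₂ h.le fun x hx =>
    (isUnit_iff_ne_zero.2 fun e => hx (h.ge e) : IsUnit (f₂ x))
  let _ := a₁.toAlgebra
  let _ := a₂.toAlgebra
  obtain ⟨m, hm⟩ := Ideal.exists_maximal (k₁ ⊗[F] k₂)
  let _ := Ideal.Quotient.field m
  let π : k₁ ⊗[F] k₂ →+* AlgebraicClosure ((k₁ ⊗[F] k₂) ⧸ m) :=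
    (algebraMap ((k₁ ⊗[F] k₂) ⧸ m) _).comp (Ideal.Quotient.mk m)
  refine ⟨_, inferInstance, inferInstance, π.comp Algebra.TensorProduct.includeLeftRingHom,
    π.comp (Algebra.TensorProduct.includeRight (R := F)).toRingHom, RingHom.ext fun x => ?_⟩
  have e₁ : f₁ x = algebraMap F k₁ (algebraMap B F x) :=
    (Ideal.ResidueField.lift_algebraMap _ _ _ _ x).symm
  have e₂ : f₂ x = algebraMap F k₂ (algebraMap B F x) :=
    (Ideal.ResidueField.lift_algebraMap _ _ _ _ x).symm
  change π (f₁ x ⊗ₜ 1) = π (1 ⊗ₜ f₂ x)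
  rw [e₁, e₂, Algebra.algebraMap_eq_smul_one, Algebra.algebraMap_eq_smul_one (A := k₂),
    smul_tmul]

section
variable {B C : Type} [CommRing B] [CommRing C] [Algebra B C] {I : Ideal B}

/-- At most one prime over a point of the zero set. -/
theorem uniq (h : Exs B C I) (q₁ q₂ : Ideal C) [q₁.IsPrime] [q₂.IsPrime]
    (hI : I ≤ q₁.comap (algebraMap B C))
    (e : q₁.comap (algebraMap B C) = q₂.comap (algebraMap B C)) : q₁ = q₂ := by
  have hk : ∀ (q : Ideal C) [q.IsPrime], RingHom.ker ((algebraMap C q.ResidueField).comp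
      (algebraMap B C)) = q.comap (algebraMap B C) := fun q _ => by
    rw [← RingHom.comap_ker, Ideal.ker_algebraMap_residueField]
  obtain ⟨k, _, _, g₁, g₂, hg⟩ := common _ _ ((hk q₁).trans (e.trans (hk q₂).symm))
  have h1 := (h.2 k _ (fun x hx => by
    have : (algebraMap C q₁.ResidueField).comp (algebraMap B C) x = 0 := (hk q₁).ge (hI hx)
    exact (congrArg g₁ this).trans (map_zero g₁))).unique
      (y₁ := g₁.comp (algebraMap C _)) (y₂ := g₂.comp (algebraMap C _)) rfl hg.symm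
  rw [← Ideal.ker_algebraMap_residueField q₁, ← Ideal.ker_algebraMap_residueField q₂,
    ← RingHom.ker_comp_of_injective _ g₁.injective, ← RingHom.ker_comp_of_injective _ g₂.injective,
    h1]

/-- At least one prime over a point of the zero set. -/
theorem ovr (h : Exs B C I) (η : Ideal B) [η.IsPrime] (hI : I ≤ η) :
    ∃ q : Ideal C, q.IsPrime ∧ q.comap (algebraMap B C) = η := by
  let ψ : B →+* AlgebraicClosure η.ResidueField :=
    (algebraMap η.ResidueField _).comp (algebraMap B η.ResidueField)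
  have hψ : RingHom.ker ψ = η := by
    rw [RingHom.ker_comp_of_injective _ (RingHom.injective _), Ideal.ker_algebraMap_residueField]
  obtain ⟨ψ₁, h1, -⟩ := h.2 _ ψ (hI.trans hψ.ge)
  exact ⟨RingHom.ker ψ₁, RingHom.ker_isPrime _, by rw [RingHom.comap_ker, h1, hψ]⟩

/-- The local rings of an ind-etale algebra over a normal domain are domains. -/
theorem loc [IsDomain B] [IsIntegrallyClosed B] (h : IndEt B C) (n : Ideal C) [n.IsPrime] {x y : C}
    (e : x * y = 0) : (∃ t ∉ n, t * x = 0) ∨ ∃ t ∉ n, t * y = 0 := by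
  have := (h.comp (IndEt.of_isLocalization (C := Localization.AtPrime n) n.primeCompl)).isDomain
  have h1 := congrArg (algebraMap C (Localization.AtPrime n)) e
  rw [map_mul, map_zero, mul_eq_zero, IsLocalization.map_eq_zero_iff n.primeCompl,
    IsLocalization.map_eq_zero_iff n.primeCompl] at h1
  exact h1.imp (fun ⟨t, ht⟩ => ⟨t, t.2, ht⟩) fun ⟨t, ht⟩ => ⟨t, t.2, ht⟩

/-- A henselisation is a domain when the zero set is irreducible. -/
theorem dom [IsDomain B] [IsIntegrallyClosed B] (h : Exs B C I)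
    (hp : T.HP C (I.map (algebraMap B C))) (η : Ideal B) [η.IsPrime] (hI : I ≤ η)
    (hη : ∀ q : Ideal B, q.IsPrime → I ≤ q → η ≤ q) : IsDomain C := by
  have := h.1.flat
  obtain ⟨q, hq, e⟩ := ovr h η hI
  have hle : ∀ n : Ideal C, n.IsMaximal → q ≤ n := fun n hn => by
    let _ := Ideal.Quotient.field n
    have h1 := (hp (C ⧸ n) (Ideal.Quotient.mk n)
      (RingHom.isIntegral_of_surjective _ Ideal.Quotient.mk_surjective)).1
    have h2 : I ≤ n.under B := fun x hx => by
      by_contra hx'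
      exact h1 (Ideal.eq_top_of_isUnit_mem _
        (Ideal.mem_map_of_mem _ (Ideal.mem_map_of_mem _ hx))
        (isUnit_iff_ne_zero.2 fun e => hx' (Ideal.Quotient.eq_zero_iff_mem.1 e : _ ∈ n)))
    obtain ⟨P, hP, _, hl⟩ := Ideal.exists_ideal_le_liesOver_of_le (p := η) (q := n.under B) n
      (hη _ inferInstance h2)
    exact uniq h q P (hI.trans e.ge) (e.trans hl.over) ▸ hP
  have key : ∀ x : C, (∃ t ∉ q, t * x = 0) → x = 0 := fun x ⟨t, ht, hx⟩ => by
    by_contra h0
    obtain ⟨n, hn, hx'⟩ := Ideal.exists_le_maximal (Ideal.span {x}).annihilator (by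
      rw [Ne, Ideal.eq_top_iff_one, Ideal.span, Submodule.mem_annihilator_span_singleton, one_smul]
      exact h0)
    rcases loc h.1 n hx with ⟨s, hs, e⟩ | ⟨s, hs, e⟩
    · exact (hq.mem_or_mem (e ▸ q.zero_mem : s * t ∈ q)).elim (fun h => hs (hle n hn h)) ht
    · exact hs (hx' ((Submodule.mem_annihilator_span_singleton x s).2 e))
  have : Nontrivial C := ⟨0, 1, fun e => hq.ne_top ((Ideal.eq_top_iff_one q).2 (e ▸ q.zero_mem))⟩
  have : NoZeroDivisors C := ⟨fun e => (loc h.1 q e).imp (key _) (key _)⟩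
  exact NoZeroDivisors.to_isDomain C

end

end Gf

open Gf

theorem gf : GF_s := by
  classical
  intro R S _ _ _ _ _
  obtain ⟨t, ht⟩ := Algebra.FiniteType.out (R := R) (A := S)
  choose m hm hi using mult (R := R) (S := S)
  refine ⟨∏ s ∈ t, m s, Finset.prod_ne_zero_iff.2 fun s _ => hm s, ?_⟩
  intro f' n hf R' S' _ _ _ _ _ _ _ _ _ _
  have := Algebra.Etale.of_isLocalizationAway (A := S') (algebraMap R S f')
  have := Algebra.Etale.of_isLocalizationAway (A := R') f'
  have := Algebra.Etale.comp R S S'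
  have := Algebra.Etale.of_restrictScalars R R' S'
  refine ⟨?_, this⟩
  have hu : IsUnit (algebraMap R R' f') := IsLocalization.Away.algebraMap_isUnit f'
  have cancel : ∀ (r : R) (z : S'), IsUnit (algebraMap R R' r) →
      IsIntegral R' (algebraMap R S' r * z) → IsIntegral R' z := fun r z hr hz => by
    obtain ⟨v, hv⟩ := hr.exists_left_inv
    have := hz.smul v
    rwa [IsScalarTower.algebraMap_apply R R' S', Algebra.smul_def, ← mul_assoc, ← map_mul, hv,
      map_one, one_mul] at this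
  have h1 : ∀ s : S, IsIntegral R' (algebraMap S S' s) := fun s => by
    have h2 : Algebra.adjoin R (t : Set S) ≤ ((integralClosure R' S').restrictScalars R).comap
        (IsScalarTower.toAlgHom R S S') := Algebra.adjoin_le fun s hs => by
      have h3 : m s ∣ f' ^ n := (Finset.dvd_prod_of_mem m hs).trans hf
      refine cancel (m s) _ (isUnit_of_dvd_unit (map_dvd _ h3) (by rw [map_pow]; exact hu.pow n)) ?_
      have h4 := ((hi s).map (IsScalarTower.toAlgHom R S S')).tower_top (A := R')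
      rwa [map_smul, Algebra.smul_def] at h4
    exact h2 (ht ▸ Algebra.mem_top)
  have : Algebra.IsIntegral R' S' := ⟨fun z => by
    obtain ⟨k, s, e⟩ := IsLocalization.Away.surj (algebraMap R S f') z
    refine cancel (f' ^ k) z (by rw [map_pow]; exact hu.pow k) ?_
    rw [map_pow, IsScalarTower.algebraMap_apply R S S', mul_comm, e]
    exact h1 s⟩
  exact Algebra.IsIntegral.finite

theorem con : CON_s := by
  intro l D
  have := aic_normal D.aic
  have hp0 : D.p ≠ 0 := fun e => by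
    have h1 : IsUnit (algebraMap D.V D.K D.p) := IsLocalization.Away.algebraMap_isUnit D.p
    rw [e, map_zero] at h1
    exact not_isUnit_zero h1
  refine ⟨fun Q => ?_, fun g G _ _ _ hg => ?_⟩
  · have hm : D.p ∈ IsLocalRing.maximalIdeal D.V := D.np
    have : ((IsLocalRing.maximalIdeal D.V).map (C : D.V →+* D.V[X])).IsPrime :=
      Ideal.isPrime_map_C_of_isPrime
    have : IsDomain Q.C := dom Q.exs (by rw [Ideal.map_span, Set.image_singleton]; exact Q.hp)
      ((IsLocalRing.maximalIdeal D.V).map C)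
      ((Ideal.span_singleton_le_iff_mem _).2 (Ideal.mem_map_of_mem _ hm)) fun q _ hq => by
        have h1 : D.p ∈ q.comap C := hq (Ideal.mem_span_singleton_self _)
        have h2 := D.mx (q.comap C) inferInstance fun e => hp0 (by rwa [e] at h1)
        rw [Ideal.map_le_iff_le_comap, IsLocalRing.eq_maximalIdeal h2]
    have hp1 : algebraMap D.V[X] Q.C (C D.p) ≠ 0 :=
      (map_ne_zero_iff _ Q.exs.1.injective).2 (C_ne_zero.2 hp0)
    have : IsDomain Q.C' := IsLocalization.isDomain_of_le_nonZeroDivisors _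
      (powers_le_nonZeroDivisors_of_noZeroDivisors hp1)
    refine ⟨inferInstance, ?_⟩
    have := Q.exs.1.flat
    have h0 : (RingHom.ker (evalRingHom (0 : D.V))).IsPrime := RingHom.ker_isPrime _
    obtain ⟨n, _, hn⟩ := ovr Q.exs ((IsLocalRing.maximalIdeal D.V).comap (evalRingHom 0))
      ((Ideal.span_singleton_le_iff_mem _).2 (by simpa using D.np))
    obtain ⟨P, -, _, hl⟩ := n.exists_ideal_le_liesOver_of_le (q := n.under D.V[X])
      (p := RingHom.ker (evalRingHom (0 : D.V))) (by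
        rw [Ideal.under, hn]
        exact Ideal.comap_mono bot_le)
    let ψ : Q.C →+* AlgebraicClosure P.ResidueField :=
      (algebraMap P.ResidueField _).comp (algebraMap Q.C P.ResidueField)
    have hψ : ∀ f : D.V[X], ψ (algebraMap D.V[X] Q.C f) = 0 ↔ f.eval 0 = 0 := fun f => by
      rw [← RingHom.mem_ker, RingHom.ker_comp_of_injective _ (RingHom.injective _),
        Ideal.ker_algebraMap_residueField, ← Ideal.mem_comap]
      exact (SetLike.ext_iff.1 hl.over f).symm
    have hu : IsUnit (ψ (algebraMap D.V[X] Q.C (C D.p))) :=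
      isUnit_iff_ne_zero.2 fun e => hp0 (by simpa using (hψ _).1 e)
    refine ⟨_, inferInstance, inferInstance, IsLocalization.Away.lift _ hu, ?_⟩
    rw [IsScalarTower.algebraMap_apply D.V[X] Q.C Q.C', IsLocalization.Away.lift_eq, hψ, eval_X]
  · obtain ⟨_, -, hinj⟩ := D.germ.dom D.aic
    have hg1 : algebraMap D.V[X] D.O g ≠ 0 :=
      (map_ne_zero_iff _ hinj).2 fun e => hg (by rw [e, eval_zero])
    have : IsDomain G := IsLocalization.isDomain_of_le_nonZeroDivisors _
      (powers_le_nonZeroDivisors_of_noZeroDivisors hg1)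
    refine ⟨inferInstance, ?_⟩
    let _ : Algebra D.V D.O := ((algebraMap D.V[X] D.O).comp C).toAlgebra
    have : IsScalarTower D.V D.V[X] D.O := .of_algebraMap_eq fun _ => rfl
    obtain ⟨ψ, hψ⟩ := D.germ.exists_sec D.aic (IsLocalRing.maximalIdeal D.V).zero_mem
    have hX : ψ (algebraMap D.V[X] D.O X) = 0 := by
      have := hψ.ge (Ideal.mem_span_singleton_self _)
      rwa [C_0, sub_zero] at this
    have he : ψ.comp (IsScalarTower.toAlgHom D.V D.V[X] D.O) = aeval 0 :=
      Polynomial.algHom_ext (by rw [aeval_X]; exact hX)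
    have hu : IsUnit (((algebraMap D.V D.K).comp ψ.toRingHom) (algebraMap D.V[X] D.O g)) :=
      isUnit_iff_ne_zero.2 ((map_ne_zero_iff _ (IsFractionRing.injective D.V D.K)).2 fun e =>
        hg (by rw [← coe_aeval_eq_eval, ← he]; exact e))
    refine ⟨D.K, inferInstance, inferInstance, IsLocalization.Away.lift _ hu, ?_⟩
    rw [IsLocalization.Away.lift_eq]
    exact (congrArg (algebraMap D.V D.K) hX).trans (map_zero _)

end Pool.Agent.MP_855f4c_ag.AV.RG

end

section

/-! h67a, section RG: the Mayer–Vietoris row and the spreading-out row. -/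

set_option autoImplicit false
set_option backward.isDefEq.respectTransparency false

open CategoryTheory Limits Abelian Opposite AlgebraicGeometry Polynomial Function

namespace Pool.Agent.MP_855f4c_ag.AV.RG

open E E3 E4 T

theorem mvx : MVX_s := by
  intro X A _ u g Q F hF q x h1 h2 hs
  have : IsLocalization (Algebra.algebraMapSubmonoid Q.C (Submonoid.powers g)) Q.C' := by
    rw [Algebra.algebraMapSubmonoid_powers]
    exact Q.lC'
  have : Algebra.IsPushout A Q.C Q.A' Q.C' :=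
    Algebra.isPushout_of_isLocalization (Submonoid.powers g) Q.A' Q.C Q.C'
  have hp : IsPullback (tw u Q.C Q.C') (tw u Q.A' Q.C') (t0 u Q.C) (t0 u Q.A') := by
    have h := isPullback_SpecMap_of_isPushout _ _ _ _
      (CommRingCat.isPushout_of_isPushout A Q.C Q.A' Q.C')
    exact IsPullback.of_map (Over.forget X) (Over.OverMorphism.ext h.w) h
  have : IsOpenImmersion (t0 u Q.A').left := IsOpenImmersion.of_isLocalization g
  have : IsOpenImmersion (tw u Q.C Q.C').left :=
    IsOpenImmersion.of_isLocalization (algebraMap A Q.C g)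
  have : CompactSpace (ob u Q.A').left := inferInstanceAs (CompactSpace (PrimeSpectrum Q.A'))
  have := exc_mono (t0 u Q.A')
  have := exc_mono (tw u Q.C Q.C')
  have hb : ExtBij.{1} (prM hp.w) F := by
    refine exc Q.exs.1 rfl hp (fun k _ _ y hy => ?_) hF
    obtain ⟨φ, rfl⟩ := Spec.map_surjective y
    obtain ⟨χ, e, he⟩ := Q.exs.2 k φ.hom (by
      rw [Ideal.span_singleton_le_iff_mem]
      by_contra h0
      refine hy (IsLocalRing.closedPoint k) ((Set.ext_iff.1
        (PrimeSpectrum.localization_away_comap_range Q.A' g) _).2 fun h1 => h0 ?_)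
      change φ.hom g ∈ IsLocalRing.maximalIdeal k at h1
      rwa [IsLocalRing.maximalIdeal_eq_bot] at h1)
    refine ⟨spc χ, (Spec.map_comp _ _).symm.trans (congrArg Spec.map (CommRingCat.hom_ext e)),
      fun w hw => ?_⟩
    obtain ⟨w, rfl⟩ := Spec.map_surjective w
    exact congrArg Spec.map (CommRingCat.hom_ext (he w.hom (congrArg CommRingCat.Hom.hom
      (Spec.map_injective ((Spec.map_comp _ _).trans hw)))))
  have hS := pair_exact (Scheme.etaleTopology.over X) (tw u Q.C Q.C')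
  have hT := pair_exact (Scheme.etaleTopology.over X) (t0 u Q.A')
  let φ := pairMap (Scheme.etaleTopology.over X) _ _ hp.w
  obtain ⟨y, rfl⟩ := ((con_les hT F).e₂ (q + 1) x).1 h1
  obtain ⟨z', hz'⟩ := ((con_les hS F).e₁ q (pre φ.τ₃ F _ y)).1 (by
    rw [pre_pre, ← φ.comm₂₃, ← pre_pre]
    exact h2)
  obtain ⟨z, rfl⟩ := hs z'
  obtain rfl : dr hT F q z = y := (hb (q + 1)).1 ((pre_dr hS hT φ z).trans hz')
  exact ((con_les hT F).e₁ q).apply_apply_eq_zero z

theorem genz : GENZ_s := by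
  intro X A K _ _ _ _ _ u F hF q x hx
  let S (h : {h : A // h ≠ 0}) : Subalgebra A K := Localization.subalgebra.ofField K
    (Submonoid.powers h.1) (powers_le_nonZeroDivisors_of_noZeroDivisors h.2)
  have : Nonempty {h : A // h ≠ 0} := ⟨⟨1, one_ne_zero⟩⟩
  have up (g g' k : {h : A // h ≠ 0}) (e : k.1 = g.1 * g'.1) : S g ≤ S k := by
    rintro _ ⟨a, _, ⟨n, rfl⟩, rfl⟩
    refine ⟨a * g'.1 ^ n, k.1 ^ n, ⟨n, rfl⟩, ?_⟩
    have h1 : algebraMap A K g'.1 ≠ 0 := (map_ne_zero_iff _ (IsFractionRing.injective A K)).2 g'.2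
    simp only [e, map_mul, map_pow, mul_pow, mul_inv]
    rw [mul_comm ((algebraMap A K g.1) ^ n)⁻¹, ← mul_assoc,
      mul_inv_cancel_right₀ (pow_ne_zero n h1)]
  obtain ⟨g, e, rfl, h0⟩ := (lim_aff hF q).union_zero S
    (fun g g' => ⟨⟨g.1 * g'.1, mul_ne_zero g.2 g'.2⟩, up g g' _ rfl, up g' g _ (mul_comm _ _)⟩)
    (fun x => by
      obtain ⟨a, b, hb, rfl⟩ := IsFractionRing.div_surjective (A := A) x
      exact ⟨⟨b, nonZeroDivisors.ne_zero hb⟩, a, b, Submonoid.mem_powers b, div_eq_mul_inv _ _⟩)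
    (a := u) rfl x hx
  refine ⟨g.1, g.2, fun B _ _ hB => ?_⟩
  have : IsLocalization.Away g.1 (S g) := Localization.subalgebra.isLocalization_ofField K _ _
  have e := IsLocalization.Away.lift_comp (S := S g) g.1 hB
  refine (FIN.sph_sph (P := E.HP F q) e rfl ?_ rfl x).symm.trans ?_
  · rw [← Category.assoc, ← Spec.map_comp, ← CommRingCat.ofHom_comp, e]
  · rw [h0, map_zero]

end Pool.Agent.MP_855f4c_ag.AV.RG

end

section

/-! h67a, section RG, row SQF: the primes of a henselisation of a ring of dimension one. -/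

set_option autoImplicit false
set_option backward.isDefEq.respectTransparency false

open Function

namespace Pool.Agent.MP_855f4c_ag.AV.RG

open E E3 E4 T

namespace Sqf

section
variable {A C : Type} [CommRing A] [CommRing C] [Algebra A C]

theorem inc (H : IndEt A C) {q₁ q₂ : Ideal C} [h₁ : q₁.IsPrime] [q₂.IsPrime] (h : q₁ ≤ q₂)
    (e : q₂.comap (algebraMap A C) ≤ q₁.comap (algebraMap A C)) : q₁ = q₂ := by
  refine le_antisymm h fun x hx => ?_
  obtain ⟨s, hs, hsx⟩ := H.prime q₂ hx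
  have := (Ideal.map_le_iff_le_comap.2 e) hsx
  exact (h₁.mem_or_mem this).resolve_left fun h' => hs (h h')

theorem uniq {g : A} (H : Exs A C (Ideal.span {g})) (q₁ q₂ : Ideal C) [q₁.IsMaximal] [q₂.IsMaximal]
    (p : Ideal A) [p.IsMaximal] (hg : g ∈ p) (e₁ : q₁.comap (algebraMap A C) = p)
    (e₂ : q₂.comap (algebraMap A C) = p) : q₁ = q₂ := by
  let := Ideal.Quotient.field p
  let k := AlgebraicClosure (A ⧸ p)
  let ψ : A →+* k := (algebraMap (A ⧸ p) k).comp (Ideal.Quotient.mk p)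
  have key : ∀ (q : Ideal C) [q.IsMaximal], q.comap (algebraMap A C) = p →
      ∃ χ : C →+* k, χ.comp (algebraMap A C) = ψ ∧ RingHom.ker χ = q := by
    intro q _ e
    let := Ideal.Quotient.field q
    let f : A ⧸ p →+* C ⧸ q := Ideal.quotientMap q (algebraMap A C) e.ge
    let : Algebra (A ⧸ p) (C ⧸ q) := f.toAlgebra
    have : IsScalarTower A (A ⧸ p) (C ⧸ q) := IsScalarTower.of_algebraMap_eq fun _ => rfl
    have : Algebra.IsAlgebraic (A ⧸ p) (C ⧸ q) := ⟨fun x => by
      obtain ⟨x, rfl⟩ := Ideal.Quotient.mk_surjective x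
      exact (H.1.isSeparable (A ⧸ p) (Ideal.Quotient.mkₐ A q) x).isIntegral.isAlgebraic⟩
    let ι : (C ⧸ q) →ₐ[A ⧸ p] k := IsAlgClosed.lift
    refine ⟨(ι : C ⧸ q →+* k).comp (Ideal.Quotient.mk q), RingHom.ext fun a => ?_, ?_⟩
    · exact ι.commutes (Ideal.Quotient.mk p a)
    · rw [RingHom.ker_comp_of_injective _ (ι : C ⧸ q →+* k).injective, Ideal.mk_ker]
  obtain ⟨χ₁, a₁, b₁⟩ := key q₁ e₁
  obtain ⟨χ₂, a₂, b₂⟩ := key q₂ e₂
  have hψ : Ideal.span {g} ≤ RingHom.ker ψ := by
    rw [Ideal.span_singleton_le_iff_mem, RingHom.mem_ker]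
    show algebraMap (A ⧸ p) k (Ideal.Quotient.mk p g) = 0
    rw [Ideal.Quotient.eq_zero_iff_mem.2 hg, map_zero]
  rw [← b₁, ← b₂, (H.2 k ψ hψ).unique a₁ a₂]

theorem mem_max {g : C} (H : T.HP C (Ideal.span {g})) (m : Ideal C) [m.IsMaximal] : g ∈ m := by
  by_contra hg
  let := Ideal.Quotient.field m
  refine (H (C ⧸ m) (Ideal.Quotient.mk m)
    (RingHom.isIntegral_of_surjective _ Ideal.Quotient.mk_surjective)).1 ?_
  refine Ideal.eq_top_of_isUnit_mem _ (Ideal.mem_map_of_mem _ (Ideal.mem_span_singleton_self g)) ?_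
  exact isUnit_iff_ne_zero.2 fun h => hg (Ideal.Quotient.eq_zero_iff_mem.1 h)

end

end Sqf

open Sqf in
theorem sqf : SQF_s := by
  intro A _ _ _ g Q hd hg hf
  have HI : IndEt A Q.C := Q.exs.1
  have HI' : IndEt A Q.C' :=
    HI.comp (IndEt.of_isLocalization (Submonoid.powers (algebraMap A Q.C g)))
  have hp : ∀ (q : Ideal Q.C), q.IsPrime → algebraMap A Q.C g ∈ q →
      (q.comap (algebraMap A Q.C)).IsMaximal := fun q _ h =>
    hd _ inferInstance fun e => hg (by
      have : g ∈ q.comap (algebraMap A Q.C) := h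
      rwa [e, Ideal.mem_bot] at this)
  have hmax : ∀ q : Ideal Q.C, q.IsPrime → algebraMap A Q.C g ∈ q → q.IsMaximal := by
    intro q hq h
    obtain ⟨m, hm, hqm⟩ := Ideal.exists_le_maximal q hq.ne_top
    have e := (hp q hq h).eq_of_le (Ideal.comap_ne_top _ hm.ne_top) (Ideal.comap_mono hqm)
    rwa [inc HI hqm e.ge]
  have hfin : {q : PrimeSpectrum Q.C | algebraMap A Q.C g ∈ q.asIdeal}.Finite := by
    refine Set.Finite.of_finite_image (f := PrimeSpectrum.comap (algebraMap A Q.C))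
      (hf.subset ?_) ?_
    · rintro _ ⟨q, hq, rfl⟩
      exact hq
    · intro q₁ h₁ q₂ h₂ e
      have := hmax _ q₁.2 h₁
      have := hmax _ q₂.2 h₂
      have := hp _ q₂.2 h₂
      exact PrimeSpectrum.ext (uniq Q.exs q₁.asIdeal q₂.asIdeal
        (q₂.asIdeal.comap (algebraMap A Q.C)) h₂
        (congrArg PrimeSpectrum.asIdeal e) rfl)
  have hbot : ∀ q : Ideal Q.C, q.IsPrime → algebraMap A Q.C g ∉ q →
      q.comap (algebraMap A Q.C) = ⊥ := by
    intro q hq h
    by_contra hne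
    obtain ⟨m, hm, hqm⟩ := Ideal.exists_le_maximal q hq.ne_top
    have e := (hd _ inferInstance hne).eq_of_le (Ideal.comap_ne_top _ hm.ne_top)
      (Ideal.comap_mono hqm)
    exact h (inc HI hqm e.ge ▸ mem_max Q.hp m)
  have hdom : ∀ (m : Ideal Q.C) [m.IsPrime], IsDomain (Localization.AtPrime m) := fun m _ =>
    (HI.comp (IndEt.of_isLocalization m.primeCompl)).isDomain
  have hred : IsReduced Q.C := isReduced_ofLocalizationMaximal _ fun m _ => by
    have := hdom m
    infer_instance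
  have hng : ∀ q : Ideal Q.C', q.IsPrime →
      algebraMap A Q.C g ∉ q.comap (algebraMap Q.C Q.C') := fun q hq h =>
    hq.ne_top (Ideal.eq_top_of_isUnit_mem _ h
      (IsLocalization.Away.algebraMap_isUnit (algebraMap A Q.C g)))
  have hbot' : ∀ q : Ideal Q.C', q.IsPrime → q.comap (algebraMap A Q.C') = ⊥ := by
    intro q hq
    rw [IsScalarTower.algebraMap_eq A Q.C Q.C', ← Ideal.comap_comap]
    exact hbot _ inferInstance (hng q hq)
  have hfin' : {q : PrimeSpectrum Q.C | algebraMap A Q.C g ∉ q.asIdeal}.Finite := by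
    let κ : PrimeSpectrum Q.C → Ideal Q.C := fun m =>
      RingHom.ker (algebraMap Q.C (Localization.AtPrime m.asIdeal))
    refine Set.Finite.of_finite_image (f := PrimeSpectrum.asIdeal) ((hfin.image κ).subset ?_)
      fun _ _ _ _ e => PrimeSpectrum.ext e
    rintro _ ⟨q, hq, rfl⟩
    obtain ⟨m, hm, hqm⟩ := Ideal.exists_le_maximal q.asIdeal q.2.ne_top
    refine ⟨⟨m, hm.isPrime⟩, mem_max Q.hp m, ?_⟩
    have := hdom m
    have : (κ ⟨m, hm.isPrime⟩).IsPrime := RingHom.ker_isPrime _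
    refine inc HI (fun x hx => ?_) (by rw [hbot _ q.2 hq]; exact bot_le)
    obtain ⟨s, hs⟩ := (IsLocalization.map_eq_zero_iff m.primeCompl _ x).1 hx
    exact (q.2.mem_or_mem (hs ▸ q.asIdeal.zero_mem)).resolve_left fun h => s.2 (hqm h)
  refine ⟨HI', ⟨?_, ?_, fun q hq => ?_⟩, ⟨?_, ?_, fun q hq => ?_⟩, hmax, fun E _ φ => ?_⟩
  · exact isReduced_localizationPreserves (Submonoid.powers (algebraMap A Q.C g)) _ hred
  · refine Set.finite_univ_iff.1 (Set.Finite.of_finite_image
      (f := PrimeSpectrum.comap (algebraMap Q.C Q.C')) (hfin'.subset ?_) ?_)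
    · rintro _ ⟨q, -, rfl⟩
      exact hng _ q.2
    · exact (PrimeSpectrum.localization_comap_injective _
        (Submonoid.powers (algebraMap A Q.C g))).injOn
  · obtain ⟨m, hm, hqm⟩ := Ideal.exists_le_maximal q hq.ne_top
    rwa [inc HI' hqm (by rw [hbot' _ hm.isPrime]; exact bot_le)]
  · exact (Ideal.isRadical_iff_quotient_reduced _).1 (Ideal.radical_isRadical _)
  · refine Set.finite_univ_iff.1 (Set.Finite.of_finite_image
      (f := PrimeSpectrum.comap (Ideal.Quotient.mk _)) (hfin.subset ?_) ?_)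
    · rintro _ ⟨q, -, rfl⟩
      show Ideal.Quotient.mk _ _ ∈ q.asIdeal
      rw [Ideal.Quotient.eq_zero_iff_mem.2 (Ideal.le_radical (Ideal.mem_span_singleton_self _))]
      exact q.asIdeal.zero_mem
    · exact (PrimeSpectrum.comap_injective_of_surjective _ Ideal.Quotient.mk_surjective).injOn
  · obtain ⟨m, hm, hqm⟩ := Ideal.exists_le_maximal q hq.ne_top
    have h1 := hmax (q.comap (Ideal.Quotient.mk _)) inferInstance (by
      rw [Ideal.mem_comap,
        Ideal.Quotient.eq_zero_iff_mem.2 (Ideal.le_radical (Ideal.mem_span_singleton_self _))]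
      exact q.zero_mem)
    have e := h1.eq_of_le (Ideal.comap_ne_top _ hm.ne_top) (Ideal.comap_mono hqm)
    rwa [Ideal.comap_injective_of_surjective _ Ideal.Quotient.mk_surjective e]
  · rw [RingHom.injective_iff_ker_eq_bot, ← RingHom.comap_ker]
    exact hbot' _ (RingHom.ker_isPrime φ)

end Pool.Agent.MP_855f4c_ag.AV.RG

end

section

/-! h67a, section RG, row SEC0. -/

set_option autoImplicit false
set_option backward.isDefEq.respectTransparency false

open CategoryTheory Limits Abelian Opposite AlgebraicGeometry Function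

namespace Pool.Agent.MP_855f4c_ag.AV.RG

open E E3 E4
open E.CV (Ln)
open E.D.LNM (LP)

namespace SEC0

lemma md_zero {A B C M : Type*} [AddCommMonoid M] (τ : A →₀ M) (f : A → B) (g : A → C)
    (h : ∀ a ∈ τ.support, ∀ b ∈ τ.support, f a = f b → g a = g b) (h0 : τ.mapDomain f = 0) :
    τ.mapDomain g = 0 := by
  classical
  rcases τ.support.eq_empty_or_nonempty with e | ⟨a₀, -⟩
  · rw [Finsupp.support_eq_empty.1 e, Finsupp.mapDomain_zero]
  let r : B → C := fun b => if hb : ∃ a ∈ τ.support, f a = b then g hb.choose else g a₀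
  have e : τ.mapDomain g = τ.mapDomain (r ∘ f) := Finsupp.mapDomain_congr fun a ha => by
    have hb : ∃ a' ∈ τ.support, f a' = f a := ⟨a, ha, rfl⟩
    have e : r (f a) = g hb.choose := dif_pos hb
    exact (e.trans (h _ hb.choose_spec.1 a ha hb.choose_spec.2)).symm
  rw [e, Finsupp.mapDomain_comp, h0, Finsupp.mapDomain_zero]

variable {X : Scheme.{0}}

lemma eqU {V W : Over X} [Etale W.hom] [IsSeparated W.hom] (a b : V ⟶ W) (z : V.left) :
    ∃ U : V.left.Opens, z ∈ U ∧ ∃ c : Prop, ∀ ⦃Y : Over X⦄ (p : Y ⟶ V), Nonempty Y.left →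
      (∀ y, p.left y ∈ U) → (p ≫ a = p ≫ b ↔ c) := by
  have e : a.left ≫ W.hom = b.left ≫ W.hom := (Over.w a).trans (Over.w b).symm
  by_cases hz : pullback.lift a.left b.left e z ∈ Set.range (pullback.diagonal W.hom)
  · refine ⟨pullback.lift a.left b.left e ⁻¹ᵁ (pullback.diagonal W.hom).opensRange, hz, True,
      fun Y p _ h => iff_true_intro (Over.OverMorphism.ext ?_)⟩
    have := IsOpenImmersion.lift_fac (pullback.diagonal W.hom)
      (p.left ≫ pullback.lift a.left b.left e) (by rintro _ ⟨z, rfl⟩; exact h z)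
    have h1 := congr($this ≫ pullback.fst W.hom W.hom)
    have h2 := congr($this ≫ pullback.snd W.hom W.hom)
    simp only [Category.assoc, pullback.diagonal_fst, pullback.diagonal_snd, pullback.lift_fst,
      pullback.lift_snd] at h1 h2
    exact h1.symm.trans h2
  · refine ⟨pullback.lift a.left b.left e ⁻¹ᵁ ⟨(Set.range (pullback.diagonal W.hom))ᶜ,
      (pullback.diagonal W.hom).isClosedEmbedding.isClosed_range.isOpen_compl⟩, hz, False,
      fun Y p ⟨y⟩ h => iff_false_intro fun h' => h y ⟨(p.left ≫ a.left) y, ?_⟩⟩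
    have h'' : p.left ≫ a.left = p.left ≫ b.left := congrArg (·.left) h'
    have : (p.left ≫ a.left) ≫ pullback.diagonal W.hom =
        p.left ≫ pullback.lift a.left b.left e := by
      apply pullback.hom_ext <;> simp [h'']
    exact congr($this y)

lemma key {M : Type} [AddCommGroup M] {V W : Over X} [Etale W.hom] [IsSeparated W.hom]
    (τ : ((LP M).obj W).obj (op V)) (z : V.left) :
    ∃ U : V.left.Opens, z ∈ U ∧ ∀ ⦃Y : Over X⦄ (p : Y ⟶ V), Nonempty Y.left →
      (∀ y, p.left y ∈ U) → ((LP M).obj W).map p.op τ = 0 →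
      ((LP M).obj W).map (opι V U).op τ = 0 := by
  choose U hU c hc using fun a b : V ⟶ W => eqU a b z
  let σ : ULift.{1} (V ⟶ W) →₀ M := τ
  have ho : IsOpen (⋂ a ∈ σ.support, ⋂ b ∈ σ.support, (U a.down b.down : Set V.left)) :=
    isOpen_biInter_finset fun a _ => isOpen_biInter_finset fun b _ => (U a.down b.down).isOpen
  have hz : z ∈ ⋂ a ∈ σ.support, ⋂ b ∈ σ.support, (U a.down b.down : Set V.left) :=
    Set.mem_iInter₂.2 fun a _ => Set.mem_iInter₂.2 fun b _ => hU _ _
  refine ⟨⟨_, ho⟩, hz, fun Y p hY hp h0 => md_zero σ _ _ (fun a ha b hb e => ULift.ext _ _ ?_) h0⟩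
  exact (hc a.down b.down (opι V ⟨_, ho⟩) ⟨⟨z, hz⟩⟩ fun y =>
    Set.mem_iInter₂.1 (Set.mem_iInter₂.1 y.2 a ha) b hb).2 ((hc a.down b.down p hY fun y =>
      Set.mem_iInter₂.1 (Set.mem_iInter₂.1 (hp y) a ha) b hb).1 (congrArg ULift.down e))

/-- Formal sums of points as sections. -/
noncomputable def η (n : ℕ) (W : Over X) : (LP (ZMod n)).obj W ⟶ (Ln n W).obj :=
  toSheafify (Scheme.etaleTopology.over X) ((LP (ZMod n)).obj W) ≫ (inv (D.LNM.φ n W)).hom

instance (n : ℕ) (W : Over X) : IsIso (inv (D.LNM.φ n W)).hom :=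
  inferInstanceAs (IsIso ((sheafToPresheaf _ _).map (inv (D.LNM.φ n W))))

instance (n : ℕ) (W : Over X) :
    Presheaf.IsLocallyInjective (Scheme.etaleTopology.over X) (η n W) := by
  unfold η; infer_instance

instance (n : ℕ) (W : Over X) :
    Presheaf.IsLocallySurjective (Scheme.etaleTopology.over X) (η n W) := by
  unfold η; infer_instance

lemma loc (n : ℕ) {T W : Over X} [Etale W.hom] [IsSeparated W.hom] (s : sec (Ln n W) T)
    (t : T.left) : (∃ (V : Over X) (v : V ⟶ T), Etale v.left ∧ stkSieve (Ln n W).obj s v ∧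
      t ∈ Set.range v.left) ∨ ∃ O : Set T.left, IsOpen O ∧ t ∈ O ∧
        ∀ ⦃Y : Over X⦄ (p : Y ⟶ T) (y : Y.left), p.left y ∈ O → (Ln n W).obj.map p.op s ≠ 0 := by
  obtain ⟨V, v, -, hv, ⟨τ, hτ⟩, z, rfl⟩ :=
    exists_of_mem_Jov (Presheaf.imageSieve_mem (Scheme.etaleTopology.over X) (η n W) s) t
  obtain ⟨U, hU, H⟩ := key τ z
  by_cases h0 : ((LP (ZMod n)).obj W).map (opι V U).op τ = 0
  · refine .inl ⟨_, opι V U ≫ v, inferInstanceAs (Etale (U.ι ≫ v.left)), ?_, ⟨z, hU⟩, rfl⟩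
    exact (res_res _ _ _ _).symm.trans ((congrArg _ hτ.symm).trans
      ((nat (η n W) _ _).symm.trans ((congrArg _ h0).trans (map_zero _))))
  refine .inr ⟨v.left '' U, v.left.isOpenMap _ U.isOpen, ⟨z, hU, rfl⟩,
    fun Y p y ⟨z', hz', e⟩ hp => h0 ?_⟩
  have hP := IsPullback.of_hasPullback p v
  obtain ⟨w, -, hw⟩ := exc_pt hP y z' e.symm
  obtain ⟨k, _, _, q, o, hq⟩ := exc_geom _ w
  let q' : Over.mk (q ≫ (pullback p v).hom) ⟶ pullback p v := Over.homMk q
  refine H (q' ≫ pullback.snd p v) ⟨o⟩ (fun x => ?_) (shl_inj _ (η n W) ?_)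
  · have : (q' ≫ pullback.snd p v).left x = z' := (congrArg (pullback.snd p v).left (hq x)).trans hw
    rwa [this]
  · rw [nat, hτ, map_zero, res_res, Category.assoc, ← hP.w, ← Category.assoc, ← res_res, hp,
      map_zero]

end SEC0

open SEC0 in
theorem sec0 : SEC0_s := by
  intro n X W T _ _ _ k _ _ y hy x
  obtain ⟨s, rfl⟩ := (h0 T (Ln n W)).surjective x
  let N : Set T.left := {t | ∃ (V : Over X) (v : V ⟶ T), Etale v.left ∧
    stkSieve (Ln n W).obj s v ∧ t ∈ Set.range v.left}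
  have h1 : IsOpen N := isOpen_iff_forall_mem_open.2 fun t ⟨V, v, h1, h2, h3⟩ =>
    ⟨_, fun _ h => ⟨V, v, h1, h2, h⟩, v.left.isOpenMap.isOpen_range, h3⟩
  have h2 : IsOpen Nᶜ := isOpen_iff_forall_mem_open.2 fun t ht => by
    obtain ⟨O, a, b, c⟩ := (loc n s t).resolve_left ht
    refine ⟨O, ?_, a, b⟩
    rintro _ h ⟨V, v, -, h2, z, rfl⟩
    exact c v z h h2
  have h3 : N.Nonempty := ⟨y (IsLocalRing.closedPoint k), (loc n s _).resolve_right ?_⟩
  · have h4 : N = Set.univ := IsClopen.eq_univ ⟨⟨h2⟩, h1⟩ h3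
    rw [sepP (Ln n W).property s _ (mem_Jov_of (stkSieve (Ln n W).obj s) fun t =>
      (h4.symm ▸ Set.mem_univ t : t ∈ N)) fun _ _ h => h, map_zero]
  · rintro ⟨O, -, b, c⟩
    let y' : Over.mk (y ≫ T.hom) ⟶ T := Over.homMk y
    refine c y' (IsLocalRing.closedPoint k) b ?_
    obtain ⟨τ, hτ⟩ := shl_surj (y ≫ T.hom) (η n W) ((Ln n W).obj.map y'.op s)
    have e : τ = 0 := Finsupp.ext fun a => (hy.false a.down).elim
    rw [← hτ, e, map_zero]

end Pool.Agent.MP_855f4c_ag.AV.RG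

end

section

/-! h67a, section RG, row CORE. -/

set_option autoImplicit false
set_option backward.isDefEq.respectTransparency false

open CategoryTheory Limits Abelian Opposite AlgebraicGeometry Polynomial Function

namespace Pool.Agent.MP_855f4c_ag.AV.RG

open E E3 E4 T
open E.CV (Ln Lm)

namespace CORE

variable {P : Scheme.{0}} {R A S k : Type} [CommRing R] [CommRing A] [CommRing S] [Field k]
  [Algebra R S] (c : Spec (.of R) ⟶ P) [Mono c]

/-- A point of `Spec S` over a point of `Spec R`. -/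
lemma pt {y : Spec (.of k) ⟶ P} {χ : R →+* k} (hy : y = spc χ ≫ c) (w : Over.mk y ⟶ ob c S) :
    ∃ ψ : S →+* k, w.left = spc ψ ∧ ψ.comp (algebraMap R S) = χ := by
  obtain ⟨ψ, hψ⟩ := Spec.map_surjective (R := .of S) (S := .of k) w.left
  have h : Spec.map ψ ≫ spc (algebraMap R S) ≫ c = spc χ ≫ c := by
    rw [hψ, ← hy]; exact Over.w w
  rw [← Category.assoc, cancel_mono, ← Spec.map_comp] at h
  exact ⟨ψ.hom, hψ.symm, congrArg CommRingCat.Hom.hom (Spec.map_injective h)⟩

omit [Mono c] in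
lemma tr (α : R →+* A) (φ : A →+* k) : spc φ ≫ spc α ≫ c = spc (φ.comp α) ≫ c := by
  rw [← Category.assoc, ← Spec.map_comp]; rfl

lemma lift (f : R) (S' : Type) [CommRing S'] [Algebra R S'] [Algebra S S'] [IsScalarTower R S S']
    [IsLocalization.Away (algebraMap R S f) S'] {y : Spec (.of k) ⟶ P} {χ : R →+* k}
    (hy : y = spc χ ≫ c) (h : χ f ≠ 0) (w : Over.mk y ⟶ ob c S) :
    ∃ w', w' ≫ tw c S S' = w := by
  obtain ⟨ψ, h1, rfl⟩ := pt c hy w
  have e := IsLocalization.Away.lift_comp (S := S') (algebraMap R S f) (g := ψ) h.isUnit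
  refine ⟨Over.homMk (spc (IsLocalization.Away.lift (algebraMap R S f) (g := ψ) h.isUnit)) ?_,
    Over.OverMorphism.ext ?_⟩
  · refine (tr c _ _).trans ?_
    rw [IsScalarTower.algebraMap_eq R S S', ← RingHom.comp_assoc, e]
    exact hy.symm
  · refine ((Spec.map_comp _ _).symm.trans ?_).trans h1.symm
    exact congrArg spc e

lemma zero [IsAlgClosed k] (n : ℕ) {f : R} (hf : IsUnit (algebraMap R S f))
    {y : Spec (.of k) ⟶ P} {χ : R →+* k} (hy : y = spc χ ≫ c) (h : χ f = 0)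
    (s : sec (Ln n (ob c S)) (Over.mk y)) : s = 0 := by
  obtain ⟨e, -⟩ := (E.D.lnm P n).2.2.2.2 k y
  refine (e _).injective (Finsupp.ext fun w => ?_)
  obtain ⟨ψ, -, rfl⟩ := pt c hy w
  exact ((hf.map ψ).ne_zero h).elim

lemma poly {V : Type} [CommRing V] [IsDomain V] {f : V[X]} (hf : f ≠ 0) :
    ∃ (m : ℕ) (g : V[X]), f = X ^ m * g ∧ g.eval 0 ≠ 0 := by
  obtain ⟨g, h1, h2⟩ := exists_eq_pow_rootMultiplicity_mul_and_not_dvd f hf 0
  exact ⟨_, g, by simpa using h1, fun h => h2 (dvd_iff_isRoot.2 h)⟩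

end CORE

open CORE in
theorem core (hK : KEY_s) (hS : SQ0_s) (hD : DIM_s) (hG : GF_s) (hZ : ZZ_s) (hH : HV_s)
    (hM : MVX_s) (hE : GENZ_s) (hC : CKZ_s) : CORE_s := by
  intro l _ D L S _ _ _ x
  obtain ⟨_, -, -, hi, -, -, -, hd⟩ := hD l D
  have e0 : Etale (ob L.c₁ S).hom := by
    have : Etale (spc (algebraMap D.V[X] S)) := HasRingHomProperty.Spec_iff.2
      (RingHom.etale_algebraMap.2 inferInstance)
    exact inferInstanceAs (Etale (_ ≫ _))
  have t0' := (E.D.lnm L.P l).1 l _ ⟨1, (pow_one l).symm⟩ e0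
  obtain ⟨h, h0, hh⟩ := hE _ D.O₀ (FractionRing D.O₀) (D.u L) _ t0'.1.1 2 x
    ((hZ l D _ (D.u L) _ t0').1 _ 0 _)
  obtain ⟨f₁, f0, hf⟩ := hd h h0
  obtain ⟨f₂, f0', hg⟩ := hG D.V[X] S
  obtain ⟨m, g₀, hm, g0⟩ := poly (mul_ne_zero f0 f0')
  have p0 : D.p ≠ 0 := fun h => (IsLocalization.Away.algebraMap_isUnit (S := D.K) D.p).ne_zero (by
    rw [h, map_zero])
  obtain ⟨g, hgg⟩ : ∃ g, g = C D.p * g₀ := ⟨_, rfl⟩
  have g1 : g.eval 0 ≠ 0 := by simp [hgg, p0, g0]
  have dv : f₁ * f₂ ∣ (X * g) ^ (m + 1) := by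
    rw [hm, mul_pow]
    exact mul_dvd_mul (pow_dvd_pow _ m.le_succ) (dvd_pow (hgg ▸ dvd_mul_left _ _) m.succ_ne_zero)
  obtain ⟨Q⟩ := hS D.O₀ (algebraMap D.V[X] D.O₀ g)
  let R := Localization.Away (X * g)
  let S' := Localization.Away (algebraMap D.V[X] S (X * g))
  have u' : IsUnit (algebraMap D.V[X] S' (X * g)) := by
    rw [IsScalarTower.algebraMap_apply D.V[X] S S']
    exact IsLocalization.Away.algebraMap_isUnit _
  let : Algebra R S' := (IsLocalization.Away.lift (X * g) u').toAlgebra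
  have : IsScalarTower D.V[X] R S' :=
    .of_algebraMap_eq' (IsLocalization.Away.lift_comp (X * g) u').symm
  obtain ⟨_, _⟩ := hg (X * g) (m + 1) ((dvd_mul_left _ _).trans dv) R S'
  have o : IsOpenImmersion (tw L.c₁ S S').left :=
    IsOpenImmersion.of_isLocalization (S := S') (algebraMap D.V[X] S (X * g))
  have e1 : Etale (ob L.c₁ S').hom := by
    rw [← Over.w (tw L.c₁ S S')]; infer_instance
  have t1 := (E.D.lnm L.P l).1 l _ ⟨1, (pow_one l).symm⟩ e1
  obtain ⟨t2, z2⟩ := hC l _ _ _ (tw L.c₁ S S') e1 e0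
  have := (E.D.lnm L.P l).2.2.2.1 _ _ (tw L.c₁ S S') (Over.mono_of_mono_left _)
  have hs := ShortComplex.ShortExact.mk' (ShortComplex.exact_cokernel (Lm l (tw L.c₁ S S')))
    inferInstance inferInstance
  have uX : IsUnit (algebraMap D.V[X] D.O₀ X) := by
    rw [IsScalarTower.algebraMap_apply D.V[X] D.O D.O₀]
    exact IsLocalization.Away.algebraMap_isUnit _
  have ug : IsUnit (algebraMap D.O₀ Q.A' (algebraMap D.V[X] D.O₀ (X * g))) := by
    rw [map_mul, map_mul]
    exact (uX.map _).mul (IsLocalization.Away.algebraMap_isUnit _)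
  have ul : IsUnit (l : D.O₀) := by
    simpa using D.ul.map ((algebraMap D.V[X] D.O₀).comp C)
  obtain ⟨y, rfl⟩ := Ext.covariant_sequence_exact₂ _ hs x
    ((hZ l D _ (D.u L) _ t2).2.2.1 (fun k _ _ φ hφ => z2 k _ (lift L.c₁ (X * g) S' (tr _ _ _)
      fun h => mul_ne_zero X_ne_zero (fun h => g1 (by simp [h]))
        (hi ((hφ (h.trans φ.map_zero.symm)).trans (map_zero _).symm)))) 0 _)
  rw [hM _ D.O₀ (D.u L) _ Q _ t1.1.1 1 y ?_ ?_ (hK l D L g Q R S' (hgg ▸ dvd_mul_right _ _) g1),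
    Ext.zero_comp]
  · obtain ⟨w, hw⟩ := Ext.covariant_sequence_exact₁ _ hs (res (t0 (D.u L) Q.A') _ 2 y)
      ((pre_post _ _ y).symm.trans (hh Q.A' (isUnit_of_dvd_unit (_root_.map_dvd _ (hf.trans
        (_root_.map_dvd _ ((dvd_mul_right _ _).trans dv)))) (by
          rw [map_pow, map_pow]; exact ug.pow _)))) (rfl : 1 + 1 = 2)
    rw [← hw, (hH l _ _).1 (ob (D.u L) Q.A') (Linv.spec (by
      simpa using ul.map (algebraMap D.O₀ Q.A'))) t2 (fun k _ _ y => ?_) 1 w, Ext.zero_comp]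
    obtain ⟨φ, rfl⟩ := Spec.map_surjective y
    refine z2 k _ (lift L.c₁ (X * g) S'
      (χ := (φ.hom.comp (algebraMap D.O₀ Q.A')).comp (algebraMap D.V[X] D.O₀)) ?_
      (ug.map φ.hom).ne_zero)
    exact (tr (D.u L) _ φ.hom).trans (tr _ _ _)
  · refine (hH l _ _).2 Q.C (spc (algebraMap D.O₀ Q.C) ≫ D.u L) _
      (by simpa using ul.map (algebraMap D.O₀ Q.C)) Q.hp t1 (fun k _ _ φ hφ => ?_) 2 _
    refine zero L.c₁ l u' (χ := (φ.comp (algebraMap D.O₀ Q.C)).comp (algebraMap D.V[X] D.O₀)) ?_ ?_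
    · exact (tr _ _ φ).trans (tr _ _ _)
    · rw [map_mul]
      exact mul_eq_zero_of_right _ (hφ (Ideal.mem_span_singleton_self _))

end Pool.Agent.MP_855f4c_ag.AV.RG

end

section

/-! h67a, section RG: row DESC. -/

set_option autoImplicit false
set_option backward.isDefEq.respectTransparency false

open CategoryTheory Limits Abelian Opposite AlgebraicGeometry Function TensorProduct

namespace Pool.Agent.MP_855f4c_ag.AV.RG

open E E3 E4 T
open E.CV (Ln Lm)
open E.D (Aet)

/-- A clopen part of `W'` gives a direct summand of `Ln n W'`. -/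
lemma DESC.clop {X : Scheme.{0}} (n q : ℕ) {W W' : Over X} (c : W ⟶ W') [IsOpenImmersion c.left]
    (hc : IsClosed (Set.range c.left)) (T : Over X) (h : Z T (Ln n W') q) : Z T (Ln n W) q := by
  obtain ⟨r, hr, -⟩ := D.CLOP.split c hc
  let s : Ln n W' ⟶ Ln n W := cokernel.map _ _ r r (by simp)
  have e : Lm n c ≫ s = 𝟙 _ := by
    refine (cancel_epi (cokernel.π _)).1 ?_
    simp only [Lm, s, cokernel.π_desc_assoc, cokernel.π_desc, Category.assoc, reassoc_of% hr]
    exact (Category.comp_id _).symm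
  intro x
  have h1 : Hmap s T q (Hmap (Lm n c) T q x) = x := by
    simp only [Hmap, Ext.postcomp, Ext.bilinearComp_apply_apply, AddMonoidHom.flip_apply]
    rw [Ext.comp_assoc_of_third_deg_zero, Ext.mk₀_comp_mk₀, e, Ext.comp_mk₀_id]
  rw [← h1, h (Hmap (Lm n c) T q x), map_zero]

theorem desc : DESC_s := by
  intro n X R A _ _ _ u q hu hA h W hW
  obtain ⟨h1, h2⟩ := hW
  obtain ⟨φ, hφ⟩ := Spec.map_surjective (W.left.isoSpec.inv ≫ W.hom)
  let : Algebra A Γ(W.left, ⊤) := φ.hom.toAlgebra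
  have : Algebra.Etale A Γ(W.left, ⊤) := by
    have : Etale (Spec.map φ) := by rw [hφ]; infer_instance
    exact (HasRingHomProperty.Spec_iff (P := @Etale)).1 this
  obtain ⟨E, _, _, _, _, _, S, _, _, _, ⟨e⟩⟩ := hA.spread Γ(W.left, ⊤)
  let : Algebra R S := ((algebraMap E S).comp (algebraMap R E)).toAlgebra
  have : IsScalarTower R E S := .of_algebraMap_eq fun _ => rfl
  have : Algebra.Etale R S := .comp R E S
  let i := spc (algebraMap R E) ≫ u
  have e1 : spc (algebraMap E S) ≫ i = (ob u S).hom := by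
    rw [← Category.assoc, ← Spec.map_comp]; rfl
  have e2 : spc (algebraMap E A) ≫ i = (ob u A).hom := by
    rw [← Category.assoc, ← Spec.map_comp, ← CommRingCat.ofHom_comp,
      ← IsScalarTower.algebraMap_eq]; rfl
  let j : W.left ⟶ Spec (.of (A ⊗[E] S)) :=
    W.left.isoSpec.hom ≫ Spec.map e.symm.toRingEquiv.toCommRingCatIso.hom
  let c₀ : W.left ⟶ pullback (ob u S).hom (ob u A).hom :=
    j ≫ (pullbackSpecIso E A S).inv ≫ (pullbackSymmetry _ _).hom ≫ pullback.mapDesc _ _ i ≫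
      (pullback.congrHom e1 e2).hom
  have e3 : c₀ ≫ pullback.snd _ _ = W.hom := by
    have : Spec.map e.symm.toRingEquiv.toCommRingCatIso.hom ≫
        Spec.map (CommRingCat.ofHom Algebra.TensorProduct.includeLeftRingHom) = Spec.map φ := by
      rw [← Spec.map_comp]
      congr 1
      ext a
      exact e.symm.commutes a
    have e4 : j ≫ Spec.map (CommRingCat.ofHom Algebra.TensorProduct.includeLeftRingHom) =
        W.hom := by
      rw [Category.assoc, this, hφ, Iso.hom_inv_id_assoc]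
    simp [c₀, e4]
  have : IsClosedImmersion c₀ := by infer_instance
  let c : W ⟶ (Over.pullback (ob u A).hom).obj (ob u S) := Over.homMk c₀ e3
  have : Etale (ob u S).hom := by
    have : Etale (spc (algebraMap R S)) :=
      (HasRingHomProperty.Spec_iff (P := @Etale)).2 (RingHom.etale_algebraMap.2 inferInstance)
    exact inferInstanceAs (Etale (spc (algebraMap R S) ≫ u))
  have : Etale (c₀ ≫ pullback.snd _ _) := e3 ▸ h1
  have : Etale c₀ := Etale.of_comp c₀ (pullback.snd _ _)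
  have : IsOpenImmersion c.left := IsOpenImmersion.of_flat_of_mono c₀
  refine DESC.clop n q c c₀.isClosedEmbedding.isClosed_range _ fun x => ?_
  obtain ⟨s, -⟩ := D.slw X n q (ob u A)
  obtain ⟨y, rfl⟩ := (s (ob u S)).surjective x
  rw [h S y, map_zero]

end Pool.Agent.MP_855f4c_ag.AV.RG

end
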