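import Pool.Agent.MP_855f4c_ag.A.Def
import Pool.Agent.MP_855f4c_ag.AC.Aj
import Pool.Agent.MP_855f4c_ag.VC.Va

set_option linter.all false

section

/-! h67a, geometry and glue: definitions and rows. -/

set_option autoImplicit false
set_option backward.isDefEq.respectTransparency false

open CategoryTheory Limits Opposite AlgebraicGeometry MvPolynomial Function IsLocalRing
open scoped TensorProduct

namespace Pool.Agent.MP_855f4c_ag.LG

open E E3 Pool.Agent.MP_855f4c_ag.T YJ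

attribute [local instance] MvPolynomial.gradedAlgebra

/-- Projective space with `n` coordinates. -/
noncomputable abbrev PP (K : Type) [CommRing K] (n : ℕ) : Scheme.{0} :=
  Proj (homogeneousSubmodule (Fin n) K)

/-- Its structure map. -/
noncomputable abbrev pS (K : Type) [CommRing K] (n : ℕ) : PP K n ⟶ Spec (.of K) :=
  Proj.toSpecZero _ ≫ spc (algebraMap K (homogeneousSubmodule (Fin n) K 0))

/-- `u` is the chart `x_o ≠ 0` of `Y`, with coordinates `v`. -/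
structure Ch {K : Type} [CommRing K] {n : ℕ} {Y : Scheme.{0}} (ι : Y ⟶ PP K n) (o : Fin n)
    {R : Type} [CommRing R] [Algebra K R] (v : Fin n → R) (u : Spec (.of R) ⟶ Y) : Prop where
  one : v o = 1
  sur : Surjective (aeval v : MvPolynomial (Fin n) K →ₐ[K] R)
  opn : IsOpenImmersion u
  rng : ∀ y, y ∈ Set.range u ↔ X o ∉ (ι y).asHomogeneousIdeal
  pnt : ∀ h : IsUnit (v o), u ≫ ι = pt (algebraMap K R) v o h

/-- The differential of `q` is nowhere zero on `q = 0`. -/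
def Jq (K : Type) {R : Type} [CommRing K] [CommRing R] [Algebra K R] (q : R) : Prop :=
  ∃ (D : Derivation K R R) (a : R), D q = 1 + a * q

/-- The double cover `z ^ 2 = q`. -/
abbrev Dc {R : Type} [CommRing R] (q : R) : Type :=
  AdjoinRoot (Polynomial.X ^ 2 - Polynomial.C q)

/-- Its coordinates `(z, v)`. -/
noncomputable def dv {R : Type} [CommRing R] (q : R) {n : ℕ} (v : Fin n → R) : Fin (n + 1) → Dc q :=
  Fin.cons (AdjoinRoot.root _) fun k => algebraMap R (Dc q) (v k)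

/-- `H^i(T, ℤ/l^m)`. -/
noncomputable abbrev HZ (l m i : ℕ) (T : Scheme.{0}) : Ab.{1} :=
  ((Et.coh i).obj (op T)).obj ((Et.tower l).obj (op m))

/-- Pull-back on `H^i(-, ℤ/l^m)`. -/
noncomputable abbrev pz (l m i : ℕ) {T' T : Scheme.{0}} (g : T' ⟶ T) : HZ l m i T →+ HZ l m i T' :=
  (((Et.coh i).map g.op).app ((Et.tower l).obj (op m))).hom

/-- `K ⊗ ρ`. -/
noncomputable abbrev tm (K : Type) {O C B : Type} [CommRing O] [CommRing K] [Algebra O K]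
    [CommRing C] [Algebra O C] [CommRing B] [Algebra O B] (ρ : C →ₐ[O] B) :
    K ⊗[O] C →+* K ⊗[O] B := (Algebra.TensorProduct.map (AlgHom.id K K) ρ).toRingHom

/-! ### Projective geometry -/

/-- Charts exist; every open immersion with the right image is a chart; points factor. -/
def CH_s : Prop := ∀ (K : Type) [Field K] (n : ℕ) (Y : Scheme.{0}) (ι : Y ⟶ PP K n)
  [IsClosedImmersion ι] (o : Fin n),
    (∃ (R : Type) (_ : CommRing R) (_ : Algebra K R) (v : Fin n → R) (u : Spec (.of R) ⟶ Y),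
      Ch ι o v u) ∧
    (∀ (R : Type) [CommRing R] [Algebra K R] (u : Spec (.of R) ⟶ Y) [IsOpenImmersion u],
      u ≫ ι ≫ pS K n = spc (algebraMap K R) →
      (∀ y, y ∈ Set.range u ↔ X o ∉ (ι y).asHomogeneousIdeal) → ∃ v, Ch ι o v u) ∧
    ∀ (R : Type) [CommRing R] [Algebra K R] (v : Fin n → R) (u : Spec (.of R) ⟶ Y), Ch ι o v u →
      ∀ (D : Type) [CommRing D] (χ : K →+* D) (w : Fin n → D) (i : Fin n) (h : IsUnit (w i))
        (y : Spec (.of D) ⟶ Y), y ≫ ι = pt χ w i h → IsUnit (w o) →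
        ∃ ψ : R →+* D, ψ.comp (algebraMap K R) = χ ∧ (∀ k, ψ (v k) * w o = w k) ∧ spc ψ ≫ u = y

/-- Bertini for quadrics near `x₀ ^ 2`. -/
def BERT_s : Prop := ∀ (O K : Type) [CommRing O] [Field K] [CharZero K] [Algebra O K] (n : ℕ)
  (R : Fin (n + 1) → Type) [∀ o, CommRing (R o)] [∀ o, Algebra K (R o)]
  [∀ o, Algebra.Smooth K (R o)] (v : ∀ o, Fin (n + 1) → R o) (c : K), (∀ o, v o o = 1) → c ≠ 0 →
    ∃ g : MvPolynomial (Fin (n + 1)) O, g.IsHomogeneous 2 ∧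
      ∀ o, Jq K (aeval (v o) (X 0 ^ 2 + C c * map (algebraMap O K) g))

/-- The double cover and its branch locus are smooth. -/
def SMQ_s : Prop := ∀ (K R : Type) [Field K] [CharZero K] [CommRing R] [Algebra K R] (d : ℕ)
  (q : R), SmoothOfRelativeDimension d (spc (algebraMap K R)) → Jq K q →
    SmoothOfRelativeDimension d (spc (algebraMap K (Dc q))) ∧ _root_.IsReduced (Dc q) ∧
    Smooth (spc (algebraMap K (R ⧸ Ideal.span {q}))) ∧ _root_.IsReduced (R ⧸ Ideal.span {q})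

/-- Reduced closed subschemes with given charts. -/
def RS_s : Prop := ∀ (K : Type) [Field K] (m : ℕ) (κ : Type) (e : κ → Fin m) (S : κ → Type)
  [∀ i, CommRing (S i)] [∀ i, Algebra K (S i)] [∀ i, _root_.IsReduced (S i)]
  (w : ∀ i, Fin m → S i) (Z : Set (PP K m)), IsClosed Z → (∀ i, w i (e i) = 1) →
    (∀ i, Surjective (aeval (w i) : MvPolynomial (Fin m) K →ₐ[K] S i)) →
    (∀ i h z, z ∈ Set.range (pt (algebraMap K (S i)) (w i) (e i) h) ↔
      z ∈ Z ∧ X (e i) ∉ z.asHomogeneousIdeal) →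
    ∃ (T : Scheme.{0}) (ι : T ⟶ PP K m) (c : ∀ i, Spec (.of (S i)) ⟶ T), IsClosedImmersion ι ∧
      IsReduced T ∧ Set.range ι = Z ∧ (∀ i, Ch ι (e i) (w i) (c i)) ∧
      ∀ (T' : Scheme.{0}) [IsReduced T'] (t : T' ⟶ PP K m), Set.range t ⊆ Z → ∃ s, s ≫ ι = t

/-- The reflection in the first coordinate. -/
def SGP_s : Prop := ∀ (K : Type) [Field K] (m : ℕ), ∃ τ : PP K (m + 1) ⟶ PP K (m + 1),
  τ ≫ τ = 𝟙 _ ∧ τ ≫ pS K _ = pS K _ ∧
  ∀ (D : Type) [CommRing D] (χ : K →+* D) (w w' : Fin (m + 1) → D) (i : Fin (m + 1))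
    (h : IsUnit (w i)) (h' : IsUnit (w' i)), w' 0 = - w 0 → (∀ k : Fin m, w' k.succ = w k.succ) →
    pt χ w i h ≫ τ = pt χ w' i h'

/-- A hypersurface meets a variety of positive dimension. -/
def NE_s : Prop := ∀ (K : Type) [Field K] (n : ℕ) (Y : Scheme.{0}) (f : Y ⟶ Spec (.of K)) (d : ℕ)
  [SmoothOfRelativeDimension d f] [Nonempty Y] (ι : Y ⟶ PP K n) [IsClosedImmersion ι]
  (q : MvPolynomial (Fin n) K) (r : ℕ), ι ≫ pS K n = f → 0 < d → 0 < r → q.IsHomogeneous r →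
    ∃ y : Y, q ∈ (ι y).asHomogeneousIdeal

/-- The double cover is geometrically irreducible. -/
def GI_s : Prop := ∀ (K : Type) [Field K] [CharZero K] (n : ℕ) (Y : Scheme.{0})
  (f : Y ⟶ Spec (.of K)) (d : ℕ) [SmoothOfRelativeDimension d f] [GeometricallyIrreducible f]
  (ι : Y ⟶ PP K n) [IsClosedImmersion ι] (R : Fin n → Type) [∀ o, CommRing (R o)]
  [∀ o, Algebra K (R o)] (v : ∀ o, Fin n → R o) (u : ∀ o, Spec (.of (R o)) ⟶ Y)
  (q : MvPolynomial (Fin n) K) (T : Scheme.{0}) (ι₂ : T ⟶ PP K (n + 1)) [IsClosedImmersion ι₂]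
  (c : ∀ o, Spec (.of (Dc (aeval (v o) q))) ⟶ T),
    ι ≫ pS K n = f → q.IsHomogeneous 2 → (∀ o, Ch ι o (v o) (u o)) →
    (∀ o, Jq K (aeval (v o) q)) → (∃ y : Y, q ∈ (ι y).asHomogeneousIdeal) →
    (∀ o, Ch ι₂ o.succ (dv _ (v o)) (c o)) → (∀ x, ∃ o, x ∈ Set.range (c o)) →
    GeometricallyIrreducible (ι₂ ≫ pS K _)

/-- The hypotheses of the reflection theorem for an involution. -/
structure Rfl {K : Type} [Field K] {n : ℕ} {T : Scheme.{0}} (ι : T ⟶ PP K (n + 1)) (d : ℕ)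
    (σ : T ⟶ T) {D : Scheme.{0}} (j : D ⟶ T) : Prop where
  cl : IsClosedImmersion ι
  sm : SmoothOfRelativeDimension d (ι ≫ pS K _)
  gi : GeometricallyIrreducible (ι ≫ pS K _)
  ov : σ ≫ ι ≫ pS K _ = ι ≫ pS K _
  sq : σ ≫ σ = 𝟙 T
  clj : IsClosedImmersion j
  smj : Smooth (j ≫ ι ≫ pS K _)
  ne : Nonempty D
  fix : j ≫ σ = j
  rng : ∀ x : T, x ∈ Set.range j ↔ X 0 ∈ (ι x).asHomogeneousIdeal

/-- The double cover. -/
def DBL_s : Prop := ∀ (K : Type) [Field K] [CharZero K] (n : ℕ) (Y : Scheme.{0})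
  (f : Y ⟶ Spec (.of K)) (d : ℕ) [SmoothOfRelativeDimension d f] [GeometricallyIrreducible f]
  (ι : Y ⟶ PP K n) [IsClosedImmersion ι] (R : Fin n → Type) [∀ o, CommRing (R o)]
  [∀ o, Algebra K (R o)] (v : ∀ o, Fin n → R o) (u : ∀ o, Spec (.of (R o)) ⟶ Y)
  (q : MvPolynomial (Fin n) K), ι ≫ pS K n = f → 0 < d → q.IsHomogeneous 2 →
    (∀ o, Ch ι o (v o) (u o)) → (∀ o, Jq K (aeval (v o) q)) →
    ∃ (T : Scheme.{0}) (ι₂ : T ⟶ PP K (n + 1)) (σ : T ⟶ T) (D : Scheme.{0}) (j : D ⟶ T),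
      Rfl ι₂ d σ j ∧
      ∀ (E : Type) [CommRing E] (χ : K →+* E) (w : Fin (n + 1) → E),
        (∀ (i : Fin (n + 1)) (h : IsUnit (w i)) (x : Spec (.of E) ⟶ T), x ≫ ι₂ = pt χ w i h →
          eval₂ χ (Fin.tail w) q = w 0 ^ 2 ∧
          (∀ (o : Fin n) (ho : IsUnit (Fin.tail w o)),
            ∃ y : Spec (.of E) ⟶ Y, y ≫ ι = pt χ (Fin.tail w) o ho) ∧
          ∀ (w' : Fin (n + 1) → E) (h' : IsUnit (w' i)), w' 0 = - w 0 →
            (∀ k : Fin n, w' k.succ = w k.succ) → x ≫ σ ≫ ι₂ = pt χ w' i h') ∧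
        ∀ (o : Fin n) (ho : IsUnit (w o.succ)) (y : Spec (.of E) ⟶ Y),
          y ≫ ι = pt χ (Fin.tail w) o ho → eval₂ χ (Fin.tail w) q = w 0 ^ 2 →
          ∃ x : Spec (.of E) ⟶ T, x ≫ ι₂ = pt χ w o.succ ho

/-! ### The integral model -/

/-! ### Cohomology -/

/-- The integral closure of `O`. -/
def VB_s : Prop := ∀ (O Ω : Type) [CommRing O] [IsDomain O] [IsDiscreteValuationRing O]
  [HenselianLocalRing O] [Field Ω] [CharZero Ω] [IsAlgClosed Ω] [Algebra O Ω] [FaithfulSMul O Ω]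
  [Algebra.IsAlgebraic O Ω] (l : ℕ) (ϖ : O), IsUnit (l : O) → Irreducible ϖ →
    ValuationRing (integralClosure O Ω) ∧ AV.VV l (integralClosure O Ω) ∧
    IsLocalization.Away (algebraMap O (integralClosure O Ω) ϖ) Ω

/-- Points of a smooth scheme have small transcendence degree. -/
def DIM_s : Prop := ∀ (Ω C : Type) [Field Ω] [CommRing C] [Algebra Ω C] (d : ℕ),
  SmoothOfRelativeDimension d (spc (algebraMap Ω C)) →
    ∀ (κ : Type) [Field κ] (φ : C →+* κ), ¬ AV.Big Ω (d + 1) φ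

/-- Anti-invariant classes extend over the fixed locus. -/
def GYS_s : Prop := ∀ (l : ℕ) [Fact l.Prime] (Ω : Type) [Field Ω] [IsAlgClosed Ω] [CharZero Ω]
  (T D W : Scheme.{0}) (f : T ⟶ Spec (.of Ω)) (d : ℕ) [SmoothOfRelativeDimension d f] [IsProper f]
  [IrreducibleSpace T] (j : D ⟶ T) [IsClosedImmersion j] [Nonempty D] (w : W ⟶ T)
  [IsOpenImmersion w] (σ : T ⟶ T) (σ' : W ⟶ W), σ ≫ f = f → σ ≫ σ = 𝟙 T → j ≫ σ = j →
    σ' ≫ w = w ≫ σ → (∀ x, x ∈ Set.range w ↔ x ∉ Set.range j) →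
    ∃ c : ℕ, c ≠ 0 ∧ ∀ (m i : ℕ), i < 2 * d → ∀ b : HZ l m i W,
      ∃ x, pz l m i w x = c • (b - pz l m i σ' b)

/-- The same after restriction to one sheet. -/
def GY2_s : Prop := ∀ (l : ℕ) [Fact l.Prime] (Ω : Type) [Field Ω] [IsAlgClosed Ω] [CharZero Ω]
  (T D W : Scheme.{0}) (f : T ⟶ Spec (.of Ω)) (d : ℕ) [SmoothOfRelativeDimension d f] [IsProper f]
  [IrreducibleSpace T] (j : D ⟶ T) [IsClosedImmersion j] [Nonempty D] (w : W ⟶ T)
  [IsOpenImmersion w] (σ : T ⟶ T), σ ≫ f = f → σ ≫ σ = 𝟙 T → j ≫ σ = j →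
    (∀ x, x ∈ Set.range w ↔ x ∉ Set.range j) →
    ∃ c : ℕ, c ≠ 0 ∧ ∀ (U : Scheme.{0}) (r₁ r₂ : U ⟶ W), r₁ ≫ w ≫ σ = r₂ ≫ w →
      ∀ (m i : ℕ), i < 2 * d → ∀ b : HZ l m i W, pz l m i r₂ b = 0 →
        ∃ x, pz l m i (r₁ ≫ w) (x - pz l m i σ x) = c • pz l m i r₁ b

/-- Finiteness. -/
def FINZ_s : Prop := ∀ (l : ℕ) [Fact l.Prime] (Ω : Type) [Field Ω] [IsAlgClosed Ω] [CharZero Ω]
  (T : Scheme.{0}) (f : T ⟶ Spec (.of Ω)) (d : ℕ) [SmoothOfRelativeDimension d f] [IsProper f]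
  [IrreducibleSpace T] (m i : ℕ), Finite (HZ l m i T)

/-- Passage to the limit. -/
def LIM_s : Prop := ∀ (l i c : ℕ) (T U : Scheme.{0}) (g : U ⟶ T) (σ : T ⟶ T), c ≠ 0 →
  (∀ m, Finite (HZ l m i T)) →
    (∀ (m : ℕ) (y : HZ l m i U), ∃ x, pz l m i g (x - pz l m i σ x) = c • y) →
    ∀ y, ∃ x, hl l i g (hl l i σ x - x) = y

/-- The reflection theorem for an involution. -/
def INV_s : Prop := ∀ (O K Ω : Type) [CommRing O] [IsDomain O] [IsDiscreteValuationRing O]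
  [Finite (ResidueField O)] [Field K] [Field Ω] [CharZero Ω] [IsAlgClosed Ω] [Algebra O Ω]
  [FaithfulSMul O Ω] [Algebra.IsAlgebraic O Ω] [Algebra K Ω] (n : ℕ) (T : Scheme.{0})
  (ι : T ⟶ PP K (n + 1)) (d : ℕ) (σ : T ⟶ T) (D : Scheme.{0}) (j : D ⟶ T) (h : Rfl ι d σ j)
  (l : ℕ) [Fact l.Prime] (i : ℕ) (φ u : Ω ≃ₐ[K] Ω) (Q : ℕ), IsUnit (l : O) → 1 < Q →
    Et.Frob O Q φ → Et.Frob O 1 u →
    (∃ (n : ℕ) (r : Ω) (o : O), r ^ l ^ n = algebraMap O Ω o ∧ u r ≠ r) →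
    Sum.MwOn Q i (Et.gal (ι ≫ pS K _) l i φ) (Et.gal (ι ≫ pS K _) l i u)
      (LinearMap.range (Et.act Ω (ι ≫ pS K _) l i σ h.ov - 1))

end Pool.Agent.MP_855f4c_ag.LG

end

section

/-! h67a, geometry and glue: rows for the henselisation along any ideal `I` that contains the uniformiser. -/

set_option autoImplicit false
set_option backward.isDefEq.respectTransparency false

open CategoryTheory Limits Opposite AlgebraicGeometry MvPolynomial Function IsLocalRing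
open scoped TensorProduct

namespace Pool.Agent.MP_855f4c_ag.LG

open E E3 Pool.Agent.MP_855f4c_ag.T YJ

attribute [local instance] MvPolynomial.gradedAlgebra

/-- `(ρ₁, ρ₂) : C → B × B` is ind-etale, bijective on geometric points over `V(J)`, henselian. -/
def ExJ {C B : Type} [CommRing C] [CommRing B] (ρ₁ ρ₂ : C →+* B) (J : Ideal C) : Prop :=
  @Exs C (B × B) _ _ (ρ₁.prod ρ₂).toAlgebra J ∧ T.HP (B × B) (J.map (ρ₁.prod ρ₂)) ∧ J.FG

/-- The model of the chart `z ≠ 0` whose henselisation is `B × B`. -/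
def MODJ_s : Prop := ∀ (O K A B R : Type) [CommRing O] [Field K] [CharZero K] [Algebra O K]
  [CommRing A] [Algebra O A] [Algebra.FiniteType O A] [Module.Flat O A] [CommRing B] [Algebra A B]
  [Algebra O B] [IsScalarTower O A B] [CommRing R] [Algebra K R] (ϖ : O)
  [IsLocalization.Away ϖ K] [IsNoetherianRing O] (I : Ideal A)
  [HenselianRing B (I.map (algebraMap A B))] (n : ℕ)
  (ξ : Fin (n + 1) → K ⊗[O] A) (s : Fin (n + 1) → R) (g : MvPolynomial (Fin (n + 1)) K) (a : A),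
    Injective (algebraMap O K) → IndEt A B → QIso A B I → algebraMap O A ϖ ∈ I →
    ξ 0 = 1 → Surjective (aeval ξ : _ →ₐ[K] K ⊗[O] A) → Surjective (aeval s : _ →ₐ[K] R) →
    g.IsHomogeneous 2 → aeval ξ g = (1 : K) ⊗ₜ[O] (ϖ • a) → s 0 ^ 2 + 4 * aeval s g = 1 →
    (∀ (D : Type) [CommRing D] [Algebra K D] (ψ : R →ₐ[K] D), IsUnit (ψ (s 0)) →
      ∃ α : K ⊗[O] A →ₐ[K] D, ∀ k, α (ξ k) * ψ (s 0) = ψ (s k)) →
    (∀ (D : Type) [CommRing D] [Algebra K D] (α : K ⊗[O] A →ₐ[K] D) (t : D),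
      t ^ 2 * (1 + 4 * α (aeval ξ g)) = 1 → ∃ ψ : R →ₐ[K] D, ∀ k, ψ (s k) = t * α (ξ k)) →
    ∃ (C : Type) (_ : CommRing C) (_ : Algebra O C) (e : K ⊗[O] C ≃ₐ[K] R) (ρ₁ ρ₂ : C →ₐ[O] B)
      (J : Ideal C), Algebra.FiniteType O C ∧ ExJ (ρ₁ : C →+* B) ρ₂ J ∧
      ∀ k, tm K ρ₂ (e.symm (s k)) = - tm K ρ₁ (e.symm (s k))

/-- The geometric package. -/
def GPJ_s : Prop := ∀ (O K A B : Type) [CommRing O] [Field K] [CharZero K] [Algebra O K]
  [CommRing A] [Algebra O A] [Algebra.FiniteType O A] [Module.Flat O A] [CommRing B] [Algebra A B]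
  [Algebra O B] [IsScalarTower O A B] (ϖ : O) [IsLocalization.Away ϖ K] [IsNoetherianRing O]
  (I : Ideal A) [HenselianRing B (I.map (algebraMap A B))] (Y : Scheme.{0}) (f : Y ⟶ Spec (.of K))
  (d : ℕ) [SmoothOfRelativeDimension d f] [GeometricallyIrreducible f] (N : ℕ)
  (ι : Y ⟶ PP K (N + 1)) [IsClosedImmersion ι] (a : Spec (.of (K ⊗[O] A)) ⟶ Y)
  [IsOpenImmersion a], Injective (algebraMap O K) → IndEt A B →
    QIso A B I → algebraMap O A ϖ ∈ I → 0 < d → ι ≫ pS K _ = f →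
    a ≫ f = spc (algebraMap K _) → (∀ y, y ∈ Set.range a ↔ X 0 ∉ (ι y).asHomogeneousIdeal) →
    ∃ (T : Scheme.{0}) (ι₂ : T ⟶ PP K (N + 1 + 1)) (σ : T ⟶ T) (D : Scheme.{0}) (j : D ⟶ T)
      (C : Type) (_ : CommRing C) (_ : Algebra O C) (ρ₁ ρ₂ : C →ₐ[O] B) (J : Ideal C)
      (c : Spec (.of (K ⊗[O] C)) ⟶ T), Rfl ι₂ d σ j ∧ Algebra.FiniteType O C ∧
      ExJ (ρ₁ : C →+* B) ρ₂ J ∧ IsOpenImmersion c ∧
      c ≫ ι₂ ≫ pS K _ = spc (algebraMap K _) ∧ (∀ x, x ∈ Set.range c ↔ x ∉ Set.range j) ∧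
      spc (tm K ρ₁) ≫ c ≫ σ = spc (tm K ρ₂) ≫ c

/-- Runge's theorem over the valuation ring. -/
def RUJ0_s : Prop := ∀ (l : ℕ) [Fact l.Prime] (V R S C S' : Type) [CommRing V] [IsDomain V]
  [ValuationRing V] [CommRing R] [Algebra V R] [Algebra.FiniteType V R] [CommRing S] [CommRing C]
  [Algebra R C] [CommRing S'] [Algebra S S'] (p : R) (ρ₁ ρ₂ : R →+* S) (ψ₁ ψ₂ : C →+* S') (d : ℕ)
  (J : Ideal R)
  [IsLocalization.Away p C] [IsLocalization.Away (ρ₁ p) S'], AV.VV l V → ρ₂ p = ρ₁ p →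
    ExJ ρ₁ ρ₂ J →
    ψ₁.comp (algebraMap R C) = (algebraMap S S').comp ρ₁ →
    ψ₂.comp (algebraMap R C) = (algebraMap S S').comp ρ₂ →
    (∀ (κ : Type) [Field κ] (φ : R →+* κ), AV.Big V (d + 1) φ → φ p = 0) →
    ∀ (m : ℕ) (y : HZ l m d (Spec (.of S'))),
      ∃ b, pz l m d (spc ψ₁) b = y ∧ pz l m d (spc ψ₂) b = 0

/-- Runge's theorem on geometric generic fibres. -/
def RUJ_s : Prop := ∀ (l : ℕ) [Fact l.Prime] (O K Ω C B : Type) [CommRing O] [IsDomain O]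
  [IsDiscreteValuationRing O] [HenselianLocalRing O] [Field K] [Algebra O K] [IsFractionRing O K]
  [Field Ω] [CharZero Ω] [IsAlgClosed Ω] [Algebra O Ω] [FaithfulSMul O Ω] [Algebra.IsAlgebraic O Ω]
  [CommRing C] [Algebra O C] [Algebra.FiniteType O C] [CommRing B] [Algebra O B] (ϖ : O)
  (ρ₁ ρ₂ : C →ₐ[O] B) (J : Ideal C) (d : ℕ), IsUnit (l : O) → Irreducible ϖ →
    ExJ (ρ₁ : C →+* B) ρ₂ J →
    SmoothOfRelativeDimension d (spc (algebraMap K (K ⊗[O] C))) →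
    ∀ (m : ℕ) (y : HZ l m d (Spec (.of (Ω ⊗[O] B)))),
      ∃ b, pz l m d (spc (tm Ω ρ₁)) b = y ∧ pz l m d (spc (tm Ω ρ₂)) b = 0

/-- The final statement. -/
def RESJ_s : Prop := ∀
    (O K Ω : Type) [CommRing O] [IsDomain O] [IsDiscreteValuationRing O] [HenselianLocalRing O]
    [Finite (ResidueField O)] [Field K] [Algebra O K] [IsFractionRing O K]
    [Field Ω] [CharZero Ω] [IsAlgClosed Ω] [Algebra O Ω] [FaithfulSMul O Ω]
    [Algebra.IsAlgebraic O Ω]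
    (A : Type) [CommRing A] [Algebra O A] [Algebra.FiniteType O A] [Module.Flat O A]
    (Y : Scheme.{0}) (f : Y ⟶ Spec (.of K)) (d : ℕ) (_ : 0 < d) [SmoothOfRelativeDimension d f]
    [GeometricallyIrreducible f]
    (N : ℕ) (ι : Y ⟶ Proj (homogeneousSubmodule (Fin (N + 1)) K)) [IsClosedImmersion ι]
    (_ : ι ≫ Proj.toSpecZero _ ≫ Spec.map (CommRingCat.ofHom (algebraMap K _)) = f)
    (a : Spec (.of (K ⊗[O] A)) ⟶ Y) [IsOpenImmersion a]
    (_ : a ≫ f = Spec.map (CommRingCat.ofHom (algebraMap K _)))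
    (_ : ∀ y : Y, y ∈ Set.range a ↔ MvPolynomial.X 0 ∉ (ι y).asHomogeneousIdeal)
    (I : Ideal A) (_ : (maximalIdeal O).map (algebraMap O A) ≤ I)
    (B : Type) [CommRing B] [Algebra A B] [Algebra O B] [IsScalarTower O A B]
    [HenselianRing B (I.map (algebraMap A B))]
    (_ : ∀ (P : Type) [CommRing P] [Algebra A P] [Algebra.FinitePresentation A P] (g : P →ₐ[A] B),
      ∃ (E : Type) (_ : CommRing E) (_ : Algebra A E) (_ : Algebra.Etale A E)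
        (g₁ : P →ₐ[A] E) (g₂ : E →ₐ[A] B), g₂.comp g₁ = g)
    (_ : Function.Bijective
      (Ideal.quotientMap (I.map (algebraMap A B)) (algebraMap A B) Ideal.le_comap_map))
    (l : ℕ) [Fact l.Prime] (_ : IsUnit (l : O)) (φ u : Ω ≃ₐ[O] Ω) (Q : ℕ) (_ : 1 < Q)
    (_ : Et.Frob O Q φ) (_ : Et.Frob O 1 u)
    (_ : ∃ (n : ℕ) (r : Ω) (o : O), r ^ l ^ n = algebraMap O Ω o ∧ u r ≠ r),
    ∃ (W : ModuleCat.{1} ℚ) (φ' u' : Module.End ℚ W)
      (q : W →ₗ[ℚ] (Et.Hl l d).obj (.op (pullback (Spec.map (CommRingCat.ofHom (algebraMap O Ω)))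
        (Spec.map (CommRingCat.ofHom (algebraMap O B)))))),
      Function.Surjective q ∧
      q ∘ₗ φ' = Et.gal (Spec.map (CommRingCat.ofHom (algebraMap O B))) l d φ ∘ₗ q ∧
      q ∘ₗ u' = Et.gal (Spec.map (CommRingCat.ofHom (algebraMap O B))) l d u ∘ₗ q ∧
      Et.Mw Q d φ' u'

end Pool.Agent.MP_855f4c_ag.LG

end
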